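import Pool.Agent.Lib.MP_fe1391_co.Quad51.Stmts

/-! # ALG1: closedness under coprime division -/

set_option autoImplicit false

namespace Pool.Agent.Lib.MP_fe1391_co.Quad51.CoDivM

open MvPolynomial Matrix Pool.Agent.Lib.MP_fe1391_co.Tame
open Pool.Agent.Lib.MP_fe1391_co.Quad51

universe u

variable {K : Type u} [Field K] {ν : ℕ}

theorem coDiv_LF88 (F : Fin ν → Set (Fin 3 → K)) (β : Fin ν → Fin 4 → K) (hβ : ∀ i, β i ≠ 0) :
    CoDiv (LF F β) := by
  intro p q v hpq hp hq i φ hφ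
  have h1 := hp i φ hφ
  have h2 := hq i φ hφ
  rw [dotProduct_smul, smul_eq_mul] at h1 h2
  have hpr := Pair.lin_prime (hβ i)
  rcases hpr.dvd_or_dvd h1 with h3 | h3
  · rcases hpr.dvd_or_dvd h2 with h4 | h4
    · exact absurd (hpq h3 h4) hpr.not_isUnit
    · exact h4
  · exact h3

theorem thm : stCoDiv.{u} := by
  intro K _ ν d ω
  have h1 : CoDiv (L1 d) := coDiv_LF88 _ _ d.hβ
  refine ⟨h1, coDiv_LF88 _ _ d.hβ, ?_⟩
  intro p q v hpq hp hq
  refine ⟨h1 p q v hpq hp.1 hq.1, ?_⟩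
  have h2 := hp.2
  have h3 := hq.2
  rw [smul_dotProduct, smul_eq_mul] at h2 h3
  by_contra h
  have h4 : p = 0 := (mul_eq_zero.1 h2).resolve_right h
  have h5 : q = 0 := (mul_eq_zero.1 h3).resolve_right h
  exact not_isUnit_zero (hpq (d := (0 : S K 4)) (by rw [h4]) (by rw [h5]))

end Pool.Agent.Lib.MP_fe1391_co.Quad51.CoDivM
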