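import Pool.Agent.Lib.MP_fe1391_co.Quad51.Bar

/-!
# The core argument: basic facts and the generic hyperplane
-/

set_option autoImplicit false

namespace Pool.Agent.Lib.MP_fe1391_co.Quad51

open MvPolynomial Matrix Pool.Agent.Lib.MP_fe1391_co.Tame
open Pool.Agent.Lib.MP_fe1391_co.Thick51 (geo51 HS51 grS_mul51 grS_neg51 grS_of_hom51 hom_of_grS51
  grS_div51 lin_grS51 C_mul_grS51 pS_mul51)

universe u

/-! ### Vector algebra -/

section Vec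

variable {A : Type*} [CommRing A]

theorem dot3_51 (v w : Fin 3 → A) : v ⬝ᵥ w = v 0 * w 0 + v 1 * w 1 + v 2 * w 2 := by
  rw [dotProduct, Fin.sum_univ_three]

theorem trip51 (x y z : Fin 3 → A) : (x ⨯₃ y) ⨯₃ z = (x ⬝ᵥ z) • y - (y ⬝ᵥ z) • x := by
  obtain ⟨h0, h1, h2⟩ := crs51 x y
  obtain ⟨k0, k1, k2⟩ := crs51 (x ⨯₃ y) z
  rw [dot3_51, dot3_51]
  apply ext3_51
  · rw [k0, h1, h2, Pi.sub_apply, Pi.smul_apply, Pi.smul_apply, smul_eq_mul, smul_eq_mul]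
    ring
  · rw [k1, h0, h2, Pi.sub_apply, Pi.smul_apply, Pi.smul_apply, smul_eq_mul, smul_eq_mul]
    ring
  · rw [k2, h0, h1, Pi.sub_apply, Pi.smul_apply, Pi.smul_apply, smul_eq_mul, smul_eq_mul]
    ring

/-- `ω × (θ × v) = (v · ω) θ` if `θ · ω = 0` -/
theorem omth51 {θ ω : Fin 3 → A} (h : θ ⬝ᵥ ω = 0) (v : Fin 3 → A) :
    ω ⨯₃ (θ ⨯₃ v) = (v ⬝ᵥ ω) • θ := by
  rw [← cross_anticomm, trip51, h, zero_smul, zero_sub, neg_neg]

theorem crs_smul51 (c : A) (x y : Fin 3 → A) : x ⨯₃ (c • y) = c • (x ⨯₃ y) := by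
  rw [map_smul]

theorem crs_sub51 (x y z : Fin 3 → A) : x ⨯₃ (y - z) = x ⨯₃ y - x ⨯₃ z := by
  rw [map_sub]

end Vec

/-! ### Dimensions -/

section Dim

variable {K V W : Type*} [Field K] [AddCommGroup V] [Module K V] [AddCommGroup W] [Module K W]

theorem dim_map51 (f : V →ₗ[K] W) (P : Submodule K V) [Module.Finite K P] :
    Module.finrank K P = Module.finrank K (P.map f) +
      Module.finrank K (P ⊓ LinearMap.ker f : Submodule K V) := by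
  have h1 := LinearMap.finrank_range_add_finrank_ker (f.domRestrict P)
  rw [LinearMap.range_domRestrict] at h1
  have h2 : Module.finrank K (LinearMap.ker (f.domRestrict P)) =
      Module.finrank K (P ⊓ LinearMap.ker f : Submodule K V) := by
    rw [LinearMap.ker_domRestrict]
    have h3 : (P ⊓ LinearMap.ker f) = ((LinearMap.ker f).comap P.subtype).map P.subtype := by
      rw [Submodule.map_comap_eq, Submodule.range_subtype]
    rw [h3]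
    exact (LinearEquiv.finrank_eq (Submodule.equivMapOfInjective _ P.injective_subtype _))
  rw [← h1, h2]

theorem dim_inj51 (f : V →ₗ[K] W) (P : Submodule K V) (h : ∀ x, f x = 0 → x = 0) :
    Module.finrank K (P.map f) = Module.finrank K P := by
  have hf : Function.Injective f := by
    rw [← LinearMap.ker_eq_bot, eq_bot_iff]
    intro x hx
    exact (Submodule.mem_bot K).2 (h x hx)
  exact (LinearEquiv.finrank_eq (Submodule.equivMapOfInjective f hf P)).symm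

end Dim

/-! ### The facts about a configuration -/

variable {K : Type u} [Field K] {ν : ℕ}

structure Fx51 (d : Dat K ν) (θ ω : Fin 3 → S K 4) (a u : ℤ) : Prop where
  conf : Conf d θ ω a u
  p11 : ∀ v ∈ L1 d, ∀ w ∈ L1 d, v ⨯₃ w ∈ L2 d
  dvd : ∀ v ∈ L1 d, ∀ w ∈ L2 d, Qd d ∣ v ⬝ᵥ w
  ce : ∀ w ∈ L2 d, ∀ e : Fin 3 → K, w ⨯₃ cv 4 e ∈ L1 d
  Qv : ∀ v : Fin 3 → S K 4, Qd d • v ∈ L1 d ∧ Qd d • v ∈ L2 d
  Q0 : Qd d ≠ 0
  Qg : Qd d ∈ grS (K := K) (ℓ := 4) ν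
  kth : ∀ v ∈ L1 d, θ ⨯₃ v = 0 → ∃ f : S K 4, v = f • θ
  kom : ∀ w ∈ L2 d, ω ⨯₃ w = 0 → ∃ f : S K 4, w = f • ω
  cd1 : CoDiv (L1 d)
  cd2 : CoDiv (L2 d)
  cdM : CoDiv (Mo d ω)

theorem Fx51.th1 {d : Dat K ν} {θ ω : Fin 3 → S K 4} {a u : ℤ} (h : Fx51 d θ ω a u) :
    θ ∈ L1 d := h.conf.θ1.1

theorem Fx51.orth {d : Dat K ν} {θ ω : Fin 3 → S K 4} {a u : ℤ} (h : Fx51 d θ ω a u) :
    θ ⬝ᵥ ω = 0 := h.conf.θ1.2

theorem dot_of_cross51 {θ ω v : Fin 3 → S K 4} (h : θ ⬝ᵥ ω = 0) (h0 : θ ≠ 0)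
    (hv : θ ⨯₃ v = 0) : v ⬝ᵥ ω = 0 := by
  have h1 := omth51 h v
  rw [hv, map_zero] at h1
  exact (smul_eq_zero.1 h1.symm).resolve_right h0

/-- the facts hold -/
theorem fx51 (hCD : stCoDiv.{u}) (hPr : stProd.{u}) (hPm : stPrim.{u}) {d : Dat K ν}
    {θ ω : Fin 3 → S K 4} {a u : ℤ} (h : Conf d θ ω a u) : Fx51 d θ ω a u := by
  obtain ⟨c1, c2, c3⟩ := hCD K ν d ω
  obtain ⟨p1, p2, p3, p4, p5, p6, p7⟩ := hPr K ν d
  refine ⟨h, p1, p2, p4, p5, p6, p7, ?_, ?_, c1, c2, c3⟩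
  · intro v hv hc
    have h1 : v ⬝ᵥ ω = 0 := dot_of_cross51 h.θ1.2 h.θ0 hc
    exact hPm K (Mo d ω) c3 θ a h.θ1 h.θd h.θ0 h.θm v ⟨hv, h1⟩ hc
  · intro w hw hc
    exact hPm K (L2 d) c2 ω u h.ω2 h.ωd h.ω0 h.ωm w hw hc

/-- `0 ≤ a` -/
theorem a_nonneg51 {d : Dat K ν} {θ ω : Fin 3 → S K 4} {a u : ℤ} (h : Conf d θ ω a u) :
    0 ≤ a := by
  by_contra hc
  exact h.θ0 (Vg_neg51 (not_le.1 hc) h.θd)

theorem cv_single51 (w : Fin 3 → S K 4) (h : ∀ e : Fin 3 → K, w ⨯₃ cv 4 e = 0) : w = 0 := by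
  have h1 := h (fun i => if i = 0 then 1 else 0)
  have h2 := h (fun i => if i = 1 then 1 else 0)
  obtain ⟨k0, k1, k2⟩ := crs51 w (cv 4 (fun i => if i = 0 then (1 : K) else 0))
  obtain ⟨m0, m1, m2⟩ := crs51 w (cv 4 (fun i => if i = 1 then (1 : K) else 0))
  rw [h1] at k0 k1 k2
  rw [h2] at m0 m1 m2
  apply ext3_51
  · simpa [cv] using m2.symm
  · simpa [cv] using k2
  · simpa [cv] using k1.symm

theorem b_nonneg51 {d : Dat K ν} {θ ω : Fin 3 → S K 4} {a u : ℤ} (h : Fx51 d θ ω a u) :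
    0 ≤ u - a := by
  by_contra hc
  apply h.conf.ω0
  apply cv_single51
  intro e
  refine h.conf.θm (u + 0) (by omega) _ ⟨h.ce _ h.conf.ω2 e, ?_⟩
    (Vg_cross51 h.conf.ωd (Vg_cv51 e))
  rw [dotProduct_comm, dot_self_cross]

/-! ### The generic hyperplane -/

structure Tx51 (d : Dat K ν) (θ ω : Fin 3 → S K 4) (t : Fin 3 → K) : Prop where
  g1 : ∀ z : Fin 3 → S K 4, (∃ v ∈ L1 d, θ ⨯₃ v = lin (tau t) • z) → ∃ v ∈ L1 d, θ ⨯₃ v = z
  g2 : ∀ z : Fin 3 → S K 4, (∃ v ∈ L2 d, ω ⨯₃ v = lin (tau t) • z) → ∃ v ∈ L2 d, ω ⨯₃ v = z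
  g3 : ∀ i, tau t ∉ Submodule.span K {d.β i}

/-- cross product with `x` as a linear map -/
noncomputable def cm51 {A : Type*} [CommRing A] (x : Fin 3 → A) : (Fin 3 → A) →ₗ[A] (Fin 3 → A) :=
  crossProduct x

theorem cm_apply51 {A : Type*} [CommRing A] (x v : Fin 3 → A) : cm51 x v = x ⨯₃ v := rfl

theorem sat_cross51 (hReg : stReg.{u}) (hKos : stKos.{u})
    {M : Submodule (S K 4) (Fin 3 → S K 4)} (hM : CoDiv M) {x : Fin 3 → S K 4} (hx : x ∈ M)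
    (hx0 : x ≠ 0) (hk : ∀ v ∈ M, x ⨯₃ v = 0 → ∃ f : S K 4, v = f • x)
    (z : Fin 3 → S K 4) (hz : ∀ j : Fin 4, (X j : S K 4) • z ∈ M.map (cm51 x)) :
    z ∈ M.map (cm51 x) := by
  have hreg : Reg3 (fun j : Fin 3 => (X j.castSucc : S K 4)) := by
    refine hReg K (0 : Fin 3 → K) 1 _ le_rfl (fun j => ?_) (fun j => ?_)
    · exact grS_of_hom51 (isHomogeneous_X K _)
    · rw [sg_X51, pow_one]
  have hcop : IsRelPrime (X (Fin.castSucc 0) : S K 4) (X (Fin.castSucc 1)) := by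
    intro g hg0 hg1
    have h0 : Irreducible (X (Fin.castSucc 0 : Fin 4) : S K 4) := by
      exact (MvPolynomial.X_prime).irreducible
    rcases h0.dvd_iff.1 hg0 with h | h
    · exact h
    · exfalso
      have h2 := h.dvd.trans hg1
      have h3 := MvPolynomial.X_dvd_X.1 h2
      revert h3
      decide
  have := hKos (S K 4) (fun j : Fin 3 => (X j.castSucc : S K 4)) hreg (Fin 3 → S K 4)
    (fun c z h => smul_eq_zero.1 h) M (cm51 x) 1 (fun _ => x) (fun v h0 h1 => hM _ _ v hcop h0 h1)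
    (fun _ => hx) (fun _ => cross_self x)
    (fun c hc => by
      rw [Fin.sum_univ_one] at hc
      funext i
      rw [Fin.fin_one_eq_zero i]
      exact (smul_eq_zero.1 hc).resolve_right hx0)
    (fun v hv hc => by
      obtain ⟨f, hf⟩ := hk v hv hc
      exact ⟨fun _ => f, by rw [Fin.sum_univ_one]; exact hf⟩) z
    (fun i => by
      obtain ⟨v, hv, h⟩ := hz i.castSucc
      exact ⟨v, hv, h⟩)
  obtain ⟨v, hv, h⟩ := this
  exact ⟨v, hv, h⟩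

theorem exists_t51 [Infinite K] (hReg : stReg.{u}) (hKos : stKos.{u}) (hGen : stGen.{u})
    {d : Dat K ν} {θ ω : Fin 3 → S K 4} {a u : ℤ} (h : Fx51 d θ ω a u) :
    ∃ t, Tx51 d θ ω t := by
  obtain ⟨t, h1, h2⟩ := hGen K 2 ![(L1 d).map (cm51 θ), (L2 d).map (cm51 ω)]
    (fun i => by
      fin_cases i
      · exact sat_cross51 hReg hKos h.cd1 h.th1 h.conf.θ0 h.kth
      · exact sat_cross51 hReg hKos h.cd2 h.conf.ω2 h.conf.ω0 h.kom)
    ν (fun i => Submodule.span K {d.β i}) (fun i hi => by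
      have h1 : Module.finrank K (Submodule.span K {d.β i}) ≤ 1 := by
        have := finrank_span_le_card (R := K) ({d.β i} : Set (Fin 4 → K))
        simpa using this
      rw [hi, finrank_top, Module.finrank_fin_fun] at h1
      omega)
  refine ⟨t, ?_, ?_, h2⟩
  · rintro z ⟨v, hv, hz⟩
    obtain ⟨w, hw, h3⟩ := h1 0 z ⟨v, hv, hz⟩
    exact ⟨w, hw, h3⟩
  · rintro z ⟨v, hv, hz⟩
    obtain ⟨w, hw, h3⟩ := h1 1 z ⟨v, hv, hz⟩
    exact ⟨w, hw, h3⟩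

/-! ### Consequences for the linear form -/

theorem ltau_prime51 (t : Fin 3 → K) : Prime (lin (tau t)) := Pair.lin_prime (tau_ne51 t)

theorem ndvd_Q51 {d : Dat K ν} {t : Fin 3 → K} (h : ∀ i, tau t ∉ Submodule.span K {d.β i}) :
    ¬ lin (tau t) ∣ Qd d := by
  intro hc
  obtain ⟨i, _, hi⟩ := ((ltau_prime51 t).dvd_finsetProd_iff _).1 hc
  obtain ⟨c, hc⟩ := Pair.lin_dvd_lin (tau_ne51 t) hi
  apply h i
  have hc0 : c ≠ 0 := by
    rintro rfl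
    rw [zero_smul] at hc
    exact d.hβ i hc
  rw [Submodule.mem_span_singleton]
  exact ⟨c⁻¹, by rw [hc, smul_smul, inv_mul_cancel₀ hc0, one_smul]⟩

theorem rel_Q51 {d : Dat K ν} {t : Fin 3 → K} (h : ∀ i, tau t ∉ Submodule.span K {d.β i}) :
    IsRelPrime (lin (tau t)) (Qd d) :=
  (ltau_prime51 t).irreducible.isRelPrime_iff_not_dvd.2 (ndvd_Q51 h)

theorem sgQ51 {d : Dat K ν} {t : Fin 3 → K} (h : ∀ i, tau t ∉ Submodule.span K {d.β i}) :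
    sg t (Qd d) ≠ 0 := fun hc => ndvd_Q51 h ((sg_eq_zero51 t).1 hc)

variable {d : Dat K ν} {θ ω : Fin 3 → S K 4} {a u : ℤ} {t : Fin 3 → K}

theorem div1_51 (h : Fx51 d θ ω a u) (ht : Tx51 d θ ω t) {w : Fin 3 → S K 4}
    (hw : lin (tau t) • w ∈ L1 d) : w ∈ L1 d :=
  h.cd1 _ _ _ (rel_Q51 ht.g3) hw (h.Qv w).1

theorem div2_51 (h : Fx51 d θ ω a u) (ht : Tx51 d θ ω t) {w : Fin 3 → S K 4}
    (hw : lin (tau t) • w ∈ L2 d) : w ∈ L2 d :=
  h.cd2 _ _ _ (rel_Q51 ht.g3) hw (h.Qv w).2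

theorem svom51 (h : Fx51 d θ ω a u) (ht : Tx51 d θ ω t) : sv t ω ≠ 0 := by
  intro hc
  obtain ⟨w, hw⟩ := (sv_eq_zero51 t).1 hc
  have h1 : w ∈ L2 d := div2_51 h ht (hw ▸ h.conf.ω2)
  have h2 : w ∈ Vg K 4 (u - 1) :=
    Vg_div51 (ltau_prime51 t).ne_zero (lin_grS51 _) (hw ▸ h.conf.ωd)
  have h3 := h.conf.ωm (u - 1) (by omega) w h1 h2
  rw [h3, smul_zero] at hw
  exact h.conf.ω0 hw

theorem svth51 (h : Fx51 d θ ω a u) (ht : Tx51 d θ ω t) : sv t θ ≠ 0 := by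
  intro hc
  obtain ⟨w, hw⟩ := (sv_eq_zero51 t).1 hc
  have h1 : w ∈ L1 d := div1_51 h ht (hw ▸ h.th1)
  have h2 : w ∈ Vg K 4 (a - 1) :=
    Vg_div51 (ltau_prime51 t).ne_zero (lin_grS51 _) (hw ▸ h.conf.θd)
  have h4 : w ⬝ᵥ ω = 0 := by
    have := h.orth
    rw [hw, smul_dotProduct] at this
    exact (smul_eq_zero.1 this).resolve_left (ltau_prime51 t).ne_zero
  have h3 := h.conf.θm (a - 1) (by omega) w ⟨h1, h4⟩ h2
  rw [h3, smul_zero] at hw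
  exact h.conf.θ0 hw

end Pool.Agent.Lib.MP_fe1391_co.Quad51
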