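import Pool.Agent.Lib.MP_fe1391_co.Quad51.Stmts

/-! # ALG2: products of elements of `L1` and `L2` -/

set_option autoImplicit false

namespace Pool.Agent.Lib.MP_fe1391_co.Quad51.ProdM

open MvPolynomial Matrix Pool.Agent.Lib.MP_fe1391_co.Tame
open Pool.Agent.Lib.MP_fe1391_co.Quad51

universe u

section ring

variable {R : Type*} [CommRing R]

theorem trip88 (a v w : Fin 3 → R) (j k : Fin 3) : ∃ s t : R,
    a j * (v ⨯₃ w) k - a k * (v ⨯₃ w) j = s * (a ⬝ᵥ v) + t * (a ⬝ᵥ w) := by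
  have h0 : (v ⨯₃ w) 0 = v 1 * w 2 - v 2 * w 1 := by simp [cross_apply]
  have h1 : (v ⨯₃ w) 1 = v 2 * w 0 - v 0 * w 2 := by simp [cross_apply]
  have h2 : (v ⨯₃ w) 2 = v 0 * w 1 - v 1 * w 0 := by simp [cross_apply]
  have hv : a ⬝ᵥ v = a 0 * v 0 + a 1 * v 1 + a 2 * v 2 := by
    simp [dotProduct, Fin.sum_univ_three]
  have hw : a ⬝ᵥ w = a 0 * w 0 + a 1 * w 1 + a 2 * w 2 := by
    simp [dotProduct, Fin.sum_univ_three]
  rw [hv, hw]
  fin_cases j <;> fin_cases k <;>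
    simp only [Fin.zero_eta, Fin.mk_one, Fin.reduceFinMk, h0, h1, h2]
  · exact ⟨0, 0, by ring⟩
  · exact ⟨-w 2, v 2, by ring⟩
  · exact ⟨w 1, -v 1, by ring⟩
  · exact ⟨w 2, -v 2, by ring⟩
  · exact ⟨0, 0, by ring⟩
  · exact ⟨-w 0, v 0, by ring⟩
  · exact ⟨-w 1, v 1, by ring⟩
  · exact ⟨w 0, -v 0, by ring⟩
  · exact ⟨0, 0, by ring⟩

end ring

variable {K : Type u} [Field K] {ν : ℕ}

theorem dvd_of_C_mul88 {α f : S K 4} {c : K} (hc : c ≠ 0) (h : α ∣ C c * f) : α ∣ f := by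
  have h1 : f = C c⁻¹ * (C c * f) := by
    rw [← mul_assoc, ← C_mul, inv_mul_cancel₀ hc, C_1, one_mul]
  rw [h1]
  exact Dvd.dvd.mul_left h _

theorem exists_ne88 {a : Fin 3 → K} (ha : a ≠ 0) : ∃ j, a j ≠ 0 := Function.ne_iff.1 ha

theorem cv_dot88 (φ : Fin 3 → K) (w : Fin 3 → S K 4) :
    cv 4 φ ⬝ᵥ w = C (φ 0) * w 0 + C (φ 1) * w 1 + C (φ 2) * w 2 := by
  simp [cv, dotProduct, Fin.sum_univ_three]

/-- the relations of an element of `L2` -/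
theorem comp88 {d : Dat K ν} {w : Fin 3 → S K 4} (hw : w ∈ L2 d) (i : Fin ν) (j k : Fin 3) :
    lin (d.β i) ∣ C (d.a i j) * w k - C (d.a i k) * w j := by
  have h := hw i (fun m => (if m = k then d.a i j else 0) - (if m = j then d.a i k else 0)) (by
    show _ ⬝ᵥ d.a i = 0
    rw [dotProduct]
    simp only [sub_mul, ite_mul, zero_mul]
    rw [Finset.sum_sub_distrib]
    simp only [Finset.sum_ite_eq', Finset.mem_univ, if_true]
    ring)
  have e : cv 4 (fun m => (if m = k then d.a i j else 0) - (if m = j then d.a i k else 0)) ⬝ᵥ w =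
      C (d.a i j) * w k - C (d.a i k) * w j := by
    unfold cv dotProduct
    simp only [map_sub, sub_mul]
    rw [Finset.sum_sub_distrib]
    congr 1
    · rw [Finset.sum_eq_single k]
      · simp
      · intro m _ hm
        simp [hm]
      · simp
    · rw [Finset.sum_eq_single j]
      · simp
      · intro m _ hm
        simp [hm]
      · simp
  rw [← e]
  exact h

/-- if `φ` is orthogonal to `a` (up to a multiple of `α`) then so is `φ · w` -/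
theorem dot_of_comp88 {α : S K 4} {a : Fin 3 → K} (ha : a ≠ 0) {w : Fin 3 → S K 4}
    (hw : ∀ j k, α ∣ C (a j) * w k - C (a k) * w j) {p : Fin 3 → S K 4}
    (hp : α ∣ cv 4 a ⬝ᵥ p) : α ∣ p ⬝ᵥ w := by
  obtain ⟨j, hj⟩ := exists_ne88 ha
  apply dvd_of_C_mul88 hj
  have e : C (a j) * (p ⬝ᵥ w) = p 0 * (C (a j) * w 0 - C (a 0) * w j) +
      p 1 * (C (a j) * w 1 - C (a 1) * w j) + p 2 * (C (a j) * w 2 - C (a 2) * w j) +
      (cv 4 a ⬝ᵥ p) * w j := by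
    rw [cv_dot88, dotProduct, Fin.sum_univ_three]
    ring
  rw [e]
  exact dvd_add (dvd_add (dvd_add (Dvd.dvd.mul_left (hw _ _) _) (Dvd.dvd.mul_left (hw _ _) _))
    (Dvd.dvd.mul_left (hw _ _) _)) (Dvd.dvd.mul_right hp _)

theorem mem_L2_of88 {d : Dat K ν} {w : Fin 3 → S K 4}
    (hw : ∀ i j k, lin (d.β i) ∣ C (d.a i j) * w k - C (d.a i k) * w j) : w ∈ L2 d := by
  intro i φ hφ
  refine dot_of_comp88 (d.ha i) (hw i) ?_
  have h0 : φ ⬝ᵥ d.a i = 0 := hφ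
  have e : cv 4 (d.a i) ⬝ᵥ cv 4 φ = C (φ ⬝ᵥ d.a i) := by
    rw [cv_dot88, dotProduct, Fin.sum_univ_three]
    simp only [cv, map_add, map_mul]
    ring
  rw [e, h0, C_0]
  exact dvd_zero _

theorem mem_L1_iff88 {d : Dat K ν} {v : Fin 3 → S K 4} :
    v ∈ L1 d ↔ ∀ i, lin (d.β i) ∣ cv 4 (d.a i) ⬝ᵥ v := by
  constructor
  · intro h i
    exact h i _ rfl
  · rintro h i φ rfl
    exact h i

theorem rel88 (d : Dat K ν) {i j : Fin ν} (h : i ≠ j) :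
    IsRelPrime (lin (d.β i)) (lin (d.β j)) := by
  rw [(Pair.lin_irreducible (d.hβ i)).isRelPrime_iff_not_dvd]
  intro h1
  obtain ⟨c, hc⟩ := Pair.lin_dvd_lin (d.hβ i) h1
  exact d.hne i j h c hc

theorem Q_dvd88 (d : Dat K ν) {f : S K 4} (h : ∀ i, lin (d.β i) ∣ f) : Qd d ∣ f := by
  unfold Qd
  apply Finset.prod_dvd_of_isRelPrime
  · intro i _ j _ hij
    exact rel88 d hij
  · exact fun i _ => h i

theorem dvd_Q88 (d : Dat K ν) (i : Fin ν) : lin (d.β i) ∣ Qd d :=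
  Finset.dvd_prod_of_mem _ (Finset.mem_univ i)

theorem Q_ne88 (d : Dat K ν) : Qd d ≠ 0 :=
  Finset.prod_ne_zero_iff.2 fun i _ => Pair.lin_ne_zero (d.hβ i)

theorem part1 (d : Dat K ν) {v w : Fin 3 → S K 4} (hv : v ∈ L1 d) (hw : w ∈ L1 d) :
    v ⨯₃ w ∈ L2 d := by
  apply mem_L2_of88
  intro i j k
  obtain ⟨s, t, h⟩ := trip88 (cv 4 (d.a i)) v w j k
  have h1 : C (d.a i j) * (v ⨯₃ w) k - C (d.a i k) * (v ⨯₃ w) j =
      s * (cv 4 (d.a i) ⬝ᵥ v) + t * (cv 4 (d.a i) ⬝ᵥ w) := h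
  rw [h1]
  exact dvd_add (Dvd.dvd.mul_left (mem_L1_iff88.1 hv i) _)
    (Dvd.dvd.mul_left (mem_L1_iff88.1 hw i) _)

theorem part2 (d : Dat K ν) {v w : Fin 3 → S K 4} (hv : v ∈ L1 d) (hw : w ∈ L2 d) :
    Qd d ∣ v ⬝ᵥ w :=
  Q_dvd88 d fun i => dot_of_comp88 (d.ha i) (comp88 hw i) (mem_L1_iff88.1 hv i)

/-- `a × w` is divisible by `α` -/
theorem cross_dvd88 {d : Dat K ν} {w : Fin 3 → S K 4} (hw : w ∈ L2 d) (i : Fin ν) :
    ∃ p : Fin 3 → S K 4, cv 4 (d.a i) ⨯₃ w = lin (d.β i) • p := by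
  obtain ⟨p0, h0⟩ := comp88 hw i 1 2
  obtain ⟨p1, h1⟩ := comp88 hw i 2 0
  obtain ⟨p2, h2⟩ := comp88 hw i 0 1
  refine ⟨![p0, p1, p2], ?_⟩
  funext k
  fin_cases k
  · simpa [cross_apply, cv] using h0
  · simpa [cross_apply, cv] using h1
  · simpa [cross_apply, cv] using h2

theorem part4 (d : Dat K ν) {w : Fin 3 → S K 4} (hw : w ∈ L2 d) (e : Fin 3 → K) :
    w ⨯₃ cv 4 e ∈ L1 d := by
  rw [mem_L1_iff88]
  intro i
  obtain ⟨p, hp⟩ := cross_dvd88 hw i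
  have e1 : cv 4 (d.a i) ⬝ᵥ (w ⨯₃ cv 4 e) = cv 4 e ⬝ᵥ (cv 4 (d.a i) ⨯₃ w) :=
    triple_product_permutation _ _ _ |>.trans (triple_product_permutation _ _ _)
  rw [e1, hp, dotProduct_smul, smul_eq_mul]
  exact dvd_mul_right _ _

theorem part3 (d : Dat K ν) {v w : Fin 3 → S K 4} (hv : v ∈ L2 d) (hw : w ∈ L2 d) :
    ∃ z ∈ L1 d, v ⨯₃ w = Qd d • z := by
  have h1 : ∀ k, Qd d ∣ (v ⨯₃ w) k := by
    intro k
    apply Q_dvd88
    intro i
    -- `(v × w)_k` is the product of `w` with a vector orthogonal to `a`, modulo `α`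
    have h2 : ∀ p : Fin 3 → S K 4, lin (d.β i) ∣ cv 4 (d.a i) ⬝ᵥ (p ⨯₃ v) := by
      intro p
      obtain ⟨q, hq⟩ := cross_dvd88 hv i
      have e1 : cv 4 (d.a i) ⬝ᵥ (p ⨯₃ v) = -(p ⬝ᵥ (cv 4 (d.a i) ⨯₃ v)) := by
        rw [triple_product_permutation, ← cross_anticomm, dotProduct_neg]
      rw [e1, hq, dotProduct_smul, smul_eq_mul]
      exact (dvd_mul_right _ _).neg_right
    have h3 := dot_of_comp88 (d.ha i) (comp88 hw i) (h2 (Pi.single k 1))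
    have e2 : (Pi.single k 1 ⨯₃ v) ⬝ᵥ w = (v ⨯₃ w) k := by
      rw [dotProduct_comm, triple_product_permutation, single_one_dotProduct]
    rwa [e2] at h3
  choose z hz using h1
  have hz' : v ⨯₃ w = Qd d • z := by
    funext k
    rw [hz k, Pi.smul_apply, smul_eq_mul]
  refine ⟨z, ?_, hz'⟩
  rw [mem_L1_iff88]
  intro i
  obtain ⟨p, hp⟩ := cross_dvd88 hv i
  have hpr := Pair.lin_prime (d.hβ i)
  -- `a · p = 0`
  have h4 : cv 4 (d.a i) ⬝ᵥ p = 0 := by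
    have h5 : cv 4 (d.a i) ⬝ᵥ (cv 4 (d.a i) ⨯₃ v) = 0 := dot_self_cross _ _
    rw [hp, dotProduct_smul, smul_eq_mul] at h5
    exact (mul_eq_zero.1 h5).resolve_left hpr.ne_zero
  have h6 : lin (d.β i) ∣ p ⬝ᵥ w := dot_of_comp88 (d.ha i) (comp88 hw i) (by rw [h4]; exact dvd_zero _)
  have h7 : Qd d * (cv 4 (d.a i) ⬝ᵥ z) = lin (d.β i) * (p ⬝ᵥ w) := by
    have e1 : cv 4 (d.a i) ⬝ᵥ (v ⨯₃ w) = w ⬝ᵥ (cv 4 (d.a i) ⨯₃ v) :=
      triple_product_permutation _ _ _ |>.trans (triple_product_permutation _ _ _)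
    rw [hz', hp, dotProduct_smul, dotProduct_smul, smul_eq_mul, smul_eq_mul,
      dotProduct_comm w] at e1
    exact e1
  have h8 : Qd d = lin (d.β i) * ∏ j ∈ Finset.univ.erase i, lin (d.β j) :=
    (Finset.mul_prod_erase Finset.univ (fun j => lin (d.β j)) (Finset.mem_univ i)).symm
  rw [h8, mul_assoc] at h7
  have h9 := mul_left_cancel₀ hpr.ne_zero h7
  rw [← h9] at h6
  rcases hpr.dvd_or_dvd h6 with h10 | h10
  · exfalso
    rw [hpr.dvd_finsetProd_iff] at h10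
    obtain ⟨j, hj, h11⟩ := h10
    obtain ⟨c, hc⟩ := Pair.lin_dvd_lin (d.hβ i) h11
    exact d.hne i j (Finset.ne_of_mem_erase hj).symm c hc
  · exact h10

theorem thm : stProd.{u} := by
  intro K _ ν d
  refine ⟨fun v hv w hw => part1 d hv hw, fun v hv w hw => part2 d hv hw,
    fun v hv w hw => part3 d hv hw, fun w hw e => part4 d hw e, fun v => ⟨?_, ?_⟩, Q_ne88 d, ?_⟩
  · intro i φ _
    rw [dotProduct_smul, smul_eq_mul]
    exact Dvd.dvd.mul_right (dvd_Q88 d i) _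
  · intro i φ _
    rw [dotProduct_smul, smul_eq_mul]
    exact Dvd.dvd.mul_right (dvd_Q88 d i) _
  · have h := Thick51.grS_prod51 (Finset.univ : Finset (Fin ν)) (fun i => lin (d.β i))
      (fun _ => (1 : ℤ)) (fun i _ => Thick51.lin_grS51 (d.β i))
    simpa [Qd] using h

end Pool.Agent.Lib.MP_fe1391_co.Quad51.ProdM
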