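import Pool.Agent.Lib.MP_fe1391_co.Quad51.Bar

/-!
# REG: regular sequences by restriction to a hyperplane
-/

set_option autoImplicit false

namespace Pool.Agent.Lib.MP_fe1391_co.Quad51.Reg

open MvPolynomial Matrix Pool.Agent.Lib.MP_fe1391_co.Tame
open Pool.Agent.Lib.MP_fe1391_co.Thick51 (geo51 HS51 grS_mul51 grS_neg51 grS_of_hom51 hom_of_grS51
  grS_div51 lin_grS51 C_mul_grS51 pS_mul51)

universe u

variable {K : Type u} [Field K]

theorem q2_96 {N : ℕ} {i j : Fin 3} (hij : i ≠ j) {a b : S K 3} (h : X j ^ N * a = X i ^ N * b) :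
    ∃ c, a = X i ^ N * c := by
  have hp : Prime (X i : S K 3) := X_prime
  have hn : ¬ (X i : S K 3) ∣ X j ^ N := fun hc => by
    have h1 := hp.dvd_of_dvd_pow hc
    rw [X_dvd_X] at h1
    exact hij h1
  exact hp.pow_dvd_of_dvd_mul_left N hn ⟨b, h⟩

theorem not_le96 {N : ℕ} {i : Fin 3} (hi : (2 : Fin 3) ≠ i) {μ : Fin 3 →₀ ℕ}
    (h : ¬ Finsupp.single i N ≤ μ) : ¬ Finsupp.single i N ≤ Finsupp.single 2 N + μ := by
  intro hc
  apply h
  rw [Finsupp.single_le_iff] at hc ⊢
  rw [Finsupp.add_apply, Finsupp.single_apply, if_neg hi, zero_add] at hc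
  exact hc

theorem q3_96 {N : ℕ} {a b c : S K 3} (h : X 2 ^ N * a = X 0 ^ N * b + X 1 ^ N * c) :
    ∃ p q, a = X 0 ^ N * p + X 1 ^ N * q := by
  classical
  have e : ∀ i, (X i : S K 3) ^ N = monomial (Finsupp.single i N) 1 :=
    fun i => X_pow_eq_monomial
  rw [e, e, e] at h
  have h1 : (monomial (Finsupp.single (1 : Fin 3) N) (1 : K)) ∣
      a.modMonomial (Finsupp.single (0 : Fin 3) N) := by
    rw [monomial_one_dvd_iff_modMonomial_eq_zero]
    ext μ
    rw [coeff_zero]
    by_cases h2 : Finsupp.single (1 : Fin 3) N ≤ μ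
    · exact coeff_modMonomial_of_le _ h2
    · rw [coeff_modMonomial_of_not_le _ h2]
      by_cases h3 : Finsupp.single (0 : Fin 3) N ≤ μ
      · exact coeff_modMonomial_of_le _ h3
      · rw [coeff_modMonomial_of_not_le _ h3]
        have h4 := congrArg (coeff (Finsupp.single (2 : Fin 3) N + μ)) h
        rw [coeff_monomial_mul, one_mul, coeff_add, coeff_monomial_mul', coeff_monomial_mul',
          if_neg (not_le96 (by decide) h3), if_neg (not_le96 (by decide) h2), add_zero] at h4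
        exact h4
  obtain ⟨q, hq⟩ := h1
  refine ⟨a.divMonomial (Finsupp.single (0 : Fin 3) N), q, ?_⟩
  rw [e, e, ← hq, divMonomial_add_modMonomial]

section

variable (t : Fin 3 → K) {N : ℕ} {f : Fin 3 → S K 4}

theorem r2_96 (hf : ∀ j, f j ∈ grS (K := K) (ℓ := 4) N) (hs : ∀ j, sg t (f j) = X j ^ N) (n : ℕ) :
    ∀ m : ℤ, m < n → ∀ a ∈ grS (K := K) (ℓ := 4) m, ∀ b, f 1 * a = f 0 * b →
      ∃ c, a = f 0 * c := by
  induction n with
  | zero =>
    intro m hm a ha b _
    refine ⟨0, ?_⟩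
    rw [mul_zero]
    exact grS_neg51 (by simpa using hm) ha
  | succ n ih =>
    intro m hm a ha b hab
    have hl0 : lin (tau t) ≠ 0 := Pair.lin_ne_zero (tau_ne51 t)
    have h1 := congrArg (sg t) hab
    rw [map_mul, map_mul, hs, hs] at h1
    obtain ⟨c', hc'⟩ := q2_96 (by decide) h1
    have hXg : (X 0 ^ N : S K 3) ∈ grS (K := K) (ℓ := 3) N := by
      rw [← hs 0]
      exact sg_gr51 t (hf 0)
    have hc2 : sg t a = X 0 ^ N * Grad.pS (m - N) c' := by
      rw [← pS_mul51 hXg, ← hc', Grad.pS_of_mem (sg_gr51 t ha), if_pos rfl]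
    set c : S K 4 := up51 (Grad.pS (m - N) c') with hcdef
    have hcg : c ∈ grS (K := K) (ℓ := 4) (m - N) := up_gr51 (Grad.pS_mem _ _)
    have h2 : sg t (a - f 0 * c) = 0 := by
      rw [map_sub, map_mul, hs, hcdef, sg_up51, hc2, sub_self]
    obtain ⟨a1, ha1⟩ := (sg_eq_zero51 t).1 h2
    have h3 : f 0 * c ∈ grS (K := K) (ℓ := 4) m := by
      have := grS_mul51 (hf 0) hcg
      rwa [add_sub_cancel] at this
    have ha1g : a1 ∈ grS (K := K) (ℓ := 4) (m - 1) :=
      grS_div51 hl0 (lin_grS51 _) (by rw [← ha1]; exact Submodule.sub_mem _ ha h3)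
    have h4 : f 1 * (lin (tau t) * a1) = f 0 * (b - f 1 * c) := by
      rw [← ha1]
      linear_combination hab
    have h5 : sg t (b - f 1 * c) = 0 := by
      have h6 := congrArg (sg t) h4
      rw [map_mul, map_mul, sg_tau51, zero_mul, mul_zero, map_mul, hs] at h6
      rcases mul_eq_zero.1 h6.symm with h7 | h7
      · exact absurd h7 (pow_ne_zero _ (X_ne_zero 0))
      · exact h7
    obtain ⟨b1, hb1⟩ := (sg_eq_zero51 t).1 h5
    have h6 : f 1 * a1 = f 0 * b1 := by
      apply mul_left_cancel₀ hl0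
      rw [hb1] at h4
      linear_combination h4
    obtain ⟨c1, hc1⟩ := ih (m - 1) (by push_cast at hm; omega) a1 ha1g b1 h6
    refine ⟨c + lin (tau t) * c1, ?_⟩
    rw [hc1] at ha1
    linear_combination ha1

theorem r3_96 (hf : ∀ j, f j ∈ grS (K := K) (ℓ := 4) N) (hs : ∀ j, sg t (f j) = X j ^ N) (n : ℕ) :
    ∀ m : ℤ, m < n → ∀ a ∈ grS (K := K) (ℓ := 4) m, ∀ b c, f 2 * a = f 0 * b + f 1 * c →
      ∃ p q, a = f 0 * p + f 1 * q := by
  induction n with
  | zero =>
    intro m hm a ha b c _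
    refine ⟨0, 0, ?_⟩
    rw [mul_zero, mul_zero, add_zero]
    exact grS_neg51 (by simpa using hm) ha
  | succ n ih =>
    intro m hm a ha b c hab
    have hl0 : lin (tau t) ≠ 0 := Pair.lin_ne_zero (tau_ne51 t)
    have h1 := congrArg (sg t) hab
    rw [map_mul, map_add, map_mul, map_mul, hs, hs, hs] at h1
    obtain ⟨p', q', hc'⟩ := q3_96 h1
    have hXg : ∀ j, (X j ^ N : S K 3) ∈ grS (K := K) (ℓ := 3) N := by
      intro j
      rw [← hs j]
      exact sg_gr51 t (hf j)
    have hc2 : sg t a = X 0 ^ N * Grad.pS (m - N) p' + X 1 ^ N * Grad.pS (m - N) q' := by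
      rw [← pS_mul51 (hXg 0), ← pS_mul51 (hXg 1), ← map_add, ← hc',
        Grad.pS_of_mem (sg_gr51 t ha), if_pos rfl]
    set p : S K 4 := up51 (Grad.pS (m - N) p') with hpdef
    set q : S K 4 := up51 (Grad.pS (m - N) q') with hqdef
    have hpg : p ∈ grS (K := K) (ℓ := 4) (m - N) := up_gr51 (Grad.pS_mem _ _)
    have hqg : q ∈ grS (K := K) (ℓ := 4) (m - N) := up_gr51 (Grad.pS_mem _ _)
    have h2 : sg t (a - (f 0 * p + f 1 * q)) = 0 := by
      rw [map_sub, map_add, map_mul, map_mul, hs, hs, hpdef, hqdef, sg_up51, sg_up51, hc2,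
        sub_self]
    obtain ⟨a1, ha1⟩ := (sg_eq_zero51 t).1 h2
    have h3 : ∀ (j : Fin 3) (r : S K 4), r ∈ grS (K := K) (ℓ := 4) (m - N) →
        f j * r ∈ grS (K := K) (ℓ := 4) m := by
      intro j r hr
      have := grS_mul51 (hf j) hr
      rwa [add_sub_cancel] at this
    have ha1g : a1 ∈ grS (K := K) (ℓ := 4) (m - 1) :=
      grS_div51 hl0 (lin_grS51 _) (by
        rw [← ha1]
        exact Submodule.sub_mem _ ha (Submodule.add_mem _ (h3 0 p hpg) (h3 1 q hqg)))
    have h4 : f 2 * (lin (tau t) * a1) = f 0 * (b - f 2 * p) + f 1 * (c - f 2 * q) := by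
      rw [← ha1]
      linear_combination hab
    have h6 := congrArg (sg t) h4
    rw [map_mul, map_mul, sg_tau51, zero_mul, mul_zero, map_add, map_mul, map_mul, hs, hs] at h6
    obtain ⟨r', hr'⟩ := q2_96 (K := K) (N := N) (i := 0) (j := 1) (by decide)
      (a := sg t (c - f 2 * q)) (b := - sg t (b - f 2 * p)) (by linear_combination -h6)
    have hr2 : sg t (b - f 2 * p) = - (X 1 ^ N * r') := by
      apply mul_left_cancel₀ (pow_ne_zero N (X_ne_zero (R := K) (0 : Fin 3)))
      rw [hr'] at h6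
      linear_combination -h6
    set r : S K 4 := up51 r' with hrdef
    have h7 : sg t (c - f 2 * q - f 0 * r) = 0 := by
      rw [map_sub, map_mul (sg t) (f 0), hs, hrdef, sg_up51, hr', sub_self]
    have h8 : sg t (b - f 2 * p + f 1 * r) = 0 := by
      rw [map_add, map_mul (sg t) (f 1), hs, hrdef, sg_up51, hr2, neg_add_cancel]
    obtain ⟨c1, hc1⟩ := (sg_eq_zero51 t).1 h7
    obtain ⟨b1, hb1⟩ := (sg_eq_zero51 t).1 h8
    have h9 : f 2 * a1 = f 0 * b1 + f 1 * c1 := by
      apply mul_left_cancel₀ hl0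
      linear_combination h4 + f 0 * hb1 + f 1 * hc1
    obtain ⟨p1, q1, hpq1⟩ := ih (m - 1) (by push_cast at hm; omega) a1 ha1g b1 c1 h9
    refine ⟨p + lin (tau t) * p1, q + lin (tau t) * q1, ?_⟩
    rw [hpq1] at ha1
    linear_combination ha1

end

theorem thm : stReg.{u} := by
  intro K _ t N f _ hf hs
  have hf0 : f 0 ≠ 0 := by
    intro hc
    have := hs 0
    rw [hc, map_zero] at this
    exact pow_ne_zero N (X_ne_zero (R := K) (0 : Fin 3)) this.symm
  refine ⟨fun a ha => ?_, fun a b hab => ?_, fun a b c hab => ?_⟩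
  · rcases mul_eq_zero.1 ha with h | h
    · exact absurd h hf0
    · exact h
  · obtain ⟨s, hs1, _⟩ := Grad.pS_sum a
    have h1 : ∀ m : ℤ, ∃ c, Grad.pS m a = f 0 * c := by
      intro m
      have h2 := congrArg (Grad.pS (m + N)) hab
      rw [pS_mul51 (hf 1), pS_mul51 (hf 0), add_sub_cancel_right] at h2
      exact r2_96 t hf hs (m.toNat + 1) m (by push_cast; have := Int.self_le_toNat m; omega) _
        (Grad.pS_mem m a) _ h2
    choose c hc using h1
    refine ⟨∑ m ∈ s, c m, ?_⟩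
    rw [Finset.mul_sum, hs1]
    exact Finset.sum_congr rfl fun m _ => by rw [← hc]
  · obtain ⟨s, hs1, _⟩ := Grad.pS_sum a
    have h1 : ∀ m : ℤ, ∃ p q, Grad.pS m a = f 0 * p + f 1 * q := by
      intro m
      have h2 := congrArg (Grad.pS (m + N)) hab
      rw [map_add, pS_mul51 (hf 2), pS_mul51 (hf 0), pS_mul51 (hf 1), add_sub_cancel_right] at h2
      exact r3_96 t hf hs (m.toNat + 1) m (by push_cast; have := Int.self_le_toNat m; omega) _
        (Grad.pS_mem m a) _ _ h2
    choose p q hpq using h1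
    refine ⟨∑ m ∈ s, p m, ∑ m ∈ s, q m, ?_⟩
    rw [Finset.mul_sum, Finset.mul_sum, ← Finset.sum_add_distrib, hs1]
    exact Finset.sum_congr rfl fun m _ => by rw [← hpq]

end Pool.Agent.Lib.MP_fe1391_co.Quad51.Reg
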