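import Pool.Agent.Lib.MP_fe1391_co.Quad51.Stmts
import Pool.Agent.Lib.MP_fe1391_co.Thick51.AsmP

/-!
# Assembly of the product form in dimension four
-/

set_option autoImplicit false

namespace Pool.Agent.Lib.MP_fe1391_co.Quad51

open MvPolynomial Matrix Pool.Agent.Lib.MP_fe1391_co.Tame
open Pool.Agent.Lib.MP_fe1391_co.Thick51

universe u

/-- the polynomial `1 + x + ... + x^n` -/
noncomputable def gq51 (n : ℕ) : Polynomial ℤ := ∑ j ∈ Finset.range (n + 1), Polynomial.X ^ j

theorem gq_coeff51 (n k : ℕ) : (gq51 n).coeff k = if k < n + 1 then 1 else 0 := by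
  unfold gq51
  simp only [Polynomial.finsetSum_coeff, Polynomial.coeff_X_pow]
  rw [Finset.sum_ite_eq]
  simp

theorem gq_deg51 (n : ℕ) : (gq51 n).natDegree = n := by
  apply le_antisymm
  · rw [Polynomial.natDegree_le_iff_coeff_eq_zero]
    intro N hN
    rw [gq_coeff51, if_neg (by omega)]
  · apply Polynomial.le_natDegree_of_ne_zero
    rw [gq_coeff51, if_pos (by omega)]
    exact one_ne_zero

theorem gq_prod51 (e : Fin 4 → ℕ) :
    (((∏ i, gq51 (e i) : Polynomial ℤ) : Polynomial ℤ) : PowerSeries ℤ) =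
      ∏ i, ∑ j ∈ Finset.range (e i + 1), (PowerSeries.X : PowerSeries ℤ) ^ j := by
  have := map_prod (Polynomial.coeToPowerSeries.ringHom (R := ℤ))
    (fun i => gq51 (e i)) Finset.univ
  simp only [Polynomial.coeToPowerSeries.ringHom_apply] at this
  rw [this]
  refine Finset.prod_congr rfl fun i _ => ?_
  have h2 := map_sum (Polynomial.coeToPowerSeries.ringHom (R := ℤ))
    (fun j => (Polynomial.X : Polynomial ℤ) ^ j) (Finset.range (e i + 1))
  simp only [Polynomial.coeToPowerSeries.ringHom_apply] at h2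
  rw [gq51, h2]
  refine Finset.sum_congr rfl fun j _ => ?_
  rw [Polynomial.coe_pow, Polynomial.coe_X]

theorem gq_rev51 (e : Fin 4 → ℕ) : (∏ i, gq51 (e i)).reverse = ∏ i, gq51 (e i) := by
  have : ∀ s : Finset (Fin 4), (∏ i ∈ s, gq51 (e i)).reverse = ∏ i ∈ s, gq51 (e i) := by
    intro s
    induction s using Finset.induction_on with
    | empty =>
      rw [Finset.prod_empty]
      exact Polynomial.reverse_C 1
    | insert i s hi ih =>
      rw [Finset.prod_insert hi, Polynomial.reverse_mul_of_domain, ih]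
      congr 1
      exact Fwd.rev_geom (e i)
  exact this _

theorem gq_degp51 (e : Fin 4 → ℕ) : (∏ i, gq51 (e i)).natDegree = ∑ i, e i := by
  rw [Polynomial.natDegree_prod]
  · exact Finset.sum_congr rfl fun i _ => gq_deg51 (e i)
  · intro i _
    exact Fwd.geom_ne (e i)

/-- the standard basis for the empty arrangement -/
theorem free_empty51 (K : Type u) [Field K] (B : Finset (Fin 4 → K)) (hB : B = ∅) :
    Module.Free (S K 4) (LogA (S K 4) B 1) := by
  classical
  subst hB
  have h1 : ∀ (v : Fin 4 → S K 4), v = fun j => ∑ i, v i * (Pi.single i 1 : Fin 4 → S K 4) j := by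
    intro v
    funext j
    rw [Finset.sum_eq_single j]
    · rw [Pi.single_eq_same, mul_one]
    · intro i _ hij
      rw [Pi.single_eq_of_ne hij.symm, mul_zero]
    · intro h
      exact absurd (Finset.mem_univ j) h
  refine free51 (θ := fun i : Fin 4 => (Pi.single i 1 : Fin 4 → S K 4)) ?_ ?_ ?_
  · intro i b hb
    exact absurd hb (Finset.notMem_empty b)
  · intro v _
    exact ⟨v, fun j => congrFun (h1 v) j⟩
  · intro c hc i
    have h2 := hc i
    rw [← congrFun (h1 c) i] at h2
    exact h2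

/-- the core of the palindromic form: a palindromic series and `2 u ≤ ν + a` give a basis -/
theorem bas_of_pal51 (hCore : stCore.{u}) (hTop : stTop.{u}) (hNum : stNum.{u})
    (hSym : stSym.{u}) (K : Type u) [Field K] [Infinite K] (ν : ℕ) (d : Dat K ν)
    (θ ω : Fin 3 → S K 4) (a u : ℤ) (hc : Conf d θ ω a u) (f : Polynomial ℤ)
    (hf : (f : PowerSeries ℤ) = (1 - PowerSeries.X ^ 2) * (HS51 K 4 -
      PowerSeries.X * PowerSeries.mk (fun k : ℕ => hh (L1 d) k) +
      PowerSeries.X ^ 2 * PowerSeries.mk (fun k : ℕ => hh (L2 d) k) -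
      PowerSeries.X ^ (ν + 3) * HS51 K 4)) (hrev : f.reverse = f) (hu : 2 * u ≤ ν + a) :
    Bas d := by
  obtain ⟨g, hg, hdeg, hsym⟩ := hSym K ν d f hf hrev
  obtain ⟨ha, hb, J, I, hJ, hI, h1, h2⟩ := hCore K ν d θ ω a u hc
  have h3 := hTop K ν d θ ω a u hc
  obtain ⟨h4, h5⟩ := hNum K (hh (L1 d)) (hh (L2 d)) ν a (u - a) (ν - u) g J I hJ hI ha hb
    (by omega) (by omega) hg h1 (fun k hk => by
      have := h3 k (by omega)
      rw [this]
      congr 1
      ring) hsym
  exact h2 h4 h5

/-- the assembly -/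
theorem asm51 (hCore : stCore.{u}) (hTop : stTop.{u}) (hNum : stNum.{u}) (hConf : stConf.{u})
    (hSym : stSym.{u}) (hPF : stPF.{u}) (hTra : stTra.{u}) (hBCh : stBCh.{u})
    (K : Type u) [Field K] (A : Finset (Submodule K (Fin 4 → K)))
    (hA : ∀ H ∈ A, ∃ a : Module.Dual K (Fin 4 → K), a ≠ 0 ∧ LinearMap.ker a = H) :
    Module.Free (MvPolynomial (Fin 4) K) (Assemble.LDer K A) ↔
      ∃ e : Fin 4 → ℕ, Assemble.Psi K A =
        ∏ i, ∑ j ∈ Finset.range (e i + 1), PowerSeries.X ^ j := by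
  classical
  obtain ⟨B, hB, hcard, hPsi, _, hfree, _⟩ := trans51 A hA
  constructor
  · intro hf
    obtain ⟨e, he⟩ := pf_of_free51 hB (hfree.2 hf)
    exact ⟨e, by rw [hPsi, PS51]; exact he⟩
  · rintro ⟨e, he⟩
    rcases A.eq_empty_or_nonempty with rfl | hne
    · apply hfree.1
      apply free_empty51
      rw [← Finset.card_eq_zero, hcard, Finset.card_empty]
    · obtain ⟨ν, d, _, hP, hBas⟩ := hTra K A hne hA
      apply hBas
      obtain ⟨K', _, _, d', e1, e2, e3, hdesc⟩ := hBCh K ν d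
      apply hdesc
      have hP' : (((∏ i, gq51 (e i) : Polynomial ℤ) : Polynomial ℤ) : PowerSeries ℤ) =
          (1 - PowerSeries.X ^ 2) * (HS51 K' 4 -
          PowerSeries.X * PowerSeries.mk (fun k : ℕ => hh (L1 d') k) +
          PowerSeries.X ^ 2 * PowerSeries.mk (fun k : ℕ => hh (L2 d') k) -
          PowerSeries.X ^ (ν + 3) * HS51 K' 4) := by
        rw [gq_prod51, ← he, hP, e3]
        simp only [e1, e2]
      obtain ⟨θ, ω, a, u, hc, hu⟩ := hConf K' ν d'
      obtain ⟨g, hg, hdeg, _⟩ := hSym K' ν d' _ hP' (gq_rev51 e)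
      rw [gq_degp51] at hdeg
      apply bas_of_pal51 hCore hTop hNum hSym K' ν d' θ ω a u hc _ hP' (gq_rev51 e)
      apply hPF K' ν d' θ ω a u e hc (by omega)
      rw [← hP', gq_prod51]
      rfl

end Pool.Agent.Lib.MP_fe1391_co.Quad51
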