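import Pool.Agent.Lib.MP_fe1391_co.Quad51.Stmts

/-!
# BC: base change to an infinite field
-/

set_option autoImplicit false

namespace Pool.Agent.Lib.MP_fe1391_co.Quad51.BCh

open MvPolynomial Matrix Pool.Agent.Lib.MP_fe1391_co.Tame
open Pool.Agent.Lib.MP_fe1391_co.Thick51

universe u

variable {K K' : Type u} [Field K] [Field K'] [Algebra K K'] {ℓ ν : ℕ}

/-! ### Polynomials -/

/-- base change of polynomials -/
noncomputable def up72 : S K ℓ →+* S K' ℓ := MvPolynomial.map (algebraMap K K')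

/-- coefficientwise functional -/
noncomputable def fn72 (g : K' →ₗ[K] K) (f : S K' ℓ) : S K ℓ :=
  ∑ μ ∈ f.support, monomial μ (g (coeff μ f))

theorem coeff_fn72 (g : K' →ₗ[K] K) (f : S K' ℓ) (μ : Fin ℓ →₀ ℕ) :
    coeff μ (fn72 g f) = g (coeff μ f) := by
  classical
  unfold fn72
  rw [coeff_sum]
  simp only [coeff_monomial]
  rw [Finset.sum_ite_eq' f.support μ]
  split_ifs with h
  · rfl
  · rw [notMem_support_iff.1 h, map_zero]

theorem coeff_up72 (f : S K ℓ) (μ : Fin ℓ →₀ ℕ) :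
    coeff μ (up72 (K' := K') f) = algebraMap K K' (coeff μ f) := coeff_map _ _ _

theorem fn_mul72 (g : K' →ₗ[K] K) (p : S K ℓ) (f : S K' ℓ) :
    fn72 g (up72 p * f) = p * fn72 g f := by
  classical
  ext μ
  rw [coeff_fn72, coeff_mul, coeff_mul, map_sum]
  refine Finset.sum_congr rfl fun x _ => ?_
  rw [coeff_up72, coeff_fn72, ← Algebra.smul_def, map_smul, smul_eq_mul]

theorem fn_add72 (g : K' →ₗ[K] K) (f f' : S K' ℓ) : fn72 g (f + f') = fn72 g f + fn72 g f' := by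
  ext μ
  rw [coeff_fn72, coeff_add, coeff_add, coeff_fn72, coeff_fn72, map_add]

theorem fn_sum72 (g : K' →ₗ[K] K) {ι : Type*} (s : Finset ι) (f : ι → S K' ℓ) :
    fn72 g (∑ i ∈ s, f i) = ∑ i ∈ s, fn72 g (f i) := by
  ext μ
  rw [coeff_fn72, coeff_sum, coeff_sum, map_sum]
  exact Finset.sum_congr rfl fun i _ => (coeff_fn72 g (f i) μ).symm

theorem fn_C_mul72 (g : K' →ₗ[K] K) (c : K') (p : S K ℓ) :
    fn72 g (C c * up72 p) = C (g c) * p := by
  ext μ
  rw [coeff_fn72, coeff_C_mul, coeff_C_mul, coeff_up72, mul_comm, ← Algebra.smul_def, map_smul,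
    smul_eq_mul, mul_comm]

theorem up_mem72 {m : ℤ} {f : S K ℓ} (hf : f ∈ grS (K := K) (ℓ := ℓ) m) :
    up72 (K' := K') f ∈ grS (K := K') (ℓ := ℓ) m := by
  rw [mem_grS51] at hf ⊢
  intro μ hμ
  refine hf μ fun h => hμ ?_
  rw [coeff_up72, h, map_zero]

theorem fn_mem72 (g : K' →ₗ[K] K) {m : ℤ} {f : S K' ℓ} (hf : f ∈ grS (K := K') (ℓ := ℓ) m) :
    fn72 g f ∈ grS (K := K) (ℓ := ℓ) m := by
  rw [mem_grS51] at hf ⊢
  intro μ hμ
  refine hf μ fun h => hμ ?_
  rw [coeff_fn72, h, map_zero]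

theorem up_lin72 (b : Fin ℓ → K) :
    up72 (K' := K') (lin b) = lin (fun i => algebraMap K K' (b i)) := by
  unfold up72 lin
  rw [map_sum]
  refine Finset.sum_congr rfl fun i _ => ?_
  rw [map_mul, map_C, map_X]

/-! ### Vectors -/

/-- base change of vectors -/
noncomputable def uv72 (v : Fin 3 → S K ℓ) : Fin 3 → S K' ℓ := fun i => up72 (v i)

/-- coefficientwise functional on vectors -/
noncomputable def fv72 (g : K' →ₗ[K] K) (v : Fin 3 → S K' ℓ) : Fin 3 → S K ℓ :=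
  fun i => fn72 g (v i)

theorem uv_cv72 (a : Fin 3 → K) :
    uv72 (K' := K') (cv ℓ a) = cv ℓ (fun i => algebraMap K K' (a i)) := by
  funext i
  exact map_C _ _

theorem up_dot72 (v w : Fin 3 → S K ℓ) :
    up72 (K' := K') (v ⬝ᵥ w) = uv72 v ⬝ᵥ uv72 w := by
  unfold dotProduct uv72
  rw [map_sum]
  exact Finset.sum_congr rfl fun i _ => map_mul _ _ _

theorem fn_dot72 (g : K' →ₗ[K] K) (a : Fin 3 → S K ℓ) (v : Fin 3 → S K' ℓ) :
    fn72 g (uv72 a ⬝ᵥ v) = a ⬝ᵥ fv72 g v := by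
  unfold dotProduct
  rw [fn_sum72]
  exact Finset.sum_congr rfl fun i _ => fn_mul72 g _ _

theorem uv_cross72 (v w : Fin 3 → S K ℓ) :
    uv72 (K' := K') (v ⨯₃ w) = uv72 v ⨯₃ uv72 w := by
  funext i
  unfold uv72
  fin_cases i <;> simp [cross_apply, map_sub, map_mul]

/-- decomposition of a vector over `K'` -/
theorem dec72 {ι : Type*} (B : Module.Basis ι K K') (v : Fin 3 → S K' ℓ) :
    ∃ s : Finset ι, v = ∑ κ ∈ s, (C (B κ) : S K' ℓ) • uv72 (fv72 (B.coord κ) v) := by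
  classical
  refine ⟨Finset.univ.biUnion fun i => (v i).support.biUnion fun μ =>
    (B.repr (coeff μ (v i))).support, ?_⟩
  funext i
  ext μ
  rw [Finset.sum_apply, coeff_sum]
  simp only [Pi.smul_apply, smul_eq_mul, coeff_C_mul]
  have h1 : ∀ κ, coeff μ (uv72 (K' := K') (fv72 (B.coord κ) v) i) =
      algebraMap K K' (B.repr (coeff μ (v i)) κ) := by
    intro κ
    unfold uv72 fv72
    rw [coeff_up72, coeff_fn72, Module.Basis.coord_apply]
  simp only [h1]
  by_cases hμ : μ ∈ (v i).support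
  · have h2 := B.linearCombination_repr (coeff μ (v i))
    rw [Finsupp.linearCombination_apply, Finsupp.sum_of_support_subset (s :=
      Finset.univ.biUnion fun i => (v i).support.biUnion fun μ =>
        (B.repr (coeff μ (v i))).support)] at h2
    · rw [← h2]
      refine Finset.sum_congr rfl fun κ _ => ?_
      rw [Algebra.smul_def, mul_comm, h2]
    · intro κ hκ
      exact Finset.mem_biUnion.2 ⟨i, Finset.mem_univ i, Finset.mem_biUnion.2 ⟨μ, hμ, hκ⟩⟩
    · intro κ _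
      exact zero_smul _ _
  · rw [notMem_support_iff.1 hμ]
    simp

/-- decomposition of a constant covector over `K'` -/
theorem decc72 {ι : Type*} (B : Module.Basis ι K K') (a : Fin 3 → K') :
    ∃ s : Finset ι, a = ∑ κ ∈ s, B κ • fun i => algebraMap K K' (B.repr (a i) κ) := by
  classical
  refine ⟨Finset.univ.biUnion fun i => (B.repr (a i)).support, ?_⟩
  funext i
  rw [Finset.sum_apply]
  simp only [Pi.smul_apply, smul_eq_mul]
  have h2 := B.linearCombination_repr (a i)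
  rw [Finsupp.linearCombination_apply, Finsupp.sum_of_support_subset (s :=
    Finset.univ.biUnion fun i => (B.repr (a i)).support)] at h2
  · conv_lhs => rw [← h2]
    refine Finset.sum_congr rfl fun κ _ => ?_
    rw [Algebra.smul_def, mul_comm]
  · intro κ hκ
    exact Finset.mem_biUnion.2 ⟨i, Finset.mem_univ i, hκ⟩
  · intro κ _
    exact zero_smul _ _

/-! ### Dimensions -/

theorem finite_pc72 (N : Submodule (S K ℓ) (Fin 3 → S K ℓ)) (m : ℤ) :
    Module.Finite K (pc N m) := by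
  have hf := (Grad.thmS K ℓ).fin m
  let f : pc N m →ₗ[K] (Fin 3 → grS (K := K) (ℓ := ℓ) m) :=
    { toFun := fun v i => ⟨v.1 i, v.2.1 i⟩
      map_add' := fun v w => rfl
      map_smul' := fun c v => rfl }
  refine Module.Finite.of_injective f fun v w h => ?_
  apply Subtype.ext
  funext i
  exact congrArg Subtype.val (congrFun h i)

theorem fv_sum72 {n : ℕ} (g : K' →ₗ[K] K) (c : Fin n → K') (w : Fin n → Fin 3 → S K ℓ) :
    fv72 g (∑ i, c i • uv72 (w i)) = ∑ i, g (c i) • w i := by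
  funext j
  unfold fv72
  rw [Finset.sum_apply, Finset.sum_apply, fn_sum72]
  refine Finset.sum_congr rfl fun i _ => ?_
  rw [Pi.smul_apply, Pi.smul_apply, smul_eq_C_mul, smul_eq_C_mul]
  exact fn_C_mul72 g _ _

theorem uv_sum72 {n : ℕ} (c : Fin n → K) (w : Fin n → Fin 3 → S K ℓ) :
    uv72 (K' := K') (∑ i, c i • w i) = ∑ i, algebraMap K K' (c i) • uv72 (w i) := by
  funext j
  unfold uv72
  rw [Finset.sum_apply, Finset.sum_apply, map_sum]
  refine Finset.sum_congr rfl fun i _ => ?_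
  rw [Pi.smul_apply, Pi.smul_apply, smul_eq_C_mul, smul_eq_C_mul, map_mul]
  congr 1
  exact map_C _ _

theorem hh_eq72 (N : Submodule (S K ℓ) (Fin 3 → S K ℓ))
    (N' : Submodule (S K' ℓ) (Fin 3 → S K' ℓ)) (h1 : ∀ v ∈ N, uv72 v ∈ N')
    (h2 : ∀ (g : K' →ₗ[K] K) (v : Fin 3 → S K' ℓ), v ∈ N' → fv72 g v ∈ N) (m : ℤ) :
    hh N' m = hh N m := by
  classical
  have hfin := finite_pc72 N m
  let b := Module.finBasis K (pc N m)
  let c : Fin (Module.finrank K (pc N m)) → Fin 3 → S K' ℓ := fun i => uv72 (b i).1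
  let B := Module.Basis.ofVectorSpace K K'
  have hc : LinearIndependent K' c := by
    rw [Fintype.linearIndependent_iff]
    intro g hg i
    have h3 : ∀ κ, B.coord κ (g i) = 0 := by
      intro κ
      have h4 := congrArg (fv72 (B.coord κ)) hg
      have h5 : fv72 (B.coord κ) (∑ i, g i • c i) = ∑ i, B.coord κ (g i) • (b i).1 :=
        fv_sum72 _ _ _
      rw [h5] at h4
      have h6 : fv72 (B.coord κ) (0 : Fin 3 → S K' ℓ) = 0 := by
        funext j
        ext μ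
        unfold fv72
        rw [coeff_fn72]
        simp
      rw [h6] at h4
      have h7 : ∑ i, B.coord κ (g i) • b i = 0 := by
        apply Subtype.ext
        rw [Submodule.coe_sum]
        exact h4
      exact Fintype.linearIndependent_iff.1 b.linearIndependent _ h7 i
    apply B.repr.injective
    rw [map_zero]
    ext κ
    exact h3 κ
  have hspan : pc N' m = Submodule.span K' (Set.range c) := by
    apply le_antisymm
    · rintro v ⟨hv1, hv2⟩
      obtain ⟨s, hs⟩ := dec72 B v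
      rw [hs]
      refine Submodule.sum_mem _ fun κ _ => ?_
      have h3 : fv72 (B.coord κ) v ∈ pc N m := ⟨fun i => fn_mem72 _ (hv1 i), h2 _ _ hv2⟩
      have h4 := b.sum_repr ⟨_, h3⟩
      have h5 : fv72 (B.coord κ) v = ∑ i, b.repr ⟨_, h3⟩ i • (b i).1 := by
        have := congrArg Subtype.val h4
        rw [Submodule.coe_sum] at this
        exact this.symm
      rw [h5, uv_sum72]
      have h6 : ∀ w : Fin 3 → S K' ℓ, (C (B κ) : S K' ℓ) • w = B κ • w := by
        intro w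
        funext j
        rw [Pi.smul_apply, Pi.smul_apply, smul_eq_mul, smul_eq_C_mul]
      rw [h6]
      refine Submodule.smul_mem _ _ (Submodule.sum_mem _ fun i _ => Submodule.smul_mem _ _ ?_)
      exact Submodule.subset_span ⟨i, rfl⟩
    · rw [Submodule.span_le]
      rintro _ ⟨i, rfl⟩
      exact ⟨fun j => up_mem72 ((b i).2.1 j), h1 _ (b i).2.2⟩
  unfold hh
  rw [hspan, finrank_span_eq_card hc, Fintype.card_fin]

/-! ### The data over `K'` -/

/-- base change of the data -/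
def dat72 (K' : Type u) [Field K'] [Algebra K K'] (d : Dat K ν) : Dat K' ν where
  a i j := algebraMap K K' (d.a i j)
  β i j := algebraMap K K' (d.β i j)
  ha i h := d.ha i (by
    funext j
    have := congrFun h j
    simpa using this)
  hβ i h := d.hβ i (by
    funext j
    have := congrFun h j
    simpa using this)
  hne i j hij c h := by
    obtain ⟨k, hk⟩ := Function.ne_iff.1 (d.hβ i)
    rw [Pi.zero_apply] at hk
    have hk' : algebraMap K K' (d.β i k) ≠ 0 := by simpa using hk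
    have h1 := congrFun h k
    rw [Pi.smul_apply, smul_eq_mul] at h1
    have h2 : c = algebraMap K K' (d.β j k / d.β i k) := by
      rw [map_div₀, eq_div_iff hk']
      exact h1.symm
    refine d.hne i j hij (d.β j k / d.β i k) ?_
    funext l
    have h3 := congrFun h l
    rw [Pi.smul_apply, smul_eq_mul, h2] at h3
    rw [Pi.smul_apply, smul_eq_mul]
    apply (algebraMap K K').injective
    rw [map_mul]
    exact h3

section LFs

variable (F : Fin ν → Set (Fin 3 → K)) (F' : Fin ν → Set (Fin 3 → K'))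
  (β : Fin ν → Fin ℓ → K)

theorem LF_up72 (hF : ∀ i, ∀ φ ∈ F' i, φ ∈ Submodule.span K'
      ((fun φ : Fin 3 → K => fun j => algebraMap K K' (φ j)) '' F i))
    (v : Fin 3 → S K ℓ) (hv : v ∈ LF F β) :
    uv72 v ∈ LF F' (fun i j => algebraMap K K' (β i j)) := by
  intro i φ hφ
  have h1 := hF i φ hφ
  clear hφ
  induction h1 using Submodule.span_induction with
  | mem x hx =>
    obtain ⟨ψ, hψ, rfl⟩ := hx
    have h2 := map_dvd (up72 (K' := K')) (hv i ψ hψ)
    rw [up_dot72, up_lin72, uv_cv72] at h2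
    exact h2
  | zero =>
    have : cv ℓ (0 : Fin 3 → K') = 0 := by
      funext j
      exact map_zero C
    rw [this, zero_dotProduct]
    exact dvd_zero _
  | add x y _ _ hx hy =>
    have : cv ℓ (x + y) = cv ℓ x + cv ℓ y := by
      funext j
      exact map_add C _ _
    rw [this, add_dotProduct]
    exact dvd_add hx hy
  | smul c x _ hx =>
    have : cv ℓ (c • x) = (C c : S K' ℓ) • cv ℓ x := by
      funext j
      exact map_mul C _ _
    rw [this, smul_dotProduct, smul_eq_mul]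
    exact Dvd.dvd.mul_left hx _

theorem LF_fn72 (hF : ∀ i, ∀ φ ∈ F i, (fun j => algebraMap K K' (φ j)) ∈ F' i)
    (g : K' →ₗ[K] K) (v : Fin 3 → S K' ℓ)
    (hv : v ∈ LF F' (fun i j => algebraMap K K' (β i j))) : fv72 g v ∈ LF F β := by
  intro i φ hφ
  obtain ⟨q, hq⟩ := hv i _ (hF i φ hφ)
  have h1 := fn_dot72 g (cv ℓ φ) v
  rw [uv_cv72, hq, ← up_lin72, fn_mul72] at h1
  exact ⟨fn72 g q, h1.symm⟩

end LFs

theorem L1_up72 (d : Dat K ν) (v : Fin 3 → S K 4) (hv : v ∈ L1 d) :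
    uv72 v ∈ L1 (dat72 K' d) := by
  refine LF_up72 (fun i => {d.a i}) (fun i => {fun j => algebraMap K K' (d.a i j)}) d.β ?_ v hv
  intro i φ hφ
  rw [Set.mem_singleton_iff] at hφ
  rw [hφ]
  exact Submodule.subset_span ⟨d.a i, rfl, rfl⟩

theorem L1_fn72 (d : Dat K ν) (g : K' →ₗ[K] K) (v : Fin 3 → S K' 4)
    (hv : v ∈ L1 (dat72 K' d)) : fv72 g v ∈ L1 d := by
  refine LF_fn72 (fun i => {d.a i}) (fun i => {fun j => algebraMap K K' (d.a i j)}) d.β ?_ g v hv
  intro i φ hφ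
  rw [Set.mem_singleton_iff] at hφ
  rw [hφ]
  rfl

theorem L2_up72 (d : Dat K ν) (v : Fin 3 → S K 4) (hv : v ∈ L2 d) :
    uv72 v ∈ L2 (dat72 K' d) := by
  refine LF_up72 (fun i => {φ | φ ⬝ᵥ d.a i = 0}) (fun i => {φ | φ ⬝ᵥ (dat72 K' d).a i = 0}) d.β
    ?_ v hv
  intro i φ hφ
  let B := Module.Basis.ofVectorSpace K K'
  obtain ⟨s, hs⟩ := decc72 B φ
  rw [hs]
  refine Submodule.sum_mem _ fun κ _ => Submodule.smul_mem _ _ (Submodule.subset_span
    ⟨fun i => B.repr (φ i) κ, ?_, rfl⟩)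
  have h1 : φ ⬝ᵥ (dat72 K' d).a i = 0 := hφ
  have h2 := congrArg (fun x => B.repr x κ) h1
  simp only [map_zero, Finsupp.coe_zero, Pi.zero_apply] at h2
  show (fun i => B.repr (φ i) κ) ⬝ᵥ d.a i = 0
  unfold dotProduct at h2 ⊢
  rw [map_sum, Finsupp.finsetSum_apply] at h2
  rw [← h2]
  refine Finset.sum_congr rfl fun j _ => ?_
  have h3 : φ j * (dat72 K' d).a i j = d.a i j • φ j := by
    rw [Algebra.smul_def, mul_comm]
    rfl
  rw [h3, map_smul, Finsupp.smul_apply, smul_eq_mul, mul_comm]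

theorem L2_fn72 (d : Dat K ν) (g : K' →ₗ[K] K) (v : Fin 3 → S K' 4)
    (hv : v ∈ L2 (dat72 K' d)) : fv72 g v ∈ L2 d := by
  refine LF_fn72 (fun i => {φ | φ ⬝ᵥ d.a i = 0}) (fun i => {φ | φ ⬝ᵥ (dat72 K' d).a i = 0}) d.β
    ?_ g v hv
  intro i φ hφ
  have h1 : φ ⬝ᵥ d.a i = 0 := hφ
  show (fun j => algebraMap K K' (φ j)) ⬝ᵥ (dat72 K' d).a i = 0
  have h2 := congrArg (algebraMap K K') h1
  rw [map_zero] at h2
  rw [← h2]
  unfold dotProduct
  rw [map_sum]
  exact Finset.sum_congr rfl fun j _ => (map_mul _ _ _).symm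

/-! ### The basis -/

theorem tri72 {ι : Type*} (w : Fin 3 → Fin 3 → S K' 4) (G : Fin 3 → ι → Fin 3 → S K 4)
    (c : ι → K') (s : Fin 3 → Finset ι)
    (hw : ∀ i, w i = ∑ κ ∈ s i, (C (c κ) : S K' 4) • uv72 (G i κ))
    (h : ∀ κ μ η, G 0 κ ⬝ᵥ (G 1 μ ⨯₃ G 2 η) = 0) : w 0 ⬝ᵥ (w 1 ⨯₃ w 2) = 0 := by
  have h1 : ∀ κ μ η, uv72 (K' := K') (G 0 κ) ⬝ᵥ (uv72 (G 1 μ) ⨯₃ uv72 (G 2 η)) = 0 := by
    intro κ μ η
    rw [← uv_cross72, ← up_dot72, h, map_zero]
  have h2 : ∀ κ μ, uv72 (K' := K') (G 0 κ) ⬝ᵥ (uv72 (G 1 μ) ⨯₃ w 2) = 0 := by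
    intro κ μ
    rw [hw 2, map_sum, dotProduct_sum]
    refine Finset.sum_eq_zero fun η _ => ?_
    rw [map_smul, dotProduct_smul, h1, smul_zero]
  have h3 : ∀ κ, uv72 (K' := K') (G 0 κ) ⬝ᵥ (w 1 ⨯₃ w 2) = 0 := by
    intro κ
    rw [hw 1, map_sum, LinearMap.sum_apply, dotProduct_sum]
    refine Finset.sum_eq_zero fun μ _ => ?_
    rw [map_smul, LinearMap.smul_apply, dotProduct_smul, h2, smul_zero]
  rw [hw 0, sum_dotProduct]
  refine Finset.sum_eq_zero fun κ _ => ?_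
  rw [smul_dotProduct, h3, smul_zero]

theorem cross_mem72 {m n : ℤ} {v w : Fin 3 → S K 4} (hv : v ∈ Vg K 4 m) (hw : w ∈ Vg K 4 n) :
    v ⨯₃ w ∈ Vg K 4 (m + n) := by
  intro i
  fin_cases i <;> simp only [cross_apply] <;>
    exact Submodule.sub_mem _ (grS_mul51 (hv _) (hw _)) (grS_mul51 (hv _) (hw _))

theorem dot_mem72 {m n : ℤ} {v w : Fin 3 → S K 4} (hv : v ∈ Vg K 4 m) (hw : w ∈ Vg K 4 n) :
    v ⬝ᵥ w ∈ grS (K := K) (ℓ := 4) (m + n) :=
  Submodule.sum_mem _ fun i _ => grS_mul51 (hv i) (hw i)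

theorem deg_unique72 {m n : ℤ} {f : S K 4} (hf : f ≠ 0) (hm : f ∈ grS (K := K) (ℓ := 4) m)
    (hn : f ∈ grS (K := K) (ℓ := 4) n) : m = n := by
  obtain ⟨μ, hμ⟩ := ne_zero_iff.1 hf
  rw [mem_grS51] at hm hn
  rw [← hm μ hμ, ← hn μ hμ]

theorem const72 {f : S K 4} (hf : f ∈ grS (K := K) (ℓ := 4) 0) : f = C (coeff 0 f) := by
  have h1 : f.IsHomogeneous 0 := hom_of_grS51 (n := 0) (by exact_mod_cast hf)
  exact totalDegree_eq_zero_iff_eq_C.1 ((totalDegree_zero_iff_isHomogeneous _).2 h1)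

theorem bas72 (hP : stProd.{u}) (d : Dat K ν) (h : Bas (dat72 K' d)) : Bas d := by
  classical
  obtain ⟨E, δ, c, hE, hc, hdet⟩ := h
  let B := Module.Basis.ofVectorSpace K K'
  let G : Fin 3 → _ → Fin 3 → S K 4 := fun i κ => fv72 (B.coord κ) (E i)
  have hG1 : ∀ i κ, G i κ ∈ L1 d := fun i κ => L1_fn72 d _ _ (hE i).1
  have hG2 : ∀ i κ, G i κ ∈ Vg K 4 (δ i) := fun i κ j => fn_mem72 _ ((hE i).2 j)
  obtain ⟨-, -, -, -, -, hQ', hQd'⟩ := hP K' ν (dat72 K' d)
  obtain ⟨hcr, hdiv, -, -, -, hQ, hQd⟩ := hP K ν d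
  have hex : ∃ κ μ η, G 0 κ ⬝ᵥ (G 1 μ ⨯₃ G 2 η) ≠ 0 := by
    by_contra hcon
    push Not at hcon
    choose s hs using fun i => dec72 B (E i)
    have h0 := tri72 E G B s hs hcon
    rw [hdet] at h0
    exact (mul_ne_zero (by rwa [Ne, C_eq_zero]) hQ') h0
  obtain ⟨κ, μ, η, hT⟩ := hex
  obtain ⟨g, hg⟩ := hdiv _ (hG1 0 κ) _ (hcr _ (hG1 1 μ) _ (hG1 2 η))
  have hδ : δ 0 + (δ 1 + δ 2) = ν := by
    have h1 := dot_mem72 (hE 0).2 (cross_mem72 (hE 1).2 (hE 2).2)
    rw [hdet] at h1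
    have h2 := C_mul_grS51 c hQd'
    exact deg_unique72 (mul_ne_zero (by rwa [Ne, C_eq_zero]) hQ') h1 h2
  have h3 := dot_mem72 (hG2 0 κ) (cross_mem72 (hG2 1 μ) (hG2 2 η))
  rw [hδ, hg] at h3
  have h4 := grS_div51 hQ hQd h3
  rw [sub_self] at h4
  have h5 := const72 h4
  have h6 : coeff 0 g ≠ 0 := by
    intro h7
    rw [h7, C_0] at h5
    rw [hg, h5, mul_zero] at hT
    exact hT rfl
  refine ⟨![G 0 κ, G 1 μ, G 2 η], δ, coeff 0 g, ?_, h6, ?_⟩
  · intro i
    fin_cases i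
    · exact ⟨hG1 0 κ, hG2 0 κ⟩
    · exact ⟨hG1 1 μ, hG2 1 μ⟩
    · exact ⟨hG1 2 η, hG2 2 η⟩
  · show G 0 κ ⬝ᵥ (G 1 μ ⨯₃ G 2 η) = _
    rw [hg, ← h5, mul_comm]

theorem thm (hP : stProd.{u}) : stBCh.{u} := by
  intro K _ ν d
  refine ⟨AlgebraicClosure K, inferInstance, inferInstance, dat72 (AlgebraicClosure K) d,
    fun m => ?_, fun m => ?_, ?_, bas72 hP d⟩
  · exact hh_eq72 (K' := AlgebraicClosure K) (L1 d) _ (L1_up72 d) (fun g v hv => L1_fn72 d g v hv) m
  · exact hh_eq72 (K' := AlgebraicClosure K) (L2 d) _ (L2_up72 d) (fun g v hv => L2_fn72 d g v hv) m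
  · unfold HS51
    congr 1
    funext k
    rw [Grad.grS_nat, Grad.grS_nat, Grad.finrank_homog, Grad.finrank_homog]

end Pool.Agent.Lib.MP_fe1391_co.Quad51.BCh
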