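import Pool.Agent.Lib.MP_fe1391_co.Quad51.Prod

/-! # CONF: elements of least degree -/

set_option autoImplicit false

namespace Pool.Agent.Lib.MP_fe1391_co.Quad51.ConfM

open MvPolynomial Matrix Pool.Agent.Lib.MP_fe1391_co.Tame
open Pool.Agent.Lib.MP_fe1391_co.Quad51

universe u

variable {K : Type u} [Field K] {ν : ℕ}

theorem least88 (M : Submodule (S K 4) (Fin 3 → S K 4)) {n : ℕ} {v : Fin 3 → S K 4}
    (h1 : v ∈ M) (h2 : v ∈ Vg K 4 n) (h3 : v ≠ 0) :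
    ∃ a : ℕ, a ≤ n ∧ ∃ w ∈ M, w ∈ Vg K 4 a ∧ w ≠ 0 ∧
      ∀ m : ℤ, m < a → ∀ z ∈ M, z ∈ Vg K 4 m → z = 0 := by
  classical
  have hex : ∃ a : ℕ, ∃ w ∈ M, w ∈ Vg K 4 a ∧ w ≠ 0 := ⟨n, v, h1, h2, h3⟩
  obtain ⟨w, hw1, hw2, hw3⟩ := Nat.find_spec hex
  refine ⟨Nat.find hex, Nat.find_min' hex ⟨v, h1, h2, h3⟩, w, hw1, hw2, hw3, ?_⟩
  intro m hm z hz hzm
  by_contra hz0
  rcases lt_or_ge m 0 with hm0 | hm0
  · apply hz0
    funext i
    exact Thick51.grS_neg51 hm0 (hzm i)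
  · obtain ⟨k, rfl⟩ := Int.eq_ofNat_of_zero_le hm0
    exact Nat.find_min hex (by exact_mod_cast hm) ⟨z, hz, hzm, hz0⟩

theorem cv_Vg88 (e : Fin 3 → K) : cv 4 e ∈ Vg K 4 0 := fun i =>
  Thick51.grS_of_hom51 (n := 0) (isHomogeneous_C _ _)

theorem cross_ne88 {w : Fin 3 → S K 4} (hw : w ≠ 0) : ∃ e : Fin 3 → K, w ⨯₃ cv 4 e ≠ 0 := by
  obtain ⟨i, hi⟩ := Function.ne_iff.1 hw
  fin_cases i
  · refine ⟨![0, 1, 0], fun h => hi ?_⟩
    have := congrFun h 2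
    simpa [cross_apply, cv] using this
  · refine ⟨![0, 0, 1], fun h => hi ?_⟩
    have := congrFun h 0
    simpa [cross_apply, cv] using this
  · refine ⟨![1, 0, 0], fun h => hi ?_⟩
    have := congrFun h 1
    simpa [cross_apply, cv] using this

theorem thm : stConf.{u} := by
  intro K _ ν d
  obtain ⟨-, -, -, h4, h5, hQ0, hQ⟩ := ProdM.thm K ν d
  have hv0 : Qd d • cv 4 (1 : Fin 3 → K) ≠ 0 := by
    intro h
    have := congrFun h 0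
    simp only [cv, Pi.smul_apply, Pi.one_apply, map_one, smul_eq_mul, mul_one,
      Pi.zero_apply] at this
    exact hQ0 this
  have hvd : Qd d • cv 4 (1 : Fin 3 → K) ∈ Vg K 4 ν := by
    intro i
    have := Thick51.grS_mul51 hQ (cv_Vg88 (1 : Fin 3 → K) i)
    rwa [add_zero] at this
  obtain ⟨u, hu, ω, hω1, hω2, hω3, hω4⟩ := least88 (L2 d) (h5 (cv 4 (1 : Fin 3 → K))).2 hvd hv0
  obtain ⟨e, he⟩ := cross_ne88 hω3
  have h6 : ω ⨯₃ cv 4 e ∈ Mo d ω := by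
    refine ⟨h4 ω hω1 e, ?_⟩
    rw [dotProduct_comm]
    exact dot_self_cross _ _
  have h7 : ω ⨯₃ cv 4 e ∈ Vg K 4 u := by
    have h : ∀ i j, ω i * cv 4 e j ∈ grS (K := K) (ℓ := 4) (u : ℤ) := by
      intro i j
      have := Thick51.grS_mul51 (hω2 i) (cv_Vg88 e j)
      rwa [add_zero] at this
    intro i
    fin_cases i
    · simpa [cross_apply] using Submodule.sub_mem _ (h 1 2) (h 2 1)
    · simpa [cross_apply] using Submodule.sub_mem _ (h 2 0) (h 0 2)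
    · simpa [cross_apply] using Submodule.sub_mem _ (h 0 1) (h 1 0)
  obtain ⟨a, -, θ, hθ1, hθ2, hθ3, hθ4⟩ := least88 (Mo d ω) h6 h7 he
  exact ⟨θ, ω, a, u, ⟨hω1, hω2, hω3, hω4, hθ1, hθ2, hθ3, hθ4⟩, by exact_mod_cast hu⟩

end Pool.Agent.Lib.MP_fe1391_co.Quad51.ConfM
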