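import Pool.Agent.Lib.MP_fe1391_co.Quad51.Stmts

/-!
# The palindromic form in dimension four: statements of the additional modules
-/

set_option autoImplicit false

namespace Pool.Agent.Lib.MP_fe1391_co.Quad51

open MvPolynomial Matrix Pool.Agent.Lib.MP_fe1391_co.Tame
open Pool.Agent.Lib.MP_fe1391_co.Thick51 (geo51 HS51)

universe u

/-- CORE2: `stCore` with the vanishing of `I` below degree `b - c`. -/
def stCore2 : Prop :=
  ∀ (K : Type u) [Field K] [Infinite K] (ν : ℕ) (d : Dat K ν) (θ ω : Fin 3 → S K 4) (a u : ℤ),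
    Conf d θ ω a u → 0 ≤ a ∧ 0 ≤ u - a ∧ ∃ J I : ℤ → Submodule K (S K 3), GI J ∧ GI I ∧
      (∀ k : ℤ, hh (L1 d) k - hh (L1 d) (k - 1) = c2 (k - a) +
        (c2 (k - (u - a)) - cd J (k - (u - a))) + (c2 (k - (ν - u)) - cd I (k - (ν - u)))) ∧
      (∀ j < (u - a) - (ν - u), cd I j = c2 j) ∧
      ((∃ k0 : ℤ, ∀ k ≥ k0, cd J k = 0) → (∃ k0 : ℤ, ∀ k ≥ k0, cd I k = 0) → Bas d)

/-- NUM2: the numerical part if `b > c`. -/
def stNum2 : Prop :=
  ∀ (K : Type u) [Field K] [Infinite K] (h1 h2 : ℤ → ℤ) (ν a b c g : ℤ)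
    (J I : ℤ → Submodule K (S K 3)), GI J → GI I → 0 ≤ a → 0 ≤ c → c < b → a + b + c = ν →
    0 ≤ g →
    (∀ k, h1 k - h1 (k - 1) = c2 (k - a) + (c2 (k - b) - cd J (k - b)) +
      (c2 (k - c) - cd I (k - c))) →
    (∀ k < a + b, h2 k = 0) → (∀ j < b - c, cd I j = c2 j) →
    (∀ m, vv ν h1 h2 m = vv ν h1 h2 (ν - g - m)) → False

end Pool.Agent.Lib.MP_fe1391_co.Quad51
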