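import Pool.Agent.Lib.MP_fe1391_co.Quad51.Core
import Pool.Agent.Lib.MP_fe1391_co.Quad51.Stmts2

/-!
# The core argument with the vanishing of `I` in low degrees
-/

set_option autoImplicit false

namespace Pool.Agent.Lib.MP_fe1391_co.Quad51

open MvPolynomial Matrix Pool.Agent.Lib.MP_fe1391_co.Tame

universe u

variable {K : Type u} [Field K] {ν : ℕ} {d : Dat K ν} {θ ω : Fin 3 → S K 4} {a u : ℤ}

theorem It_low51 (h : Fx51 d θ ω a u) {j : ℤ} (hj : j < (u - a) - (ν - u)) :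
    It51 d ω (ν - u) j = ⊥ := by
  rw [eq_bot_iff]
  rintro f ⟨h1, v, h2, h3⟩
  rw [Submodule.mem_bot]
  have h4 : θ ⨯₃ v = 0 := by
    refine h.conf.ωm (a + (j + (ν - u))) (by omega) _ (h.p11 _ h.th1 _ h2.2) ?_
    exact Vg_cross51 h.conf.θd h2.1
  have h5 := dot_of_cross51 h.orth h.conf.θ0 h4
  rw [h5] at h3
  exact (mul_eq_zero.1 h3.symm).resolve_right h.Q0

theorem core2_51 (hCD : stCoDiv.{u}) (hPr : stProd.{u}) (hPm : stPrim.{u}) (hReg : stReg.{u})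
    (hKos : stKos.{u}) (hGen : stGen.{u}) : stCore2.{u} := by
  intro K _ _ ν d θ ω a u hc
  have h := fx51 hCD hPr hPm hc
  obtain ⟨t, ht⟩ := exists_t51 hReg hKos hGen h
  refine ⟨a_nonneg51 hc, b_nonneg51 h, J51 d θ ω t (u - a), I51 d ω t (ν - u),
    GI_J51 d θ ω t _, GI_I51 d ω t _, formula51 h ht, ?_, ?_⟩
  · intro j hj
    rw [cd, I51, It_low51 h hj, Submodule.map_bot, finrank_bot]
    simp
  · rintro ⟨k2, hJ⟩ ⟨k0, hI⟩
    exact bas51 hReg hKos h ht hJ hI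

end Pool.Agent.Lib.MP_fe1391_co.Quad51
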