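import Pool.Agent.Lib.MP_fe1391_co.Quad51.DBb11

/-!
# DB: the degree bound
-/

set_option autoImplicit false

namespace Pool.Agent.Lib.MP_fe1391_co.Quad51.DB

open MvPolynomial Matrix Pool.Agent.Lib.MP_fe1391_co.Tame
open Pool.Agent.Lib.MP_fe1391_co.Thick51 (geo51 HS51 grS_mul51 grS_neg51 grS_of_hom51 hom_of_grS51
  grS_div51 lin_grS51 C_mul_grS51 pS_mul51)

universe u

variable {K : Type u} [Field K]

/-- restriction maps `LF` to `LF` -/
theorem sv_LF11 {ℓ ν : ℕ} (F : Fin ν → Set (Fin 3 → K)) (β : Fin ν → Fin (ℓ + 1) → K)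
    (t : Fin ℓ → K) {v : Fin 3 → S K (ℓ + 1)} (hv : v ∈ LF F β) :
    sv t v ∈ LF F (fun i => rs t (β i)) := by
  intro i φ hφ
  have h1 := map_dvd (sg t) (hv i φ hφ)
  rw [sg_lin51, ← sv_dot51, sv_cv51] at h1
  exact h1

/-- the restriction of the pieces -/
noncomputable def resL11 {ℓ ν : ℕ} (F : Fin ν → Set (Fin 3 → K)) (β : Fin ν → Fin (ℓ + 1) → K)
    (t : Fin ℓ → K) (k : ℤ) : pc (LF F β) k →ₗ[K] pc (LF F (fun i => rs t (β i))) k where
  toFun v := ⟨sv t v.1, sv_gr51 t v.2.1, sv_LF11 F β t v.2.2⟩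
  map_add' v w := Subtype.ext (map_add (sv t) v.1 w.1)
  map_smul' c v := Subtype.ext (map_smul (sv t) c v.1)

/-- multiplication by the equation of the hyperplane -/
noncomputable def mulL11 {ℓ ν : ℕ} (F : Fin ν → Set (Fin 3 → K)) (β : Fin ν → Fin (ℓ + 1) → K)
    (t : Fin ℓ → K) (k : ℤ) : pc (LF F β) (k - 1) →ₗ[K] pc (LF F β) k where
  toFun v := ⟨lin (tau t) • v.1, mem_pc51.2 ⟨by
    have := Vg_smul51 (lin_grS51 (tau t)) (mem_pc51.1 v.2).1
    rwa [add_sub_cancel] at this, (LF F β).smul_mem (lin (tau t)) (mem_pc51.1 v.2).2⟩⟩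
  map_add' v w := by
    apply Subtype.ext
    funext a
    exact mul_add _ _ _
  map_smul' c v := by
    apply Subtype.ext
    funext a
    exact mul_smul_comm c _ _

/-- SU: the Hilbert function and the restriction to a generic hyperplane -/
theorem su11 (hG : stGen0.{u}) [Infinite K] {ℓ ν : ℕ} (hℓ : 1 ≤ ℓ) (F : Fin ν → Set (Fin 3 → K))
    (β : Fin ν → Fin (ℓ + 1) → K) (hN : Npr11 Finset.univ β) :
    ∃ t : Fin ℓ → K, (∀ i, rs t (β i) ≠ 0) ∧
      (2 ≤ ℓ → Npr11 Finset.univ (fun i => rs t (β i))) ∧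
      (∀ k, hh (LF F β) k - hh (LF F β) (k - 1) ≤ hh (LF F (fun i => rs t (β i))) k) ∧
      ∀ k : ℤ, (ν : ℤ) ≤ k →
        hh (LF F β) k - hh (LF F β) (k - 1) = hh (LF F (fun i => rs t (β i))) k := by
  obtain ⟨t, ht⟩ := gen11' hG Finset.univ β
  have htg : Gnt11 Finset.univ β t := ht
  have hrs : ∀ i, rs t (β i) ≠ 0 := fun i =>
    rs_ne_zero11 (hN.1 i (Finset.mem_univ _)) (gnt_one11 hℓ htg (Finset.mem_univ _))
  have hlt : ∀ i, ¬ lin (β i) ∣ lin (tau t) := fun i =>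
    not_dvd_tau11 (hN.1 i (Finset.mem_univ _)) (gnt_one11 hℓ htg (Finset.mem_univ _))
  -- the kernel of the restriction
  have hker : ∀ k, LinearMap.ker (resL11 F β t k) = LinearMap.range (mulL11 F β t k) := by
    intro k
    ext v
    rw [LinearMap.mem_ker, LinearMap.mem_range]
    constructor
    · intro hv
      have h1 : sv t v.1 = 0 := congrArg Subtype.val hv
      obtain ⟨w, hw⟩ := (sv_eq_zero51 t).1 h1
      have h2 : w ∈ Vg K (ℓ + 1) (k - 1) := by
        refine Vg_div51 (Pair.lin_ne_zero (tau_ne51 t)) (lin_grS51 (tau t)) ?_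
        rw [← hw]
        exact v.2.1
      have h3 : w ∈ LF F β := by
        intro i φ hφ
        have h4 := v.2.2 i φ hφ
        rw [hw, dotProduct_smul, smul_eq_mul] at h4
        exact ((Pair.lin_prime (hN.1 i (Finset.mem_univ _))).dvd_or_dvd h4).resolve_left (hlt i)
      exact ⟨⟨w, h2, h3⟩, Subtype.ext hw.symm⟩
    · rintro ⟨w, rfl⟩
      apply Subtype.ext
      show sv t (lin (tau t) • w.1) = 0
      rw [sv_smul51, sg_tau51, zero_smul]
  have hinj : ∀ k, Function.Injective (mulL11 F β t k) := by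
    intro k v w h
    apply Subtype.ext
    have h1 : lin (tau t) • v.1 = lin (tau t) • w.1 := congrArg Subtype.val h
    funext a
    have h2 := congrFun h1 a
    exact mul_left_cancel₀ (Pair.lin_ne_zero (tau_ne51 t)) h2
  have hrank : ∀ k, hh (LF F β) k - hh (LF F β) (k - 1) =
      (Module.finrank K (LinearMap.range (resL11 F β t k)) : ℤ) := by
    intro k
    have h1 := LinearMap.finrank_range_add_finrank_ker (resL11 F β t k)
    rw [hker k, LinearMap.finrank_range_of_inj (hinj k)] at h1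
    rw [hh, hh, ← h1]
    push_cast
    ring
  have hmain : ∀ k : ℤ, (ν : ℤ) ≤ k → Function.Surjective (resL11 F β t k) := by
    intro k hk v
    set v0 : Fin 3 → S K (ℓ + 1) := uv51 v.1 with hv0
    have hv0g : v0 ∈ Vg K (ℓ + 1) k := uv_gr51 v.2.1
    have hlift : ∀ i, ∃ r ∈ Vg K (ℓ + 1) (k - 1), ∀ φ ∈ F i,
        lin (β i) ∣ cv (ℓ + 1) φ ⬝ᵥ v0 - lin (tau t) * (cv (ℓ + 1) φ ⬝ᵥ r) := by
      intro i
      refine lift11 t (β i) (hrs i) (F i) hv0g fun φ hφ => ?_
      rw [← sv_dot51, sv_cv51, hv0, sv_uv51]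
      exact v.2.2 i φ hφ
    choose r hr hrd using hlift
    obtain ⟨n, rfl⟩ : ∃ n, ℓ = n + 1 := ⟨ℓ - 1, by omega⟩
    obtain ⟨z, hz, hzd⟩ := pm11 (K := K) hG n (Fin ν) Finset.univ F β hN (k - 1)
      (by rw [Finset.card_univ, Fintype.card_fin]; omega) r (fun i _ => hr i) (by
        intro Y hY hYn
        exact ns11 t F β Y (fun i _ => hN.1 i (Finset.mem_univ _)) (ht Y hY hYn) hv0g r
          (fun i _ => hrd i))
    have hvg : v0 - lin (tau t) • z ∈ Vg K (n + 1 + 1) k := by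
      refine Submodule.sub_mem _ hv0g ?_
      have := Vg_smul51 (lin_grS51 (tau t)) hz
      rwa [add_sub_cancel] at this
    have hvl : v0 - lin (tau t) • z ∈ LF F β := by
      intro i φ hφ
      have h1 := hrd i φ hφ
      have h2 := hzd i (Finset.mem_univ _) φ hφ
      have h3 : cv (n + 1 + 1) φ ⬝ᵥ (v0 - lin (tau t) • z) =
          (cv (n + 1 + 1) φ ⬝ᵥ v0 - lin (tau t) * (cv (n + 1 + 1) φ ⬝ᵥ r i)) +
          lin (tau t) * (cv (n + 1 + 1) φ ⬝ᵥ (r i - z)) := by
        rw [dotProduct_sub, dotProduct_sub, dotProduct_smul, smul_eq_mul]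
        ring
      rw [h3]
      exact dvd_add h1 (Dvd.dvd.mul_left h2 _)
    refine ⟨⟨v0 - lin (tau t) • z, hvg, hvl⟩, ?_⟩
    apply Subtype.ext
    show sv t (v0 - lin (tau t) • z) = v.1
    rw [map_sub, sv_smul51, sg_tau51, zero_smul, sub_zero, hv0, sv_uv51]
  refine ⟨t, hrs, fun h2 => npr_rs11 h2 hN htg, fun k => ?_, fun k hk => ?_⟩
  · rw [hrank k, hh]
    exact_mod_cast Submodule.finrank_le _
  · rw [hrank k, LinearMap.range_eq_top.2 (hmain k hk), finrank_top, hh]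

/-- in one variable -/
theorem hh_one11 {ν : ℕ} (F : Fin ν → Set (Fin 3 → K)) (β : Fin ν → Fin 1 → K)
    (hβ : ∀ i, β i ≠ 0) {k : ℤ} (hk : 1 ≤ k) : hh (LF F β) k = 3 := by
  have h1 : pc (LF F β) k = Vg K 1 k := by
    apply le_antisymm inf_le_left
    intro v hv
    refine ⟨hv, fun i φ hφ => ?_⟩
    refine dvd_one11 (hβ i) hk ?_
    have := Vg_dot51 (Vg_cv51 (ℓ := 1) φ) hv
    rwa [zero_add] at this
  let L : Vg K 1 k ≃ₗ[K] (Fin 3 → grS (K := K) (ℓ := 1) k) :=
    { toFun := fun v i => ⟨v.1 i, v.2 i⟩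
      invFun := fun f => ⟨fun i => (f i).1, fun i => (f i).2⟩
      map_add' := fun v w => rfl
      map_smul' := fun c v => rfl
      left_inv := fun v => rfl
      right_inv := fun f => rfl }
  obtain ⟨n, rfl⟩ := Int.eq_ofNat_of_zero_le (by omega : (0 : ℤ) ≤ k)
  have h2 : Module.finrank K (grS (K := K) (ℓ := 1) (n : ℤ)) = 1 := by
    rw [Grad.grS_nat, Grad.finrank_homog]
    have : 1 + n - 1 = n := by omega
    rw [this, Nat.choose_self]
  rw [hh, h1, L.finrank_eq, Module.finrank_pi_fintype, Finset.sum_const, h2]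
  simp

/-- DB -/
theorem thm (hG : stGen0.{u}) : stDB.{u} := by
  intro K _ _ ν F β h0 hne
  obtain ⟨t3, _, hN3, hle3, heq3⟩ := su11 hG (by norm_num) F β
    ⟨fun i _ => h0 i, fun i _ j _ => hne i j⟩
  have hN3' := hN3 (by norm_num)
  obtain ⟨t2, _, hN2, hle2, heq2⟩ := su11 hG (by norm_num) F _ hN3'
  have hN2' := hN2 le_rfl
  obtain ⟨t1, h1, _, hle1, heq1⟩ := su11 hG le_rfl F _ hN2'
  have h3 : ∀ k : ℤ, 1 ≤ k → _ = (3 : ℤ) := fun k hk => hh_one11 F _ h1 hk
  set H4 := hh (LF F β) with hH4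
  set H3 := hh (LF F (fun i => rs t3 (β i))) with hH3
  set H2 := hh (LF F (fun i => rs t2 (rs t3 (β i)))) with hH2
  set H1 := hh (LF F (fun i => rs t1 (rs t2 (rs t3 (β i))))) with hH1
  constructor
  · intro k hk
    have a0 := heq3 k (by omega)
    have a1 := heq3 (k - 1) (by omega)
    have a2 := heq3 (k - 2) (by omega)
    have a3 := heq3 (k - 3) (by omega)
    have b0 := heq2 k (by omega)
    have b1 := heq2 (k - 1) (by omega)
    have b2 := heq2 (k - 2) (by omega)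
    have c0 := heq1 k (by omega)
    have c1 := heq1 (k - 1) (by omega)
    have d0 := h3 k (by omega)
    have d1 := h3 (k - 1) (by omega)
    have e1 : k - 1 - 1 = k - 2 := by ring
    have e2 : k - 2 - 1 = k - 3 := by ring
    have e3 : k - 3 - 1 = k - 4 := by ring
    rw [e1] at a1 b1 c1
    rw [e2] at a2 b2
    rw [e3] at a3
    rw [d4]
    linarith
  · have a0 := heq3 (ν + 2) (by omega)
    have a1 := heq3 (ν + 1) (by omega)
    have a2 := heq3 ν (by omega)
    have a3 := hle3 (ν - 1)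
    have b0 := heq2 (ν + 2) (by omega)
    have b1 := heq2 (ν + 1) (by omega)
    have b2 := heq2 ν (by omega)
    have c0 := heq1 (ν + 2) (by omega)
    have c1 := heq1 (ν + 1) (by omega)
    have d0 := h3 (ν + 2) (by omega)
    have d1 := h3 (ν + 1) (by omega)
    have e0 : (ν : ℤ) + 2 - 1 = ν + 1 := by ring
    have e1 : (ν : ℤ) + 1 - 1 = ν := by ring
    have e2 : (ν : ℤ) - 1 - 1 = ν - 2 := by ring
    have f1 : (ν : ℤ) + 2 - 2 = ν := by ring
    have f2 : (ν : ℤ) + 2 - 3 = ν - 1 := by ring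
    have f3 : (ν : ℤ) + 2 - 4 = ν - 2 := by ring
    rw [e0] at a0 b0 c0
    rw [e1] at a1 b1 c1
    rw [e2] at a3
    rw [d4, e0, f1, f2, f3]
    linarith

end Pool.Agent.Lib.MP_fe1391_co.Quad51.DB
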