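import Pool.Agent.Lib.MP_fe1391_co.Quad51.Stmts

/-!
# GEN: generic hyperplanes
-/

set_option autoImplicit false

namespace Pool.Agent.Lib.MP_fe1391_co.Quad51.Gen

open MvPolynomial Matrix Pool.Agent.Lib.MP_fe1391_co.Tame

universe u

variable {K : Type u} [Field K] {ℓ : ℕ}

/-- avoiding finitely many proper subspaces, with last coordinate `1` -/
theorem avoid72 [Infinite K] {I : Type*} [Finite I] (U : I → Submodule K (Fin (ℓ + 1) → K))
    (hU : ∀ i, U i ≠ ⊤) : ∃ t : Fin ℓ → K, ∀ i, tau t ∉ U i := by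
  classical
  set H : Submodule K (Fin (ℓ + 1) → K) := LinearMap.ker (LinearMap.proj (Fin.last ℓ)) with hH
  have hHt : H ≠ ⊤ := by
    intro h
    have h1 : (Pi.single (Fin.last ℓ) (1 : K)) ∈ H := by rw [h]; trivial
    rw [hH, LinearMap.mem_ker] at h1
    simp at h1
  let V : Option I → Submodule K (Fin (ℓ + 1) → K) := fun o => o.elim H U
  have hV : ⋃ o, (V o : Set (Fin (ℓ + 1) → K)) ≠ Set.univ := by
    intro h
    obtain ⟨o, ho⟩ := Subspace.exists_eq_top_of_iUnion_eq_univ h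
    rcases o with _ | i
    · exact hHt ho
    · exact hU i ho
  obtain ⟨b, hb⟩ := (Set.ne_univ_iff_exists_notMem _).1 hV
  rw [Set.mem_iUnion, not_exists] at hb
  have h0 : b (Fin.last ℓ) ≠ 0 := by
    intro h
    apply hb none
    show b ∈ H
    rw [hH, LinearMap.mem_ker]
    exact h
  set c := b (Fin.last ℓ) with hc
  refine ⟨fun j => -(c⁻¹ * b j.castSucc), fun i hi => hb (some i) ?_⟩
  have h1 : c • tau (fun j => -(c⁻¹ * b j.castSucc)) = b := by
    funext j
    refine Fin.lastCases ?_ (fun j => ?_) j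
    · simp [tau, hc]
    · simp only [tau, Pi.smul_apply, Fin.snoc_castSucc, smul_eq_mul, neg_neg]
      rw [← mul_assoc, mul_inv_cancel₀ h0, one_mul]
  show b ∈ U i
  rw [← h1]
  exact Submodule.smul_mem _ _ hi

theorem lin_add72 (a b : Fin ℓ → K) : lin (a + b) = lin a + lin b := by
  unfold lin
  rw [← Finset.sum_add_distrib]
  refine Finset.sum_congr rfl fun i _ => ?_
  rw [Pi.add_apply, C_add, add_mul]

theorem lin_single72 (j : Fin ℓ) : lin (Pi.single j (1 : K)) = X j := by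
  unfold lin
  rw [Finset.sum_eq_single j]
  · rw [Pi.single_eq_same, C_1, one_mul]
  · intro i _ hi
    rw [Pi.single_eq_of_ne hi, C_0, zero_mul]
  · intro h
    exact absurd (Finset.mem_univ j) h

/-- the linear forms in an ideal -/
def Wp72 (P : Ideal (S K ℓ)) : Submodule K (Fin ℓ → K) where
  carrier := {b | lin b ∈ P}
  add_mem' := by
    intro a b ha hb
    show lin (a + b) ∈ P
    rw [lin_add72]
    exact P.add_mem ha hb
  zero_mem' := by
    show lin 0 ∈ P
    have : (lin (0 : Fin ℓ → K)) = 0 := by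
      unfold lin
      simp
    rw [this]
    exact P.zero_mem
  smul_mem' := by
    intro c a ha
    show lin (c • a) ∈ P
    rw [Pair.lin_smul]
    exact P.mul_mem_left _ ha

theorem Wp_ne72 (N : Submodule (S K 4) (Fin 3 → S K 4))
    (hN : ∀ z, (∀ j : Fin 4, (X j : S K 4) • z ∈ N) → z ∈ N) (P : Ideal (S K 4))
    (hP : P ∈ associatedPrimes (S K 4) ((Fin 3 → S K 4) ⧸ N)) : Wp72 P ≠ ⊤ := by
  intro h
  rw [AssociatedPrimes.mem_iff, isAssociatedPrime_iff] at hP
  obtain ⟨hp, x, rfl⟩ := hP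
  obtain ⟨z, rfl⟩ := Submodule.Quotient.mk_surjective N x
  apply hp.ne_top
  rw [Ideal.eq_top_iff_one, Submodule.mem_colon_singleton, one_smul, Submodule.mem_bot,
    Submodule.Quotient.mk_eq_zero]
  refine hN z fun j => ?_
  have h1 : (Pi.single j (1 : K)) ∈ Wp72 ((⊥ : Submodule (S K 4) ((Fin 3 → S K 4) ⧸ N)).colon
    {Submodule.Quotient.mk z}) := by rw [h]; trivial
  have h2 : lin (Pi.single j (1 : K)) ∈ ((⊥ : Submodule (S K 4) ((Fin 3 → S K 4) ⧸ N)).colon
    {Submodule.Quotient.mk z}) := h1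
  rw [lin_single72, Submodule.mem_colon_singleton, Submodule.mem_bot] at h2
  rw [← Submodule.Quotient.mk_smul, Submodule.Quotient.mk_eq_zero] at h2
  exact h2

theorem thm : stGen.{u} := by
  intro K _ _ r N hN q U hU
  have hfin : ∀ i : Fin r, (associatedPrimes (S K 4) ((Fin 3 → S K 4) ⧸ N i)).Finite := fun i =>
    associatedPrimes.finite (S K 4) ((Fin 3 → S K 4) ⧸ N i)
  have hfi : ∀ i : Fin r, Finite (associatedPrimes (S K 4) ((Fin 3 → S K 4) ⧸ N i)) := fun i =>
    (hfin i).to_subtype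
  obtain ⟨t, ht⟩ := avoid72 (K := K) (ℓ := 3)
    (I := (Σ i : Fin r, associatedPrimes (S K 4) ((Fin 3 → S K 4) ⧸ N i)) ⊕ Fin q)
    (Sum.elim (fun p => Wp72 p.2.1) U) (by
      rintro (p | i)
      · exact Wp_ne72 (N p.1) (hN p.1) p.2.1 p.2.2
      · exact hU i)
  refine ⟨t, fun i z hz => ?_, fun i => ht (Sum.inr i)⟩
  by_contra hzN
  have h1 : lin (tau t) ∈ {r : S K 4 | ∃ x : (Fin 3 → S K 4) ⧸ N i, x ≠ 0 ∧ r • x = 0} := by
    refine ⟨Submodule.Quotient.mk z, ?_, ?_⟩
    · rwa [Ne, Submodule.Quotient.mk_eq_zero]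
    · rwa [← Submodule.Quotient.mk_smul, Submodule.Quotient.mk_eq_zero]
  rw [← biUnion_associatedPrimes_eq_zero_divisors] at h1
  rw [Set.mem_iUnion₂] at h1
  obtain ⟨P, hP, h2⟩ := h1
  exact ht (Sum.inl ⟨i, P, hP⟩) h2

theorem thm0 : stGen0.{u} := by
  intro K _ _ ℓ q U hU
  exact avoid72 U hU

end Pool.Agent.Lib.MP_fe1391_co.Quad51.Gen
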