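import Pool.Agent.Lib.MP_fe1391_co.Quad51.Stmts

/-!
KOS: the Koszul argument (helper70).
-/

set_option autoImplicit false

namespace Pool.Agent.Lib.MP_fe1391_co.Quad51.Kos

universe u

theorem thm : stKos.{u} := by
  intro A _ _ f hreg P _ _ htf M φ n E hM hE hφE hind hker z hz
  obtain ⟨h1, h2, h3⟩ := hreg
  have hf0 : f 0 ≠ 0 := by
    intro h
    have := h1 1 (by rw [h, zero_mul])
    exact one_ne_zero this
  choose v hv hvz using hz
  -- syzygies
  have hs : ∀ i j : Fin 3, ∃ c : Fin n → A, f j • v i - f i • v j = ∑ k, c k • E k := by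
    intro i j
    refine hker _ (Submodule.sub_mem _ (Submodule.smul_mem _ _ (hv i))
      (Submodule.smul_mem _ _ (hv j))) ?_
    rw [map_sub, map_smul, map_smul, hvz, hvz, smul_smul, smul_smul, mul_comm, sub_self]
  obtain ⟨p01, h01⟩ := hs 0 1
  obtain ⟨p02, h02⟩ := hs 0 2
  obtain ⟨p12, h12⟩ := hs 1 2
  have hrel : ∀ k, f 2 * p01 k - f 1 * p02 k + f 0 * p12 k = 0 := by
    suffices h : (fun k => f 2 * p01 k - f 1 * p02 k + f 0 * p12 k) = 0 from fun k => congrFun h k
    apply hind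
    have e1 : ∑ k, (f 2 * p01 k - f 1 * p02 k + f 0 * p12 k) • E k =
        f 2 • ∑ k, p01 k • E k - f 1 • ∑ k, p02 k • E k + f 0 • ∑ k, p12 k • E k := by
      rw [Finset.smul_sum, Finset.smul_sum, Finset.smul_sum, ← Finset.sum_sub_distrib,
        ← Finset.sum_add_distrib]
      refine Finset.sum_congr rfl fun k _ => ?_
      rw [add_smul, sub_smul, mul_smul, mul_smul, mul_smul]
    rw [e1, ← h01, ← h02, ← h12]
    funext i
    simp only [Pi.add_apply, Pi.sub_apply, Pi.smul_apply, smul_eq_mul, Pi.zero_apply]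
    ring
  have hq : ∀ k, ∃ p q, p01 k = f 0 * p + f 1 * q := fun k =>
    h3 (p01 k) (-(p12 k)) (p02 k) (by linear_combination hrel k)
  choose p q hpq using hq
  set w0 : Fin 3 → A := v 0 - ∑ k, q k • E k with hw0
  set w1 : Fin 3 → A := v 1 + ∑ k, p k • E k with hw1
  have hEs : ∀ c : Fin n → A, ∑ k, c k • E k ∈ M := fun c =>
    Submodule.sum_mem _ fun k _ => Submodule.smul_mem _ _ (hE k)
  have hφs : ∀ c : Fin n → A, φ (∑ k, c k • E k) = 0 := by
    intro c
    rw [map_sum]
    refine Finset.sum_eq_zero fun k _ => ?_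
    rw [map_smul, hφE, smul_zero]
  have hw : f 1 • w0 = f 0 • w1 := by
    have e1 : ∑ k, p01 k • E k = f 0 • ∑ k, p k • E k + f 1 • ∑ k, q k • E k := by
      rw [Finset.smul_sum, Finset.smul_sum, ← Finset.sum_add_distrib]
      refine Finset.sum_congr rfl fun k _ => ?_
      rw [hpq k, add_smul, mul_smul, mul_smul]
    rw [e1] at h01
    rw [hw0, hw1, smul_sub, smul_add]
    rw [sub_eq_iff_eq_add] at h01
    rw [h01]
    abel
  have hc : ∀ i, ∃ c, w0 i = f 0 * c := by
    intro i
    refine h2 (w0 i) (w1 i) ?_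
    have := congrFun hw i
    simpa only [Pi.smul_apply, smul_eq_mul] using this
  choose u hu using hc
  have e0 : w0 = f 0 • u := by
    funext i
    rw [Pi.smul_apply, smul_eq_mul, hu i]
  have e1 : w1 = f 1 • u := by
    funext i
    have h4 := congrFun hw i
    rw [e0] at h4
    simp only [Pi.smul_apply, smul_eq_mul] at h4 ⊢
    exact mul_left_cancel₀ hf0 (by rw [← h4]; ring)
  refine ⟨u, hM u ?_ ?_, ?_⟩
  · rw [← e0]
    exact Submodule.sub_mem _ (hv 0) (hEs q)
  · rw [← e1]
    exact Submodule.add_mem _ (hv 1) (hEs p)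
  · have h5 : φ w0 = f 0 • z := by
      rw [hw0, map_sub, hφs, sub_zero, hvz]
    rw [e0, map_smul] at h5
    have h6 : f 0 • (φ u - z) = 0 := by rw [smul_sub, h5, sub_self]
    rcases htf _ _ h6 with h7 | h7
    · exact absurd h7 hf0
    · exact sub_eq_zero.1 h7

end Pool.Agent.Lib.MP_fe1391_co.Quad51.Kos
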