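import Pool.Agent.Lib.MP_fe1391_co.Quad51.Stmts

/-!
ML: growth of the Hilbert function of `K[x_0, x_1, x_2] / J` (helper70).
-/

set_option autoImplicit false

namespace Pool.Agent.Lib.MP_fe1391_co.Quad51.ML

open MvPolynomial Matrix Pool.Agent.Lib.MP_fe1391_co.Tame
open Pool.Agent.Lib.MP_fe1391_co.Thick51

universe u

variable {K : Type u} [Field K] {ℓ : ℕ}

/-! ### pieces of the polynomial ring -/

theorem X_grS70 (i : Fin ℓ) : (X i : S K ℓ) ∈ grS (K := K) (ℓ := ℓ) 1 :=
  grS_of_hom51 (n := 1) (isHomogeneous_X K i)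

theorem fd70 (m : ℤ) : Module.Finite K (grS (K := K) (ℓ := ℓ) m) := (Grad.thmS K ℓ).fin m

theorem fr70 (k : ℕ) : Module.finrank K (grS (K := K) (ℓ := ℓ) (k : ℤ)) = (ℓ + k - 1).choose k := by
  rw [Grad.grS_nat, Grad.finrank_homog]

/-! ### restriction to a hyperplane -/

/-- the section of `sg` -/
noncomputable def io70 (K : Type u) [Field K] (ℓ : ℕ) : S K ℓ →ₐ[K] S K (ℓ + 1) :=
  aeval (fun j : Fin ℓ => X j.castSucc)

theorem sg_castSucc70 (t : Fin ℓ → K) (j : Fin ℓ) : sg t (X j.castSucc) = X j := by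
  unfold sg
  rw [aeval_X, Fin.snoc_castSucc]

theorem sg_last70 (t : Fin ℓ → K) : sg t (X (Fin.last ℓ)) = ∑ j, C (t j) * X j := by
  unfold sg
  rw [aeval_X, Fin.snoc_last]

theorem lin_tau70 (t : Fin ℓ → K) :
    lin (tau t) = X (Fin.last ℓ) - ∑ j, C (t j) * (X j.castSucc : S K (ℓ + 1)) := by
  unfold lin tau
  rw [Fin.sum_univ_castSucc, Fin.snoc_last, C_1, one_mul]
  have : ∀ j : Fin ℓ, (C (Fin.snoc (α := fun _ => K) (fun j => - t j) 1 j.castSucc) *
      (X j.castSucc : S K (ℓ + 1))) = - (C (t j) * X j.castSucc) := by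
    intro j
    rw [Fin.snoc_castSucc, C_neg, neg_mul]
  rw [Finset.sum_congr rfl fun j _ => this j, Finset.sum_neg_distrib]
  ring

theorem sg_lin_tau70 (t : Fin ℓ → K) : sg t (lin (tau t)) = 0 := by
  rw [lin_tau70, map_sub, sg_last70, map_sum, sub_eq_zero]
  refine Finset.sum_congr rfl fun j _ => ?_
  rw [map_mul, sg_castSucc70, MvPolynomial.algHom_C]
  rfl

theorem dvd_sub70 (t : Fin ℓ → K) (f : S K (ℓ + 1)) :
    lin (tau t) ∣ f - io70 K ℓ (sg t f) := by
  induction f using MvPolynomial.induction_on with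
  | C a =>
    rw [MvPolynomial.algHom_C, MvPolynomial.algebraMap_eq, MvPolynomial.algHom_C,
      MvPolynomial.algebraMap_eq, sub_self]
    exact dvd_zero _
  | add p q hp hq =>
    rw [map_add, map_add]
    have : p + q - (io70 K ℓ (sg t p) + io70 K ℓ (sg t q)) =
        (p - io70 K ℓ (sg t p)) + (q - io70 K ℓ (sg t q)) := by ring
    rw [this]
    exact dvd_add hp hq
  | mul_X p i hp =>
    have hX : lin (tau t) ∣ X i - io70 K ℓ (sg t (X i)) := by
      refine Fin.lastCases ?_ (fun j => ?_) i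
      · rw [sg_last70, lin_tau70, map_sum]
        have : ∑ j, io70 K ℓ (C (t j) * X j) = ∑ j, C (t j) * (X j.castSucc : S K (ℓ + 1)) := by
          refine Finset.sum_congr rfl fun j _ => ?_
          rw [map_mul, MvPolynomial.algHom_C, MvPolynomial.algebraMap_eq]
          unfold io70
          rw [aeval_X]
        rw [this]
      · rw [sg_castSucc70]
        unfold io70
        rw [aeval_X, sub_self]
        exact dvd_zero _
    rw [map_mul, map_mul]
    have : p * X i - io70 K ℓ (sg t p) * io70 K ℓ (sg t (X i)) =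
        (p - io70 K ℓ (sg t p)) * X i + io70 K ℓ (sg t p) * (X i - io70 K ℓ (sg t (X i))) := by
      ring
    rw [this]
    exact dvd_add (Dvd.dvd.mul_right hp _) (Dvd.dvd.mul_left hX _)

theorem sg_eq_zero70 (t : Fin ℓ → K) (f : S K (ℓ + 1)) : sg t f = 0 ↔ lin (tau t) ∣ f := by
  constructor
  · intro h
    have := dvd_sub70 t f
    rwa [h, map_zero, sub_zero] at this
  · rintro ⟨g, rfl⟩
    rw [map_mul, sg_lin_tau70, zero_mul]

theorem tau_ne70 (t : Fin ℓ → K) : tau t ≠ 0 := by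
  intro h
  have := congrFun h (Fin.last ℓ)
  unfold tau at this
  rw [Fin.snoc_last, Pi.zero_apply] at this
  exact one_ne_zero this

theorem sg_grS70 (t : Fin ℓ → K) {m : ℤ} {f : S K (ℓ + 1)} (hf : f ∈ grS (K := K) (ℓ := ℓ + 1) m) :
    sg t f ∈ grS (K := K) (ℓ := ℓ) m := by
  rcases lt_or_ge m 0 with hm | hm
  · rw [grS_neg51 hm hf, map_zero]
    exact Submodule.zero_mem _
  · obtain ⟨k, rfl⟩ := Int.eq_ofNat_of_zero_le hm
    have h1 := hom_of_grS51 hf
    refine grS_of_hom51 ?_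
    unfold sg
    have h2 := h1.aeval (Fin.snoc (α := fun _ => S K ℓ) (fun j => X j) (∑ j, C (t j) * X j))
      (n := 1) (fun i => by
        refine Fin.lastCases ?_ (fun j => ?_) i
        · rw [Fin.snoc_last]
          refine IsHomogeneous.sum _ _ _ fun j _ => ?_
          have := (isHomogeneous_C (Fin ℓ) (t j)).mul (isHomogeneous_X K j)
          rwa [zero_add] at this
        · rw [Fin.snoc_castSucc]
          exact isHomogeneous_X K j)
    rwa [one_mul] at h2

/-! ### dimensions -/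

theorem finrank_map70 {E E' : Type*} [AddCommGroup E] [Module K E] [AddCommGroup E'] [Module K E']
    (f : E →ₗ[K] E') (W : Submodule K E) [Module.Finite K W] :
    Module.finrank K (W.map f) + Module.finrank K (W ⊓ LinearMap.ker f : Submodule K E) =
      Module.finrank K W := by
  have h1 := LinearMap.finrank_range_add_finrank_ker (f.domRestrict W)
  have h2 : LinearMap.range (f.domRestrict W) = W.map f := by
    ext x
    constructor
    · rintro ⟨y, rfl⟩
      exact ⟨y.1, y.2, rfl⟩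
    · rintro ⟨y, hy, rfl⟩
      exact ⟨⟨y, hy⟩, rfl⟩
  have h3 : Module.finrank K (LinearMap.ker (f.domRestrict W)) =
      Module.finrank K (W ⊓ LinearMap.ker f : Submodule K E) := by
    rw [← Submodule.finrank_map_subtype_eq W (LinearMap.ker (f.domRestrict W))]
    have hE : (LinearMap.ker (f.domRestrict W)).map W.subtype = W ⊓ LinearMap.ker f := by
      ext x
      constructor
      · rintro ⟨y, hy, rfl⟩
        exact ⟨y.2, hy⟩
      · rintro ⟨hx, hx2⟩
        exact ⟨⟨x, hx⟩, hx2, rfl⟩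
    rw [hE]
  rw [h2, h3] at h1
  exact h1

/-- multiplication by `y` -/
noncomputable def ml70 (y : S K ℓ) : S K ℓ →ₗ[K] S K ℓ := LinearMap.mulLeft K y

theorem ml_apply70 (y f : S K ℓ) : ml70 y f = y * f := rfl

theorem ml_inj70 {y : S K ℓ} (hy : y ≠ 0) : Function.Injective (ml70 y) := by
  intro a b h
  exact mul_left_cancel₀ hy h

theorem finrank_ml70 {y : S K ℓ} (hy : y ≠ 0) (W : Submodule K (S K ℓ)) :
    Module.finrank K (W.map (ml70 y)) = Module.finrank K W :=
  (Submodule.equivMapOfInjective (ml70 y) (ml_inj70 hy) W).finrank_eq.symm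

/-- the colon ideal -/
noncomputable def col70 (J : ℤ → Submodule K (S K 3)) (y : S K 3) (m : ℤ) :
    Submodule K (S K 3) := grS m ⊓ (J (m + 1)).comap (ml70 y)

theorem col_GI70 {J : ℤ → Submodule K (S K 3)} (hJ : GI J) (y : S K 3) : GI (col70 J y) := by
  refine ⟨fun m => inf_le_left, fun m f i hf => ⟨?_, ?_⟩⟩
  · have := grS_mul51 (X_grS70 (K := K) i) hf.1
    rwa [add_comm 1 m] at this
  · show y * (X i * f) ∈ J (m + 1 + 1)
    have h1 : y * f ∈ J (m + 1) := hf.2
    have h2 := hJ.2 (m + 1) (y * f) i h1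
    have h3 : y * (X i * f) = X i * (y * f) := by ring
    rw [h3]
    exact h2

theorem fin70 {J : ℤ → Submodule K (S K ℓ)} (hJ : ∀ m, J m ≤ grS m) (m : ℤ) :
    Module.Finite K (J m) := by
  have := fd70 (K := K) (ℓ := ℓ) m
  exact Submodule.finiteDimensional_of_le (hJ m)

theorem dim70 {J : ℤ → Submodule K (S K 3)} (hJ : GI J) (t : Fin 2 → K) (m : ℤ) :
    Module.finrank K ((J m).map (sg t).toLinearMap) +
      Module.finrank K (col70 J (lin (tau t)) (m - 1)) = Module.finrank K (J m) := by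
  have := fin70 hJ.1 m
  rw [← finrank_map70 (sg t).toLinearMap (J m), ← finrank_ml70 (Pair.lin_ne_zero (tau_ne70 t))
    (col70 J (lin (tau t)) (m - 1))]
  suffices hE : (col70 J (lin (tau t)) (m - 1)).map (ml70 (lin (tau t))) =
      J m ⊓ LinearMap.ker (sg t).toLinearMap by rw [hE]
  ext f
  constructor
  · rintro ⟨h, ⟨h1, h2⟩, rfl⟩
    refine ⟨?_, ?_⟩
    · have h3 : lin (tau t) * h ∈ J (m - 1 + 1) := h2
      rw [sub_add_cancel] at h3
      exact h3
    · show sg t (lin (tau t) * h) = 0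
      rw [map_mul, sg_lin_tau70, zero_mul]
  · rintro ⟨h1, h2⟩
    obtain ⟨g, hg⟩ := (sg_eq_zero70 t f).1 h2
    have h3 : f ∈ grS (K := K) (ℓ := 3) m := hJ.1 m h1
    refine ⟨g, ⟨?_, ?_⟩, hg.symm⟩
    · rw [hg] at h3
      exact grS_div51 (Pair.lin_ne_zero (tau_ne70 t)) (lin_grS51 _) h3
    · show lin (tau t) * g ∈ J (m - 1 + 1)
      rw [sub_add_cancel, ← hg]
      exact h1

/-! ### two variables -/

theorem exists_eval70 [Infinite K] {f : S K (ℓ + 1)} (hf : f ≠ 0) :
    ∃ P : Fin (ℓ + 1) → K, eval P f ≠ 0 ∧ P 0 ≠ 0 := by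
  have h1 : f * X 0 ≠ 0 := mul_ne_zero hf (X_ne_zero 0)
  by_contra h
  push Not at h
  apply h1
  apply MvPolynomial.funext
  intro P
  rw [map_mul, eval_X, map_zero]
  by_cases hP : eval P f = 0
  · rw [hP, zero_mul]
  · rw [h P hP, mul_zero]

theorem f2_70 [Infinite K] {J : ℤ → Submodule K (S K 2)} (h1 : ∀ m, J m ≤ grS m)
    (h2 : ∀ m f (i : Fin 2), f ∈ J m → X i * f ∈ J (m + 1)) (m : ℤ) (hne : J (m + 1) ≠ ⊥) :
    Module.finrank K (J m) + 1 ≤ Module.finrank K (J (m + 1)) := by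
  have := fin70 h1 m
  have := fin70 h1 (m + 1)
  by_cases h0 : J m = ⊥
  · rw [h0, finrank_bot, zero_add]
    exact Submodule.one_le_finrank_iff.2 hne
  · obtain ⟨f, hf, hf0⟩ := (Submodule.ne_bot_iff _).1 h0
    obtain ⟨P, hP, hP0⟩ := exists_eval70 hf0
    set z : S K 2 := C (P 1) * X 0 - C (P 0) * X 1 with hz
    have hzP : eval P z = 0 := by
      rw [hz, map_sub, map_mul, map_mul, eval_C, eval_C, eval_X, eval_X]
      ring
    have hz0 : z ≠ 0 := by
      intro h
      have h3 := congrArg (eval (![0, 1] : Fin 2 → K)) h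
      rw [hz, map_sub, map_mul, map_mul, eval_C, eval_C, eval_X, eval_X, map_zero] at h3
      simp at h3
      exact hP0 h3
    rw [← finrank_ml70 hz0 (J m)]
    refine Submodule.finrank_lt_finrank_of_lt (lt_of_le_of_ne ?_ ?_)
    · rintro g ⟨u, hu, rfl⟩
      show z * u ∈ J (m + 1)
      have e : z * u = P 1 • (X 0 * u) - P 0 • (X 1 * u) := by
        rw [smul_eq_C_mul, smul_eq_C_mul, hz]
        ring
      rw [e]
      exact Submodule.sub_mem _ (Submodule.smul_mem _ _ (h2 m u 0 hu))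
        (Submodule.smul_mem _ _ (h2 m u 1 hu))
    · intro he
      have h3 : X 0 * f ∈ (J m).map (ml70 z) := by
        rw [he]
        exact h2 m f 0 hf
      obtain ⟨u, _, hu⟩ := h3
      have h4 := congrArg (eval P) hu
      rw [ml_apply70, map_mul, hzP, zero_mul, map_mul, eval_X] at h4
      exact mul_ne_zero hP0 hP h4.symm

theorem exists_t70 [Infinite K] {f : S K 3} (hf : f ≠ 0) : ∃ t : Fin 2 → K, sg t f ≠ 0 := by
  obtain ⟨P, hP, hP0⟩ := exists_eval70 hf
  refine ⟨![P 2 / P 0, 0], fun h => hP ?_⟩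
  have e : (aeval (![P 0, P 1] : Fin 2 → K) : S K 2 →ₐ[K] K).comp (sg ![P 2 / P 0, 0]) =
      aeval P := by
    refine MvPolynomial.algHom_ext fun i => ?_
    rw [AlgHom.comp_apply, aeval_X]
    refine Fin.lastCases ?_ (fun j => ?_) i
    · rw [sg_last70, map_sum]
      simp [Fin.sum_univ_two]
      rw [div_mul_cancel₀ _ hP0]
    · rw [sg_castSucc70, aeval_X]
      fin_cases j
      · rfl
      · rfl
  have h2 := congrArg (fun φ : S K 3 →ₐ[K] K => φ f) e
  simp only [AlgHom.comp_apply] at h2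
  rw [h, map_zero] at h2
  rw [← MvPolynomial.coe_aeval_eq_eval]
  exact h2.symm

/-! ### the growth lemma -/

theorem sum_le70 (g : ℕ) (k : ℕ) :
    ∑ j ∈ Finset.range (k + 1), min (g : ℤ) (j + 1) ≤ c2 k := by
  induction k with
  | zero =>
    rw [Finset.sum_range_one]
    refine (min_le_right _ _).trans ?_
    simp [c2]
  | succ k ih =>
    rw [Finset.sum_range_succ]
    have h1 : c2 ((k + 1 : ℕ) : ℤ) = c2 (k : ℤ) + (k + 2) := by
      unfold c2
      rw [if_pos (by positivity), if_pos (by positivity), Int.toNat_natCast, Int.toNat_natCast]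
      have : (k + 1 + 2).choose 2 = (k + 2).choose 2 + (k + 2) := by
        rw [Nat.choose_succ_succ' (k + 2) 1, Nat.choose_one_right]
        ring
      rw [this]
      push_cast
      ring
    rw [h1]
    have h2 := min_le_right (g : ℤ) (((k + 1 : ℕ) : ℤ) + 1)
    push_cast at h2 ⊢
    linarith

theorem c2_step70 (k : ℕ) : c2 (k : ℤ) = (k + 1) + c2 ((k : ℤ) - 1) := by
  unfold c2
  cases k with
  | zero => simp
  | succ k =>
    rw [if_pos (by positivity), if_pos (by push_cast; omega), Int.toNat_natCast]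
    have e : (((k + 1 : ℕ) : ℤ) - 1).toNat = k := by push_cast; omega
    rw [e]
    have : (k + 1 + 2).choose 2 = (k + 2).choose 2 + (k + 2) := by
      rw [Nat.choose_succ_succ' (k + 2) 1, Nat.choose_one_right]
      ring
    rw [this]
    push_cast
    ring

/-- one step -/
theorem step70 [Infinite K] (k : ℕ) (J : ℤ → Submodule K (S K 3)) (hJ : GI J) (g : ℕ)
    (h : cd J k + g ≤ cd J (k + 1)) (hne : J (k + 1) ≠ ⊥) :
    ∃ J' : ℤ → Submodule K (S K 3), GI J' ∧ cd J' ((k : ℤ) - 1) + g ≤ cd J' k ∧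
      cd J' ((k : ℤ) - 1) + min (g : ℤ) (k + 1) ≤ cd J k := by
  obtain ⟨f, hf, hf0⟩ := (Submodule.ne_bot_iff _).1 hne
  obtain ⟨t, ht⟩ := exists_t70 hf0
  set Jb : ℤ → Submodule K (S K 2) := fun m => (J m).map (sg t).toLinearMap with hJb
  have hb1 : ∀ m, Jb m ≤ grS m := by
    rintro m _ ⟨u, hu, rfl⟩
    exact sg_grS70 t (hJ.1 m hu)
  have hb2 : ∀ m f (i : Fin 2), f ∈ Jb m → X i * f ∈ Jb (m + 1) := by
    rintro m _ i ⟨u, hu, rfl⟩
    refine ⟨X i.castSucc * u, hJ.2 m u _ hu, ?_⟩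
    show sg t (X i.castSucc * u) = X i * sg t u
    rw [map_mul, sg_castSucc70]
  have hbne : Jb ((k : ℤ) + 1) ≠ ⊥ := by
    rw [Submodule.ne_bot_iff]
    exact ⟨sg t f, ⟨f, hf, rfl⟩, ht⟩
  have hF2 := f2_70 hb1 hb2 (k : ℤ) hbne
  set J' := col70 J (lin (tau t)) with hJ'
  have hGI := col_GI70 hJ (lin (tau t))
  have d1 := dim70 hJ t (k : ℤ)
  have d2 := dim70 hJ t ((k : ℤ) + 1)
  rw [add_sub_cancel_right] at d2
  have hle : Module.finrank K (J k) ≤ Module.finrank K (J' k) := by
    have := fin70 hGI.1 (k : ℤ)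
    refine Submodule.finrank_mono ?_
    intro u hu
    refine ⟨hJ.1 _ hu, ?_⟩
    show lin (tau t) * u ∈ J (k + 1)
    unfold lin
    rw [Finset.sum_mul]
    refine Submodule.sum_mem _ fun i _ => ?_
    rw [mul_assoc, ← smul_eq_C_mul]
    exact Submodule.smul_mem _ _ (hJ.2 k u i hu)
  have c1 := c2_step70 k
  have c1' := c2_step70 (k + 1)
  have e1 : ((k + 1 : ℕ) : ℤ) = (k : ℤ) + 1 := by push_cast; ring
  rw [e1, add_sub_cancel_right] at c1'
  refine ⟨J', hGI, ?_, ?_⟩
  · unfold cd at h ⊢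
    have m1 : (Module.finrank K (Jb k) : ℤ) + 1 ≤ Module.finrank K (Jb ((k : ℤ) + 1)) := by
      exact_mod_cast hF2
    have m2 : (Module.finrank K (Jb k) : ℤ) + Module.finrank K (J' ((k : ℤ) - 1)) =
      Module.finrank K (J k) := by exact_mod_cast d1
    have m3 : (Module.finrank K (Jb ((k : ℤ) + 1)) : ℤ) + Module.finrank K (J' k) =
      Module.finrank K (J ((k : ℤ) + 1)) := by exact_mod_cast d2
    linarith
  · refine (add_le_add_right (min_le_left _ _) _).trans ?_
    unfold cd at h ⊢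
    have m1 : (Module.finrank K (Jb k) : ℤ) + 1 ≤ Module.finrank K (Jb ((k : ℤ) + 1)) := by
      exact_mod_cast hF2
    have m2 : (Module.finrank K (Jb k) : ℤ) + Module.finrank K (J' ((k : ℤ) - 1)) =
      Module.finrank K (J k) := by exact_mod_cast d1
    have m3 : (Module.finrank K (Jb ((k : ℤ) + 1)) : ℤ) + Module.finrank K (J' k) =
      Module.finrank K (J ((k : ℤ) + 1)) := by exact_mod_cast d2
    have m4 : (Module.finrank K (J k) : ℤ) ≤ Module.finrank K (J' k) := by exact_mod_cast hle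
    linarith

theorem bot70 {J : ℤ → Submodule K (S K 3)} (hJ : GI J) (m : ℤ) (h : J (m + 1) = ⊥) :
    J m = ⊥ := by
  rw [Submodule.eq_bot_iff]
  intro u hu
  have h1 := hJ.2 m u 0 hu
  rw [h, Submodule.mem_bot] at h1
  rcases mul_eq_zero.1 h1 with h2 | h2
  · exact absurd h2 (X_ne_zero 0)
  · exact h2

theorem main70 [Infinite K] (k : ℕ) : ∀ J : ℤ → Submodule K (S K 3), GI J → ∀ g : ℕ, 1 ≤ g →
    cd J k + g ≤ cd J (k + 1) → ∑ j ∈ Finset.range (k + 1), min (g : ℤ) (j + 1) ≤ cd J k := by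
  induction k with
  | zero =>
    intro J hJ g hg h
    by_cases hne : J ((0 : ℕ) + 1) = ⊥
    · have h0 := bot70 hJ _ hne
      unfold cd
      rw [h0, finrank_bot]
      have := sum_le70 g 0
      simpa using this
    · obtain ⟨J', hJ', _, h2⟩ := step70 0 J hJ g h hne
      have h3 : cd J' (((0 : ℕ) : ℤ) - 1) = 0 := by
        unfold cd
        have h4 : J' (((0 : ℕ) : ℤ) - 1) = ⊥ := by
          rw [Submodule.eq_bot_iff]
          intro u hu
          exact grS_neg51 (by norm_num) (hJ'.1 _ hu)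
        rw [h4, finrank_bot]
        simp [c2]
      rw [h3, zero_add] at h2
      rw [Finset.sum_range_one]
      exact h2
  | succ k ih =>
    intro J hJ g hg h
    by_cases hne : J (((k + 1 : ℕ) : ℤ) + 1) = ⊥
    · have h0 := bot70 hJ _ hne
      unfold cd
      rw [h0, finrank_bot]
      have := sum_le70 g (k + 1)
      simpa using this
    · obtain ⟨J', hJ', h1, h2⟩ := step70 (k + 1) J hJ g h hne
      have e1 : ((k + 1 : ℕ) : ℤ) - 1 = (k : ℤ) := by push_cast; ring
      have e2 : ((k + 1 : ℕ) : ℤ) = (k : ℤ) + 1 := by push_cast; ring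
      rw [e1] at h1 h2
      rw [e2] at h1
      have h3 := ih J' hJ' g hg h1
      rw [Finset.sum_range_succ]
      linarith

theorem thm : stML.{u} := by
  intro K _ _ J hJ k g hg h
  exact main70 k J hJ g hg h

end Pool.Agent.Lib.MP_fe1391_co.Quad51.ML
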