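import Pool.Agent.Lib.MP_fe1391_co.Quad51.Bar

/-!
# The numerical part
-/

set_option autoImplicit false

namespace Pool.Agent.Lib.MP_fe1391_co.Quad51

open MvPolynomial Matrix Pool.Agent.Lib.MP_fe1391_co.Tame

universe u

theorem c2_neg51 {n : ℤ} (h : n < 0) : c2 n = 0 := by
  rw [c2, if_neg (not_le.2 h)]

theorem c3_neg51 {n : ℤ} (h : n < 0) : c3 n = 0 := by
  rw [c3, if_neg (not_le.2 h)]

theorem c2_nat51 (n : ℕ) : 2 * c2 (n : ℤ) = ((n : ℤ) + 2) * (n + 1) := by
  rw [c2, if_pos (by positivity), Int.toNat_natCast]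
  have h1 : (n + 2).choose 2 * 2 = (n + 2) * (n + 1) := by
    rw [Nat.choose_two_right]
    have : 2 ∣ (n + 2) * (n + 2 - 1) := by
      have h2 : (n + 2) * (n + 2 - 1) = (n + 1) * (n + 1 + 1) := by
        rw [show n + 2 - 1 = n + 1 by omega]
        ring
      rw [h2]
      exact (Nat.even_mul_succ_self (n + 1)).two_dvd
    rw [Nat.div_mul_cancel this]
    rfl
  have h2 := congrArg (fun x : ℕ => (x : ℤ)) h1
  push_cast at h2 ⊢
  linarith

theorem c2_dbl51 {n : ℤ} (h : -2 ≤ n) : 2 * c2 n = (n + 2) * (n + 1) := by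
  rcases lt_or_ge n 0 with h0 | h0
  · rw [c2_neg51 h0]
    have : n = -2 ∨ n = -1 := by omega
    rcases this with rfl | rfl <;> norm_num
  · obtain ⟨k, rfl⟩ := Int.eq_ofNat_of_zero_le h0
    exact c2_nat51 k

theorem c2_diff51 (n : ℤ) : c2 n - c2 (n - 1) = max (n + 1) 0 := by
  rcases lt_or_ge n (-1) with h0 | h0
  · rw [c2_neg51 (by omega), c2_neg51 (by omega), max_eq_right (by omega), sub_self]
  · have h1 := c2_dbl51 (n := n) (by omega)
    have h2 := c2_dbl51 (n := n - 1) (by omega)
    rw [max_eq_left (by omega)]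
    linarith

theorem c3_nat51 (n : ℕ) : c3 (n : ℤ) = (((n + 3).choose 3 : ℕ) : ℤ) := by
  rw [c3, if_pos (by positivity), Int.toNat_natCast]

theorem c3_diff51 (n : ℤ) : c3 n - c3 (n - 1) = c2 n := by
  rcases lt_or_ge n 0 with h0 | h0
  · rw [c3_neg51 h0, c3_neg51 (by omega), c2_neg51 h0, sub_self]
  · obtain ⟨k, rfl⟩ := Int.eq_ofNat_of_zero_le h0
    cases k with
    | zero =>
      rw [c3_neg51 (n := ((0 : ℕ) : ℤ) - 1) (by norm_num), c3_nat51]
      rw [c2, if_pos (by norm_num)]
      norm_num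
    | succ k =>
      have e : (((k + 1 : ℕ) : ℤ)) - 1 = (k : ℤ) := by push_cast; ring
      rw [e, c3_nat51, c3_nat51, c2, if_pos (by positivity), Int.toNat_natCast]
      have h1 : (k + 1 + 3).choose 3 = (k + 3).choose 2 + (k + 3).choose 3 :=
        Nat.choose_succ_succ' (k + 3) 2
      rw [h1]
      have e2 : k + 1 + 2 = k + 3 := by ring
      rw [e2]
      push_cast
      ring

section Ideal

variable {K : Type u} [Field K] {J : ℤ → Submodule K (S K 3)}

theorem cd_nonneg51 (hJ : GI J) (m : ℤ) : 0 ≤ cd J m := by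
  rw [cd, ← c2_eq51 (K := K)]
  have := Submodule.finrank_mono (hJ.1 m)
  omega

theorem cd_neg51 (hJ : GI J) {m : ℤ} (hm : m < 0) : cd J m = 0 := by
  have h1 : J m = ⊥ := by
    rw [eq_bot_iff, ← Grad.grS_of_neg hm]
    exact hJ.1 m
  rw [cd, c2_neg51 hm, h1, finrank_bot]
  rfl

/-- a graded ideal which is everything in one degree is everything in the next -/
theorem cd_succ51 (hJ : GI J) {m : ℤ} (hm : 0 ≤ m) (h : cd J m = 0) : cd J (m + 1) = 0 := by
  have h1 : J m = grS (K := K) (ℓ := 3) m := by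
    apply Submodule.eq_of_le_of_finrank_eq (hJ.1 m)
    rw [cd, ← c2_eq51 (K := K)] at h
    omega
  have h2 : J (m + 1) = grS (K := K) (ℓ := 3) (m + 1) := by
    apply le_antisymm (hJ.1 (m + 1))
    obtain ⟨n, rfl⟩ := Int.eq_ofNat_of_zero_le hm
    intro p hp
    have hp' : p.IsHomogeneous (n + 1) := by
      have := Thick51.hom_of_grS51 (n := n + 1) (K := K) (ℓ := 3) (a := p) (by
        push_cast
        exact hp)
      exact this
    rw [p.as_sum]
    refine Submodule.sum_mem _ fun s hs => ?_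
    have hs1 : coeff s p ≠ 0 := MvPolynomial.mem_support_iff.1 hs
    have hs2 := hp' hs1
    have hs0 : s ≠ 0 := by
      rintro rfl
      rw [map_zero] at hs2
      omega
    obtain ⟨i, hi⟩ := Finsupp.ne_iff.1 hs0
    have hi1 : Finsupp.single i 1 ≤ s := by
      rw [Finsupp.single_le_iff]
      exact Nat.one_le_iff_ne_zero.2 hi
    have hmon : monomial s (coeff s p) = X i * monomial (s - Finsupp.single i 1) (coeff s p) := by
      rw [X, monomial_mul, one_mul, add_tsub_cancel_of_le hi1]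
    rw [hmon]
    apply hJ.2
    rw [h1]
    apply Thick51.grS_of_hom51
    apply isHomogeneous_monomial
    have hs3 : Finsupp.degree s = n + 1 := by
      rw [Finsupp.degree_eq_weight_one]
      exact hs2
    have hs4 : s = Finsupp.single i 1 + (s - Finsupp.single i 1) := by
      rw [add_tsub_cancel_of_le hi1]
    have hs5 := congrArg Finsupp.degree hs4
    rw [map_add, Finsupp.degree_single, hs3] at hs5
    omega
  rw [cd, h2, c2_eq51, sub_self]

theorem cd_all51 (hJ : GI J) {m : ℤ} (hm : 0 ≤ m) (h : cd J m = 0) : ∀ k ≥ m, cd J k = 0 := by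
  intro k hk
  obtain ⟨n, hn⟩ := Int.eq_ofNat_of_zero_le (by omega : 0 ≤ k - m)
  obtain rfl : k = m + n := by omega
  clear hn hk
  induction n with
  | zero => simpa using h
  | succ n ih =>
    have := cd_succ51 hJ (m := m + n) (by omega) ih
    push_cast
    rwa [← add_assoc]

end Ideal

theorem V_diff51 (a m : ℤ) : (c2 m - c2 (m - 1 - a)) - (c2 (m - 1) - c2 (m - 1 - 1 - a)) =
    max (m + 1) 0 - max (m - a) 0 := by
  have h1 := c2_diff51 m
  have h2 := c2_diff51 (m - 1 - a)
  have e : m - 1 - a - 1 = m - 1 - 1 - a := by ring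
  have e2 : m - 1 - a + 1 = m - a := by ring
  rw [e, e2] at h2
  linarith

theorem V_mono51 {a : ℤ} (ha : 0 ≤ a) (m : ℤ) (k : ℕ) :
    c2 (m - k) - c2 (m - k - 1 - a) ≤ c2 m - c2 (m - 1 - a) := by
  induction k with
  | zero => simp
  | succ k ih =>
    refine le_trans ?_ ih
    have h1 := V_diff51 a (m - k)
    have h2 : max (m - k - a) 0 ≤ max (m - k + 1) 0 := by
      apply max_le_max _ le_rfl
      omega
    have e : m - ((k + 1 : ℕ) : ℤ) = m - k - 1 := by push_cast; ring
    rw [e]
    linarith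

theorem min_add51 {x y z d : ℤ} (hz0 : 0 ≤ z) (hx : 0 ≤ x) (hy : 0 ≤ y) (hd : d ≤ x + y)
    (hz : z ≤ d) :
    z ≤ min x z + min y z := by
  rcases le_total x z with h1 | h1 <;> rcases le_total y z with h2 | h2
  · rw [min_eq_left h1, min_eq_left h2]
    omega
  · rw [min_eq_left h1, min_eq_right h2]
    omega
  · rw [min_eq_right h1, min_eq_left h2]
    omega
  · rw [min_eq_right h1, min_eq_right h2]
    omega

theorem sum_tri51 (n : ℕ) : 2 * ∑ j ∈ Finset.range n, ((j : ℤ) + 1) = (n : ℤ) * (n + 1) := by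
  induction n with
  | zero => simp
  | succ n ih =>
    rw [Finset.sum_range_succ, mul_add, ih]
    push_cast
    ring

/-- NUM -/
theorem num51 (hML : stML.{u}) : stNum.{u} := by
  intro K _ _ h1 h2 ν a b c g J I hJ hI ha hb hbc hν hg H1 H2 Sym
  -- the formula for `vv` in low degrees
  have F : ∀ m ≤ a + c + 1, vv ν h1 h2 m = c2 m - (c2 (m - 1 - a) + (c2 (m - 1 - b) -
      cd J (m - 1 - b)) + (c2 (m - 1 - c) - cd I (m - 1 - c))) + c2 (m - 2 - (a + b)) := by
    intro m hm
    have e1 := H1 (m - 1)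
    have e2 := H2 (m - 2) (by omega)
    have e3 := H2 (m - 3) (by omega)
    have e4 := c3_diff51 (m - 2 - (a + b))
    have e5 := c2_neg51 (n := m - ν - 3) (by omega)
    have e6 : m - 1 - 1 = m - 2 := by ring
    have e7 : m - 2 - (a + b) - 1 = m - 3 - (a + b) := by ring
    rw [e6] at e1
    rw [e7] at e4
    rw [vv, e1, e2, e3, e5, e4]
    ring
  have G : ∀ m ≤ b, vv ν h1 h2 m = c2 m - c2 (m - 1 - a) := by
    intro m hm
    rw [F m (by omega), c2_neg51 (n := m - 1 - b) (by omega), cd_neg51 hJ (by omega),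
      c2_neg51 (n := m - 1 - c) (by omega), cd_neg51 hI (by omega),
      c2_neg51 (n := m - 2 - (a + b)) (by omega)]
    ring
  obtain ⟨gn, rfl⟩ := Int.eq_ofNat_of_zero_le hg
  -- the two relations
  have T1 : cd J (a + c - b) + cd I a = vv ν h1 h2 (b - 1 - gn) - c2 (a + c + 1) + c2 c +
      c2 (a + c - b) + c2 a - c2 (c - b - 1) := by
    have e1 := F (a + c + 1) le_rfl
    rw [Sym (a + c + 1)] at e1
    have e2 : ν - gn - (a + c + 1) = b - 1 - gn := by omega
    have e3 : a + c + 1 - 1 - a = c := by ring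
    have e4 : a + c + 1 - 1 - b = a + c - b := by ring
    have e5 : a + c + 1 - 1 - c = a := by ring
    have e6 : a + c + 1 - 2 - (a + b) = c - b - 1 := by ring
    rw [e2, e3, e4, e5, e6] at e1
    rw [e1]
    ring
  have T0 : cd J (a + c - b - 1) + cd I (a - 1) = vv ν h1 h2 (b - gn) - c2 (a + c) + c2 (c - 1) +
      c2 (a + c - b - 1) + c2 (a - 1) - c2 (c - b - 2) := by
    have e1 := F (a + c) (by omega)
    rw [Sym (a + c)] at e1
    have e2 : ν - gn - (a + c) = b - gn := by omega
    have e3 : a + c - 1 - a = c - 1 := by ring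
    have e4 : a + c - 1 - b = a + c - b - 1 := by ring
    have e5 : a + c - 1 - c = a - 1 := by ring
    have e6 : a + c - 2 - (a + b) = c - b - 2 := by ring
    rw [e2, e3, e4, e5, e6] at e1
    rw [e1]
    ring
  have p1 := c2_dbl51 (n := a + c + 1) (by omega)
  have p2 := c2_dbl51 (n := c) (by omega)
  have p3 := c2_dbl51 (n := a + c - b) (by omega)
  have p4 := c2_dbl51 (n := a) (by omega)
  have p5 := c2_dbl51 (n := c - b - 1) (by omega)
  have q1 := c2_dbl51 (n := a + c) (by omega)
  have q2 := c2_dbl51 (n := c - 1) (by omega)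
  have q3 := c2_dbl51 (n := a + c - b - 1) (by omega)
  have q4 := c2_dbl51 (n := a - 1) (by omega)
  have q5 := c2_dbl51 (n := c - b - 2) (by omega)
  have T1' : 2 * (cd J (a + c - b) + cd I a) = 2 * vv ν h1 h2 (b - 1 - gn) +
      (a - b + 1) * (a - b) - (b + 1) * b := by
    rw [T1]
    linarith [p1, p2, p3, p4, p5]
  have T0' : 2 * (cd J (a + c - b - 1) + cd I (a - 1)) = 2 * vv ν h1 h2 (b - gn) +
      (a - b) * (a - b - 1) - (b + 2) * (b + 1) := by
    rw [T0]
    linarith [q1, q2, q3, q4, q5]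
  have y0 := cd_nonneg51 hJ (a + c - b)
  have s0 := cd_nonneg51 hI a
  have y1 := cd_nonneg51 hJ (a + c - b - 1)
  have s1 := cd_nonneg51 hI (a - 1)
  have hv1 : vv ν h1 h2 (b - 1 - gn) ≤ c2 (b - 1) - c2 (b - 1 - 1 - a) := by
    rw [G _ (by omega)]
    exact V_mono51 ha (b - 1) gn
  have hv0 : vv ν h1 h2 (b - gn) ≤ c2 b - c2 (b - 1 - a) := by
    rw [G _ (by omega)]
    exact V_mono51 ha b gn
  rcases le_or_gt a b with hab | hab
  · have r1 := c2_dbl51 (n := b - 1) (by omega)
    have r2 := c2_dbl51 (n := b - 1 - 1 - a) (by omega)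
    have hT : 2 * (cd J (a + c - b) + cd I a) ≤ 0 := by
      rw [T1']
      linarith [hv1, r1, r2]
    have hy : cd J (a + c - b) = 0 := by omega
    have hs : cd I a = 0 := by omega
    exact ⟨⟨a + c - b, cd_all51 hJ (by omega) hy⟩, ⟨a, cd_all51 hI ha hs⟩⟩
  · exfalso
    have r1 := c2_dbl51 (n := b) (by omega)
    have r2 := c2_neg51 (n := b - 1 - a) (by omega)
    have hT0 : 2 * (cd J (a + c - b - 1) + cd I (a - 1)) ≤ (a - b) * (a - b - 1) := by
      rw [T0']
      rw [r2] at hv0
      linarith [hv0, r1]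
    have hdiff : vv ν h1 h2 (b - gn) - vv ν h1 h2 (b - 1 - gn) ≤ b + 1 := by
      rw [G _ (by omega), G _ (by omega)]
      have e1 := V_diff51 a (b - gn)
      have e2 : b - (gn : ℤ) - 1 = b - 1 - gn := by ring
      rw [e2] at e1
      have e3 : b - 1 - (gn : ℤ) - 1 - a = b - 1 - gn - 1 - a := rfl
      have e4 : b - (gn : ℤ) - 1 - a = b - 1 - gn - a := by ring
      have e5 : max (b - (gn : ℤ) + 1) 0 ≤ b + 1 := by
        apply max_le <;> omega
      have e6 : 0 ≤ max (b - (gn : ℤ) - a) 0 := le_max_right _ _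
      rw [e2]
      linarith
    have hgrow : (a - b) ≤ (cd J (a + c - b) - cd J (a + c - b - 1)) +
        (cd I a - cd I (a - 1)) := by
      have : 2 * (a - b) ≤ 2 * ((cd J (a + c - b) - cd J (a + c - b - 1)) +
        (cd I a - cd I (a - 1))) := by
        linarith [T1', T0', hdiff]
      linarith
    obtain ⟨n, hn⟩ := Int.eq_ofNat_of_zero_le (by omega : 0 ≤ a - b)
    have hn1 : 1 ≤ n := by omega
    -- the two lower bounds
    have low : ∀ (L : ℤ → Submodule K (S K 3)), GI L → ∀ k : ℤ, (n : ℤ) - 1 ≤ k →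
        ∑ j ∈ Finset.range n, min (max (cd L (k + 1) - cd L k) 0) ((j : ℤ) + 1) ≤ cd L k := by
      intro L hL k hk
      rcases le_or_gt (cd L (k + 1) - cd L k) 0 with h0 | h0
      · have : ∑ j ∈ Finset.range n, min (max (cd L (k + 1) - cd L k) 0) ((j : ℤ) + 1) = 0 := by
          refine Finset.sum_eq_zero fun j _ => ?_
          rw [max_eq_right h0, min_eq_left (by positivity)]
        rw [this]
        exact cd_nonneg51 hL k
      · obtain ⟨kn, rfl⟩ := Int.eq_ofNat_of_zero_le (by omega : 0 ≤ k)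
        obtain ⟨r, hr⟩ := Int.eq_ofNat_of_zero_le h0.le
        have h3 := hML K L hL kn r (by omega) (by omega)
        refine le_trans ?_ h3
        rw [max_eq_left h0.le, hr]
        apply Finset.sum_le_sum_of_subset_of_nonneg
        · apply Finset.range_subset_range.2
          omega
        · intro j _ _
          apply le_min <;> positivity
    have l1 := low J hJ (a + c - b - 1) (by omega)
    have l2 := low I hI (a - 1) (by omega)
    rw [sub_add_cancel] at l1 l2
    have l3 : ∑ j ∈ Finset.range n, ((j : ℤ) + 1) ≤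
        ∑ j ∈ Finset.range n, min (max (cd J (a + c - b) - cd J (a + c - b - 1)) 0) ((j : ℤ) + 1) +
        ∑ j ∈ Finset.range n, min (max (cd I a - cd I (a - 1)) 0) ((j : ℤ) + 1) := by
      rw [← Finset.sum_add_distrib]
      refine Finset.sum_le_sum fun j hj => ?_
      refine min_add51 (d := n) (by positivity) (le_max_right _ _) (le_max_right _ _) ?_ ?_
      · have m1 := le_max_left (cd J (a + c - b) - cd J (a + c - b - 1)) 0
        have m2 := le_max_left (cd I a - cd I (a - 1)) 0
        omega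
      · have := Finset.mem_range.1 hj
        omega
    have l4 := sum_tri51 n
    rw [hn] at hT0
    have hn2 : (1 : ℤ) ≤ n := by exact_mod_cast hn1
    have l5 : (n : ℤ) * (n + 1) ≤ n * (n - 1) := by
      linarith [l1, l2, l3, l4, hT0]
    have l6 : (n : ℤ) * (n + 1) = n * (n - 1) + 2 * n := by ring
    linarith

end Pool.Agent.Lib.MP_fe1391_co.Quad51
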