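import Pool.Agent.Lib.MP_fe1391_co.Quad51.Num

/-!
# From the Solomon-Terao series to the symmetry of `vv`
-/

set_option autoImplicit false

namespace Pool.Agent.Lib.MP_fe1391_co.Quad51

open MvPolynomial Matrix Pool.Agent.Lib.MP_fe1391_co.Tame
open Pool.Agent.Lib.MP_fe1391_co.Thick51 (geo51 HS51 cf51 cf_nat51 cf_neg51 pal_cf51 cf_big51)

universe u

theorem cf_sub51 (P Q : PowerSeries ℤ) (m : ℤ) : cf51 (P - Q) m = cf51 P m - cf51 Q m := by
  rw [cf51, cf51, cf51]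
  split_ifs
  · rw [map_sub]
  · rw [sub_self]

theorem cf_add51 (P Q : PowerSeries ℤ) (m : ℤ) : cf51 (P + Q) m = cf51 P m + cf51 Q m := by
  rw [cf51, cf51, cf51]
  split_ifs
  · rw [map_add]
  · rw [add_zero]

theorem cf_Xpow51 (P : PowerSeries ℤ) (k : ℕ) (m : ℤ) :
    cf51 (PowerSeries.X ^ k * P) m = cf51 P (m - k) := by
  rcases lt_or_ge m 0 with h | h
  · rw [cf_neg51 _ h, cf_neg51 _ (by omega)]
  · obtain ⟨n, rfl⟩ := Int.eq_ofNat_of_zero_le h
    rw [cf_nat51, mul_comm, PowerSeries.coeff_mul_X_pow']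
    by_cases hk : k ≤ n
    · rw [if_pos hk]
      have : ((n : ℤ) - k) = ((n - k : ℕ) : ℤ) := by omega
      rw [this, cf_nat51]
    · rw [if_neg hk, cf_neg51 _ (by omega)]

theorem cf_X51 (P : PowerSeries ℤ) (m : ℤ) : cf51 (PowerSeries.X * P) m = cf51 P (m - 1) := by
  have := cf_Xpow51 P 1 m
  rwa [pow_one] at this

theorem cf_HS51 (K : Type u) [Field K] (m : ℤ) : cf51 (HS51 K 4) m = c3 m := by
  rcases lt_or_ge m 0 with h | h
  · rw [cf_neg51 _ h, c3_neg51 h]
  · obtain ⟨n, rfl⟩ := Int.eq_ofNat_of_zero_le h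
    rw [cf_nat51, HS51, PowerSeries.coeff_mk]
    exact c3_eq51 (K := K) n

theorem cf_hh51 {K : Type u} [Field K] (N : Submodule (S K 4) (Fin 3 → S K 4)) (m : ℤ) :
    cf51 (PowerSeries.mk (fun k : ℕ => hh N k)) m = hh N m := by
  rcases lt_or_ge m 0 with h | h
  · rw [cf_neg51 _ h, hh_neg51 _ h]
  · obtain ⟨n, rfl⟩ := Int.eq_ofNat_of_zero_le h
    rw [cf_nat51, PowerSeries.coeff_mk]

/-- the coefficients of the series in terms of `vv` -/
theorem cf_vv51 {K : Type u} [Field K] (ν : ℕ) (N1 N2 : Submodule (S K 4) (Fin 3 → S K 4))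
    (m : ℤ) : cf51 ((1 - PowerSeries.X ^ 2) * (HS51 K 4 -
      PowerSeries.X * PowerSeries.mk (fun k : ℕ => hh N1 k) +
      PowerSeries.X ^ 2 * PowerSeries.mk (fun k : ℕ => hh N2 k) -
      PowerSeries.X ^ (ν + 3) * HS51 K 4)) m =
    vv ν (hh N1) (hh N2) m + vv ν (hh N1) (hh N2) (m - 1) := by
  have h1 : ∀ n, cf51 (HS51 K 4 -
      PowerSeries.X * PowerSeries.mk (fun k : ℕ => hh N1 k) +
      PowerSeries.X ^ 2 * PowerSeries.mk (fun k : ℕ => hh N2 k) -
      PowerSeries.X ^ (ν + 3) * HS51 K 4) n =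
      c3 n - hh N1 (n - 1) + hh N2 (n - 2) - c3 (n - ν - 3) := by
    intro n
    rw [cf_sub51, cf_add51, cf_sub51, cf_X51, cf_Xpow51, cf_Xpow51, cf_HS51, cf_HS51, cf_hh51,
      cf_hh51]
    have e : n - ((ν + 3 : ℕ) : ℤ) = n - ν - 3 := by push_cast; ring
    rw [e]
    rfl
  rw [sub_mul, one_mul, cf_sub51, cf_Xpow51, h1, h1, vv, vv]
  have e1 := c3_diff51 m
  have e2 := c3_diff51 (m - 1)
  have e3 := c3_diff51 (m - ν - 3)
  have e4 := c3_diff51 (m - ν - 3 - 1)
  have r1 : m - 1 - 1 = m - 2 := by ring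
  have r2 : m - ((2 : ℕ) : ℤ) = m - 2 := rfl
  have r3 : m - (ν : ℤ) - 3 - 1 - 1 = m - 2 - ν - 3 := by ring
  have r4 : m - 1 - (ν : ℤ) - 3 = m - ν - 3 - 1 := by ring
  have r5 : m - 2 - 1 = m - 3 := by ring
  have r6 : m - 1 - 2 = m - 3 := by ring
  have r7 : m - 1 - 3 = m - 2 - 2 := by ring
  rw [r2, r1, r4, r5, r6, r7]
  rw [r1] at e2
  rw [r3] at e4
  linarith

theorem c2_third51 (m : ℤ) : c2 m - 3 * c2 (m - 1) + 3 * c2 (m - 2) - c2 (m - 3) =
    if m = 0 then 1 else 0 := by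
  have e1 := c2_diff51 m
  have e2 := c2_diff51 (m - 1)
  have e3 := c2_diff51 (m - 2)
  have r1 : m - 1 - 1 = m - 2 := by ring
  have r2 : m - 2 - 1 = m - 3 := by ring
  rw [r1] at e2
  rw [r2] at e3
  split_ifs with h
  · subst h
    norm_num at e1 e2 e3
    norm_num
    linarith
  · rcases lt_or_ge m 0 with h0 | h0
    · rw [max_eq_right (by omega)] at e1 e2 e3
      linarith
    · rw [max_eq_left (by omega)] at e1 e2 e3
      linarith

/-- the third difference of `vv` -/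
theorem third51 (ν : ℕ) (h1 h2 : ℤ → ℤ) (m : ℤ) :
    vv ν h1 h2 m - 3 * vv ν h1 h2 (m - 1) + 3 * vv ν h1 h2 (m - 2) - vv ν h1 h2 (m - 3) =
      (if m = 0 then 1 else 0) - d4 h1 (m - 1) + d4 h2 (m - 2) -
        (if m = ν + 3 then 1 else 0) := by
  have e1 := c2_third51 m
  have e2 := c2_third51 (m - ν - 3)
  have r : (if m - (ν : ℤ) - 3 = 0 then (1 : ℤ) else 0) = if m = ν + 3 then 1 else 0 := by
    by_cases h : m = ν + 3
    · rw [if_pos h, if_pos (by omega)]
    · rw [if_neg h, if_neg (by omega)]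
  rw [r] at e2
  rw [← e1, ← e2]
  simp only [vv, d4]
  have s1 : m - 1 - 1 = m - 2 := by ring
  have s2 : m - 1 - 2 = m - 3 := by ring
  have s3 : m - 1 - 3 = m - 4 := by ring
  have s4 : m - 2 - 1 = m - 3 := by ring
  have s5 : m - 2 - 2 = m - 4 := by ring
  have s6 : m - 2 - 3 = m - 5 := by ring
  have s7 : m - 3 - 1 = m - 4 := by ring
  have s8 : m - 3 - 2 = m - 5 := by ring
  have s9 : m - 3 - 3 = m - 6 := by ring
  have s10 : m - 1 - 4 = m - 5 := by ring
  have s11 : m - 2 - 4 = m - 6 := by ring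
  have t1 : m - 1 - (ν : ℤ) - 3 = m - ν - 3 - 1 := by ring
  have t2 : m - 2 - (ν : ℤ) - 3 = m - ν - 3 - 2 := by ring
  have t3 : m - 3 - (ν : ℤ) - 3 = m - ν - 3 - 3 := by ring
  rw [t1, t2, t3, s1, s2, s3, s4, s5, s6, s7, s8, s9, s10, s11]
  ring

/-- SYM -/
theorem sym51 (hDB : stDB.{u}) : stSym.{u} := by
  intro K _ _ ν d f hf hrev
  obtain ⟨A1, _⟩ := hDB K ν (fun i => {d.a i}) d.β d.hβ d.hne
  obtain ⟨A2, B2⟩ := hDB K ν (fun i => {φ | φ ⬝ᵥ d.a i = 0}) d.β d.hβ d.hne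
  have A1' : ∀ k : ℤ, (ν : ℤ) + 3 ≤ k → d4 (hh (L1 d)) k = 0 := A1
  have A2' : ∀ k : ℤ, (ν : ℤ) + 3 ≤ k → d4 (hh (L2 d)) k = 0 := A2
  have B2' : 0 ≤ d4 (hh (L2 d)) (ν + 2) := B2
  set v := vv ν (hh (L1 d)) (hh (L2 d)) with hv
  have hcf : ∀ m, cf51 (f : PowerSeries ℤ) m = v m + v (m - 1) := by
    intro m
    rw [hf, cf_vv51]
  have hneg : ∀ m < 0, v m = 0 := by
    intro m hm
    rw [hv, vv, c2_neg51 hm, hh_neg51 _ (by omega), hh_neg51 _ (by omega),
      hh_neg51 _ (by omega), hh_neg51 _ (by omega), c2_neg51 (by omega)]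
    ring
  have h0 : v 0 = 1 := by
    rw [hv, vv, hh_neg51 _ (by omega), hh_neg51 _ (by omega),
      hh_neg51 _ (by omega), hh_neg51 _ (by omega), c2_neg51 (n := 0 - (ν : ℤ) - 3) (by omega)]
    have := c2_dbl51 (n := 0) (by norm_num)
    norm_num at this ⊢
    omega
  set N : ℤ := (f.natDegree : ℤ) with hN
  have hN0 : 0 ≤ N := by positivity
  have halt : ∀ m > N, v m = - v (m - 1) := by
    intro m hm
    have := hcf m
    rw [cf_big51 hm] at this
    linarith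
  have halt2 : ∀ k : ℕ, v (N + k) = (-1) ^ k * v N := by
    intro k
    induction k with
    | zero => simp
    | succ k ih =>
      rw [halt _ (by push_cast; omega)]
      have e : N + ((k + 1 : ℕ) : ℤ) - 1 = N + k := by push_cast; ring
      rw [e, ih, pow_succ]
      ring
  have hthird := third51 ν (hh (L1 d)) (hh (L2 d))
  rw [← hv] at hthird
  have hvN : v N = 0 := by
    have e1 := hthird (N + ((ν + 5 : ℕ) : ℤ) + 3)
    have r1 : N + ((ν + 5 : ℕ) : ℤ) + 3 = N + ((ν + 8 : ℕ) : ℤ) := by push_cast; ring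
    have r2 : N + ((ν + 8 : ℕ) : ℤ) - 1 = N + ((ν + 7 : ℕ) : ℤ) := by push_cast; ring
    have r3 : N + ((ν + 8 : ℕ) : ℤ) - 2 = N + ((ν + 6 : ℕ) : ℤ) := by push_cast; ring
    have r4 : N + ((ν + 8 : ℕ) : ℤ) - 3 = N + ((ν + 5 : ℕ) : ℤ) := by push_cast; ring
    rw [r1, r2, r3, r4, halt2, halt2, halt2, halt2, A1' _ (by push_cast; omega),
      A2' _ (by push_cast; omega), if_neg (by push_cast; omega), if_neg (by push_cast; omega)] at e1
    have e2 : (-1 : ℤ) ^ (ν + 8) = (-1) ^ ν := by rw [pow_add]; norm_num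
    have e3 : (-1 : ℤ) ^ (ν + 7) = - (-1) ^ ν := by rw [pow_add]; norm_num
    have e4 : (-1 : ℤ) ^ (ν + 6) = (-1) ^ ν := by rw [pow_add]; norm_num
    have e5 : (-1 : ℤ) ^ (ν + 5) = - (-1) ^ ν := by rw [pow_add]; norm_num
    rw [e2, e3, e4, e5] at e1
    have e6 : 8 * ((-1 : ℤ) ^ ν * v N) = 0 := by linarith
    have e7 : (-1 : ℤ) ^ ν * v N = 0 := by omega
    rcases mul_eq_zero.1 e7 with e8 | e8
    · exact absurd e8 (pow_ne_zero _ (by norm_num))
    · exact e8
  have hbig : ∀ k : ℕ, v (N + k) = 0 := fun k => by rw [halt2, hvN, mul_zero]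
  -- the symmetry
  have hw : ∀ m, (v m - v (N - 1 - m)) + (v (m - 1) - v (N - 1 - (m - 1))) = 0 := by
    intro m
    have e1 := hcf m
    have e2 := hcf (N - m)
    have e3 := pal_cf51 hrev m
    rw [← hN, e1, e2] at e3
    have r1 : N - m - 1 = N - 1 - m := by ring
    have r2 : N - 1 - (m - 1) = N - m := by ring
    rw [r1] at e3
    rw [r2]
    linarith
  have hw0 : v (-1) - v (N - 1 - (-1)) = 0 := by
    have r1 : N - 1 - (-1) = N := by ring
    rw [r1, hvN, hneg _ (by norm_num), sub_self]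
  have hup : ∀ k : ℕ, v (-1 + k) - v (N - 1 - (-1 + k)) = 0 := by
    intro k
    induction k with
    | zero => simpa using hw0
    | succ k ih =>
      have := hw (-1 + ((k + 1 : ℕ) : ℤ))
      have r1 : -1 + ((k + 1 : ℕ) : ℤ) - 1 = -1 + k := by push_cast; ring
      rw [r1] at this
      linarith
  have hdown : ∀ k : ℕ, v (-1 - k) - v (N - 1 - (-1 - k)) = 0 := by
    intro k
    induction k with
    | zero => simpa using hw0
    | succ k ih =>
      have := hw (-1 - (k : ℤ))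
      have r1 : -1 - (k : ℤ) - 1 = -1 - ((k + 1 : ℕ) : ℤ) := by push_cast; ring
      rw [r1] at this
      linarith
  have hsym : ∀ m, v m = v (N - 1 - m) := by
    intro m
    rcases le_or_gt (-1) m with hm | hm
    · obtain ⟨k, hk⟩ := Int.eq_ofNat_of_zero_le (by omega : 0 ≤ m + 1)
      have := hup k
      have r : -1 + (k : ℤ) = m := by omega
      rw [r] at this
      linarith
    · obtain ⟨k, hk⟩ := Int.eq_ofNat_of_zero_le (by omega : 0 ≤ -1 - m)
      have := hdown k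
      have r : -1 - (k : ℤ) = m := by omega
      rw [r] at this
      linarith
  have hlast : v (N - 1) = 1 := by
    have := hsym 0
    rw [h0, sub_zero] at this
    exact this.symm
  have hle : N ≤ ν + 1 := by
    by_contra hc
    have e1 := hthird (N + 2)
    have r1 : N + 2 - 1 = N + ((1 : ℕ) : ℤ) := by push_cast; ring
    have r2 : N + 2 - 2 = N + ((0 : ℕ) : ℤ) := by push_cast; ring
    have r3 : N + 2 - 3 = N - 1 := by ring
    have r4 : v (N + 2) = 0 := by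
      have := hbig 2
      push_cast at this
      exact this
    rw [if_neg (by omega), if_neg (by omega)] at e1
    rw [r3, hlast, r4] at e1
    rw [r1, hbig] at e1
    rw [r2, hbig] at e1
    have e2 : d4 (hh (L1 d)) (N + ((1 : ℕ) : ℤ)) = 0 := A1' _ (by push_cast; omega)
    rw [e2] at e1
    rcases eq_or_lt_of_le (show (ν : ℤ) + 2 ≤ N by omega) with h3 | h3
    · have e3 : N + ((0 : ℕ) : ℤ) = ν + 2 := by push_cast; omega
      rw [e3] at e1
      linarith
    · rw [A2' (N + ((0 : ℕ) : ℤ)) (by push_cast; omega)] at e1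
      linarith
  refine ⟨ν + 1 - N, by omega, by omega, fun m => ?_⟩
  have r : (ν : ℤ) - (ν + 1 - N) - m = N - 1 - m := by ring
  rw [r]
  exact hsym m

end Pool.Agent.Lib.MP_fe1391_co.Quad51
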