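import Pool.Agent.Lib.MP_fe1391_co.Quad51.CoDiv
import Pool.Agent.Lib.MP_fe1391_co.Quad51.Prod

/-! # TOP: `L2` in low degrees -/

set_option autoImplicit false

namespace Pool.Agent.Lib.MP_fe1391_co.Quad51.TopM

open MvPolynomial Matrix Pool.Agent.Lib.MP_fe1391_co.Tame
open Pool.Agent.Lib.MP_fe1391_co.Quad51

universe u

variable {K : Type u} [Field K] {ν : ℕ}

theorem finrank_grS88 (m : ℤ) :
    ((Module.finrank K (grS (K := K) (ℓ := 4) m) : ℕ) : ℤ) = c3 m := by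
  rcases lt_or_ge m 0 with hm | hm
  · rw [Grad.grS_of_neg hm, finrank_bot, c3, if_neg (by omega)]
    rfl
  · obtain ⟨n, rfl⟩ := Int.eq_ofNat_of_zero_le hm
    rw [Grad.grS_nat, Grad.finrank_homog, c3, if_pos hm, Int.toNat_natCast]
    congr 1
    rw [show 4 + n - 1 = n + 3 by omega]
    exact Nat.choose_symm_of_eq_add (by omega)

theorem smul_mem_Vg88 {m n : ℤ} {f : S K 4} {v : Fin 3 → S K 4} (hf : f ∈ grS (K := K) (ℓ := 4) m)
    (hv : v ∈ Vg K 4 n) : f • v ∈ Vg K 4 (m + n) := fun i => Thick51.grS_mul51 hf (hv i)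

theorem div_Vg88 {m n : ℤ} {f : S K 4} {v : Fin 3 → S K 4} (hf0 : f ≠ 0)
    (hf : f ∈ grS (K := K) (ℓ := 4) n) (hv : f • v ∈ Vg K 4 m) : v ∈ Vg K 4 (m - n) :=
  fun i => Thick51.grS_div51 hf0 hf (hv i)

theorem div_vec88 {m n : ℤ} {f : S K 4} {v : Fin 3 → S K 4} (hv0 : v ≠ 0)
    (hv : v ∈ Vg K 4 n) (h : f • v ∈ Vg K 4 m) : f ∈ grS (K := K) (ℓ := 4) (m - n) := by
  obtain ⟨j, hj⟩ := Function.ne_iff.1 hv0
  refine Thick51.grS_div51 hj (hv j) ?_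
  rw [mul_comm]
  exact h j

theorem cross_Vg88 {m n : ℤ} {v w : Fin 3 → S K 4} (hv : v ∈ Vg K 4 m) (hw : w ∈ Vg K 4 n) :
    v ⨯₃ w ∈ Vg K 4 (m + n) := by
  have h : ∀ i j, v i * w j ∈ grS (K := K) (ℓ := 4) (m + n) := fun i j =>
    Thick51.grS_mul51 (hv i) (hw j)
  intro i
  fin_cases i
  · simpa [cross_apply] using Submodule.sub_mem _ (h 1 2) (h 2 1)
  · simpa [cross_apply] using Submodule.sub_mem _ (h 2 0) (h 0 2)
  · simpa [cross_apply] using Submodule.sub_mem _ (h 0 1) (h 1 0)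

theorem dot_grS88 {m n : ℤ} {v w : Fin 3 → S K 4} (hv : v ∈ Vg K 4 m) (hw : w ∈ Vg K 4 n) :
    v ⬝ᵥ w ∈ grS (K := K) (ℓ := 4) (m + n) := by
  unfold dotProduct
  exact Submodule.sum_mem _ fun i _ => Thick51.grS_mul51 (hv i) (hw i)

/-- the elements of `L2` of low degree are multiples of `ω` -/
theorem low88 (hR : stPrim.{u}) {d : Dat K ν} {θ ω : Fin 3 → S K 4} {a u k : ℤ}
    (hc : Conf d θ ω a u) (hk : k < ν - u + a) {w : Fin 3 → S K 4} (hw : w ∈ L2 d)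
    (hwk : w ∈ Vg K 4 k) : ∃ f ∈ grS (K := K) (ℓ := 4) (k - u), w = f • ω := by
  obtain ⟨-, -, h3, -, -, hQ0, hQ⟩ := ProdM.thm K ν d
  obtain ⟨z, hz1, hz⟩ := h3 ω hc.ω2 w hw
  have hzd : z ∈ Vg K 4 (u + k - ν) := by
    apply div_Vg88 hQ0 hQ
    rw [← hz]
    exact cross_Vg88 hc.ωd hwk
  have hz0 : z = 0 := by
    apply hc.θm (u + k - ν) (by omega) z ⟨hz1, ?_⟩ hzd
    have h1 : (ω ⨯₃ w) ⬝ᵥ ω = 0 := by
      rw [dotProduct_comm]
      exact dot_self_cross _ _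
    rw [hz, smul_dotProduct, smul_eq_mul] at h1
    exact (mul_eq_zero.1 h1).resolve_left hQ0
  rw [hz0, smul_zero] at hz
  obtain ⟨f, hf⟩ := hR K (L2 d) (CoDivM.thm K ν d ω).2.1 ω u hc.ω2 hc.ωd hc.ω0 hc.ωm w hw hz
  refine ⟨f, ?_, hf⟩
  apply div_vec88 hc.ω0 hc.ωd
  rw [← hf]
  exact hwk

theorem thm (hR : stPrim.{u}) : stTop.{u} := by
  intro K _ ν d θ ω a u hc k hk
  set Φ : S K 4 →ₗ[K] (Fin 3 → S K 4) :=
    (LinearMap.toSpanSingleton (S K 4) (Fin 3 → S K 4) ω).restrictScalars K with hΦ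
  have hΦa : ∀ f, Φ f = f • ω := fun f => rfl
  have hinj : Function.Injective Φ := by
    intro f g h
    rw [hΦa, hΦa] at h
    obtain ⟨j, hj⟩ := Function.ne_iff.1 hc.ω0
    have h1 := congrFun h j
    exact mul_right_cancel₀ hj h1
  have h : pc (L2 d) k = (grS (K := K) (ℓ := 4) (k - u)).map Φ := by
    ext w
    constructor
    · rintro ⟨h1, h2⟩
      obtain ⟨f, hf, rfl⟩ := low88 hR hc hk h2 h1
      exact ⟨f, hf, rfl⟩
    · rintro ⟨f, hf, rfl⟩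
      refine ⟨?_, ?_⟩
      · have := smul_mem_Vg88 hf hc.ωd
        rwa [sub_add_cancel] at this
      · exact Submodule.smul_mem (L2 d) f hc.ω2
  unfold hh
  rw [h, ← (Submodule.equivMapOfInjective Φ hinj (grS (K := K) (ℓ := 4) (k - u))).finrank_eq]
  exact finrank_grS88 _

end Pool.Agent.Lib.MP_fe1391_co.Quad51.TopM
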