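import Pool.Agent.Lib.MP_fe1391_co.Quad51.TraD22

/-!
# From arrangements to data: freeness, and the statement
-/

set_option autoImplicit false

namespace Pool.Agent.Lib.MP_fe1391_co.Quad51.Tra22

open MvPolynomial Matrix Pool.Agent.Lib.MP_fe1391_co.Tame Pool.Agent.Lib.MP_fe1391_co.Tame.Htpy
open Pool.Agent.Lib.MP_fe1391_co.Thick51

universe u

variable {K : Type u} [Field K]

theorem det3 {A : Type*} [CommRing A] (x y z : Fin 3 → A) : x ⬝ᵥ (y ⨯₃ z) =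
    x 0 * (y 1 * z 2 - y 2 * z 1) + x 1 * (y 2 * z 0 - y 0 * z 2) +
      x 2 * (y 0 * z 1 - y 1 * z 0) := by
  rw [cross_apply, dotProduct, Fin.sum_univ_three]
  rfl

theorem det_dvd (c : S K 4) (v : Fin 3 → K) (hv : v ≠ 0) (x y z : Fin 3 → S K 4)
    (hx : c ∣ cv 4 v ⬝ᵥ x) (hy : c ∣ cv 4 v ⬝ᵥ y) (hz : c ∣ cv 4 v ⬝ᵥ z) :
    c ∣ x ⬝ᵥ (y ⨯₃ z) := by
  obtain ⟨k, hk⟩ := Function.ne_iff.1 hv
  have hk' : IsUnit (C (v k) : S K 4) := (IsUnit.mk0 _ hk).map C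
  rw [← hk'.dvd_mul_left, det3]
  rw [dot3] at hx hy hz
  obtain ⟨q0, hq0⟩ := hx
  obtain ⟨q1, hq1⟩ := hy
  obtain ⟨q2, hq2⟩ := hz
  obtain rfl | rfl | rfl : k = 0 ∨ k = 1 ∨ k = 2 := by
    fin_cases k
    · exact Or.inl rfl
    · exact Or.inr (Or.inl rfl)
    · exact Or.inr (Or.inr rfl)
  · refine ⟨q0 * (y 1 * z 2 - y 2 * z 1) + q1 * (z 1 * x 2 - z 2 * x 1) +
      q2 * (x 1 * y 2 - x 2 * y 1), ?_⟩
    linear_combination (y 1 * z 2 - y 2 * z 1) * hq0 + (z 1 * x 2 - z 2 * x 1) * hq1 +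
      (x 1 * y 2 - x 2 * y 1) * hq2
  · refine ⟨q0 * (y 2 * z 0 - y 0 * z 2) + q1 * (z 2 * x 0 - z 0 * x 2) +
      q2 * (x 2 * y 0 - x 0 * y 2), ?_⟩
    linear_combination (y 2 * z 0 - y 0 * z 2) * hq0 + (z 2 * x 0 - z 0 * x 2) * hq1 +
      (x 2 * y 0 - x 0 * y 2) * hq2
  · refine ⟨q0 * (y 0 * z 1 - y 1 * z 0) + q1 * (z 0 * x 1 - z 1 * x 0) +
      q2 * (x 0 * y 1 - x 1 * y 0), ?_⟩
    linear_combination (y 0 * z 1 - y 1 * z 0) * hq0 + (z 0 * x 1 - z 1 * x 0) * hq1 +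
      (x 0 * y 1 - x 1 * y 0) * hq2

/-- vector fields from vectors in the basis of the kernel of `b0` -/
noncomputable def li (b0 : Fin 4 → K) (i0 : Fin 4) (w : Fin 3 → S K 4) : Fin 4 → S K 4 :=
  fun i => ∑ j, w j * uu b0 i0 i j

theorem li_succ (b0 : Fin 4 → K) (i0 : Fin 4) (w : Fin 3 → S K 4) (j : Fin 3) :
    li b0 i0 w (i0.succAbove j) = w j := by
  unfold li
  rw [uu_succ, Finset.sum_eq_single j]
  · rw [Pi.single_eq_same, mul_one]
  · intro x _ hx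
    rw [Pi.single_eq_of_ne hx, mul_zero]
  · intro h
    exact absurd (Finset.mem_univ _) h

theorem sum_li (b0 : Fin 4 → K) (i0 : Fin 4) (w : Fin 3 → S K 4) (b : Fin 4 → K) :
    ∑ i, C (b i) * li b0 i0 w i = cv 4 (al b0 i0 b) ⬝ᵥ w := by
  have h := sum_uu b0 i0 b
  have h1 : ∀ j, ∑ i, C (b i) * uu b0 i0 i j = C (al b0 i0 b j) := by
    intro j
    have := congrFun h j
    rw [Finset.sum_apply] at this
    exact this
  unfold li
  simp only [Finset.mul_sum]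
  rw [Finset.sum_comm]
  change _ = ∑ j, C (al b0 i0 b j) * w j
  refine Finset.sum_congr rfl fun j _ => ?_
  rw [← h1 j, Finset.sum_mul]
  exact Finset.sum_congr rfl fun i _ => by ring

theorem li_of_ker {b0 : Fin 4 → K} {i0 : Fin 4} (h0 : b0 i0 ≠ 0) (v : Fin 4 → S K 4)
    (hv : ∑ i, C (b0 i) * v i = 0) : li b0 i0 (fun j => v (i0.succAbove j)) = v := by
  have h1 := sum_li b0 i0 (fun j => v (i0.succAbove j)) b0
  rw [al_self h0] at h1
  have h2 : cv 4 (0 : Fin 3 → K) ⬝ᵥ (fun j => v (i0.succAbove j)) = 0 := by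
    rw [dot3]
    simp
  rw [h2, ← hv, Fin.sum_univ_succAbove _ i0, Fin.sum_univ_succAbove _ i0] at h1
  simp only [li_succ] at h1
  have h3 := add_right_cancel h1
  have h4 : (C (b0 i0) : S K 4) ≠ 0 := by
    rw [Ne, C_eq_zero]
    exact h0
  have h5 := mul_left_cancel₀ h4 h3
  funext i
  rcases eq_or_ne i i0 with rfl | hi
  · exact h5
  · obtain ⟨j, rfl⟩ := Fin.exists_succAbove_eq hi
    exact li_succ b0 i0 _ j

/-- a basis of `L1` gives a basis of all logarithmic vector fields -/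
theorem free (B : Finset (Fin 4 → K)) (hB : Tame.Norm B) (b0 : Fin 4 → K) (hb0 : b0 ∈ B) (i0 : Fin 4)
    (h0 : b0 i0 ≠ 0) (h : Bas (dat B hB b0 hb0 i0 h0)) :
    Module.Free (S K 4) (LogA (S K 4) B 1) := by
  obtain ⟨E, δ, c, hE, hc, hdet⟩ := h
  rw [Qd_dat] at hdet
  have hN := norm_Br B hB b0
  have hQ0 : Qof (Br B b0) ≠ 0 := Pair.Q_ne_zero hN
  have hl0 : lin b0 ≠ 0 := Pair.lin_ne_zero (hB.ne b0 hb0)
  have hcC : (C c : S K 4) ≠ 0 := by
    rw [Ne, C_eq_zero]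
    exact hc
  have hne : ∀ b ∈ Br B b0, al b0 i0 b ≠ 0 := fun b hb =>
    al_ne h0 (hB.ind b0 hb0 _ ((mem_Br B b0).1 hb).2 (Ne.symm ((mem_Br B b0).1 hb).1))
  have hEl : ∀ k, ∀ b ∈ Br B b0, lin b ∣ cv 4 (al b0 i0 b) ⬝ᵥ E k := fun k =>
    (mem_L1 B hB b0 hb0 i0 h0 (E k)).1 (hE k).1
  have hlogli : ∀ w : Fin 3 → S K 4, (∀ b ∈ Br B b0, lin b ∣ cv 4 (al b0 i0 b) ⬝ᵥ w) →
      Saito.IsLog B (li b0 i0 w) := by
    intro w hw b hb
    rw [sum_li]
    by_cases hbb : b = b0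
    · rw [hbb, al_self h0, dot3]
      simp
    · exact hw b ((mem_Br B b0).2 ⟨hbb, hb⟩)
  have hEuler : Saito.IsLog B (fun j => (X j : S K 4)) := fun b _ => dvd_rfl
  let θ : Fin 4 → Fin 4 → S K 4 := Fin.cons (fun j => (X j : S K 4)) (fun k => li b0 i0 (E k))
  have hθ0 : θ 0 = fun j => (X j : S K 4) := rfl
  have hθs : ∀ k : Fin 3, θ k.succ = li b0 i0 (E k) := fun _ => rfl
  have hdetne : E 0 ⬝ᵥ (E 1 ⨯₃ E 2) ≠ 0 := by
    rw [hdet]
    exact mul_ne_zero hcC hQ0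
  refine free51 (θ := θ) ?_ ?_ ?_
  · intro i
    refine Fin.cases hEuler (fun k => ?_) i
    exact hlogli _ (hEl k)
  · intro v hv
    obtain ⟨g, hg⟩ := hv b0 hb0
    set v0 : Fin 4 → S K 4 := fun j => v j - g * X j with hv0
    have hker : ∑ i, C (b0 i) * v0 i = 0 := by
      have h1 : ∑ i, C (b0 i) * v0 i = ∑ i, C (b0 i) * v i - g * lin b0 := by
        rw [← lin_eq, Finset.mul_sum, ← Finset.sum_sub_distrib]
        exact Finset.sum_congr rfl fun i _ => by rw [hv0]; ring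
      rw [h1, hg]
      ring
    set w : Fin 3 → S K 4 := fun j => v0 (i0.succAbove j) with hw
    have hli : li b0 i0 w = v0 := li_of_ker h0 v0 hker
    have hwl : ∀ b ∈ Br B b0, lin b ∣ cv 4 (al b0 i0 b) ⬝ᵥ w := by
      intro b hb
      rw [← sum_li, hli]
      have h1 : ∑ i, C (b i) * v0 i = ∑ i, C (b i) * v i - g * lin b := by
        rw [← lin_eq, Finset.mul_sum, ← Finset.sum_sub_distrib]
        exact Finset.sum_congr rfl fun i _ => by rw [hv0]; ring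
      rw [h1]
      exact dvd_sub (hv b ((mem_Br B b0).1 hb).2) (Dvd.dvd.mul_left dvd_rfl _)
    have hd : ∀ x y : Fin 3 → S K 4, (∀ b ∈ Br B b0, lin b ∣ cv 4 (al b0 i0 b) ⬝ᵥ x) →
        (∀ b ∈ Br B b0, lin b ∣ cv 4 (al b0 i0 b) ⬝ᵥ y) →
        Qof (Br B b0) ∣ w ⬝ᵥ (x ⨯₃ y) := fun x y hx hy =>
      Pair.Q_dvd_of_forall hN fun b hb =>
        det_dvd (lin b) _ (hne b hb) w x y (hwl b hb) (hx b hb) (hy b hb)
    obtain ⟨q0, hq0⟩ := hd _ _ (hEl 1) (hEl 2)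
    obtain ⟨q1, hq1⟩ := hd _ _ (hEl 2) (hEl 0)
    obtain ⟨q2, hq2⟩ := hd _ _ (hEl 0) (hEl 1)
    have hcc : (C c⁻¹ : S K 4) * C c = 1 := by
      rw [← C_mul, inv_mul_cancel₀ hc, C_1]
    have hwE : ∀ j, w j = C c⁻¹ * q0 * E 0 j + C c⁻¹ * q1 * E 1 j + C c⁻¹ * q2 * E 2 j := by
      intro j
      have h1 : Qof (Br B b0) * (C c * w j) =
          Qof (Br B b0) * (q0 * E 0 j + q1 * E 1 j + q2 * E 2 j) := by
        rw [det3] at hq0 hq1 hq2 hdet
        obtain rfl | rfl | rfl : j = 0 ∨ j = 1 ∨ j = 2 := by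
          fin_cases j
          · exact Or.inl rfl
          · exact Or.inr (Or.inl rfl)
          · exact Or.inr (Or.inr rfl)
        · linear_combination (E 0 0) * hq0 + (E 1 0) * hq1 + (E 2 0) * hq2 - (w 0) * hdet
        · linear_combination (E 0 1) * hq0 + (E 1 1) * hq1 + (E 2 1) * hq2 - (w 1) * hdet
        · linear_combination (E 0 2) * hq0 + (E 1 2) * hq1 + (E 2 2) * hq2 - (w 2) * hdet
      have h2 := mul_left_cancel₀ hQ0 h1
      linear_combination (C c⁻¹) * h2 - (w j) * hcc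
    refine ⟨Fin.cons g ![C c⁻¹ * q0, C c⁻¹ * q1, C c⁻¹ * q2], fun j => ?_⟩
    rw [Fin.sum_univ_succ, Fin.sum_univ_three]
    change v j = g * X j + (C c⁻¹ * q0 * li b0 i0 (E 0) j + C c⁻¹ * q1 * li b0 i0 (E 1) j +
      C c⁻¹ * q2 * li b0 i0 (E 2) j)
    have h3 : v j = g * X j + li b0 i0 w j := by
      rw [hli, hv0]
      ring
    rw [h3]
    congr 1
    unfold li
    rw [Finset.mul_sum, Finset.mul_sum, Finset.mul_sum, ← Finset.sum_add_distrib,
      ← Finset.sum_add_distrib]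
    refine Finset.sum_congr rfl fun k _ => ?_
    rw [hwE k]
    ring
  · intro e he
    have h1 : ∀ j, e 0 * X j + (e 1 * li b0 i0 (E 0) j + e 2 * li b0 i0 (E 1) j +
        e 3 * li b0 i0 (E 2) j) = 0 := by
      intro j
      have := he j
      rw [Fin.sum_univ_succ, Fin.sum_univ_three] at this
      exact this
    have hz : ∀ k, ∑ i, C (b0 i) * li b0 i0 (E k) i = 0 := by
      intro k
      rw [sum_li, al_self h0, dot3]
      simp
    have he0 : e 0 = 0 := by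
      have h2 : ∑ j, C (b0 j) * (e 0 * X j + (e 1 * li b0 i0 (E 0) j + e 2 * li b0 i0 (E 1) j +
        e 3 * li b0 i0 (E 2) j)) = e 0 * lin b0 + (e 1 * ∑ i, C (b0 i) * li b0 i0 (E 0) i +
          e 2 * ∑ i, C (b0 i) * li b0 i0 (E 1) i + e 3 * ∑ i, C (b0 i) * li b0 i0 (E 2) i) := by
        rw [← lin_eq, Finset.mul_sum, Finset.mul_sum, Finset.mul_sum, Finset.mul_sum,
          ← Finset.sum_add_distrib, ← Finset.sum_add_distrib, ← Finset.sum_add_distrib]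
        exact Finset.sum_congr rfl fun j _ => by ring
      rw [hz, hz, hz] at h2
      simp only [h1, mul_zero, Finset.sum_const_zero, add_zero] at h2
      exact (mul_eq_zero.1 h2.symm).resolve_right hl0
    have h4 : ∀ j : Fin 3, e 1 * E 0 j + e 2 * E 1 j + e 3 * E 2 j = 0 := by
      intro j
      have := h1 (i0.succAbove j)
      rw [he0, zero_mul, zero_add, li_succ, li_succ, li_succ] at this
      exact this
    have g0 := h4 0
    have g1 := h4 1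
    have g2 := h4 2
    rw [det3] at hdetne
    have he1 : e 1 = 0 := by
      have : e 1 * (E 0 0 * (E 1 1 * E 2 2 - E 1 2 * E 2 1) +
          E 0 1 * (E 1 2 * E 2 0 - E 1 0 * E 2 2) + E 0 2 * (E 1 0 * E 2 1 - E 1 1 * E 2 0)) = 0 := by
        linear_combination (E 1 1 * E 2 2 - E 1 2 * E 2 1) * g0 +
          (E 1 2 * E 2 0 - E 1 0 * E 2 2) * g1 + (E 1 0 * E 2 1 - E 1 1 * E 2 0) * g2
      exact (mul_eq_zero.1 this).resolve_right hdetne
    have he2 : e 2 = 0 := by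
      have : e 2 * (E 0 0 * (E 1 1 * E 2 2 - E 1 2 * E 2 1) +
          E 0 1 * (E 1 2 * E 2 0 - E 1 0 * E 2 2) + E 0 2 * (E 1 0 * E 2 1 - E 1 1 * E 2 0)) = 0 := by
        linear_combination (E 2 1 * E 0 2 - E 2 2 * E 0 1) * g0 +
          (E 2 2 * E 0 0 - E 2 0 * E 0 2) * g1 + (E 2 0 * E 0 1 - E 2 1 * E 0 0) * g2
      exact (mul_eq_zero.1 this).resolve_right hdetne
    have he3 : e 3 = 0 := by
      have : e 3 * (E 0 0 * (E 1 1 * E 2 2 - E 1 2 * E 2 1) +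
          E 0 1 * (E 1 2 * E 2 0 - E 1 0 * E 2 2) + E 0 2 * (E 1 0 * E 2 1 - E 1 1 * E 2 0)) = 0 := by
        linear_combination (E 0 1 * E 1 2 - E 0 2 * E 1 1) * g0 +
          (E 0 2 * E 1 0 - E 0 0 * E 1 2) * g1 + (E 0 0 * E 1 1 - E 0 1 * E 1 0) * g2
      exact (mul_eq_zero.1 this).resolve_right hdetne
    intro i
    fin_cases i
    · exact he0
    · exact he1
    · exact he2
    · exact he3

end Pool.Agent.Lib.MP_fe1391_co.Quad51.Tra22

namespace Pool.Agent.Lib.MP_fe1391_co.Quad51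

universe u

/-- TRA -/
theorem Tra.thm : stTra.{u} := by
  intro K _ A hA hK
  obtain ⟨B, hB, hcard, hPsi, _, hfree, _⟩ := Thick51.trans51 A hK
  have hBne : B.Nonempty := by
    rw [← Finset.card_pos, hcard]
    exact Finset.card_pos.2 hA
  obtain ⟨b0, hb0⟩ := hBne
  obtain ⟨i0, h0⟩ := Function.ne_iff.1 (hB.ne b0 hb0)
  have h0' : b0 i0 ≠ 0 := h0
  refine ⟨(Tra22.Br B b0).card, Tra22.dat B hB b0 hb0 i0 h0', ?_, ?_, ?_⟩
  · rw [← hcard]
    exact Tra22.card_Br B b0 hb0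
  · rw [hPsi]
    exact Tra22.psi B hB b0 hb0 i0 h0'
  · intro hbas
    exact hfree.1 (Tra22.free B hB b0 hb0 i0 h0' hbas)

end Pool.Agent.Lib.MP_fe1391_co.Quad51
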