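import Pool.Agent.Lib.MP_fe1391_co.Quad51.AsmQ
import Pool.Agent.Lib.MP_fe1391_co.Quad51.BCh
import Pool.Agent.Lib.MP_fe1391_co.Quad51.CoDiv
import Pool.Agent.Lib.MP_fe1391_co.Quad51.Conf
import Pool.Agent.Lib.MP_fe1391_co.Quad51.Core2
import Pool.Agent.Lib.MP_fe1391_co.Quad51.DB
import Pool.Agent.Lib.MP_fe1391_co.Quad51.Gen
import Pool.Agent.Lib.MP_fe1391_co.Quad51.Kos
import Pool.Agent.Lib.MP_fe1391_co.Quad51.ML
import Pool.Agent.Lib.MP_fe1391_co.Quad51.Num
import Pool.Agent.Lib.MP_fe1391_co.Quad51.Prim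
import Pool.Agent.Lib.MP_fe1391_co.Quad51.Prod
import Pool.Agent.Lib.MP_fe1391_co.Quad51.Reg
import Pool.Agent.Lib.MP_fe1391_co.Quad51.Sym
import Pool.Agent.Lib.MP_fe1391_co.Quad51.Top
import Pool.Agent.Lib.MP_fe1391_co.Quad51.Tra

/-!
# Assembly of the palindromic form in dimension four
-/

set_option autoImplicit false

namespace Pool.Agent.Lib.MP_fe1391_co.Quad51

open MvPolynomial Matrix Pool.Agent.Lib.MP_fe1391_co.Tame
open Pool.Agent.Lib.MP_fe1391_co.Thick51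

universe u

/-- a palindromic series gives a basis (infinite field) -/
theorem bas_of_pal2_51 (hCore : stCore2.{u}) (hTop : stTop.{u}) (hNum : stNum.{u})
    (hNum2 : stNum2.{u}) (hConf : stConf.{u}) (hSym : stSym.{u}) (K : Type u) [Field K]
    [Infinite K] (ν : ℕ) (d : Dat K ν) (f : Polynomial ℤ)
    (hf : (f : PowerSeries ℤ) = (1 - PowerSeries.X ^ 2) * (HS51 K 4 -
      PowerSeries.X * PowerSeries.mk (fun k : ℕ => hh (L1 d) k) +
      PowerSeries.X ^ 2 * PowerSeries.mk (fun k : ℕ => hh (L2 d) k) -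
      PowerSeries.X ^ (ν + 3) * HS51 K 4)) (hrev : f.reverse = f) : Bas d := by
  obtain ⟨θ, ω, a, u, hc, huν⟩ := hConf K ν d
  obtain ⟨g, hg, hdeg, hsym⟩ := hSym K ν d f hf hrev
  obtain ⟨ha, hb, J, I, hJ, hI, h1, h0, h2⟩ := hCore K ν d θ ω a u hc
  rcases le_or_gt (u - a) (ν - u) with hbc | hbc
  · have h3 := hTop K ν d θ ω a u hc
    obtain ⟨h4, h5⟩ := hNum K (hh (L1 d)) (hh (L2 d)) ν a (u - a) (ν - u) g J I hJ hI ha hb
      hbc (by omega) hg h1 (fun k hk => by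
        have := h3 k (by omega)
        rw [this]
        congr 1
        ring) hsym
    exact h2 h4 h5
  · exfalso
    refine hNum2 K (hh (L1 d)) (hh (L2 d)) ν a (u - a) (ν - u) g J I hJ hI ha (by omega)
      hbc (by omega) hg h1 (fun k hk => ?_) h0 hsym
    have hbot : pc (L2 d) k = ⊥ := by
      rw [eq_bot_iff]
      rintro w ⟨hw1, hw2⟩
      rw [Submodule.mem_bot]
      exact hc.ωm k (by omega) w hw2 hw1
    rw [hh, hbot, finrank_bot]
    rfl

/-- the assembly of the palindromic form -/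
theorem asmR51 (hNum2 : stNum2.{u}) (K : Type u) [Field K]
    (A : Finset (Submodule K (Fin 4 → K)))
    (hA : ∀ H ∈ A, ∃ a : Module.Dual K (Fin 4 → K), a ≠ 0 ∧ LinearMap.ker a = H) :
    List.TFAE [Module.Free (MvPolynomial (Fin 4) K) (Assemble.LDer K A),
      ∃ f : Polynomial ℤ, f ≠ 0 ∧ f.reverse = f ∧ (f : PowerSeries ℤ) = Assemble.Psi K A,
      ∃ e : Fin 4 → ℕ, Assemble.Psi K A =
        ∏ i, ∑ j ∈ Finset.range (e i + 1), PowerSeries.X ^ j] := by
  classical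
  have hCore : stCore2.{u} :=
    core2_51 CoDivM.thm ProdM.thm Prim.thm Reg.thm Kos.thm Gen.thm
  have hTop : stTop.{u} := TopM.thm Prim.thm
  have hNum : stNum.{u} := num51 ML.thm
  have hSym : stSym.{u} := sym51 (DB.thm Gen.thm0)
  have hBCh : stBCh.{u} := BCh.thm ProdM.thm
  have hTra : stTra.{u} := Tra.thm
  obtain ⟨B, hB, hcard, hPsi, _, hfree, _⟩ := trans51 A hA
  tfae_have 1 → 3 := by
    intro hf
    obtain ⟨e, he⟩ := pf_of_free51 hB (hfree.2 hf)
    exact ⟨e, by rw [hPsi, PS51]; exact he⟩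
  tfae_have 3 → 2 := by
    rintro ⟨e, he⟩
    obtain ⟨f, h1, h2, h3⟩ := Fwd.thm5 4 e
    exact ⟨f, h1, h2, h3.trans he.symm⟩
  tfae_have 2 → 1 := by
    rintro ⟨f, hf0, hrev, hfP⟩
    rcases A.eq_empty_or_nonempty with rfl | hne
    · apply hfree.1
      apply free_empty51
      rw [← Finset.card_eq_zero, hcard, Finset.card_empty]
    · obtain ⟨ν, d, _, hP, hBas⟩ := hTra K A hne hA
      apply hBas
      obtain ⟨K', _, _, d', e1, e2, e3, hdesc⟩ := hBCh K ν d
      apply hdesc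
      have hP' : (f : PowerSeries ℤ) = (1 - PowerSeries.X ^ 2) * (HS51 K' 4 -
          PowerSeries.X * PowerSeries.mk (fun k : ℕ => hh (L1 d') k) +
          PowerSeries.X ^ 2 * PowerSeries.mk (fun k : ℕ => hh (L2 d') k) -
          PowerSeries.X ^ (ν + 3) * HS51 K' 4) := by
        rw [hfP, hP, e3]
        simp only [e1, e2]
      exact bas_of_pal2_51 hCore hTop hNum hNum2 ConfM.thm hSym K' ν d' f hP' hrev
  tfae_finish

end Pool.Agent.Lib.MP_fe1391_co.Quad51
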