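import Pool.Agent.Lib.MP_fe1391_co.Quad51.Stmts
import Pool.Agent.Lib.MP_fe1391_co.Thick51.Low

/-!
# Restriction to a hyperplane and homogeneous vectors: elementary facts
-/

set_option autoImplicit false

namespace Pool.Agent.Lib.MP_fe1391_co.Quad51

open MvPolynomial Matrix Pool.Agent.Lib.MP_fe1391_co.Tame
open Pool.Agent.Lib.MP_fe1391_co.Thick51 (geo51 HS51 grS_mul51 grS_neg51 grS_of_hom51 hom_of_grS51
  grS_div51 lin_grS51 C_mul_grS51 pS_mul51)

universe u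

variable {K : Type u} [Field K] {ℓ : ℕ}

/-! ### The homomorphism `sg t` -/

theorem sg_X51 (t : Fin ℓ → K) (j : Fin ℓ) : sg t (X j.castSucc) = X j := by
  rw [sg, aeval_X, Fin.snoc_castSucc]

theorem sg_last51 (t : Fin ℓ → K) : sg t (X (Fin.last ℓ)) = ∑ j, C (t j) * X j := by
  rw [sg, aeval_X, Fin.snoc_last]

theorem sg_C51 (t : Fin ℓ → K) (c : K) : sg t (C c) = C c := by
  rw [sg, aeval_C]
  rfl

theorem tau_cast51 (t : Fin ℓ → K) (j : Fin ℓ) : tau t j.castSucc = - t j := by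
  rw [tau, Fin.snoc_castSucc]

theorem tau_last51 (t : Fin ℓ → K) : tau t (Fin.last ℓ) = 1 := by
  rw [tau, Fin.snoc_last]

theorem tau_ne51 (t : Fin ℓ → K) : tau t ≠ 0 := by
  intro h
  have := congrFun h (Fin.last ℓ)
  rw [tau_last51] at this
  exact one_ne_zero this

theorem sg_lin51 (t : Fin ℓ → K) (b : Fin (ℓ + 1) → K) : sg t (lin b) = lin (rs t b) := by
  rw [lin, map_sum, Fin.sum_univ_castSucc, map_mul, sg_last51, sg_C51, lin, Finset.mul_sum,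
    ← Finset.sum_add_distrib]
  refine Finset.sum_congr rfl fun j _ => ?_
  rw [map_mul, sg_X51, sg_C51, rs, map_add, map_mul]
  ring

theorem sg_tau51 (t : Fin ℓ → K) : sg t (lin (tau t)) = 0 := by
  rw [sg_lin51]
  have : rs t (tau t) = 0 := by
    funext j
    rw [rs, tau_cast51, tau_last51, mul_one, neg_add_cancel]
    rfl
  rw [this, lin]
  refine Finset.sum_eq_zero fun i _ => ?_
  rw [Pi.zero_apply, map_zero, zero_mul]

/-- a section of `sg t` -/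
noncomputable def up51 {K : Type u} [Field K] {ℓ : ℕ} : S K ℓ →ₐ[K] S K (ℓ + 1) :=
  rename Fin.castSucc

theorem sg_up51 (t : Fin ℓ → K) (p : S K ℓ) : sg t (up51 p) = p := by
  have : (sg t).comp up51 = AlgHom.id K (S K ℓ) := by
    apply MvPolynomial.algHom_ext
    intro i
    rw [AlgHom.comp_apply, up51, rename_X, sg_X51]
    rfl
  exact DFunLike.congr_fun this p

/-- `p - up (sg p)` is divisible by the linear form -/
theorem dvd_sub_up51 (t : Fin ℓ → K) (p : S K (ℓ + 1)) : lin (tau t) ∣ p - up51 (sg t p) := by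
  have hX : ∀ i : Fin (ℓ + 1), lin (tau t) ∣ (X i : S K (ℓ + 1)) - up51 (sg t (X i)) := by
    intro i
    induction i using Fin.lastCases with
    | last =>
      refine ⟨1, ?_⟩
      have h1 : up51 (∑ j, C (t j) * X j) = ∑ j : Fin ℓ, C (t j) * (X j.castSucc : S K (ℓ + 1)) := by
        rw [map_sum]
        refine Finset.sum_congr rfl fun j _ => ?_
        rw [map_mul, up51, rename_X, rename_C]
      have h2 : lin (tau t) = (X (Fin.last ℓ) : S K (ℓ + 1)) -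
          ∑ j : Fin ℓ, C (t j) * (X j.castSucc : S K (ℓ + 1)) := by
        have h3 : ∑ j : Fin ℓ, C (tau t j.castSucc) * (X j.castSucc : S K (ℓ + 1)) =
            - ∑ j : Fin ℓ, C (t j) * (X j.castSucc : S K (ℓ + 1)) := by
          rw [← Finset.sum_neg_distrib]
          refine Finset.sum_congr rfl fun j _ => ?_
          rw [tau_cast51, map_neg, neg_mul]
        rw [lin, Fin.sum_univ_castSucc, tau_last51, C_1, one_mul, h3]
        ring
      rw [sg_last51, mul_one, h1, h2]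
    | cast j =>
      rw [sg_X51, up51, rename_X, sub_self]
      exact dvd_zero _
  induction p using MvPolynomial.induction_on with
  | C c =>
    rw [sg_C51, up51, rename_C, sub_self]
    exact dvd_zero _
  | add p q hp hq =>
    have : p + q - up51 (sg t (p + q)) = (p - up51 (sg t p)) + (q - up51 (sg t q)) := by
      rw [map_add, map_add]
      ring
    rw [this]
    exact dvd_add hp hq
  | mul_X p i hp =>
    have : p * X i - up51 (sg t (p * X i)) =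
        (p - up51 (sg t p)) * X i + up51 (sg t p) * (X i - up51 (sg t (X i))) := by
      rw [map_mul, map_mul]
      ring
    rw [this]
    exact dvd_add (Dvd.dvd.mul_right hp _) (Dvd.dvd.mul_left (hX i) _)

theorem sg_eq_zero51 (t : Fin ℓ → K) {p : S K (ℓ + 1)} : sg t p = 0 ↔ lin (tau t) ∣ p := by
  constructor
  · intro h
    have := dvd_sub_up51 t p
    rwa [h, map_zero, sub_zero] at this
  · rintro ⟨q, rfl⟩
    rw [map_mul, sg_tau51, zero_mul]

theorem sg_gr51 (t : Fin ℓ → K) {m : ℤ} {p : S K (ℓ + 1)}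
    (hp : p ∈ grS (K := K) (ℓ := ℓ + 1) m) : sg t p ∈ grS (K := K) (ℓ := ℓ) m := by
  rcases lt_or_ge m 0 with hm | hm
  · rw [grS_neg51 hm hp, map_zero]
    exact Submodule.zero_mem _
  · obtain ⟨n, rfl⟩ := Int.eq_ofNat_of_zero_le hm
    have h := hom_of_grS51 (n := n) hp
    apply grS_of_hom51
    have := h.aeval (Fin.snoc (α := fun _ => S K ℓ) (fun j => X j) (∑ j, C (t j) * X j))
      (n := 1) (fun i => by
        induction i using Fin.lastCases with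
        | last =>
          rw [Fin.snoc_last]
          exact Pair.lin_homog t
        | cast j =>
          rw [Fin.snoc_castSucc]
          exact isHomogeneous_X K j)
    rwa [one_mul] at this

theorem up_gr51 {m : ℤ} {p : S K ℓ} (hp : p ∈ grS (K := K) (ℓ := ℓ) m) :
    (up51 p : S K (ℓ + 1)) ∈ grS (K := K) (ℓ := ℓ + 1) m := by
  rcases lt_or_ge m 0 with hm | hm
  · rw [grS_neg51 hm hp, map_zero]
    exact Submodule.zero_mem _
  · obtain ⟨n, rfl⟩ := Int.eq_ofNat_of_zero_le hm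
    exact grS_of_hom51 (IsHomogeneous.rename_isHomogeneous (hom_of_grS51 (n := n) hp))

/-! ### Vectors -/

theorem sv_apply51 (t : Fin ℓ → K) (v : Fin 3 → S K (ℓ + 1)) (i : Fin 3) :
    sv t v i = sg t (v i) := rfl

theorem sv_smul51 (t : Fin ℓ → K) (f : S K (ℓ + 1)) (v : Fin 3 → S K (ℓ + 1)) :
    sv t (f • v) = sg t f • sv t v := by
  funext i
  rw [sv_apply51, Pi.smul_apply, Pi.smul_apply, sv_apply51, smul_eq_mul, smul_eq_mul, map_mul]

theorem sv_dot51 (t : Fin ℓ → K) (v w : Fin 3 → S K (ℓ + 1)) :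
    sv t v ⬝ᵥ sv t w = sg t (v ⬝ᵥ w) := by
  rw [dotProduct, dotProduct, map_sum]
  refine Finset.sum_congr rfl fun i _ => ?_
  rw [map_mul]
  rfl

theorem crs51 {A : Type*} [CommRing A] (v w : Fin 3 → A) :
    (v ⨯₃ w) 0 = v 1 * w 2 - v 2 * w 1 ∧ (v ⨯₃ w) 1 = v 2 * w 0 - v 0 * w 2 ∧
      (v ⨯₃ w) 2 = v 0 * w 1 - v 1 * w 0 := by
  rw [cross_apply]
  exact ⟨rfl, rfl, rfl⟩

theorem ext3_51 {A : Type*} {v w : Fin 3 → A} (h0 : v 0 = w 0) (h1 : v 1 = w 1)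
    (h2 : v 2 = w 2) : v = w := by
  funext i
  fin_cases i
  · exact h0
  · exact h1
  · exact h2

theorem sv_cross51 (t : Fin ℓ → K) (v w : Fin 3 → S K (ℓ + 1)) :
    sv t v ⨯₃ sv t w = sv t (v ⨯₃ w) := by
  obtain ⟨h0, h1, h2⟩ := crs51 v w
  obtain ⟨k0, k1, k2⟩ := crs51 (sv t v) (sv t w)
  apply ext3_51
  · rw [k0, sv_apply51 t (v ⨯₃ w), h0, map_sub, map_mul, map_mul]
    rfl
  · rw [k1, sv_apply51 t (v ⨯₃ w), h1, map_sub, map_mul, map_mul]
    rfl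
  · rw [k2, sv_apply51 t (v ⨯₃ w), h2, map_sub, map_mul, map_mul]
    rfl

theorem sv_cv51 (t : Fin ℓ → K) (a : Fin 3 → K) : sv t (cv (ℓ + 1) a) = cv ℓ a := by
  funext i
  rw [sv_apply51, cv, sg_C51]
  rfl

theorem sv_eq_zero51 (t : Fin ℓ → K) {v : Fin 3 → S K (ℓ + 1)} :
    sv t v = 0 ↔ ∃ w : Fin 3 → S K (ℓ + 1), v = lin (tau t) • w := by
  constructor
  · intro h
    have : ∀ i, lin (tau t) ∣ v i := fun i => (sg_eq_zero51 t).1 (congrFun h i)
    choose w hw using this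
    exact ⟨w, funext hw⟩
  · rintro ⟨w, rfl⟩
    rw [sv_smul51, sg_tau51, zero_smul]

theorem sv_gr51 (t : Fin ℓ → K) {m : ℤ} {v : Fin 3 → S K (ℓ + 1)} (hv : v ∈ Vg K (ℓ + 1) m) :
    sv t v ∈ Vg K ℓ m := fun i => sg_gr51 t (hv i)

/-- a section of `sv t` -/
noncomputable def uv51 {K : Type u} [Field K] {ℓ : ℕ} (v : Fin 3 → S K ℓ) :
    Fin 3 → S K (ℓ + 1) := fun i => up51 (v i)

theorem uv_apply51 (v : Fin 3 → S K ℓ) (i : Fin 3) :
    (uv51 v : Fin 3 → S K (ℓ + 1)) i = up51 (v i) := rfl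

theorem sv_uv51 (t : Fin ℓ → K) (v : Fin 3 → S K ℓ) : sv t (uv51 v) = v := by
  funext i
  rw [sv_apply51, uv_apply51, sg_up51]

theorem uv_gr51 {m : ℤ} {v : Fin 3 → S K ℓ} (hv : v ∈ Vg K ℓ m) :
    uv51 v ∈ Vg K (ℓ + 1) m := fun i => up_gr51 (hv i)

/-! ### Homogeneous vectors -/

theorem Vg_smul51 {m n : ℤ} {f : S K ℓ} {v : Fin 3 → S K ℓ}
    (hf : f ∈ grS (K := K) (ℓ := ℓ) m) (hv : v ∈ Vg K ℓ n) : f • v ∈ Vg K ℓ (m + n) :=
  fun i => grS_mul51 hf (hv i)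

theorem Vg_dot51 {m n : ℤ} {v w : Fin 3 → S K ℓ} (hv : v ∈ Vg K ℓ m) (hw : w ∈ Vg K ℓ n) :
    v ⬝ᵥ w ∈ grS (K := K) (ℓ := ℓ) (m + n) :=
  Submodule.sum_mem _ fun i _ => grS_mul51 (hv i) (hw i)

theorem Vg_cross51 {m n : ℤ} {v w : Fin 3 → S K ℓ} (hv : v ∈ Vg K ℓ m) (hw : w ∈ Vg K ℓ n) :
    v ⨯₃ w ∈ Vg K ℓ (m + n) := by
  obtain ⟨h0, h1, h2⟩ := crs51 v w
  have k0 : (v ⨯₃ w) 0 ∈ grS (K := K) (ℓ := ℓ) (m + n) := by
    rw [h0]
    exact Submodule.sub_mem _ (grS_mul51 (hv 1) (hw 2)) (grS_mul51 (hv 2) (hw 1))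
  have k1 : (v ⨯₃ w) 1 ∈ grS (K := K) (ℓ := ℓ) (m + n) := by
    rw [h1]
    exact Submodule.sub_mem _ (grS_mul51 (hv 2) (hw 0)) (grS_mul51 (hv 0) (hw 2))
  have k2 : (v ⨯₃ w) 2 ∈ grS (K := K) (ℓ := ℓ) (m + n) := by
    rw [h2]
    exact Submodule.sub_mem _ (grS_mul51 (hv 0) (hw 1)) (grS_mul51 (hv 1) (hw 0))
  intro i
  fin_cases i
  · exact k0
  · exact k1
  · exact k2

theorem Vg_neg51 {m : ℤ} (hm : m < 0) {v : Fin 3 → S K ℓ} (hv : v ∈ Vg K ℓ m) : v = 0 :=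
  funext fun i => grS_neg51 hm (hv i)

theorem Vg_cv51 (a : Fin 3 → K) : cv ℓ a ∈ Vg K ℓ 0 := fun i => by
  have := C_mul_grS51 (K := K) (ℓ := ℓ) (a i) Thick51.grS_one51
  rwa [mul_one] at this

/-- division of homogeneous vectors by a homogeneous polynomial -/
theorem Vg_div51 {m n : ℤ} {f : S K ℓ} {v : Fin 3 → S K ℓ} (hf0 : f ≠ 0)
    (hf : f ∈ grS (K := K) (ℓ := ℓ) n) (h : f • v ∈ Vg K ℓ m) : v ∈ Vg K ℓ (m - n) :=
  fun i => grS_div51 hf0 hf (h i)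

/-- division by a homogeneous vector -/
theorem Vg_div51' {m n : ℤ} {f : S K ℓ} {v : Fin 3 → S K ℓ} (hv0 : v ≠ 0)
    (hv : v ∈ Vg K ℓ n) (h : f • v ∈ Vg K ℓ m) : f ∈ grS (K := K) (ℓ := ℓ) (m - n) := by
  obtain ⟨i, hi⟩ := Function.ne_iff.1 hv0
  have h1 := h i
  rw [Pi.smul_apply, smul_eq_mul, mul_comm] at h1
  exact grS_div51 hi (hv i) h1

/-- homogeneous components of vectors -/
noncomputable def pv51 {K : Type u} [Field K] {ℓ : ℕ} (m : ℤ) :
    (Fin 3 → S K ℓ) →ₗ[K] (Fin 3 → S K ℓ) where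
  toFun v := fun i => Grad.pS m (v i)
  map_add' v w := by
    funext i
    exact map_add _ _ _
  map_smul' c v := by
    funext i
    exact map_smul (Grad.pS m) c (v i)

theorem pv_apply51 (m : ℤ) (v : Fin 3 → S K ℓ) (i : Fin 3) :
    pv51 m v i = Grad.pS m (v i) := rfl

theorem pv_mem51 (m : ℤ) (v : Fin 3 → S K ℓ) : pv51 m v ∈ Vg K ℓ m := fun i => Grad.pS_mem m (v i)

theorem pv_of_mem51 {m : ℤ} {v : Fin 3 → S K ℓ} (hv : v ∈ Vg K ℓ m) : pv51 m v = v :=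
  funext fun i => by
    have := Grad.pS_of_mem (hv i) m
    rw [if_pos rfl] at this
    exact this

theorem pS_mul_r51 {n : ℤ} {a : S K ℓ} (ha : a ∈ grS (K := K) (ℓ := ℓ) n) (m : ℤ) (b : S K ℓ) :
    Grad.pS m (a * b) = a * Grad.pS (m - n) b := pS_mul51 ha m b

theorem pv_smul51 {n : ℤ} {f : S K ℓ} (hf : f ∈ grS (K := K) (ℓ := ℓ) n) (m : ℤ)
    (v : Fin 3 → S K ℓ) : pv51 m (f • v) = f • pv51 (m - n) v :=
  funext fun i => pS_mul51 hf m (v i)

theorem pv_smul51' {n : ℤ} {v : Fin 3 → S K ℓ} (hv : v ∈ Vg K ℓ n) (m : ℤ)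
    (f : S K ℓ) : pv51 m (f • v) = Grad.pS (m - n) f • v := by
  funext i
  show Grad.pS m (f * v i) = Grad.pS (m - n) f * v i
  rw [mul_comm, pS_mul51 (hv i), mul_comm]

theorem pS_dot51 {n : ℤ} {w : Fin 3 → S K ℓ} (hw : w ∈ Vg K ℓ n) (m : ℤ)
    (v : Fin 3 → S K ℓ) : Grad.pS m (v ⬝ᵥ w) = pv51 (m - n) v ⬝ᵥ w := by
  rw [dotProduct, map_sum, dotProduct]
  refine Finset.sum_congr rfl fun i _ => ?_
  rw [mul_comm, pS_mul51 (hw i), mul_comm]
  rfl

theorem pv_cross51 {n : ℤ} {w : Fin 3 → S K ℓ} (hw : w ∈ Vg K ℓ n) (m : ℤ)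
    (v : Fin 3 → S K ℓ) : pv51 m (w ⨯₃ v) = w ⨯₃ pv51 (m - n) v := by
  have h : ∀ i j, Grad.pS m (w i * v j) = w i * Grad.pS (m - n) (v j) :=
    fun i j => pS_mul51 (hw i) m (v j)
  obtain ⟨h0, h1, h2⟩ := crs51 w v
  obtain ⟨k0, k1, k2⟩ := crs51 w (pv51 (m - n) v)
  apply ext3_51
  · rw [k0, pv_apply51, h0, map_sub, h, h]
    rfl
  · rw [k1, pv_apply51, h1, map_sub, h, h]
    rfl
  · rw [k2, pv_apply51, h2, map_sub, h, h]
    rfl

theorem dvd_pS51 {n : ℤ} {a p : S K ℓ} (ha : a ∈ grS (K := K) (ℓ := ℓ) n) (h : a ∣ p) (m : ℤ) :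
    a ∣ Grad.pS m p := by
  obtain ⟨q, rfl⟩ := h
  rw [pS_mul51 ha]
  exact dvd_mul_right _ _

/-- `LF F β` is graded -/
theorem pv_LF51 {ν : ℕ} {F : Fin ν → Set (Fin 3 → K)} {β : Fin ν → Fin ℓ → K}
    {v : Fin 3 → S K ℓ} (hv : v ∈ LF F β) (m : ℤ) : pv51 m v ∈ LF F β := by
  intro i φ hφ
  have h1 := dvd_pS51 (lin_grS51 (β i)) (hv i φ hφ) m
  rw [dotProduct_comm, pS_dot51 (Vg_cv51 φ), sub_zero, dotProduct_comm] at h1
  exact h1

/-- every vector is the sum of its components -/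
theorem pv_ext51 {v w : Fin 3 → S K ℓ} (h : ∀ m, pv51 m v = pv51 m w) : v = w := by
  funext i
  obtain ⟨s, hs, hs0⟩ := Grad.pS_sum (v i - w i)
  have h1 : v i - w i = 0 := by
    rw [hs]
    refine Finset.sum_eq_zero fun m _ => ?_
    have := congrFun (h m) i
    rw [map_sub]
    exact sub_eq_zero.2 this
  exact sub_eq_zero.1 h1

/-! ### Dimensions -/

instance fin_grS51 (m : ℤ) : Module.Finite K (grS (K := K) (ℓ := ℓ) m) := (Grad.thmS K ℓ).fin m

instance fin_Vg51 (m : ℤ) : Module.Finite K (Vg K ℓ m) := by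
  let L : Vg K ℓ m →ₗ[K] (Fin 3 → grS (K := K) (ℓ := ℓ) m) :=
    { toFun := fun v i => ⟨v.1 i, v.2 i⟩
      map_add' := fun v w => rfl
      map_smul' := fun c v => rfl }
  refine Module.Finite.of_injective L ?_
  intro v w h
  apply Subtype.ext
  funext i
  exact congrArg Subtype.val (congrFun h i)

instance fin_pc51 (N : Submodule (S K ℓ) (Fin 3 → S K ℓ)) (m : ℤ) : Module.Finite K (pc N m) :=
  Module.Finite.of_injective (Submodule.inclusion (inf_le_left : pc N m ≤ Vg K ℓ m))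
    (Submodule.inclusion_injective _)

theorem mem_pc51 {N : Submodule (S K ℓ) (Fin 3 → S K ℓ)} {m : ℤ} {v : Fin 3 → S K ℓ} :
    v ∈ pc N m ↔ v ∈ Vg K ℓ m ∧ v ∈ N := Iff.rfl

theorem hh_neg51 (N : Submodule (S K ℓ) (Fin 3 → S K ℓ)) {m : ℤ} (hm : m < 0) : hh N m = 0 := by
  have : pc N m = ⊥ := by
    rw [eq_bot_iff]
    intro v hv
    exact (Submodule.mem_bot K).2 (Vg_neg51 hm hv.1)
  rw [hh, this, finrank_bot]
  rfl

theorem c2_eq51 (m : ℤ) : (Module.finrank K (grS (K := K) (ℓ := 3) m) : ℤ) = c2 m := by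
  rw [c2]
  split_ifs with h
  · obtain ⟨n, rfl⟩ := Int.eq_ofNat_of_zero_le h
    have h1 : 3 + n - 1 = n + 2 := by omega
    rw [Grad.grS_nat, Int.toNat_natCast, Grad.finrank_homog, h1,
      Nat.choose_symm_add]
  · rw [Grad.grS_of_neg (not_le.1 h), finrank_bot]
    rfl

theorem c3_eq51 (m : ℤ) : (Module.finrank K (grS (K := K) (ℓ := 4) m) : ℤ) = c3 m := by
  rw [c3]
  split_ifs with h
  · obtain ⟨n, rfl⟩ := Int.eq_ofNat_of_zero_le h
    have h1 : 4 + n - 1 = n + 3 := by omega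
    rw [Grad.grS_nat, Int.toNat_natCast, Grad.finrank_homog, h1,
      Nat.choose_symm_add]
  · rw [Grad.grS_of_neg (not_le.1 h), finrank_bot]
    rfl

end Pool.Agent.Lib.MP_fe1391_co.Quad51
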