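import Pool.Agent.Lib.MP_fe1391_co.Quad51.CoreB

/-!
# The core argument: the end
-/

set_option autoImplicit false

namespace Pool.Agent.Lib.MP_fe1391_co.Quad51

open MvPolynomial Matrix Pool.Agent.Lib.MP_fe1391_co.Tame
open Pool.Agent.Lib.MP_fe1391_co.Thick51 (geo51 HS51 grS_mul51 grS_neg51 grS_of_hom51 hom_of_grS51
  grS_div51 lin_grS51 C_mul_grS51 pS_mul51)

universe u

variable {K : Type u} [Field K] {ν : ℕ} {d : Dat K ν} {θ ω : Fin 3 → S K 4} {a u : ℤ}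
  {t : Fin 3 → K}

instance finIt51 (c m : ℤ) : Module.Finite K (It51 d ω c m) :=
  Module.Finite.of_injective
    (Submodule.inclusion (fun _ hx => hx.1 : It51 d ω c m ≤ grS (K := K) (ℓ := 4) m))
    (Submodule.inclusion_injective _)

/-- the `g` of degree `k - 1` with `l g` in `It` -/
noncomputable def W51 (d : Dat K ν) (ω : Fin 3 → S K 4) (t : Fin 3 → K) (c k : ℤ) :
    Submodule K (S K 4) :=
  grS (K := K) (ℓ := 4) (k - 1) ⊓ (It51 d ω c k).comap (qm51 (lin (tau t)))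

instance finW51 (c m : ℤ) : Module.Finite K (W51 d ω t c m) :=
  Module.Finite.of_injective
    (Submodule.inclusion (inf_le_left : W51 d ω t c m ≤ grS (K := K) (ℓ := 4) (m - 1)))
    (Submodule.inclusion_injective _)

theorem It_le_W51 (c k : ℤ) : It51 d ω c (k - 1) ≤ W51 d ω t c k := by
  rintro f ⟨h1, v, h2, h3⟩
  refine ⟨h1, ?_, lin (tau t) • v, ?_, ?_⟩
  · have := grS_mul51 (lin_grS51 (tau t)) h1
    have e : (1 : ℤ) + (k - 1) = k := by ring
    rwa [e] at this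
  · have := pc_X51 (lin_grS51 (tau t)) h2
    have e : (1 : ℤ) + (k - 1 + c) = k + c := by ring
    rwa [e] at this
  · rw [smul_dotProduct, h3, smul_eq_mul, ← mul_assoc]
    rfl

theorem dim_It51 (c k : ℤ) : Module.finrank K (It51 d ω c k) =
    Module.finrank K (I51 d ω t c k) + Module.finrank K (W51 d ω t c k) := by
  have hfin : Module.Finite K (It51 d ω c k) := finIt51 c k
  have h1 := dim_map51 (sg t).toLinearMap (It51 d ω c k)
  have h2 : It51 d ω c k ⊓ LinearMap.ker (sg t).toLinearMap =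
      (W51 d ω t c k).map (qm51 (lin (tau t))) := by
    ext f
    constructor
    · rintro ⟨hf, h0⟩
      obtain ⟨g, rfl⟩ := (sg_eq_zero51 t).1 h0
      exact ⟨g, ⟨grS_div51 (ltau_prime51 t).ne_zero (lin_grS51 _) hf.1, hf⟩, rfl⟩
    · rintro ⟨g, ⟨_, hg2⟩, rfl⟩
      exact ⟨hg2, (sg_eq_zero51 t).2 ⟨g, rfl⟩⟩
  rw [h2, dim_inj51 (qm51 (lin (tau t))) _ (fun x hx =>
    (mul_eq_zero.1 hx).resolve_left (ltau_prime51 t).ne_zero)] at h1
  exact h1

theorem c3_step51 (t : Fin 3 → K) (k : ℤ) :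
    Module.finrank K (grS (K := K) (ℓ := 4) k) = Module.finrank K (grS (K := K) (ℓ := 3) k) +
      Module.finrank K (grS (K := K) (ℓ := 4) (k - 1)) := by
  have h1 := dim_map51 (sg t).toLinearMap (grS (K := K) (ℓ := 4) k)
  have h2 : grS (K := K) (ℓ := 4) k ⊓ LinearMap.ker (sg t).toLinearMap =
      (grS (K := K) (ℓ := 4) (k - 1)).map (qm51 (lin (tau t))) := by
    ext f
    constructor
    · rintro ⟨hf, h0⟩
      obtain ⟨g, rfl⟩ := (sg_eq_zero51 t).1 h0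
      exact ⟨g, grS_div51 (ltau_prime51 t).ne_zero (lin_grS51 _) hf, rfl⟩
    · rintro ⟨g, hg, rfl⟩
      refine ⟨?_, (sg_eq_zero51 t).2 ⟨g, rfl⟩⟩
      have := grS_mul51 (lin_grS51 (tau t)) hg
      have e : (1 : ℤ) + (k - 1) = k := by ring
      rwa [e] at this
  have h3 : (grS (K := K) (ℓ := 4) k).map (sg t).toLinearMap = grS (K := K) (ℓ := 3) k := by
    ext p
    constructor
    · rintro ⟨f, hf, rfl⟩
      exact sg_gr51 t hf
    · intro hp
      exact ⟨up51 p, up_gr51 hp, sg_up51 t p⟩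
  rw [h2, h3, dim_inj51 (qm51 (lin (tau t))) _ (fun x hx =>
    (mul_eq_zero.1 hx).resolve_left (ltau_prime51 t).ne_zero)] at h1
  exact h1

theorem large51 {k0 c : ℤ} (hI : ∀ k ≥ k0, cd (I51 d ω t c) k = 0) :
    ∃ k1 : ℤ, ∀ k ≥ k1, ∀ f ∈ grS (K := K) (ℓ := 4) (k - 1),
      lin (tau t) * f ∈ It51 d ω c k → f ∈ It51 d ω c (k - 1) := by
  have hle : ∀ k, Module.finrank K (It51 d ω c k) ≤ Module.finrank K (grS (K := K) (ℓ := 4) k) :=
    fun k => Submodule.finrank_mono (fun _ hx => hx.1)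
  have hW : ∀ k, Module.finrank K (It51 d ω c (k - 1)) ≤ Module.finrank K (W51 d ω t c k) :=
    fun k => Submodule.finrank_mono (It_le_W51 c k)
  have hI' : ∀ k ≥ k0, Module.finrank K (I51 d ω t c k) =
      Module.finrank K (grS (K := K) (ℓ := 3) k) := by
    intro k hk
    have h1 := hI k hk
    rw [cd, ← c2_eq51 (K := K)] at h1
    omega
  have step : ∀ k ≥ k0, Module.finrank K (grS (K := K) (ℓ := 4) k) +
      Module.finrank K (W51 d ω t c k) = Module.finrank K (It51 d ω c k) +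
        Module.finrank K (grS (K := K) (ℓ := 4) (k - 1)) := by
    intro k hk
    rw [c3_step51 t k, dim_It51 (t := t) c k, hI' k hk]
    ring
  let D : ℕ → ℕ := fun n => Module.finrank K (grS (K := K) (ℓ := 4) (k0 + n)) -
    Module.finrank K (It51 d ω c (k0 + n))
  have hD : ∀ n : ℕ, D (n + 1) ≤ D n := by
    intro n
    have h1 := step (k0 + (n + 1 : ℕ)) (by push_cast; omega)
    have h2 := hW (k0 + (n + 1 : ℕ))
    have e : k0 + ((n + 1 : ℕ) : ℤ) - 1 = k0 + n := by push_cast; ring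
    rw [e] at h1 h2
    have h3 := hle (k0 + (n + 1 : ℕ))
    have h4 := hle (k0 + n)
    show Module.finrank K (grS (K := K) (ℓ := 4) (k0 + (n + 1 : ℕ))) -
      Module.finrank K (It51 d ω c (k0 + (n + 1 : ℕ))) ≤
      Module.finrank K (grS (K := K) (ℓ := 4) (k0 + n)) -
        Module.finrank K (It51 d ω c (k0 + n))
    omega
  obtain ⟨n0, hn0⟩ := Nat.sInf_mem (Set.range_nonempty D)
  have hmin : ∀ n, D n0 ≤ D n := fun n => by
    rw [hn0]
    exact Nat.sInf_le ⟨n, rfl⟩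
  have hanti : Antitone D := antitone_nat_of_succ_le hD
  refine ⟨k0 + n0 + 1, fun k hk f hf hlf => ?_⟩
  obtain ⟨n, hn⟩ := Int.eq_ofNat_of_zero_le (by omega : 0 ≤ k - 1 - k0)
  have hnn : n0 ≤ n := by omega
  have h1 : D (n + 1) = D n := by
    apply le_antisymm (hD n)
    exact (hanti hnn).trans (hmin _)
  have h2 := step k (by omega)
  have h3 := hle k
  have h4 := hle (k - 1)
  have h5 : Module.finrank K (grS (K := K) (ℓ := 4) k) - Module.finrank K (It51 d ω c k) =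
      Module.finrank K (grS (K := K) (ℓ := 4) (k - 1)) -
        Module.finrank K (It51 d ω c (k - 1)) := by
    have e1 : k = k0 + ((n + 1 : ℕ) : ℤ) := by push_cast; omega
    have e2 : k - 1 = k0 + (n : ℤ) := by omega
    rw [e2, e1]
    exact h1
  have h6 : Module.finrank K (W51 d ω t c k) = Module.finrank K (It51 d ω c (k - 1)) := by
    have := hW k
    omega
  have h7 := Submodule.eq_of_le_of_finrank_eq (It_le_W51 (d := d) (ω := ω) (t := t) c k) h6.symm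
  rw [h7]
  exact ⟨hf, hlf⟩

theorem J_lift51 (h : Fx51 d θ ω a u) (ht : Tx51 d θ ω t) {k1 : ℤ}
    (hk1 : ∀ k ≥ k1, ∀ f ∈ grS (K := K) (ℓ := 4) (k - 1),
      lin (tau t) * f ∈ It51 d ω (ν - u) k → f ∈ It51 d ω (ν - u) (k - 1))
    {j : ℤ} (hj : k1 ≤ j + (u - a) - (ν - u)) {p : S K 3} (hp : p ∈ J51 d θ ω t (u - a) j) :
    ∃ f ∈ grS (K := K) (ℓ := 4) j, sg t f = p ∧ ∃ v ∈ Mo d ω, θ ⨯₃ v = f • ω := by
  obtain ⟨h1, v, h2, h3, h4⟩ := hp
  obtain ⟨f', hf'⟩ := h.dvd v h2.2 ω h.conf.ω2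
  have h5 : lin (tau t) ∣ f' := by
    have h6 := (sg_eq_zero51 t).1 ((sv_dot51 t v ω).symm.trans h3)
    rw [hf'] at h6
    exact ((ltau_prime51 t).dvd_or_dvd h6).resolve_left (ndvd_Q51 ht.g3)
  obtain ⟨f2, rfl⟩ := h5
  have h6 : lin (tau t) * f2 ∈ grS (K := K) (ℓ := 4) (j + (u - a) - (ν - u)) := by
    have h7 := Vg_dot51 h2.1 h.conf.ωd
    rw [hf'] at h7
    have h8 := grS_div51 h.Q0 h.Qg h7
    have e : j + (u - a) + u - ν = j + (u - a) - (ν - u) := by ring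
    rwa [e] at h8
  have h7 := grS_div51 (ltau_prime51 t).ne_zero (lin_grS51 _) h6
  have h8 : f2 ∈ It51 d ω (ν - u) (j + (u - a) - (ν - u) - 1) := by
    apply hk1 _ hj f2 h7
    refine ⟨h6, v, ?_, ?_⟩
    · rw [sub_add_cancel]
      exact h2
    · rw [hf', mul_comm]
  obtain ⟨-, w, hw, hw2⟩ := h8
  have hw1 : lin (tau t) • w ∈ pc (L1 d) (j + (u - a)) := by
    have := pc_X51 (lin_grS51 (tau t)) hw
    have e : (1 : ℤ) + (j + (u - a) - (ν - u) - 1 + (ν - u)) = j + (u - a) := by ring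
    rwa [e] at this
  have h9 : v - lin (tau t) • w ∈ pc (L1 d) (j + (u - a)) := Submodule.sub_mem _ h2 hw1
  have h10 : (v - lin (tau t) • w) ⬝ᵥ ω = 0 := by
    rw [sub_dotProduct, smul_dotProduct, hw2, hf', smul_eq_mul]
    ring
  obtain ⟨f, hf⟩ := h.kom (θ ⨯₃ (v - lin (tau t) • w)) (h.p11 _ h.th1 _ h9.2) (by
    rw [omth51 h.orth, h10, zero_smul])
  have h11 : f ∈ grS (K := K) (ℓ := 4) j := by
    have h12 := Vg_cross51 h.conf.θd h9.1
    rw [hf] at h12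
    have h13 := Vg_div51' h.conf.ω0 h.conf.ωd h12
    have e : a + (j + (u - a)) - u = j := by ring
    rwa [e] at h13
  refine ⟨f, h11, ?_, v - lin (tau t) • w, ⟨h9.2, h10⟩, hf⟩
  have h14 := congrArg (sv t) hf
  rw [← sv_cross51, sv_smul51, map_sub, sv_smul51, sg_tau51, zero_smul, sub_zero, h4] at h14
  have h15 : (sg t f - p) • sv t ω = 0 := by rw [sub_smul, ← h14, sub_self]
  exact sub_eq_zero.1 ((smul_eq_zero.1 h15).resolve_right (svom51 h ht))

theorem rel_of_reg51 {f : Fin 3 → S K 4} (hf : Reg3 f) : IsRelPrime (f 0) (f 1) := by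
  intro g hg0 hg1
  obtain ⟨a0, ha0⟩ := hg0
  obtain ⟨a1, ha1⟩ := hg1
  have h0 : f 0 ≠ 0 := by
    intro hc
    have := hf.1 1 (by rw [hc, zero_mul])
    exact one_ne_zero this
  obtain ⟨c, hc⟩ := hf.2.1 a0 a1 (by rw [ha0, ha1]; ring)
  have ha : a0 ≠ 0 := by
    rintro rfl
    rw [mul_zero] at ha0
    exact h0 ha0
  have h1 : a0 * (g * c) = a0 * 1 := by
    rw [mul_one]
    conv_rhs => rw [hc, ha0]
    ring
  exact IsUnit.of_mul_eq_one c (mul_left_cancel₀ ha h1)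

/-- the dot product with `w` -/
noncomputable def dl51 {A : Type*} [CommRing A] (w : Fin 3 → A) : (Fin 3 → A) →ₗ[A] A where
  toFun v := v ⬝ᵥ w
  map_add' _ _ := add_dotProduct _ _ _
  map_smul' _ _ := smul_dotProduct _ _ _

theorem bas51 (hReg : stReg.{u}) (hKos : stKos.{u}) (h : Fx51 d θ ω a u) (ht : Tx51 d θ ω t)
    {k2 k0 : ℤ} (hJ : ∀ k ≥ k2, cd (J51 d θ ω t (u - a)) k = 0)
    (hI : ∀ k ≥ k0, cd (I51 d ω t (ν - u)) k = 0) : Bas d := by
  obtain ⟨k1, hk1⟩ := large51 hI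
  obtain ⟨N, hN⟩ : ∃ N : ℕ, 1 ≤ N ∧ k2 ≤ N ∧ k0 ≤ N ∧ k1 ≤ N + (u - a) - (ν - u) := by
    refine ⟨(max 1 (max k2 (max k0 (k1 - (u - a) + (ν - u))))).toNat, ?_⟩
    omega
  obtain ⟨hN1, hN2, hN3, hN4⟩ := hN
  have hX : ∀ j : Fin 3, (X j : S K 3) ^ N ∈ grS (K := K) (ℓ := 3) (N : ℤ) := fun j =>
    grS_of_hom51 (by
      have := (isHomogeneous_X K j).pow N
      rwa [one_mul] at this)
  have hJN : J51 d θ ω t (u - a) N = grS (K := K) (ℓ := 3) (N : ℤ) := by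
    apply Submodule.eq_of_le_of_finrank_eq ((GI_J51 d θ ω t (u - a)).1 N)
    have := hJ N hN2
    rw [cd, ← c2_eq51 (K := K)] at this
    omega
  have hIN : I51 d ω t (ν - u) N = grS (K := K) (ℓ := 3) (N : ℤ) := by
    apply Submodule.eq_of_le_of_finrank_eq ((GI_I51 d ω t (ν - u)).1 N)
    have := hI N hN3
    rw [cd, ← c2_eq51 (K := K)] at this
    omega
  have hf : ∀ j : Fin 3, ∃ f ∈ grS (K := K) (ℓ := 4) (N : ℤ), sg t f = X j ^ N ∧
      ∃ v ∈ Mo d ω, θ ⨯₃ v = f • ω := fun j => J_lift51 h ht hk1 hN4 (hJN ▸ hX j)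
  choose f hfg hfs hfv using hf
  have hreg := hReg K t N f hN1 hfg hfs
  obtain ⟨η, hη, hη2⟩ := hKos (S K 4) f hreg (Fin 3 → S K 4) (fun c z h => smul_eq_zero.1 h)
    (Mo d ω) (cm51 θ) 1 (fun _ => θ) (fun v h0 h1 => h.cdM _ _ v (rel_of_reg51 hreg) h0 h1)
    (fun _ => h.conf.θ1) (fun _ => cross_self θ)
    (fun c hc => by
      rw [Fin.sum_univ_one] at hc
      funext i
      rw [Fin.fin_one_eq_zero i]
      exact (smul_eq_zero.1 hc).resolve_right h.conf.θ0)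
    (fun v hv hc => by
      obtain ⟨f, hf⟩ := h.kth v hv.1 hc
      exact ⟨fun _ => f, by rw [Fin.sum_univ_one]; exact hf⟩) ω (fun i => hfv i)
  have hη3 : θ ⨯₃ η = ω := hη2
  have hspan : ∀ v ∈ Mo d ω, ∃ x y : S K 4, v = x • θ + y • η := by
    intro v hv
    obtain ⟨y, hy⟩ := h.kom (θ ⨯₃ v) (h.p11 _ h.th1 _ hv.1) (by
      rw [omth51 h.orth, hv.2, zero_smul])
    obtain ⟨x, hx⟩ := h.kth (v - y • η)
      (Submodule.sub_mem _ hv.1 (Submodule.smul_mem _ _ hη.1)) (by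
        rw [crs_sub51, crs_smul51, hη3, hy, sub_self])
    exact ⟨x, y, by rw [← hx, sub_add_cancel]⟩
  have hf' : ∀ j : Fin 3, ∃ f ∈ grS (K := K) (ℓ := 4) (N : ℤ), sg t f = X j ^ N ∧
      ∃ v ∈ L1 d, v ⬝ᵥ ω = f * Qd d := fun j => by
    have h1 : (X j : S K 3) ^ N ∈ I51 d ω t (ν - u) N := hIN ▸ hX j
    obtain ⟨f, ⟨h2, v, h3, h4⟩, h5⟩ := h1
    exact ⟨f, h2, h5, v, h3.2, h4⟩
  choose g hgg hgs hgv using hf'
  have hreg' := hReg K t N g hN1 hgg hgs
  obtain ⟨ζ, hζ, hζ2⟩ := hKos (S K 4) g hreg' (S K 4) (fun c z h => smul_eq_zero.1 h)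
    (L1 d) (dl51 ω) 2 ![θ, η] (fun v h0 h1 => h.cd1 _ _ v (rel_of_reg51 hreg') h0 h1)
    (fun i => by
      fin_cases i
      · exact h.th1
      · exact hη.1)
    (fun i => by
      fin_cases i
      · exact h.orth
      · exact hη.2)
    (fun c hc => by
      rw [Fin.sum_univ_two] at hc
      have h1 : c 1 = 0 := by
        have h2 := congrArg (fun v => θ ⨯₃ v) hc
        have h3 : θ ⨯₃ (c 0 • θ + c 1 • η) = c 1 • ω := by
          rw [map_add, crs_smul51, cross_self, smul_zero, zero_add, crs_smul51, hη3]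
        have h4 : c 1 • ω = 0 := by
          rw [← h3]
          have h5 : θ ⨯₃ (0 : Fin 3 → S K 4) = 0 := map_zero _
          exact h2.trans h5
        exact (smul_eq_zero.1 h4).resolve_right h.conf.ω0
      have h2 : c 0 = 0 := by
        rw [h1, zero_smul, add_zero] at hc
        exact (smul_eq_zero.1 hc).resolve_right h.conf.θ0
      funext i
      fin_cases i
      · exact h2
      · exact h1)
    (fun v hv hc => by
      obtain ⟨x, y, hxy⟩ := hspan v ⟨hv, hc⟩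
      exact ⟨![x, y], by rw [Fin.sum_univ_two]; exact hxy⟩) (Qd d) (fun i => by
      obtain ⟨v, hv, h1⟩ := hgv i
      exact ⟨v, hv, h1⟩)
  have hζ3 : ζ ⬝ᵥ ω = Qd d := hζ2
  refine ⟨![pv51 (ν - u) ζ, θ, pv51 (u - a) η], ![ν - u, a, u - a], 1, ?_, one_ne_zero, ?_⟩
  · intro i
    fin_cases i
    · exact ⟨pv_LF51 hζ _, pv_mem51 _ _⟩
    · exact ⟨h.th1, h.conf.θd⟩
    · exact ⟨pv_LF51 hη.1 _, pv_mem51 _ _⟩
  · show pv51 (ν - u) ζ ⬝ᵥ (θ ⨯₃ pv51 (u - a) η) = C 1 * Qd d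
    rw [← pv_cross51 h.conf.θd, hη3, pv_of_mem51 h.conf.ωd, ← pS_dot51 h.conf.ωd, hζ3,
      Grad.pS_of_mem h.Qg, if_pos rfl, C_1, one_mul]

/-- CORE -/
theorem core51 (hCD : stCoDiv.{u}) (hPr : stProd.{u}) (hPm : stPrim.{u}) (hReg : stReg.{u})
    (hKos : stKos.{u}) (hGen : stGen.{u}) : stCore.{u} := by
  intro K _ _ ν d θ ω a u hc
  have h := fx51 hCD hPr hPm hc
  obtain ⟨t, ht⟩ := exists_t51 hReg hKos hGen h
  refine ⟨a_nonneg51 hc, b_nonneg51 h, J51 d θ ω t (u - a), I51 d ω t (ν - u),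
    GI_J51 d θ ω t _, GI_I51 d ω t _, formula51 h ht, ?_⟩
  rintro ⟨k2, hJ⟩ ⟨k0, hI⟩
  exact bas51 hReg hKos h ht hJ hI

end Pool.Agent.Lib.MP_fe1391_co.Quad51
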