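import Pool.Agent.Lib.MP_fe1391_co.Quad51.CoreA

/-!
# The core argument: the Hilbert function modulo a generic hyperplane
-/

set_option autoImplicit false

namespace Pool.Agent.Lib.MP_fe1391_co.Quad51

open MvPolynomial Matrix Pool.Agent.Lib.MP_fe1391_co.Tame
open Pool.Agent.Lib.MP_fe1391_co.Thick51 (geo51 HS51 grS_mul51 grS_neg51 grS_of_hom51 hom_of_grS51
  grS_div51 lin_grS51 C_mul_grS51 pS_mul51)

universe u

variable {K : Type u} [Field K] {ν : ℕ}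

/-- restriction of the graded piece of `L1` -/
noncomputable def B51 (d : Dat K ν) (t : Fin 3 → K) (k : ℤ) : Submodule K (Fin 3 → S K 3) :=
  (pc (L1 d) k).map (sv t)

/-- the map `v ↦ v · w` -/
noncomputable def dm51 {ℓ : ℕ} (w : Fin 3 → S K ℓ) : (Fin 3 → S K ℓ) →ₗ[K] S K ℓ where
  toFun v := v ⬝ᵥ w
  map_add' _ _ := add_dotProduct _ _ _
  map_smul' _ _ := smul_dotProduct _ _ _

/-- the map `v ↦ w × v` -/
noncomputable def xm51 {ℓ : ℕ} (w : Fin 3 → S K ℓ) :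
    (Fin 3 → S K ℓ) →ₗ[K] (Fin 3 → S K ℓ) := (cm51 w).restrictScalars K

/-- the map `f ↦ f v` -/
noncomputable def sm51 {ℓ : ℕ} (v : Fin 3 → S K ℓ) : S K ℓ →ₗ[K] (Fin 3 → S K ℓ) where
  toFun f := f • v
  map_add' _ _ := add_smul _ _ _
  map_smul' _ _ := smul_assoc _ _ _

/-- the map `f ↦ q f` -/
noncomputable def qm51 {ℓ : ℕ} (q : S K ℓ) : S K ℓ →ₗ[K] S K ℓ := LinearMap.mulLeft K q

theorem dm_apply51 {ℓ : ℕ} (w v : Fin 3 → S K ℓ) : dm51 w v = v ⬝ᵥ w := rfl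
theorem xm_apply51 {ℓ : ℕ} (w v : Fin 3 → S K ℓ) : xm51 w v = w ⨯₃ v := rfl
theorem sm_apply51 {ℓ : ℕ} (v : Fin 3 → S K ℓ) (f : S K ℓ) : sm51 v f = f • v := rfl
theorem qm_apply51 {ℓ : ℕ} (q f : S K ℓ) : qm51 q f = q * f := rfl

/-- the homogeneous `f` with `v · ω = f Q` for some `v` in `L1` -/
noncomputable def It51 (d : Dat K ν) (ω : Fin 3 → S K 4) (c m : ℤ) : Submodule K (S K 4) where
  carrier := {f | f ∈ grS (K := K) (ℓ := 4) m ∧ ∃ v ∈ pc (L1 d) (m + c), v ⬝ᵥ ω = f * Qd d}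
  add_mem' := by
    rintro f g ⟨h1, v, h2, h3⟩ ⟨h4, w, h5, h6⟩
    exact ⟨Submodule.add_mem _ h1 h4, v + w, Submodule.add_mem _ h2 h5, by
      rw [add_dotProduct, h3, h6, add_mul]⟩
  zero_mem' := ⟨Submodule.zero_mem _, 0, Submodule.zero_mem _, by
    rw [zero_dotProduct, zero_mul]⟩
  smul_mem' := by
    rintro c f ⟨h1, v, h2, h3⟩
    exact ⟨Submodule.smul_mem _ c h1, c • v, Submodule.smul_mem _ c h2, by
      rw [smul_dotProduct, h3, smul_mul_assoc]⟩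

/-- the restrictions of the elements of `It51` -/
noncomputable def I51 (d : Dat K ν) (ω : Fin 3 → S K 4) (t : Fin 3 → K) (c m : ℤ) :
    Submodule K (S K 3) := (It51 d ω c m).map (sg t).toLinearMap

/-- the `p` with `θb × vb = p ωb` for some `v` in `L1` with `vb · ωb = 0` -/
noncomputable def J51 (d : Dat K ν) (θ ω : Fin 3 → S K 4) (t : Fin 3 → K) (b m : ℤ) :
    Submodule K (S K 3) where
  carrier := {p | p ∈ grS (K := K) (ℓ := 3) m ∧ ∃ v ∈ pc (L1 d) (m + b),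
    sv t v ⬝ᵥ sv t ω = 0 ∧ sv t θ ⨯₃ sv t v = p • sv t ω}
  add_mem' := by
    rintro f g ⟨h1, v, h2, h3, h4⟩ ⟨h1', v', h2', h3', h4'⟩
    refine ⟨Submodule.add_mem _ h1 h1', v + v', Submodule.add_mem _ h2 h2', ?_, ?_⟩
    · rw [map_add, add_dotProduct, h3, h3', add_zero]
    · rw [map_add, map_add, h4, h4', add_smul]
  zero_mem' := by
    refine ⟨Submodule.zero_mem _, 0, Submodule.zero_mem _, ?_, ?_⟩
    · rw [map_zero, zero_dotProduct]
    · rw [map_zero, map_zero, zero_smul]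
  smul_mem' := by
    rintro c f ⟨h1, v, h2, h3, h4⟩
    refine ⟨Submodule.smul_mem _ c h1, c • v, Submodule.smul_mem _ c h2, ?_, ?_⟩
    · rw [map_smul, smul_dotProduct, h3, smul_zero]
    · rw [map_smul, (crossProduct (sv t θ)).map_smul_of_tower, h4, smul_assoc]

theorem X_gr51 {ℓ : ℕ} (i : Fin ℓ) : (X i : S K ℓ) ∈ grS (K := K) (ℓ := ℓ) 1 :=
  grS_of_hom51 (n := 1) (isHomogeneous_X K i)

theorem pc_X51 {M : Submodule (S K 4) (Fin 3 → S K 4)} {f : S K 4}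
    {n : ℤ} (hf : f ∈ grS (K := K) (ℓ := 4) n) {m : ℤ} {v : Fin 3 → S K 4} (hv : v ∈ pc M m) :
    f • v ∈ pc M (n + m) :=
  ⟨Vg_smul51 hf hv.1, Submodule.smul_mem M f hv.2⟩

theorem GI_I51 (d : Dat K ν) (ω : Fin 3 → S K 4) (t : Fin 3 → K) (c : ℤ) :
    GI (I51 d ω t c) := by
  constructor
  · rintro m p ⟨f, ⟨h1, -⟩, rfl⟩
    exact sg_gr51 t h1
  · rintro m p i ⟨f, ⟨h1, v, h2, h3⟩, rfl⟩
    refine ⟨X i.castSucc * f, ⟨?_, (X i.castSucc : S K 4) • v, ?_, ?_⟩, ?_⟩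
    · rw [add_comm]
      exact grS_mul51 (X_gr51 _) h1
    · have := pc_X51 (X_gr51 i.castSucc) h2
      have e : (1 : ℤ) + (m + c) = m + 1 + c := by ring
      rwa [e] at this
    · rw [smul_dotProduct, h3, smul_eq_mul, mul_assoc]
    · show sg t (X i.castSucc * f) = X i * sg t f
      rw [map_mul, sg_X51]

theorem GI_J51 (d : Dat K ν) (θ ω : Fin 3 → S K 4) (t : Fin 3 → K) (b : ℤ) :
    GI (J51 d θ ω t b) := by
  constructor
  · rintro m p ⟨h1, -⟩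
    exact h1
  · rintro m p i ⟨h1, v, h2, h3, h4⟩
    refine ⟨?_, (X i.castSucc : S K 4) • v, ?_, ?_, ?_⟩
    · rw [add_comm]
      exact grS_mul51 (X_gr51 _) h1
    · have := pc_X51 (X_gr51 i.castSucc) h2
      have e : (1 : ℤ) + (m + b) = m + 1 + b := by ring
      rwa [e] at this
    · rw [sv_smul51, smul_dotProduct, h3, smul_zero]
    · rw [sv_smul51, sg_X51, map_smul, h4, smul_smul]

variable {d : Dat K ν} {θ ω : Fin 3 → S K 4} {a u : ℤ} {t : Fin 3 → K}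

/-- (1) -/
theorem dimB51 (h : Fx51 d θ ω a u) (ht : Tx51 d θ ω t) (k : ℤ) :
    (Module.finrank K (B51 d t k) : ℤ) = hh (L1 d) k - hh (L1 d) (k - 1) := by
  have h1 := dim_map51 (sv t) (pc (L1 d) k)
  have h2 : (pc (L1 d) k ⊓ LinearMap.ker (sv t)) =
      (pc (L1 d) (k - 1)).map ((LinearMap.lsmul (S K 4) (Fin 3 → S K 4) (lin (tau t))).restrictScalars K) := by
    ext v
    constructor
    · rintro ⟨hv, hk⟩
      obtain ⟨w, rfl⟩ := (sv_eq_zero51 t).1 hk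
      exact ⟨w, ⟨Vg_div51 (ltau_prime51 t).ne_zero (lin_grS51 _) hv.1, div1_51 h ht hv.2⟩, rfl⟩
    · rintro ⟨w, hw, rfl⟩
      refine ⟨?_, (sv_eq_zero51 t).2 ⟨w, rfl⟩⟩
      have := pc_X51 (lin_grS51 (tau t)) hw
      have e : (1 : ℤ) + (k - 1) = k := by ring
      rwa [e] at this
  have h3 : Module.finrank K ((pc (L1 d) (k - 1)).map
      ((LinearMap.lsmul (S K 4) (Fin 3 → S K 4) (lin (tau t))).restrictScalars K)) =
      Module.finrank K (pc (L1 d) (k - 1)) := by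
    apply dim_inj51
    intro v hv
    exact (smul_eq_zero.1 hv).resolve_left (ltau_prime51 t).ne_zero
  rw [h2, h3] at h1
  have h4 : (Module.finrank K (pc (L1 d) k) : ℤ) = Module.finrank K (B51 d t k) +
      Module.finrank K (pc (L1 d) (k - 1)) := by
    rw [h1, B51]
    push_cast
    rfl
  rw [hh, hh, h4]
  ring

/-- (2) -/
theorem imI51 (h : Fx51 d θ ω a u) (k : ℤ) :
    (B51 d t k).map (dm51 (sv t ω)) =
      (I51 d ω t (ν - u) (k - (ν - u))).map (qm51 (sg t (Qd d))) := by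
  ext q
  constructor
  · rintro ⟨_, ⟨v, hv, rfl⟩, rfl⟩
    obtain ⟨f, hf⟩ := h.dvd v hv.2 ω h.conf.ω2
    have hg : f ∈ grS (K := K) (ℓ := 4) (k - (ν - u)) := by
      have h1 := Vg_dot51 hv.1 h.conf.ωd
      rw [hf] at h1
      have h2 := grS_div51 h.Q0 h.Qg h1
      have e : k + u - ν = k - (ν - u) := by ring
      rwa [e] at h2
    refine ⟨sg t f, ⟨f, ⟨hg, v, ?_, ?_⟩, rfl⟩, ?_⟩
    · rw [sub_add_cancel]
      exact hv
    · rw [hf, mul_comm]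
    · rw [qm_apply51, dm_apply51, sv_dot51, hf, map_mul]
  · rintro ⟨_, ⟨f, ⟨h1, v, h2, h3⟩, rfl⟩, rfl⟩
    rw [sub_add_cancel] at h2
    refine ⟨sv t v, ⟨v, h2, rfl⟩, ?_⟩
    rw [dm_apply51, sv_dot51, h3, map_mul, mul_comm]
    rfl

/-- the kernel `Mh` -/
noncomputable def Mh51 (d : Dat K ν) (ω : Fin 3 → S K 4) (t : Fin 3 → K) (k : ℤ) :
    Submodule K (Fin 3 → S K 3) := B51 d t k ⊓ LinearMap.ker (dm51 (sv t ω))

/-- (3) -/
theorem cross_mod51 (h : Fx51 d θ ω a u) (ht : Tx51 d θ ω t) {v : Fin 3 → S K 4}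
    (hv : v ∈ L1 d) (h0 : sv t v ⬝ᵥ sv t ω = 0) :
    ∃ (f : S K 4) (w : Fin 3 → S K 4), θ ⨯₃ v = f • ω + lin (tau t) • w := by
  rw [sv_dot51] at h0
  obtain ⟨p, hp⟩ := (sg_eq_zero51 t).1 h0
  obtain ⟨w, hw, h1⟩ := ht.g2 (p • θ) ⟨θ ⨯₃ v, h.p11 _ h.th1 _ hv, by
    rw [omth51 h.orth, hp, smul_smul]⟩
  obtain ⟨f, hf⟩ := h.kom (θ ⨯₃ v - lin (tau t) • w)
    (Submodule.sub_mem _ (h.p11 _ h.th1 _ hv) (Submodule.smul_mem _ _ hw)) (by
      rw [crs_sub51, omth51 h.orth, hp, crs_smul51, h1, smul_smul, sub_self])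
  exact ⟨f, w, by rw [← hf, sub_add_cancel]⟩

theorem imJ51 (h : Fx51 d θ ω a u) (ht : Tx51 d θ ω t) (k : ℤ) :
    (Mh51 d ω t k).map (xm51 (sv t θ)) =
      (J51 d θ ω t (u - a) (k - (u - a))).map (sm51 (sv t ω)) := by
  ext q
  constructor
  · rintro ⟨_, ⟨⟨v, hv, rfl⟩, h0⟩, rfl⟩
    obtain ⟨f, w, hf⟩ := cross_mod51 h ht hv.2 h0
    have h1 : sv t θ ⨯₃ sv t v = sg t f • sv t ω := by
      rw [sv_cross51, hf, map_add, sv_smul51, sv_smul51, sg_tau51, zero_smul, add_zero]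
    have hg : sg t f ∈ grS (K := K) (ℓ := 3) (k - (u - a)) := by
      have h2 := Vg_cross51 (sv_gr51 t h.conf.θd) (sv_gr51 t hv.1)
      rw [h1] at h2
      have h3 := Vg_div51' (svom51 h ht) (sv_gr51 t h.conf.ωd) h2
      have e : a + k - u = k - (u - a) := by ring
      rwa [e] at h3
    refine ⟨sg t f, ⟨hg, v, ?_, h0, h1⟩, ?_⟩
    · rw [sub_add_cancel]
      exact hv
    · rw [sm_apply51, xm_apply51, h1]
  · rintro ⟨p, ⟨h1, v, h2, h3, h4⟩, rfl⟩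
    rw [sub_add_cancel] at h2
    refine ⟨sv t v, ⟨⟨v, h2, rfl⟩, h3⟩, ?_⟩
    rw [xm_apply51, h4]
    rfl

/-- (4) -/
theorem kerJ51 (h : Fx51 d θ ω a u) (ht : Tx51 d θ ω t) (k : ℤ) :
    Mh51 d ω t k ⊓ LinearMap.ker (xm51 (sv t θ)) =
      (grS (K := K) (ℓ := 3) (k - a)).map (sm51 (sv t θ)) := by
  ext q
  constructor
  · rintro ⟨⟨⟨v, hv, rfl⟩, h0⟩, h1⟩
    have h2 : sv t (θ ⨯₃ v) = 0 := by
      rw [← sv_cross51]
      exact h1
    obtain ⟨z, hz⟩ := (sv_eq_zero51 t).1 h2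
    obtain ⟨w, hw, hw2⟩ := ht.g1 z ⟨v, hv.2, hz⟩
    obtain ⟨f, hf⟩ := h.kth (v - lin (tau t) • w)
      (Submodule.sub_mem _ hv.2 (Submodule.smul_mem _ _ hw)) (by
        rw [crs_sub51, crs_smul51, hw2, hz, sub_self])
    have h3 : sv t v = sg t f • sv t θ := by
      have h4 : v = f • θ + lin (tau t) • w := by rw [← hf, sub_add_cancel]
      rw [h4, map_add, sv_smul51, sv_smul51, sg_tau51, zero_smul, add_zero]
    refine ⟨sg t f, ?_, h3.symm⟩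
    have h5 := sv_gr51 t hv.1
    rw [h3] at h5
    exact Vg_div51' (svth51 h ht) (sv_gr51 t h.conf.θd) h5
  · rintro ⟨f, hf, rfl⟩
    refine ⟨⟨⟨up51 f • θ, ?_, ?_⟩, ?_⟩, ?_⟩
    · have := pc_X51 (up_gr51 hf) (M := L1 d) ⟨h.conf.θd, h.th1⟩
      rwa [sub_add_cancel] at this
    · rw [sv_smul51, sg_up51]
      rfl
    · show (f • sv t θ) ⬝ᵥ sv t ω = 0
      rw [smul_dotProduct, sv_dot51, h.orth, map_zero, smul_zero]
    · show sv t θ ⨯₃ (f • sv t θ) = 0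
      rw [crs_smul51, cross_self, smul_zero]

instance finB51 (k : ℤ) : Module.Finite K (B51 d t k) :=
  Module.Finite.map (pc (L1 d) k) (sv t)

instance finMh51 (k : ℤ) : Module.Finite K (Mh51 d ω t k) :=
  Module.Finite.of_injective (Submodule.inclusion (inf_le_left : Mh51 d ω t k ≤ B51 d t k))
    (Submodule.inclusion_injective _)

/-- (5) -/
theorem formula51 (h : Fx51 d θ ω a u) (ht : Tx51 d θ ω t) (k : ℤ) :
    hh (L1 d) k - hh (L1 d) (k - 1) = c2 (k - a) +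
      (c2 (k - (u - a)) - cd (J51 d θ ω t (u - a)) (k - (u - a))) +
      (c2 (k - (ν - u)) - cd (I51 d ω t (ν - u)) (k - (ν - u))) := by
  rw [← dimB51 h ht]
  have h1 := dim_map51 (dm51 (sv t ω)) (B51 d t k)
  have h2 := dim_map51 (xm51 (sv t θ)) (Mh51 d ω t k)
  rw [imI51 h] at h1
  rw [imJ51 h ht, kerJ51 h ht] at h2
  rw [dim_inj51 (qm51 (sg t (Qd d))) _ (fun x hx => by
    exact (mul_eq_zero.1 hx).resolve_left (sgQ51 ht.g3))] at h1
  rw [dim_inj51 (sm51 (sv t ω)) _ (fun x hx => by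
    exact (smul_eq_zero.1 hx).resolve_right (svom51 h ht)),
    dim_inj51 (sm51 (sv t θ)) _ (fun x hx => by
    exact (smul_eq_zero.1 hx).resolve_right (svth51 h ht))] at h2
  have h3 := c2_eq51 (K := K) (k - a)
  rw [cd, cd, ← h3]
  rw [← Mh51] at h1
  omega

end Pool.Agent.Lib.MP_fe1391_co.Quad51
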