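import Pool.Agent.Lib.MP_fe1391_co.Quad51.Bar

/-!
# DB, part 1: lifting lemmas modulo a linear form
-/

set_option autoImplicit false

namespace Pool.Agent.Lib.MP_fe1391_co.Quad51

open MvPolynomial Matrix Pool.Agent.Lib.MP_fe1391_co.Tame
open Pool.Agent.Lib.MP_fe1391_co.Thick51 (geo51 HS51 grS_mul51 grS_neg51 grS_of_hom51 hom_of_grS51
  grS_div51 lin_grS51 C_mul_grS51 pS_mul51)

universe u

variable {K : Type u} [Field K] {ℓ : ℕ}

/-! ### The restriction of linear forms -/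

/-- `rs t` as a linear map -/
def rsL11 (t : Fin ℓ → K) : (Fin (ℓ + 1) → K) →ₗ[K] (Fin ℓ → K) where
  toFun b := rs t b
  map_add' a b := by
    funext j
    show a j.castSucc + b j.castSucc + t j * (a (Fin.last ℓ) + b (Fin.last ℓ)) =
      (a j.castSucc + t j * a (Fin.last ℓ)) + (b j.castSucc + t j * b (Fin.last ℓ))
    ring
  map_smul' c b := by
    funext j
    show c * b j.castSucc + t j * (c * b (Fin.last ℓ)) = c * (b j.castSucc + t j * b (Fin.last ℓ))
    ring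

theorem rsL_apply11 (t : Fin ℓ → K) (b : Fin (ℓ + 1) → K) : rsL11 t b = rs t b := rfl

theorem rs_eq_zero11 {t : Fin ℓ → K} {b : Fin (ℓ + 1) → K} (h : rs t b = 0) :
    b = b (Fin.last ℓ) • tau t := by
  funext j
  induction j using Fin.lastCases with
  | last => rw [Pi.smul_apply, tau_last51, smul_eq_mul, mul_one]
  | cast j =>
    have h1 : b j.castSucc + t j * b (Fin.last ℓ) = 0 := congrFun h j
    rw [Pi.smul_apply, tau_cast51, smul_eq_mul]
    linear_combination h1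

theorem rsL_surj11 (t : Fin ℓ → K) : Function.Surjective (rsL11 t) := by
  intro c
  refine ⟨Fin.snoc (α := fun _ => K) c 0, ?_⟩
  funext j
  show Fin.snoc (α := fun _ => K) c 0 j.castSucc +
    t j * Fin.snoc (α := fun _ => K) c 0 (Fin.last ℓ) = c j
  rw [Fin.snoc_castSucc, Fin.snoc_last, mul_zero, add_zero]

/-- if `tau t` is not in the span of `b` then the restriction of `b` is not zero -/
theorem rs_ne_zero11 {t : Fin ℓ → K} {b : Fin (ℓ + 1) → K} (hb : b ≠ 0)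
    (h : tau t ∉ Submodule.span K {b}) : rs t b ≠ 0 := by
  intro h0
  have h1 := rs_eq_zero11 h0
  have h2 : b (Fin.last ℓ) ≠ 0 := by
    intro h3
    rw [h3, zero_smul] at h1
    exact hb h1
  apply h
  rw [Submodule.mem_span_singleton]
  refine ⟨(b (Fin.last ℓ))⁻¹, ?_⟩
  nth_rewrite 2 [h1]
  rw [smul_smul, inv_mul_cancel₀ h2, one_smul]

/-- the linear form does not divide the equation of the hyperplane -/
theorem not_dvd_tau11 {t : Fin ℓ → K} {b : Fin (ℓ + 1) → K} (hb : b ≠ 0)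
    (h : tau t ∉ Submodule.span K {b}) : ¬ lin b ∣ lin (tau t) := by
  intro h1
  obtain ⟨c, hc⟩ := Pair.lin_dvd_lin hb h1
  apply h
  rw [Submodule.mem_span_singleton]
  exact ⟨c, hc.symm⟩

/-! ### Covectors -/

theorem cv_add11 (a b : Fin 3 → K) : cv ℓ (a + b) = cv ℓ a + cv ℓ b := by
  funext j
  exact map_add C _ _

theorem cv_smul11 (c : K) (a : Fin 3 → K) : cv ℓ (c • a) = (C c : S K ℓ) • cv ℓ a := by
  funext j
  exact map_mul C _ _

/-- the covectors `φ` with `p ∣ φ · v` -/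
def dv11 (p : S K ℓ) (v : Fin 3 → S K ℓ) : Submodule K (Fin 3 → K) where
  carrier := {φ | p ∣ cv ℓ φ ⬝ᵥ v}
  add_mem' := by
    intro a b ha hb
    show p ∣ cv ℓ (a + b) ⬝ᵥ v
    rw [cv_add11, add_dotProduct]
    exact dvd_add ha hb
  zero_mem' := by
    show p ∣ cv ℓ 0 ⬝ᵥ v
    have : cv ℓ (0 : Fin 3 → K) = 0 := by
      funext j
      exact map_zero C
    rw [this, zero_dotProduct]
    exact dvd_zero _
  smul_mem' := by
    intro c a ha
    show p ∣ cv ℓ (c • a) ⬝ᵥ v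
    rw [cv_smul11, smul_dotProduct, smul_eq_mul]
    exact Dvd.dvd.mul_left ha _

theorem mem_dv11 {p : S K ℓ} {v : Fin 3 → S K ℓ} {φ : Fin 3 → K} :
    φ ∈ dv11 p v ↔ p ∣ cv ℓ φ ⬝ᵥ v := Iff.rfl

/-- LIFT: if all `φ · w` are divisible by `b` on the hyperplane then `φ · w ≡ l φ · r` modulo `b` -/
theorem lift11 (t : Fin ℓ → K) (b : Fin (ℓ + 1) → K) (hb : rs t b ≠ 0) (F : Set (Fin 3 → K))
    {j : ℤ} {w : Fin 3 → S K (ℓ + 1)} (hw : w ∈ Vg K (ℓ + 1) j)
    (h : ∀ φ ∈ F, lin (rs t b) ∣ sg t (cv (ℓ + 1) φ ⬝ᵥ w)) :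
    ∃ r ∈ Vg K (ℓ + 1) (j - 1), ∀ φ ∈ F,
      lin b ∣ cv (ℓ + 1) φ ⬝ᵥ w - lin (tau t) * (cv (ℓ + 1) φ ⬝ᵥ r) := by
  set W : Submodule K (Fin 3 → K) := Submodule.span K F with hW
  have hWd : W ≤ dv11 (lin (rs t b)) (sv t w) := by
    rw [hW, Submodule.span_le]
    intro φ hφ
    have h1 := h φ hφ
    rw [← sv_dot51, sv_cv51] at h1
    exact h1
  obtain ⟨g, hg⟩ := LinearMap.exists_leftInverse_of_injective W.subtype (Submodule.ker_subtype W)
  set p : (Fin 3 → K) →ₗ[K] (Fin 3 → K) := W.subtype ∘ₗ g with hp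
  have hpW : ∀ φ, p φ ∈ W := fun φ => (g φ).2
  have hpid : ∀ φ ∈ W, p φ = φ := by
    intro φ hφ
    have h1 := LinearMap.congr_fun hg ⟨φ, hφ⟩
    show ((g φ : W) : Fin 3 → K) = φ
    have h2 : g φ = ⟨φ, hφ⟩ := h1
    rw [h2]
  -- the modified vector
  set e : Fin 3 → Fin 3 → K := fun k => Pi.single k 1 with he
  set w' : Fin 3 → S K (ℓ + 1) := fun k => cv (ℓ + 1) (p (e k)) ⬝ᵥ w with hw'
  have hw'g : ∀ k, w' k ∈ grS (K := K) (ℓ := ℓ + 1) j := by
    intro k
    have := Vg_dot51 (Vg_cv51 (ℓ := ℓ + 1) (p (e k))) hw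
    rwa [zero_add] at this
  have hφ : ∀ φ ∈ F, cv (ℓ + 1) φ ⬝ᵥ w = cv (ℓ + 1) φ ⬝ᵥ w' := by
    intro φ hφF
    have h1 : p φ = φ := hpid φ (Submodule.subset_span hφF)
    have h2 : φ = ∑ k, φ k • e k := by
      funext i
      rw [Finset.sum_apply]
      simp [he, Pi.single_apply]
    have h3 : φ = ∑ k, φ k • p (e k) := by
      conv_lhs => rw [← h1, h2, map_sum]
      exact Finset.sum_congr rfl fun k _ => map_smul p _ _
    have h4 : cv (ℓ + 1) φ = ∑ k, (C (φ k) : S K (ℓ + 1)) • cv (ℓ + 1) (p (e k)) := by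
      have h5 : ∀ (s : Finset (Fin 3)) (c : Fin 3 → K) (f : Fin 3 → Fin 3 → K),
          cv (ℓ + 1) (∑ k ∈ s, c k • f k) =
            ∑ k ∈ s, (C (c k) : S K (ℓ + 1)) • cv (ℓ + 1) (f k) := by
        intro s c f
        classical
        induction s using Finset.induction_on with
        | empty =>
          rw [Finset.sum_empty, Finset.sum_empty]
          funext i
          exact map_zero C
        | insert a s ha ih => rw [Finset.sum_insert ha, Finset.sum_insert ha, cv_add11, cv_smul11, ih]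
      conv_lhs => rw [h3]
      exact h5 _ _ _
    conv_lhs => rw [h4, sum_dotProduct]
    show _ = ∑ k, cv (ℓ + 1) φ k * w' k
    refine Finset.sum_congr rfl fun k _ => ?_
    rw [smul_dotProduct, smul_eq_mul]
    rfl
  -- divide on the hyperplane
  have hb0 : lin (rs t b) ≠ 0 := Pair.lin_ne_zero hb
  have hdiv : ∀ k, ∃ q ∈ grS (K := K) (ℓ := ℓ) (j - 1), sg t (w' k) = lin (rs t b) * q := by
    intro k
    have h1 : lin (rs t b) ∣ sg t (w' k) := by
      have := hWd (hpW (e k))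
      rw [mem_dv11, ← sv_cv51 t, sv_dot51] at this
      exact this
    obtain ⟨q, hq⟩ := h1
    refine ⟨q, ?_, hq⟩
    have h2 : lin (rs t b) * q ∈ grS (K := K) (ℓ := ℓ) j := by
      rw [← hq]
      exact sg_gr51 t (hw'g k)
    exact grS_div51 hb0 (lin_grS51 _) h2
  choose q hqg hq using hdiv
  have hr : ∀ k, ∃ r ∈ grS (K := K) (ℓ := ℓ + 1) (j - 1),
      w' k = lin b * up51 (q k) + lin (tau t) * r := by
    intro k
    have h1 : lin (tau t) ∣ w' k - lin b * up51 (q k) := by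
      rw [← sg_eq_zero51, map_sub, map_mul, sg_up51, sg_lin51, hq k, sub_self]
    obtain ⟨r, hr⟩ := h1
    refine ⟨r, ?_, ?_⟩
    · have h2 : lin (tau t) * r ∈ grS (K := K) (ℓ := ℓ + 1) j := by
        rw [← hr]
        refine Submodule.sub_mem _ (hw'g k) ?_
        have := grS_mul51 (lin_grS51 b) (up_gr51 (hqg k))
        rwa [add_sub_cancel] at this
      exact grS_div51 (Pair.lin_ne_zero (tau_ne51 t)) (lin_grS51 _) h2
    · linear_combination hr
  choose r hrg hr using hr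
  refine ⟨r, hrg, fun φ hφF => ?_⟩
  rw [hφ φ hφF]
  have h1 : cv (ℓ + 1) φ ⬝ᵥ w' - lin (tau t) * (cv (ℓ + 1) φ ⬝ᵥ r) =
      lin b * ∑ k, cv (ℓ + 1) φ k * up51 (q k) := by
    rw [dotProduct, dotProduct, Finset.mul_sum, Finset.mul_sum, ← Finset.sum_sub_distrib]
    refine Finset.sum_congr rfl fun k _ => ?_
    rw [hr k]
    ring
  rw [h1]
  exact dvd_mul_right _ _

/-! ### The projection along the hyperplane -/

/-- `X j ↦ X j - lam j l` -/
noncomputable def rho11 (lam : Fin (ℓ + 1) → K) (t : Fin ℓ → K) : S K (ℓ + 1) →ₐ[K] S K (ℓ + 1) :=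
  aeval (fun j => X j - C (lam j) * lin (tau t))

theorem rho_C11 (lam : Fin (ℓ + 1) → K) (t : Fin ℓ → K) (c : K) : rho11 lam t (C c) = C c := by
  rw [rho11, aeval_C]
  rfl

theorem rho_lin11 (lam : Fin (ℓ + 1) → K) (t : Fin ℓ → K) (b : Fin (ℓ + 1) → K) :
    rho11 lam t (lin b) = lin b - C (∑ j, b j * lam j) * lin (tau t) := by
  rw [lin, map_sum, map_sum, Finset.sum_mul, ← Finset.sum_sub_distrib]
  refine Finset.sum_congr rfl fun j _ => ?_
  rw [map_mul, rho_C11, rho11, aeval_X, map_mul]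
  ring

theorem dvd_sub_rho11 (lam : Fin (ℓ + 1) → K) (t : Fin ℓ → K) (p : S K (ℓ + 1)) :
    lin (tau t) ∣ p - rho11 lam t p := by
  induction p using MvPolynomial.induction_on with
  | C c => rw [rho_C11, sub_self]; exact dvd_zero _
  | add p q hp hq =>
    have : p + q - rho11 lam t (p + q) = (p - rho11 lam t p) + (q - rho11 lam t q) := by
      rw [map_add]; ring
    rw [this]
    exact dvd_add hp hq
  | mul_X p i hp =>
    have : p * X i - rho11 lam t (p * X i) =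
        (p - rho11 lam t p) * X i + rho11 lam t p * (C (lam i) * lin (tau t)) := by
      rw [map_mul]
      have h1 : rho11 lam t (X i) = X i - C (lam i) * lin (tau t) := by
        rw [rho11, aeval_X]
      rw [h1]
      ring
    rw [this]
    refine dvd_add (Dvd.dvd.mul_right hp _) ?_
    exact Dvd.dvd.mul_left (Dvd.dvd.mul_left dvd_rfl _) _

theorem rho_gr11 (lam : Fin (ℓ + 1) → K) (t : Fin ℓ → K) {m : ℤ} {p : S K (ℓ + 1)}
    (hp : p ∈ grS (K := K) (ℓ := ℓ + 1) m) : rho11 lam t p ∈ grS (K := K) (ℓ := ℓ + 1) m := by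
  rcases lt_or_ge m 0 with hm | hm
  · rw [grS_neg51 hm hp, map_zero]
    exact Submodule.zero_mem _
  · obtain ⟨n, rfl⟩ := Int.eq_ofNat_of_zero_le hm
    have h := hom_of_grS51 (n := n) hp
    apply grS_of_hom51
    have := h.aeval (fun j => X j - C (lam j) * lin (tau t)) (n := 1) (fun i => by
      refine (isHomogeneous_X K i).sub ?_
      have h1 := (isHomogeneous_C (Fin (ℓ + 1)) (lam i)).mul (Pair.lin_homog (tau t))
      rwa [zero_add] at h1)
    rwa [one_mul] at this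

/-- a linear functional which is `1` on `x` and kills a subspace not containing `x` -/
theorem exists_lam11 {m : ℕ} {U : Submodule K (Fin m → K)} {x : Fin m → K} (hx : x ∉ U) :
    ∃ lam : Fin m → K, (∑ j, x j * lam j) = 1 ∧ ∀ y ∈ U, (∑ j, y j * lam j) = 0 := by
  obtain ⟨f, hf, hfU⟩ := Submodule.exists_dual_map_eq_bot_of_notMem hx inferInstance
  have hy : ∀ y : Fin m → K, (∑ j, y j * f (Pi.single j 1)) = f y := by
    intro y
    have h1 : y = ∑ j, y j • (Pi.single j 1 : Fin m → K) := by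
      funext i
      rw [Finset.sum_apply]
      simp [Pi.single_apply]
    conv_rhs => rw [h1, map_sum]
    exact Finset.sum_congr rfl fun j _ => by rw [map_smul, smul_eq_mul]
  refine ⟨fun j => (f x)⁻¹ * f (Pi.single j 1), ?_, fun y hyU => ?_⟩
  · have h1 : ∑ j, x j * ((f x)⁻¹ * f (Pi.single j 1)) =
        (f x)⁻¹ * ∑ j, x j * f (Pi.single j 1) := by
      rw [Finset.mul_sum]
      exact Finset.sum_congr rfl fun j _ => by ring
    rw [h1, hy, inv_mul_cancel₀ hf]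
  · have h1 : ∑ j, y j * ((f x)⁻¹ * f (Pi.single j 1)) =
        (f x)⁻¹ * ∑ j, y j * f (Pi.single j 1) := by
      rw [Finset.mul_sum]
      exact Finset.sum_congr rfl fun j _ => by ring
    have h2 : f y = 0 := by
      have h3 : f y ∈ U.map f := Submodule.mem_map_of_mem hyU
      rw [hfU] at h3
      exact (Submodule.mem_bot K).1 h3
    rw [h1, hy, h2, mul_zero]

/-- NS: the non spanning sets -/
theorem ns11 {ι : Type*} (t : Fin ℓ → K) (F : ι → Set (Fin 3 → K)) (β : ι → Fin (ℓ + 1) → K)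
    (Y : Finset ι) (hβ : ∀ i ∈ Y, β i ≠ 0)
    (ht : tau t ∉ Submodule.span K (β '' (Y : Set ι))) {k : ℤ} {w : Fin 3 → S K (ℓ + 1)}
    (hw : w ∈ Vg K (ℓ + 1) k) (r : ι → Fin 3 → S K (ℓ + 1))
    (h : ∀ i ∈ Y, ∀ φ ∈ F i,
      lin (β i) ∣ cv (ℓ + 1) φ ⬝ᵥ w - lin (tau t) * (cv (ℓ + 1) φ ⬝ᵥ r i)) :
    ∃ z ∈ Vg K (ℓ + 1) (k - 1), ∀ i ∈ Y, ∀ φ ∈ F i,
      lin (β i) ∣ cv (ℓ + 1) φ ⬝ᵥ (r i - z) := by
  obtain ⟨lam, h1, h0⟩ := exists_lam11 ht
  have hl : rho11 lam t (lin (tau t)) = 0 := by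
    rw [rho_lin11, h1, C_1, one_mul, sub_self]
  have hα : ∀ i ∈ Y, rho11 lam t (lin (β i)) = lin (β i) := by
    intro i hi
    rw [rho_lin11, h0 _ (Submodule.subset_span ⟨i, hi, rfl⟩), C_0, zero_mul, sub_zero]
  have hz : ∀ a, ∃ z ∈ grS (K := K) (ℓ := ℓ + 1) (k - 1),
      w a = rho11 lam t (w a) + lin (tau t) * z := by
    intro a
    obtain ⟨z, hz⟩ := dvd_sub_rho11 lam t (w a)
    refine ⟨z, ?_, by linear_combination hz⟩
    have h2 : lin (tau t) * z ∈ grS (K := K) (ℓ := ℓ + 1) k := by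
      rw [← hz]
      exact Submodule.sub_mem _ (hw a) (rho_gr11 lam t (hw a))
    exact grS_div51 (Pair.lin_ne_zero (tau_ne51 t)) (lin_grS51 _) h2
  choose z hzg hz using hz
  refine ⟨z, hzg, fun i hi φ hφ => ?_⟩
  have h2 := h i hi φ hφ
  -- apply `ρ`
  have h3 : lin (β i) ∣ ∑ a, cv (ℓ + 1) φ a * rho11 lam t (w a) := by
    have h4 := map_dvd (rho11 lam t) h2
    rw [hα i hi, map_sub, map_mul, hl, zero_mul, sub_zero, dotProduct, map_sum] at h4
    have h5 : ∑ a, rho11 lam t (cv (ℓ + 1) φ a * w a) =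
        ∑ a, cv (ℓ + 1) φ a * rho11 lam t (w a) := by
      refine Finset.sum_congr rfl fun a _ => ?_
      rw [map_mul]
      congr 1
      exact rho_C11 lam t (φ a)
    rwa [h5] at h4
  have h4 : cv (ℓ + 1) φ ⬝ᵥ w = ∑ a, cv (ℓ + 1) φ a * rho11 lam t (w a) +
      lin (tau t) * (cv (ℓ + 1) φ ⬝ᵥ z) := by
    rw [dotProduct, dotProduct, Finset.mul_sum, ← Finset.sum_add_distrib]
    refine Finset.sum_congr rfl fun a _ => ?_
    conv_lhs => rw [hz a]
    ring
  have h5 : lin (β i) ∣ lin (tau t) * (cv (ℓ + 1) φ ⬝ᵥ (r i - z)) := by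
    have h6 : lin (tau t) * (cv (ℓ + 1) φ ⬝ᵥ (r i - z)) =
        ∑ a, cv (ℓ + 1) φ a * rho11 lam t (w a) -
        (cv (ℓ + 1) φ ⬝ᵥ w - lin (tau t) * (cv (ℓ + 1) φ ⬝ᵥ r i)) := by
      rw [dotProduct_sub, h4]
      ring
    rw [h6]
    exact dvd_sub h3 h2
  have hβi := hβ i hi
  rcases (Pair.lin_prime hβi).dvd_or_dvd h5 with h6 | h6
  · exfalso
    refine not_dvd_tau11 hβi (fun hmem => ht ?_) h6
    refine Submodule.span_mono ?_ hmem
    rw [Set.singleton_subset_iff]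
    exact ⟨i, hi, rfl⟩
  · exact h6

end Pool.Agent.Lib.MP_fe1391_co.Quad51
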