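import Pool.Agent.Lib.MP_fe1391_co.Quad51.DBa11

/-!
# DB, part 2: patching solutions
-/

set_option autoImplicit false

namespace Pool.Agent.Lib.MP_fe1391_co.Quad51

open MvPolynomial Matrix Pool.Agent.Lib.MP_fe1391_co.Tame
open Pool.Agent.Lib.MP_fe1391_co.Thick51 (geo51 HS51 grS_mul51 grS_neg51 grS_of_hom51 hom_of_grS51
  grS_div51 lin_grS51 C_mul_grS51 pS_mul51)

universe u

/-- a generic hyperplane for a finite set of subspaces -/
theorem gen11 (hG : stGen0.{u}) {K : Type u} [Field K] [Infinite K] {ℓ : ℕ}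
    (P : Finset (Submodule K (Fin (ℓ + 1) → K))) (hP : ∀ U ∈ P, U ≠ ⊤) :
    ∃ t : Fin ℓ → K, ∀ U ∈ P, tau t ∉ U := by
  obtain ⟨t, ht⟩ := hG K ℓ P.card (fun i => (P.equivFin.symm i).1)
    (fun i => hP _ (P.equivFin.symm i).2)
  refine ⟨t, fun U hU => ?_⟩
  have := ht (P.equivFin ⟨U, hU⟩)
  simpa using this

/-- a generic hyperplane for the non spanning subsets of a finite set -/
theorem gen11' (hG : stGen0.{u}) {K : Type u} [Field K] [Infinite K] {ℓ : ℕ} {ι : Type}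
    (I : Finset ι) (β : ι → Fin (ℓ + 1) → K) :
    ∃ t : Fin ℓ → K, ∀ Y ⊆ I, Submodule.span K (β '' (Y : Set ι)) ≠ ⊤ →
      tau t ∉ Submodule.span K (β '' (Y : Set ι)) := by
  classical
  obtain ⟨t, ht⟩ := gen11 hG
    ((I.powerset.image (fun Y : Finset ι => Submodule.span K (β '' (Y : Set ι)))).filter
      (fun U => U ≠ ⊤)) (fun U hU => (Finset.mem_filter.1 hU).2)
  refine ⟨t, fun Y hY hYn => ?_⟩
  exact ht _ (Finset.mem_filter.2 ⟨Finset.mem_image_of_mem _ (Finset.mem_powerset.2 hY), hYn⟩)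

variable {K : Type u} [Field K]

/-- solutions on the non spanning subsets -/
def Nsp11 {m : ℕ} {ι : Type} (I : Finset ι) (F : ι → Set (Fin 3 → K)) (β : ι → Fin m → K) (j : ℤ)
    (r : ι → Fin 3 → S K m) : Prop :=
  ∀ Y ⊆ I, Submodule.span K (β '' (Y : Set ι)) ≠ ⊤ →
    ∃ z ∈ Vg K m j, ∀ i ∈ Y, ∀ φ ∈ F i, lin (β i) ∣ cv m φ ⬝ᵥ (r i - z)

/-- pairwise non-proportional -/
def Npr11 {m : ℕ} {ι : Type} (I : Finset ι) (β : ι → Fin m → K) : Prop :=
  (∀ i ∈ I, β i ≠ 0) ∧ ∀ i ∈ I, ∀ j ∈ I, i ≠ j → ∀ c : K, β j ≠ c • β i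

/-- the patching statement for all subsets of a finite set -/
def Pm11 (K : Type u) [Field K] (m : ℕ) : Prop :=
  ∀ (ι : Type) (I : Finset ι) (F : ι → Set (Fin 3 → K)) (β : ι → Fin m → K), Npr11 I β →
    ∀ j : ℤ, (I.card : ℤ) - 1 ≤ j → ∀ r : ι → Fin 3 → S K m, (∀ i ∈ I, r i ∈ Vg K m j) →
      Nsp11 I F β j r → ∃ z ∈ Vg K m j, ∀ i ∈ I, ∀ φ ∈ F i, lin (β i) ∣ cv m φ ⬝ᵥ (r i - z)

/-- a generic hyperplane -/
def Gnt11 {ℓ : ℕ} {ι : Type} (I : Finset ι) (β : ι → Fin (ℓ + 1) → K) (t : Fin ℓ → K) : Prop :=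
  ∀ Y ⊆ I, Submodule.span K (β '' (Y : Set ι)) ≠ ⊤ →
      tau t ∉ Submodule.span K (β '' (Y : Set ι))

/-- the solution modulo the hyperplane -/
def Rm11 (K : Type u) [Field K] (ℓ : ℕ) : Prop :=
  ∀ (ι : Type) (I : Finset ι) (F : ι → Set (Fin 3 → K)) (β : ι → Fin (ℓ + 1) → K) (t : Fin ℓ → K),
    Npr11 I β → Gnt11 I β t → Submodule.span K (β '' (I : Set ι)) = ⊤ →
    ∀ j : ℤ, (I.card : ℤ) - 1 ≤ j → ∀ r : ι → Fin 3 → S K (ℓ + 1),
      (∀ i ∈ I, r i ∈ Vg K (ℓ + 1) j) → Nsp11 I F β j r →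
      ∃ z ∈ Vg K (ℓ + 1) j, ∀ i ∈ I, ∀ φ ∈ F i,
        lin (rs t (β i)) ∣ sg t (cv (ℓ + 1) φ ⬝ᵥ (r i - z))

/-- one vector is not spanning in dimension at least two -/
theorem span_one11 {ℓ : ℕ} (hℓ : 1 ≤ ℓ) (b : Fin (ℓ + 1) → K) :
    Submodule.span K {b} ≠ ⊤ := by
  intro h
  have h1 : Module.finrank K (Submodule.span K (({b} : Finset (Fin (ℓ + 1) → K)) :
    Set (Fin (ℓ + 1) → K))) ≤ ({b} : Finset (Fin (ℓ + 1) → K)).card := finrank_span_finset_le_card _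
  rw [Finset.coe_singleton, h, finrank_top, Module.finrank_fin_fun, Finset.card_singleton] at h1
  omega

/-- two vectors are not spanning in dimension at least three -/
theorem span_two11 {ℓ : ℕ} (hℓ : 2 ≤ ℓ) (a b : Fin (ℓ + 1) → K) :
    Submodule.span K {a, b} ≠ ⊤ := by
  classical
  intro h
  have h1 : Module.finrank K (Submodule.span K (({a, b} : Finset (Fin (ℓ + 1) → K)) :
    Set (Fin (ℓ + 1) → K))) ≤ ({a, b} : Finset (Fin (ℓ + 1) → K)).card := finrank_span_finset_le_card _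
  have h2 : ({a, b} : Finset (Fin (ℓ + 1) → K)).card ≤ 2 := Finset.card_le_two
  rw [Finset.coe_pair, h, finrank_top, Module.finrank_fin_fun] at h1
  omega

theorem gnt_one11 {ℓ : ℕ} (hℓ : 1 ≤ ℓ) {ι : Type} {I : Finset ι} {β : ι → Fin (ℓ + 1) → K}
    {t : Fin ℓ → K} (ht : Gnt11 I β t) {i : ι} (hi : i ∈ I) :
    tau t ∉ Submodule.span K {β i} := by
  have h := ht {i} (by simpa using hi)
  rw [Finset.coe_singleton, Set.image_singleton] at h
  exact h (span_one11 hℓ _)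

theorem gnt_two11 {ℓ : ℕ} (hℓ : 2 ≤ ℓ) {ι : Type} {I : Finset ι} {β : ι → Fin (ℓ + 1) → K}
    {t : Fin ℓ → K} (ht : Gnt11 I β t) {i j : ι} (hi : i ∈ I) (hj : j ∈ I) :
    tau t ∉ Submodule.span K {β i, β j} := by
  classical
  have h := ht {i, j} (by
    intro x hx
    rcases Finset.mem_insert.1 hx with rfl | hx
    · exact hi
    · rw [Finset.mem_singleton.1 hx]; exact hj)
  rw [Finset.coe_pair, Set.image_pair] at h
  exact h (span_two11 hℓ _ _)

/-- the restrictions are pairwise non-proportional -/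
theorem npr_rs11 {ℓ : ℕ} (hℓ : 2 ≤ ℓ) {ι : Type} {I : Finset ι} {β : ι → Fin (ℓ + 1) → K}
    {t : Fin ℓ → K} (hN : Npr11 I β) (ht : Gnt11 I β t) : Npr11 I (fun i => rs t (β i)) := by
  refine ⟨fun i hi => rs_ne_zero11 (hN.1 i hi) (gnt_one11 (by omega) ht hi), ?_⟩
  intro i hi j hj hij c hc
  have h1 : rs t (β j - c • β i) = 0 := by
    rw [← rsL_apply11, map_sub, map_smul, rsL_apply11, rsL_apply11]
    exact sub_eq_zero.2 hc
  have h2 := rs_eq_zero11 h1
  by_cases h3 : (β j - c • β i) (Fin.last ℓ) = 0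
  · rw [h3, zero_smul] at h2
    exact hN.2 i hi j hj hij c (sub_eq_zero.1 h2)
  · apply gnt_two11 hℓ ht hi hj
    have h4 : tau t = ((β j - c • β i) (Fin.last ℓ))⁻¹ • (β j - c • β i) := by
      nth_rewrite 2 [h2]
      rw [smul_smul, inv_mul_cancel₀ h3, one_smul]
    rw [h4]
    refine Submodule.smul_mem _ _ (Submodule.sub_mem _ ?_ (Submodule.smul_mem _ _ ?_))
    · exact Submodule.subset_span (by simp)
    · exact Submodule.subset_span (by simp)

/-- non spanning below is non spanning above -/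
theorem span_rs11 {ℓ : ℕ} {ι : Type} (Y : Finset ι) (β : ι → Fin (ℓ + 1) → K) (t : Fin ℓ → K)
    (h : Submodule.span K (β '' (Y : Set ι)) = ⊤) :
    Submodule.span K ((fun i => rs t (β i)) '' (Y : Set ι)) = ⊤ := by
  have h1 : (fun i => rs t (β i)) '' (Y : Set ι) = rsL11 t '' (β '' (Y : Set ι)) := by
    rw [Set.image_image]
    rfl
  rw [h1, Submodule.span_image, h, Submodule.map_top, LinearMap.range_eq_top]
  exact rsL_surj11 t

/-- `P(ℓ)` gives the solution modulo the hyperplane -/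
theorem rm_of_pm11 {ℓ : ℕ} (hℓ : 2 ≤ ℓ) (hP : Pm11 K ℓ) : Rm11 K ℓ := by
  intro ι I F β t hN ht _ j hj r hr hns
  have hr' : ∀ i ∈ I, sv t (r i) ∈ Vg K ℓ j := fun i hi => sv_gr51 t (hr i hi)
  have hns' : Nsp11 I F (fun i => rs t (β i)) j (fun i => sv t (r i)) := by
    intro Y hY hYn
    obtain ⟨z, hz, h⟩ := hns Y hY (fun h => hYn (span_rs11 Y β t h))
    refine ⟨sv t z, sv_gr51 t hz, fun i hi φ hφ => ?_⟩
    have h1 := map_dvd (sg t) (h i hi φ hφ)
    rw [sg_lin51, ← sv_dot51, sv_cv51, map_sub] at h1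
    exact h1
  obtain ⟨z, hz, h⟩ := hP ι I F (fun i => rs t (β i)) (npr_rs11 hℓ hN ht) j hj _ hr' hns'
  refine ⟨uv51 z, uv_gr51 hz, fun i hi φ hφ => ?_⟩
  rw [← sv_dot51, sv_cv51, map_sub, sv_uv51]
  exact h i hi φ hφ

/-- in one variable -/
theorem dvd_one11 {b : Fin 1 → K} (hb : b ≠ 0) {j : ℤ} (hj : 1 ≤ j) {p : S K 1}
    (hp : p ∈ grS (K := K) (ℓ := 1) j) : lin b ∣ p := by
  set t : Fin 0 → K := fun _ => 0 with ht
  have h0 : sg t p = 0 := by
    have h1 := sg_gr51 t hp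
    obtain ⟨n, rfl⟩ := Int.eq_ofNat_of_zero_le (by omega : (0 : ℤ) ≤ j)
    have h2 := hom_of_grS51 (n := n) h1
    by_contra h3
    obtain ⟨d, hd⟩ := MvPolynomial.ne_zero_iff.1 h3
    have h4 := h2 hd
    have h5 : d = 0 := by
      ext i
      exact i.elim0
    rw [h5, map_zero] at h4
    omega
  have h1 : lin (tau t) ∣ p := (sg_eq_zero51 t).1 h0
  refine dvd_trans ?_ h1
  have h2 : b 0 ≠ 0 := by
    intro h3
    apply hb
    funext i
    rw [Fin.fin_one_eq_zero i, h3]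
    rfl
  have h3 : tau t = (b 0)⁻¹ • b := by
    funext i
    have hi : i = Fin.last 0 := Fin.fin_one_eq_zero i
    rw [hi, tau_last51, Pi.smul_apply, smul_eq_mul]
    have : b (Fin.last 0) = b 0 := rfl
    rw [this, inv_mul_cancel₀ h2]
  rw [h3, Pair.lin_smul]
  exact dvd_mul_left _ _

/-- the solution modulo the hyperplane in two variables -/
theorem rm_one11 : Rm11 K 1 := by
  classical
  intro ι I F β t hN ht hsp j hj r hr _
  refine ⟨0, Submodule.zero_mem _, fun i hi φ hφ => ?_⟩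
  have hcard : 2 ≤ I.card := by
    have h1 : Module.finrank K (Submodule.span K ((I.image β : Finset (Fin (1 + 1) → K)) :
      Set (Fin (1 + 1) → K))) ≤ (I.image β).card := finrank_span_finset_le_card _
    rw [Finset.coe_image, hsp, finrank_top, Module.finrank_fin_fun] at h1
    exact le_trans h1 Finset.card_image_le
  have hj1 : 1 ≤ j := by
    have : (2 : ℤ) ≤ (I.card : ℤ) := by exact_mod_cast hcard
    omega
  refine dvd_one11 (rs_ne_zero11 (hN.1 i hi) (gnt_one11 le_rfl ht hi)) hj1 ?_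
  apply sg_gr51
  rw [sub_zero]
  have := Vg_dot51 (Vg_cv51 (ℓ := 1 + 1) φ) (hr i hi)
  rwa [zero_add] at this

/-- the induction step -/
theorem pm_of_rm11 (hG : stGen0.{u}) [Infinite K] {ℓ : ℕ} (hℓ : 1 ≤ ℓ) (hR : Rm11 K ℓ) :
    Pm11 K (ℓ + 1) := by
  classical
  intro ι I
  induction I using Finset.strongInduction with
  | H I ih =>
  intro F β hN j hj r hr hns
  by_cases hsp : Submodule.span K (β '' (I : Set ι)) = ⊤
  swap
  · exact hns I (Finset.Subset.refl _) hsp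
  obtain ⟨t, ht⟩ := gen11' hG I β
  have htg : Gnt11 I β t := ht
  obtain ⟨z0, hz0, h0⟩ := hR ι I F β t hN htg hsp j hj r hr hns
  -- the lifted data
  have hlift : ∀ i, ∃ r' : Fin 3 → S K (ℓ + 1), i ∈ I → r' ∈ Vg K (ℓ + 1) (j - 1) ∧
      ∀ φ ∈ F i, lin (β i) ∣ cv (ℓ + 1) φ ⬝ᵥ (r i - z0) - lin (tau t) * (cv (ℓ + 1) φ ⬝ᵥ r') := by
    intro i
    by_cases hi : i ∈ I
    · obtain ⟨r', hr', h⟩ := lift11 t (β i) (rs_ne_zero11 (hN.1 i hi) (gnt_one11 hℓ htg hi)) (F i)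
        (Submodule.sub_mem _ (hr i hi) hz0) (h0 i hi)
      exact ⟨r', fun _ => ⟨hr', h⟩⟩
    · exact ⟨0, fun h => absurd h hi⟩
  choose r' hr' using hlift
  -- the solutions for the subsets `I \ {i0}`
  have hsol : ∀ i0, ∃ z' : Fin 3 → S K (ℓ + 1), i0 ∈ I → z' ∈ Vg K (ℓ + 1) (j - 1) ∧
      ∀ i ∈ I.erase i0, ∀ φ ∈ F i, lin (β i) ∣ cv (ℓ + 1) φ ⬝ᵥ (r' i - z') := by
    intro i0
    by_cases hi0 : i0 ∈ I
    · have hcard : ((I.erase i0).card : ℤ) - 1 ≤ j - 1 := by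
        rw [Finset.card_erase_of_mem hi0]
        have : 1 ≤ I.card := Finset.card_pos.2 ⟨i0, hi0⟩
        omega
      have hsub : I.erase i0 ⊆ I := Finset.erase_subset _ _
      obtain ⟨z', hz', h⟩ := ih (I.erase i0) (Finset.erase_ssubset hi0) F β
        ⟨fun i hi => hN.1 i (hsub hi), fun i hi j hj => hN.2 i (hsub hi) j (hsub hj)⟩ (j - 1) hcard
        r' (fun i hi => (hr' i (hsub hi)).1) (by
          intro Y hY hYn
          have hYI : Y ⊆ I := fun i hi => hsub (hY hi)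
          obtain ⟨zY, hzY, hz⟩ := hns Y hYI hYn
          refine ns11 t F β Y (fun i hi => hN.1 i (hYI hi)) (ht Y hYI hYn)
            (w := zY - z0) (Submodule.sub_mem _ hzY hz0) r' ?_
          intro i hi φ hφ
          have h1 := (hr' i (hYI hi)).2 φ hφ
          have h2 := hz i hi φ hφ
          have h3 : cv (ℓ + 1) φ ⬝ᵥ (zY - z0) - lin (tau t) * (cv (ℓ + 1) φ ⬝ᵥ r' i) =
              (cv (ℓ + 1) φ ⬝ᵥ (r i - z0) - lin (tau t) * (cv (ℓ + 1) φ ⬝ᵥ r' i)) -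
              cv (ℓ + 1) φ ⬝ᵥ (r i - zY) := by
            rw [dotProduct_sub, dotProduct_sub, dotProduct_sub]
            ring
          rw [h3]
          exact dvd_sub h1 h2)
      exact ⟨z', fun _ => ⟨hz', h⟩⟩
    · exact ⟨0, fun h => absurd h hi0⟩
  choose z' hz' using hsol
  -- the linear form as a combination
  obtain ⟨c, hc⟩ : ∃ c : ι → K, tau t = ∑ i ∈ I, c i • β i := by
    have h1 : tau t ∈ Submodule.span K (β '' (I : Set ι)) := by rw [hsp]; trivial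
    obtain ⟨c, hc⟩ := (Submodule.mem_span_image_finset_iff_exists_fun K).1 h1
    refine ⟨fun i => if h : i ∈ I then c ⟨i, h⟩ else 0, ?_⟩
    rw [← hc, ← Finset.sum_coe_sort I]
    refine Finset.sum_congr rfl fun i _ => ?_
    have h2 : (if h : (i : ι) ∈ I then c ⟨i, h⟩ else 0) = c i := dif_pos i.2
    exact congrArg (fun x => x • β i) h2.symm
  have hl : lin (tau t) = ∑ i ∈ I, C (c i) * lin (β i) := by
    have h1 : ∀ (s : Finset ι), lin (∑ i ∈ s, c i • β i) = ∑ i ∈ s, C (c i) * lin (β i) := by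
      intro s
      induction s using Finset.induction_on with
      | empty =>
        rw [Finset.sum_empty, Finset.sum_empty, lin]
        exact Finset.sum_eq_zero fun i _ => by rw [Pi.zero_apply, map_zero, zero_mul]
      | insert a s ha ih =>
        rw [Finset.sum_insert ha, Finset.sum_insert ha, ← ih, ← Pair.lin_smul]
        rw [lin, lin, lin, ← Finset.sum_add_distrib]
        refine Finset.sum_congr rfl fun i _ => ?_
        rw [Pi.add_apply, map_add]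
        ring
    rw [hc]
    exact h1 I
  refine ⟨z0 + ∑ k ∈ I, (C (c k) * lin (β k)) • z' k, ?_, ?_⟩
  · refine Submodule.add_mem _ hz0 (Submodule.sum_mem _ fun k hk => ?_)
    have := Vg_smul51 (C_mul_grS51 (c k) (lin_grS51 (β k))) (hz' k hk).1
    rwa [add_sub_cancel] at this
  · intro i hi φ hφ
    have h1 := (hr' i hi).2 φ hφ
    have h2 : cv (ℓ + 1) φ ⬝ᵥ (r i - (z0 + ∑ k ∈ I, (C (c k) * lin (β k)) • z' k)) =
        (cv (ℓ + 1) φ ⬝ᵥ (r i - z0) - lin (tau t) * (cv (ℓ + 1) φ ⬝ᵥ r' i)) +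
        ∑ k ∈ I, (C (c k) * lin (β k)) * (cv (ℓ + 1) φ ⬝ᵥ (r' i - z' k)) := by
      have h3 : ∑ k ∈ I, (C (c k) * lin (β k)) * (cv (ℓ + 1) φ ⬝ᵥ (r' i - z' k)) =
          lin (tau t) * (cv (ℓ + 1) φ ⬝ᵥ r' i) -
            ∑ k ∈ I, (C (c k) * lin (β k)) * (cv (ℓ + 1) φ ⬝ᵥ z' k) := by
        rw [hl, Finset.sum_mul, ← Finset.sum_sub_distrib]
        refine Finset.sum_congr rfl fun k _ => ?_
        rw [dotProduct_sub]
        ring
      have h4 : cv (ℓ + 1) φ ⬝ᵥ (∑ k ∈ I, (C (c k) * lin (β k)) • z' k) =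
          ∑ k ∈ I, (C (c k) * lin (β k)) * (cv (ℓ + 1) φ ⬝ᵥ z' k) := by
        rw [dotProduct_sum]
        refine Finset.sum_congr rfl fun k _ => ?_
        rw [dotProduct_smul, smul_eq_mul]
      rw [h3, dotProduct_sub, dotProduct_add, dotProduct_sub, h4]
      ring
    rw [h2]
    refine dvd_add h1 (Finset.dvd_sum fun k hk => ?_)
    by_cases hki : i = k
    · subst hki
      exact Dvd.dvd.mul_right (Dvd.dvd.mul_left dvd_rfl _) _
    · exact Dvd.dvd.mul_left ((hz' k hk).2 i (Finset.mem_erase.2 ⟨hki, hi⟩) φ hφ) _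

/-- the patching statement in all dimensions at least two -/
theorem pm11 (hG : stGen0.{u}) [Infinite K] (n : ℕ) : Pm11 K (n + 2) := by
  induction n with
  | zero => exact pm_of_rm11 hG le_rfl rm_one11
  | succ n ih => exact pm_of_rm11 hG (by omega) (rm_of_pm11 (by omega) ih)

end Pool.Agent.Lib.MP_fe1391_co.Quad51
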