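import Pool.Agent.Lib.MP_fe1391_co.Quad51.Num
import Pool.Agent.Lib.MP_fe1391_co.Quad51.Stmts2

/-!
# The numerical part if `b > c`
-/

set_option autoImplicit false

namespace Pool.Agent.Lib.MP_fe1391_co.Quad51

open MvPolynomial Matrix Pool.Agent.Lib.MP_fe1391_co.Tame

universe u

theorem F51 (L r : ℕ) (h : r ≤ L + 1) :
    2 * ∑ j ∈ Finset.range L, min (r : ℤ) ((j : ℤ) + 1) = (r : ℤ) * (2 * L + 1 - r) := by
  induction L with
  | zero =>
    have : r = 0 ∨ r = 1 := by omega
    rcases this with rfl | rfl <;> simp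
  | succ L ih =>
    rcases Nat.lt_or_ge r (L + 2) with h1 | h1
    · rw [Finset.sum_range_succ, mul_add, ih (by omega), min_eq_left (by omega)]
      push_cast
      ring
    · obtain rfl : r = L + 2 := by omega
      have h2 : ∑ j ∈ Finset.range (L + 1), min (((L + 2 : ℕ) : ℤ)) ((j : ℤ) + 1) =
          ∑ j ∈ Finset.range (L + 1), ((j : ℤ) + 1) := by
        refine Finset.sum_congr rfl fun j hj => ?_
        have := Finset.mem_range.1 hj
        rw [min_eq_right (by push_cast; omega)]
      rw [h2, sum_tri51]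
      push_cast
      ring

theorem fin51 {a D E x y : ℤ} (hs : x + y = E + D) (hx0 : 0 ≤ x) (hx : x ≤ a + 1) (hy : 0 ≤ y)
    (hE0 : 0 ≤ E) (hE : E ≤ a + 1) (hD1 : 1 ≤ D) (hD : D ≤ a)
    (H : x * (2 * a + 1 - x) + y * (2 * (a + D) + 1 - y) ≤ E * (E - 1) + D * (D - 1)) : False := by
  have e1 : x * (2 * a + 1 - x) + y * (2 * (a + D) + 1 - y) - (E * (E - 1) + D * (D - 1)) =
      2 * (x * (a + 1 - x) + y * (a + 1 - E) + E * D) := by
    have : y = E + D - x := by linarith
    subst this
    ring
  have t1 : 0 ≤ x * (a + 1 - x) := mul_nonneg hx0 (by linarith)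
  have t2 : 0 ≤ y * (a + 1 - E) := mul_nonneg hy (by linarith)
  have t3 : 0 ≤ E * D := mul_nonneg hE0 (by linarith)
  have s3 : E * D = 0 := by linarith
  have s2 : y * (a + 1 - E) = 0 := by linarith
  have s1 : x * (a + 1 - x) = 0 := by linarith
  have hE' : E = 0 := (mul_eq_zero.1 s3).resolve_right (by omega)
  subst hE'
  have hy' : y = 0 := (mul_eq_zero.1 s2).resolve_right (by omega)
  subst hy'
  rcases mul_eq_zero.1 s1 with h | h <;> omega

/-- growth at one step -/
theorem low51 {K : Type u} [Field K] [Infinite K] (hML : stML.{u})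
    {L : ℤ → Submodule K (S K 3)} (hL : GI L) (k r : ℕ) (hr : (r : ℤ) ≤ max (cd L (k + 1) - cd L k) 0) :
    ∑ j ∈ Finset.range (k + 1), min (r : ℤ) ((j : ℤ) + 1) ≤ cd L k := by
  rcases Nat.eq_zero_or_pos r with rfl | h0
  · have : ∑ j ∈ Finset.range (k + 1), min (((0 : ℕ) : ℤ)) ((j : ℤ) + 1) = 0 := by
      refine Finset.sum_eq_zero fun j _ => ?_
      rw [min_eq_left (by push_cast; omega)]
      rfl
    rw [this]
    exact cd_nonneg51 hL k
  · have h1 : (r : ℤ) ≤ cd L (k + 1) - cd L k := by
      rcases le_max_iff.1 hr with h | h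
      · exact h
      · omega
    exact hML K L hL k r h0 (by omega)

/-- the growth of the codimension of a graded ideal is at most that of the ring -/
theorem grow51 {K : Type u} [Field K] {L : ℤ → Submodule K (S K 3)} (hL : GI L) (k : ℤ) :
    cd L (k + 1) - cd L k ≤ c2 (k + 1) - c2 k := by
  have h1 : Module.finrank K (L k) ≤ Module.finrank K (L (k + 1)) := by
    have hfin : Module.Finite K (L (k + 1)) :=
      Module.Finite.of_injective (Submodule.inclusion (hL.1 (k + 1)))
        (Submodule.inclusion_injective _)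
    have hmap : (L k).map (LinearMap.mulLeft K (X 0 : S K 3)) ≤ L (k + 1) := by
      rintro _ ⟨f, hf, rfl⟩
      exact hL.2 k f 0 hf
    have hinj : Function.Injective (LinearMap.mulLeft K (X 0 : S K 3)) :=
      fun x y hxy => mul_left_cancel₀ (X_ne_zero 0) hxy
    have h2 := LinearEquiv.finrank_eq (Submodule.equivMapOfInjective _ hinj (L k))
    rw [h2]
    exact Submodule.finrank_mono hmap
  rw [cd, cd]
  omega

/-- NUM2 -/
theorem num2_51 (hML : stML.{u}) : stNum2.{u} := by
  intro K _ _ h1 h2 ν a b c g J I hJ hI ha hc hcb hν hg H1 H2 H0 Sym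
  -- the formulas for `vv`
  have F : ∀ m ≤ a + b + 1, vv ν h1 h2 m = c2 m - (c2 (m - 1 - a) + (c2 (m - 1 - b) -
      cd J (m - 1 - b)) + (c2 (m - 1 - c) - cd I (m - 1 - c))) := by
    intro m hm
    have e1 := H1 (m - 1)
    have e2 := H2 (m - 2) (by omega)
    have e3 := H2 (m - 3) (by omega)
    have e5 := c2_neg51 (n := m - ν - 3) (by omega)
    have e6 : m - 1 - 1 = m - 2 := by ring
    rw [e6] at e1
    rw [vv, e1, e2, e3, e5]
    ring
  have G : ∀ m ≤ b, vv ν h1 h2 m = c2 m - c2 (m - 1 - a) := by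
    intro m hm
    rw [F m (by omega), c2_neg51 (n := m - 1 - b) (by omega), cd_neg51 hJ (by omega),
      H0 (m - 1 - c) (by omega)]
    ring
  -- the first restriction
  have hag : b ≤ a + c - g := by
    by_contra hcon
    have e1 := Sym b
    have e2 : ν - g - b = a + c - g := by omega
    rw [e2, G b le_rfl, G _ (by omega)] at e1
    obtain ⟨k, hk⟩ := Int.eq_ofNat_of_zero_le (by omega : 0 ≤ b - 1 - (a + c - g))
    have e3 := V_mono51 ha (b - 1) k
    have e4 : b - 1 - (k : ℤ) = a + c - g := by omega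
    rw [e4] at e3
    have e5 := V_diff51 a b
    rw [max_eq_left (by omega)] at e5
    have e6 : max (b - a) 0 ≤ b := by
      apply max_le <;> omega
    linarith
  -- the two relations
  have T1 : cd J a + cd I (a + b - c) = vv ν h1 h2 (c - g - 1) - c2 (a + b + 1) + c2 b +
      c2 a + c2 (a + b - c) := by
    have e1 := F (a + b + 1) le_rfl
    rw [Sym (a + b + 1)] at e1
    have e2 : ν - g - (a + b + 1) = c - g - 1 := by omega
    have e3 : a + b + 1 - 1 - a = b := by ring
    have e4 : a + b + 1 - 1 - b = a := by ring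
    have e5 : a + b + 1 - 1 - c = a + b - c := by ring
    rw [e2, e3, e4, e5] at e1
    rw [e1]
    ring
  have T0 : cd J (a - 1) + cd I (a + b - c - 1) = vv ν h1 h2 (c - g) - c2 (a + b) +
      c2 (b - 1) + c2 (a - 1) + c2 (a + b - c - 1) := by
    have e1 := F (a + b) (by omega)
    rw [Sym (a + b)] at e1
    have e2 : ν - g - (a + b) = c - g := by omega
    have e3 : a + b - 1 - a = b - 1 := by ring
    have e4 : a + b - 1 - b = a - 1 := by ring
    have e5 : a + b - 1 - c = a + b - c - 1 := by ring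
    rw [e2, e3, e4, e5] at e1
    rw [e1]
    ring
  rw [G _ (by omega)] at T1 T0
  have p1 := c2_dbl51 (n := a + b + 1) (by omega)
  have p2 := c2_dbl51 (n := b) (by omega)
  have p3 := c2_dbl51 (n := a) (by omega)
  have p4 := c2_dbl51 (n := a + b - c) (by omega)
  have q1 := c2_dbl51 (n := a + b) (by omega)
  have q2 := c2_dbl51 (n := b - 1) (by omega)
  have q3 := c2_dbl51 (n := a - 1) (by omega)
  have q4 := c2_dbl51 (n := a + b - c - 1) (by omega)
  have hV := V_diff51 a (c - g)
  -- the number `E`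
  obtain ⟨E, hE⟩ : ∃ E : ℤ, E = a + 1 - (max (c - g + 1) 0 - max (c - g - a) 0) := ⟨_, rfl⟩
  have hE0 : 0 ≤ E := by
    rw [hE]
    rcases le_total (c - g + 1) 0 with h | h <;> rcases le_total (c - g - a) 0 with h' | h' <;>
      simp only [max_eq_left, max_eq_right, h, h'] <;> omega
  have hE1 : E ≤ a + 1 := by
    rw [hE]
    have : max (c - g - a) 0 ≤ max (c - g + 1) 0 := max_le_max (by omega) le_rfl
    omega
  have hgrow : (cd J a - cd J (a - 1)) + (cd I (a + b - c) - cd I (a + b - c - 1)) =
      E + (b - c) := by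
    have : 2 * ((cd J a - cd J (a - 1)) + (cd I (a + b - c) - cd I (a + b - c - 1))) =
        2 * (E + (b - c)) := by
      rw [hE]
      linarith [T1, T0, hV, p1, p2, p3, p4, q1, q2, q3, q4]
    linarith
  have hT0 : 2 * (cd J (a - 1) + cd I (a + b - c - 1)) ≤ E * (E - 1) + (b - c) * (b - c - 1) := by
    rw [T0]
    have hga : 0 ≤ g * (a + 1) := mul_nonneg hg (by omega)
    rcases le_or_gt a (c - g) with h | h
    · have hE' : E = 0 := by
        rw [hE, max_eq_left (by omega), max_eq_left (by omega)]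
        ring
      have r1 := c2_dbl51 (n := c - g) (by omega)
      have r2 := c2_dbl51 (n := c - g - 1 - a) (by omega)
      rw [hE']
      linarith [r1, r2, q1, q2, q3, q4, hga]
    · rcases le_or_gt (-1) (c - g) with h' | h'
      · have hE' : E = a - c + g := by
          rw [hE, max_eq_left (by omega), max_eq_right (by omega)]
          ring
        have r1 := c2_dbl51 (n := c - g) (by omega)
        have r2 := c2_neg51 (n := c - g - 1 - a) (by omega)
        rw [hE', r2]
        linarith [r1, q1, q2, q3, q4, hga]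
      · have hE' : E = a + 1 := by
          rw [hE, max_eq_right (by omega), max_eq_right (by omega)]
          ring
        have r1 := c2_neg51 (n := c - g) (by omega)
        have r2 := c2_neg51 (n := c - g - 1 - a) (by omega)
        have hca : 0 ≤ (c + 1) * (a + 1) := mul_nonneg (by omega) (by omega)
        rw [hE', r1, r2]
        linarith [q1, q2, q3, q4, hca]
  -- the growth
  have hgJ : cd J a - cd J (a - 1) ≤ a + 1 := by
    have e1 := grow51 hJ (a - 1)
    rw [sub_add_cancel] at e1
    have e2 := c2_diff51 a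
    rw [max_eq_left (by omega)] at e2
    linarith
  obtain ⟨x, y, hxy, hx1, hx2, hy2⟩ : ∃ x y : ℕ, (x : ℤ) + y = E + (b - c) ∧ (x : ℤ) ≤ a + 1 ∧
      (x : ℤ) ≤ max (cd J a - cd J (a - 1)) 0 ∧
      (y : ℤ) ≤ max (cd I (a + b - c) - cd I (a + b - c - 1)) 0 := by
    rcases le_or_gt (E + (b - c)) (cd I (a + b - c) - cd I (a + b - c - 1)) with h | h
    · refine ⟨0, (E + (b - c)).toNat, ?_, ?_, ?_, ?_⟩
      · omega
      · push_cast
        omega
      · exact le_max_right _ _
      · refine le_trans ?_ (le_max_left _ _)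
        omega
    · rcases le_or_gt 0 (cd I (a + b - c) - cd I (a + b - c - 1)) with h' | h'
      · refine ⟨(cd J a - cd J (a - 1)).toNat,
          (cd I (a + b - c) - cd I (a + b - c - 1)).toNat, ?_, ?_, ?_, ?_⟩
        · omega
        · omega
        · refine le_trans ?_ (le_max_left _ _)
          omega
        · refine le_trans ?_ (le_max_left _ _)
          omega
      · refine ⟨(E + (b - c)).toNat, 0, ?_, ?_, ?_, ?_⟩
        · omega
        · omega
        · refine le_trans ?_ (le_max_left _ _)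
          omega
        · exact le_max_right _ _
  obtain ⟨ka, hka⟩ := Int.eq_ofNat_of_zero_le (by omega : 0 ≤ a - 1)
  obtain ⟨kb, hkb⟩ := Int.eq_ofNat_of_zero_le (by omega : 0 ≤ a + b - c - 1)
  have l1 : ∑ j ∈ Finset.range (ka + 1), min (x : ℤ) ((j : ℤ) + 1) ≤ cd J ka := by
    apply low51 hML hJ
    have e : (ka : ℤ) + 1 = a := by omega
    rw [e, ← hka]
    exact hx2
  have l2 : ∑ j ∈ Finset.range (kb + 1), min (y : ℤ) ((j : ℤ) + 1) ≤ cd I kb := by
    apply low51 hML hI
    have e : (kb : ℤ) + 1 = a + b - c := by omega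
    rw [e, ← hkb]
    exact hy2
  have f1 := F51 (ka + 1) x (by omega)
  have f2 := F51 (kb + 1) y (by omega)
  rw [← hka] at l1
  rw [← hkb] at l2
  have ea : ((ka + 1 : ℕ) : ℤ) = a := by push_cast; omega
  have eb : ((kb + 1 : ℕ) : ℤ) = a + (b - c) := by push_cast; omega
  rw [ea] at f1
  rw [eb] at f2
  refine fin51 hxy (by positivity) hx1 (by positivity) hE0 hE1 (by omega) (by omega) ?_
  linarith

end Pool.Agent.Lib.MP_fe1391_co.Quad51
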