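import Pool.Agent.Lib.MP_fe1391_co.Quad51.AsmR
import Pool.Agent.Lib.MP_fe1391_co.Quad51.Num2

/-!
# The theorem in dimension four
-/

set_option autoImplicit false

namespace Pool.Agent.Lib.MP_fe1391_co.Quad51

open MvPolynomial Pool.Agent.Lib.MP_fe1391_co.Tame

universe u

theorem main51 (K : Type u) [Field K] (A : Finset (Submodule K (Fin 4 → K)))
    (hA : ∀ H ∈ A, ∃ a : Module.Dual K (Fin 4 → K), a ≠ 0 ∧ LinearMap.ker a = H) :
    List.TFAE [Module.Free (MvPolynomial (Fin 4) K) (Assemble.LDer K A),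
      ∃ f : Polynomial ℤ, f ≠ 0 ∧ f.reverse = f ∧ (f : PowerSeries ℤ) = Assemble.Psi K A,
      ∃ e : Fin 4 → ℕ, Assemble.Psi K A =
        ∏ i, ∑ j ∈ Finset.range (e i + 1), PowerSeries.X ^ j] :=
  asmR51 (num2_51 ML.thm) K A hA

end Pool.Agent.Lib.MP_fe1391_co.Quad51
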