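import Pool.Agent.Lib.MP_fe1391_co.Quad51.Bar
import Mathlib.RingTheory.MvPowerSeries.NoZeroDivisors

/-!
# PRIM: multiples of an element of least degree
-/

set_option autoImplicit false

namespace Pool.Agent.Lib.MP_fe1391_co.Quad51.Prim

open MvPolynomial Matrix Pool.Agent.Lib.MP_fe1391_co.Tame
open Pool.Agent.Lib.MP_fe1391_co.Thick51 (geo51 HS51 grS_mul51 grS_neg51 grS_of_hom51 hom_of_grS51
  grS_div51 lin_grS51 C_mul_grS51 pS_mul51)

universe u

variable {K : Type u} [Field K] {ℓ : ℕ}

/-- a factor of a nonzero homogeneous polynomial is homogeneous -/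
theorem hom_factor96 {a b : S K ℓ} {n : ℕ} (h : (a * b).IsHomogeneous n) (h0 : a * b ≠ 0) :
    ∃ k : ℕ, a.IsHomogeneous k := by
  have ha : a ≠ 0 := left_ne_zero_of_mul h0
  have hb : b ≠ 0 := right_ne_zero_of_mul h0
  have key : ∀ p : S K ℓ, p ≠ 0 →
      (p : MvPowerSeries (Fin ℓ) K).order ≤ (p.totalDegree : ℕ∞) := by
    intro p hp
    obtain ⟨d, hd⟩ := MvPolynomial.ne_zero_iff.1 hp
    have h1 : MvPowerSeries.coeff d (p : MvPowerSeries (Fin ℓ) K) ≠ 0 := by
      rw [MvPolynomial.coeff_coe]
      exact hd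
    refine (MvPowerSeries.order_le h1).trans ?_
    have h2 := MvPolynomial.le_totalDegree (MvPolynomial.mem_support_iff.2 hd)
    exact_mod_cast h2
  have hA := key a ha
  have hB := key b hb
  have hn : (n : ℕ∞) ≤ ((a * b : S K ℓ) : MvPowerSeries (Fin ℓ) K).order := by
    apply MvPowerSeries.nat_le_order
    intro d hd
    rw [MvPolynomial.coeff_coe]
    by_contra hc
    have h3 := h hc
    rw [Finsupp.degree_eq_weight_one] at hd
    exact absurd h3 (ne_of_lt hd)
  rw [MvPolynomial.coe_mul, MvPowerSeries.order_mul] at hn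
  have htd : a.totalDegree + b.totalDegree = n := by
    rw [← totalDegree_mul_of_isDomain ha hb]
    exact h.totalDegree h0
  refine ⟨a.totalDegree, ?_⟩
  have hAe : (a.totalDegree : ℕ∞) ≤ (a : MvPowerSeries (Fin ℓ) K).order := by
    have h4 : (a.totalDegree : ℕ∞) + b.totalDegree ≤
        (a : MvPowerSeries (Fin ℓ) K).order + b.totalDegree := by
      calc (a.totalDegree : ℕ∞) + b.totalDegree = (n : ℕ∞) := by
            rw [← htd]
            push_cast
            rfl
        _ ≤ _ := hn.trans (add_le_add le_rfl hB)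
    exact (ENat.add_le_add_iff_right (ENat.natCast_ne_top _)).1 h4
  intro d hd
  have h5 : MvPowerSeries.coeff d (a : MvPowerSeries (Fin ℓ) K) ≠ 0 := by
    rw [MvPolynomial.coeff_coe]
    exact hd
  have h6 := hAe.trans (MvPowerSeries.order_le h5)
  rw [Finsupp.degree_eq_weight_one] at h6
  have h7 : a.totalDegree ≤ Finsupp.weight 1 d := by exact_mod_cast h6
  have h8 := MvPolynomial.le_totalDegree (MvPolynomial.mem_support_iff.2 hd)
  have h9 : Finsupp.weight 1 d ≤ a.totalDegree := by
    rw [Finsupp.weight_apply]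
    simpa using h8
  exact le_antisymm h9 h7

/-- factors of nonzero homogeneous elements -/
theorem grS_factor96 {a b : S K ℓ} {n : ℤ} (h : a * b ∈ grS (K := K) (ℓ := ℓ) n)
    (h0 : a * b ≠ 0) : ∃ k : ℕ, a ∈ grS (K := K) (ℓ := ℓ) (k : ℤ) := by
  have hn : 0 ≤ n := by
    by_contra hc
    exact h0 (grS_neg51 (not_le.1 hc) h)
  obtain ⟨m, rfl⟩ := Int.eq_ofNat_of_zero_le hn
  obtain ⟨k, hk⟩ := hom_factor96 (hom_of_grS51 (n := m) h) h0
  exact ⟨k, grS_of_hom51 hk⟩

theorem thm : stPrim.{u} := by
  intro K _ M hM θ a hθ hθa hθ0 hmin v hv hcr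
  obtain ⟨i0, hi0⟩ := Function.ne_iff.1 hθ0
  rw [Pi.zero_apply] at hi0
  obtain ⟨q, p, g, hqp, hgq, hgp⟩ :=
    UniqueFactorizationMonoid.exists_reduced_factors (θ i0) hi0 (v i0)
  have hg : g ≠ 0 := by
    rintro rfl
    rw [zero_mul] at hgq
    exact hi0 hgq.symm
  have hq : q ≠ 0 := by
    rintro rfl
    rw [mul_zero] at hgq
    exact hi0 hgq.symm
  -- the minors
  have hminor : ∀ i j, θ i * v j = v i * θ j := by
    obtain ⟨h0, h1, h2⟩ := crs51 θ v
    rw [hcr] at h0 h1 h2
    simp only [Pi.zero_apply] at h0 h1 h2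
    have h01 : θ 0 * v 1 = θ 1 * v 0 := by linear_combination -h2
    have h12 : θ 1 * v 2 = θ 2 * v 1 := by linear_combination -h0
    have h20 : θ 2 * v 0 = θ 0 * v 2 := by linear_combination -h1
    intro i j
    fin_cases i <;> fin_cases j <;>
      simp only [Fin.zero_eta, Fin.mk_one, Fin.reduceFinMk] <;>
      first
        | ring1
        | linear_combination h01
        | linear_combination -h01
        | linear_combination h12
        | linear_combination -h12
        | linear_combination h20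
        | linear_combination -h20
  have hj : ∀ j, θ j * p = v j * q := by
    intro j
    apply mul_left_cancel₀ hg
    have := hminor j i0
    rw [← hgq, ← hgp] at this
    linear_combination this
  have hdv : ∀ j, q ∣ θ j := by
    intro j
    exact hqp.dvd_of_dvd_mul_right ⟨v j, by rw [hj j, mul_comm]⟩
  choose w hw using hdv
  have hv' : ∀ j, v j = p * w j := by
    intro j
    apply mul_left_cancel₀ hq
    have := hj j
    rw [hw j] at this
    linear_combination -this
  have hθe : θ = q • w := funext fun j => hw j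
  have hve : v = p • w := funext fun j => hv' j
  have hwM : w ∈ M := hM p q w hqp.symm (by rw [← hve]; exact hv) (by rw [← hθe]; exact hθ)
  have hprod0 : q * w i0 ≠ 0 := by
    rw [← hw]
    exact hi0
  have hprod : q * w i0 ∈ grS (K := K) (ℓ := 4) a := by
    rw [← hw]
    exact hθa i0
  obtain ⟨k, hk⟩ := grS_factor96 hprod hprod0
  have hwV : w ∈ Vg K 4 (a - k) := Vg_div51 hq hk (by rw [← hθe]; exact hθa)
  have hw0 : w ≠ 0 := by
    rintro rfl
    rw [Pi.zero_apply, mul_zero] at hprod0
    exact hprod0 rfl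
  have hk0 : k = 0 := by
    by_contra hc
    exact hw0 (hmin (a - k) (by omega) w hwM hwV)
  subst hk0
  have h1 := hom_of_grS51 (n := 0) hk
  have h2 := totalDegree_eq_zero_iff_eq_C.1 (Nat.le_zero.1 h1.totalDegree_le)
  set c := coeff 0 q with hc
  have hc0 : c ≠ 0 := by
    intro hc1
    rw [hc1, map_zero] at h2
    exact hq h2
  refine ⟨C c⁻¹ * p, ?_⟩
  rw [hθe, hve, smul_smul]
  congr 1
  rw [h2]
  have h3 : (C c⁻¹ : S K 4) * C c = 1 := by
    rw [← C_mul, inv_mul_cancel₀ hc0, C_1]
  linear_combination -p * h3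

end Pool.Agent.Lib.MP_fe1391_co.Quad51.Prim
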