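import Pool.Agent.Lib.MP_fe1391_co.Quad51.Sym
import Pool.Agent.Lib.MP_fe1391_co.Quad51.CoreA
import Pool.Agent.Lib.MP_fe1391_co.Quad51.Top
import Pool.Agent.Lib.MP_fe1391_co.Quad51.Conf
import Pool.Agent.Lib.MP_fe1391_co.Quad51.Prim

/-!
# PF: the product form gives `2 u ≤ ν + a` (helper70)
-/

set_option autoImplicit false

namespace Pool.Agent.Lib.MP_fe1391_co.Quad51.PF

open MvPolynomial Matrix Pool.Agent.Lib.MP_fe1391_co.Tame
open Pool.Agent.Lib.MP_fe1391_co.Quad51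
open Pool.Agent.Lib.MP_fe1391_co.Thick51 (geo51 HS51 cf51 cf_nat51 cf_neg51)

universe u

/-! ### Geometry -/

section Geo

variable {K : Type u} [Field K] {ν : ℕ}

/-- multiplication of a fixed vector -/
noncomputable def mv70 (v : Fin 3 → S K 4) : S K 4 →ₗ[K] (Fin 3 → S K 4) where
  toFun f := f • v
  map_add' f g := add_smul _ _ _
  map_smul' c f := by
    rw [RingHom.id_apply, smul_assoc]

theorem mv_apply70 (v : Fin 3 → S K 4) (f : S K 4) : mv70 v f = f • v := rfl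

theorem mv_inj70 {v : Fin 3 → S K 4} (hv : v ≠ 0) (f : S K 4) (h : mv70 v f = 0) : f = 0 :=
  (smul_eq_zero.1 h).resolve_right hv

theorem finrank_mv70 {v : Fin 3 → S K 4} (hv : v ≠ 0) (k : ℤ) :
    (Module.finrank K ((grS (K := K) (ℓ := 4) k).map (mv70 v)) : ℤ) = c3 k := by
  rw [dim_inj51 (mv70 v) _ (mv_inj70 hv), c3_eq51]

theorem hh_ge70 {N : Submodule (S K 4) (Fin 3 → S K 4)} {v : Fin 3 → S K 4} (hv : v ≠ 0)
    (hN : v ∈ N) {m : ℤ} (hm : v ∈ Vg K 4 m) (k : ℤ) : c3 k ≤ hh N (m + k) := by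
  rw [← finrank_mv70 hv k, hh]
  have h : (grS (K := K) (ℓ := 4) k).map (mv70 v) ≤ pc N (m + k) := by
    rintro w ⟨f, hf, rfl⟩
    refine ⟨?_, N.smul_mem f hN⟩
    have := Vg_smul51 hf hm
    rwa [add_comm] at this
  exact_mod_cast Submodule.finrank_mono h

theorem hh_nonneg70 (N : Submodule (S K 4) (Fin 3 → S K 4)) (m : ℤ) : 0 ≤ hh N m := by
  rw [hh]
  positivity

theorem hh_zero70 {N : Submodule (S K 4) (Fin 3 → S K 4)} {m : ℤ}
    (h : ∀ v ∈ N, v ∈ Vg K 4 m → v = 0) : hh N m = 0 := by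
  have : pc N m = ⊥ := by
    rw [eq_bot_iff]
    intro v hv
    exact (Submodule.mem_bot K).2 (h v hv.2 hv.1)
  rw [hh, this, finrank_bot]
  rfl

theorem of_hh_zero70 {N : Submodule (S K 4) (Fin 3 → S K 4)} {m : ℤ} (h : hh N m = 0)
    {v : Fin 3 → S K 4} (hv : v ∈ N) (hm : v ∈ Vg K 4 m) : v = 0 := by
  have h1 : Module.finrank K (pc N m) = 0 := by
    rw [hh] at h
    exact_mod_cast h
  have h2 : pc N m = ⊥ := Submodule.finrank_eq_zero.1 h1
  have h3 : v ∈ pc N m := ⟨hm, hv⟩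
  rw [h2] at h3
  exact (Submodule.mem_bot K).1 h3

theorem exists_of_hh70 {N : Submodule (S K 4) (Fin 3 → S K 4)} {m : ℤ} (h : 0 < hh N m) :
    ∃ v ∈ N, v ∈ Vg K 4 m ∧ v ≠ 0 := by
  by_contra hc
  push Not at hc
  have := hh_zero70 (N := N) (m := m) fun v hv hm => hc v hv hm
  omega

/-- the main step: more than the multiples of an element of least degree -/
theorem step70 (hPm : stPrim.{u}) {d : Dat K ν} {θ ω : Fin 3 → S K 4} {a u : ℤ}
    (hF : Fx51 d θ ω a u) {m k : ℤ} {v : Fin 3 → S K 4} (hv : v ∈ L1 d) (hm : v ∈ Vg K 4 m)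
    (hv0 : v ≠ 0) (hmin : ∀ n < m, ∀ w ∈ L1 d, w ∈ Vg K 4 n → w = 0)
    (hk : c3 k < hh (L1 d) (m + k)) : u ≤ m + (m + k) := by
  by_contra hc
  have h1 : ∀ w ∈ L1 d, w ∈ Vg K 4 (m + k) → v ⨯₃ w = 0 := fun w hw hwk =>
    hF.conf.ωm _ (not_le.1 hc) _ (hF.p11 v hv w hw) (Vg_cross51 hm hwk)
  have h2 : pc (L1 d) (m + k) ≤ (grS (K := K) (ℓ := 4) k).map (mv70 v) := by
    rintro w ⟨hwk, hw⟩
    obtain ⟨f, hf⟩ := hPm K (L1 d) hF.cd1 v m hv hm hv0 hmin w hw (h1 w hw hwk)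
    refine ⟨f, ?_, hf.symm⟩
    have h3 := Vg_div51' (f := f) (m := m + k) hv0 hm (by rw [← hf]; exact hwk)
    have e : m + k - m = k := by ring
    rwa [e] at h3
  have h4 : hh (L1 d) (m + k) ≤ c3 k := by
    rw [← finrank_mv70 hv0 k, hh]
    exact_mod_cast Submodule.finrank_mono h2
  omega

/-- `a ≤ u` -/
theorem a_le70 {d : Dat K ν} {θ ω : Fin 3 → S K 4} {a u : ℤ}
    (hF : Fx51 d θ ω a u) : a ≤ u := by
  by_contra hc
  obtain ⟨e, he⟩ := ConfM.cross_ne88 hF.conf.ω0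
  apply he
  apply hF.conf.θm u (not_le.1 hc)
  · refine ⟨hF.ce ω hF.conf.ω2 e, ?_⟩
    rw [dotProduct_comm]
    exact dot_self_cross _ _
  · have := Vg_cross51 hF.conf.ωd (Vg_cv51 (K := K) (ℓ := 4) e)
    rwa [add_zero] at this

end Geo

/-! ### Coefficients -/

/-- the first three coefficients of a geometric sum -/
theorem geo_coeff70 (e n : ℕ) : PowerSeries.coeff n (geo51 e) = if n ≤ e then 1 else 0 := by
  unfold geo51
  rw [map_sum]
  simp only [PowerSeries.coeff_X_pow]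
  split_ifs with h
  · rw [Finset.sum_eq_single n]
    · rw [if_pos rfl]
    · intro b _ hb
      rw [if_neg (Ne.symm hb)]
    · intro h1
      exact absurd (Finset.mem_range.2 (by omega)) h1
  · apply Finset.sum_eq_zero
    intro b hb
    rw [if_neg]
    have := Finset.mem_range.1 hb
    omega

theorem coeff0_mul70 (P R : PowerSeries ℤ) : PowerSeries.coeff 0 (P * R) =
    PowerSeries.coeff 0 P * PowerSeries.coeff 0 R := by
  rw [PowerSeries.coeff_mul]
  simp

theorem coeff1_mul70 (P R : PowerSeries ℤ) : PowerSeries.coeff 1 (P * R) =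
    PowerSeries.coeff 0 P * PowerSeries.coeff 1 R +
      PowerSeries.coeff 1 P * PowerSeries.coeff 0 R := by
  rw [PowerSeries.coeff_mul, Finset.Nat.antidiagonal_succ]
  simp

theorem coeff2_mul70 (P R : PowerSeries ℤ) : PowerSeries.coeff 2 (P * R) =
    PowerSeries.coeff 0 P * PowerSeries.coeff 2 R +
      PowerSeries.coeff 1 P * PowerSeries.coeff 1 R +
      PowerSeries.coeff 2 P * PowerSeries.coeff 0 R := by
  have h : Finset.HasAntidiagonal.antidiagonal (2 : ℕ) =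
      ({(0, 2), (1, 1), (2, 0)} : Finset (ℕ × ℕ)) := by decide
  rw [PowerSeries.coeff_mul, h, Finset.sum_insert (by decide), Finset.sum_insert (by decide),
    Finset.sum_singleton]
  ring

/-- some exponent is 1 -/
theorem exists_one70 (e : Fin 4 → ℕ) (r s : ℤ) (hr : r = 0 ∧ 0 ≤ s ∨ r = 1 ∧ 4 ≤ s)
    (h1 : PowerSeries.coeff 1 (∏ i, geo51 (e i)) = 4 - r)
    (h2 : PowerSeries.coeff 2 (∏ i, geo51 (e i)) = 9 - s) : ∃ i, e i = 1 := by
  by_contra hc
  push Not at hc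
  rw [Fin.prod_univ_four] at h1 h2
  simp only [coeff0_mul70, coeff1_mul70, coeff2_mul70, geo_coeff70] at h1 h2
  have e0 := hc 0
  have e1 := hc 1
  have e2 := hc 2
  have e3 := hc 3
  have key : ∀ n : ℕ, n ≠ 1 → ∃ p : ℤ, (p = 0 ∨ p = 1) ∧ (if 1 ≤ n then (1 : ℤ) else 0) = p ∧
      (if 2 ≤ n then (1 : ℤ) else 0) = p ∧ (if 0 ≤ n then (1 : ℤ) else 0) = 1 := by
    intro n hn
    rcases Nat.eq_zero_or_pos n with h0 | h0
    · exact ⟨0, Or.inl rfl, by rw [if_neg (by omega)], by rw [if_neg (by omega)],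
        by rw [if_pos (by omega)]⟩
    · exact ⟨1, Or.inr rfl, by rw [if_pos (by omega)], by rw [if_pos (by omega)],
        by rw [if_pos (by omega)]⟩
  obtain ⟨p0, q0, a0, b0, c0⟩ := key _ e0
  obtain ⟨p1, q1, a1, b1, c1⟩ := key _ e1
  obtain ⟨p2, q2, a2, b2, c2⟩ := key _ e2
  obtain ⟨p3, q3, a3, b3, c3⟩ := key _ e3
  rw [a0, a1, a2, a3, c0, c1, c2, c3] at h1
  rw [a0, a1, a2, a3, b0, b1, b2, b3, c0, c1, c2, c3] at h2
  rcases q0 with rfl | rfl <;> rcases q1 with rfl | rfl <;> rcases q2 with rfl | rfl <;>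
    rcases q3 with rfl | rfl <;> norm_num at h1 h2 <;> omega

/-- sorting the other three -/
theorem sort70 (e : Fin 4 → ℕ) (i : Fin 4) : ∃ x y z : ℕ, x ≤ y ∧ y ≤ z ∧
    ∑ j, e j = e i + (x + y + z) ∧
    (∏ j, geo51 (e j) : PowerSeries ℤ) = geo51 (e i) * (geo51 x * geo51 y * geo51 z) := by
  set g : Fin 3 → ℕ := fun j => e (i.succAbove j) with hg
  have hm := Tuple.monotone_sort g
  set σ := Tuple.sort g with hσ
  refine ⟨g (σ 0), g (σ 1), g (σ 2), hm (by decide), hm (by decide), ?_, ?_⟩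
  · rw [Fin.sum_univ_succAbove _ i]
    congr 1
    rw [← Fin.sum_univ_three (fun j => g (σ j)), Equiv.sum_comp σ g]
  · rw [Fin.prod_univ_succAbove _ i]
    congr 1
    rw [← Fin.prod_univ_three (fun j => geo51 (g (σ j))),
      Equiv.prod_comp σ (fun j => geo51 (g j))]

theorem HS_inv70 (K : Type u) [Field K] : HS51 K 4 * (1 - PowerSeries.X) ^ 4 = 1 := by
  have h : ∀ P : PowerSeries ℤ, ∀ m : ℤ, cf51 (P * (1 - PowerSeries.X)) m =
      cf51 P m - cf51 P (m - 1) := by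
    intro P m
    rw [mul_sub, mul_one, cf_sub51, mul_comm P PowerSeries.X, cf_X51]
  apply Thick51.ext_cf51
  intro m hm
  have e : HS51 K 4 * (1 - PowerSeries.X) ^ 4 = HS51 K 4 * (1 - PowerSeries.X) *
      (1 - PowerSeries.X) * (1 - PowerSeries.X) * (1 - PowerSeries.X) := by ring
  have h1 : ∀ m, cf51 (HS51 K 4 * (1 - PowerSeries.X)) m = c2 m := by
    intro m
    rw [h, cf_HS51, cf_HS51, c3_diff51]
  rw [e, h, h, h, h1, h1, h, h1, h1, h, h, h1, h1, h, h1, h1]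
  have t := c2_third51 m
  have s1 : m - 1 - 1 = m - 2 := by ring
  have s2 : m - 2 - 1 = m - 3 := by ring
  rw [s1, s2]
  have h2 : cf51 (1 : PowerSeries ℤ) m = if m = 0 then 1 else 0 := by
    obtain ⟨n, rfl⟩ := Int.eq_ofNat_of_zero_le hm
    rw [cf_nat51, PowerSeries.coeff_one]
    by_cases hn : n = 0
    · rw [if_pos hn, if_pos (by omega)]
    · rw [if_neg hn, if_neg (by omega)]
  rw [h2, ← t]
  ring

/-- the series after cancellation -/
theorem cancel70 (K : Type u) [Field K] (A : PowerSeries ℤ) (x y z : ℕ)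
    (h : geo51 1 * (geo51 x * geo51 y * geo51 z) = (1 - PowerSeries.X ^ 2) * A) :
    A = (1 - PowerSeries.X ^ (x + 1)) * ((1 - PowerSeries.X ^ (y + 1)) *
      ((1 - PowerSeries.X ^ (z + 1)) * HS51 K 4)) := by
  have h1 : geo51 1 = 1 + PowerSeries.X := by
    unfold geo51
    rw [Finset.sum_range_succ, Finset.sum_range_one, pow_zero, pow_one]
  have h2 : (1 + PowerSeries.X : PowerSeries ℤ) ≠ 0 := by
    intro h3
    have := congrArg (PowerSeries.coeff 0) h3
    simp at this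
  have h3 : geo51 x * geo51 y * geo51 z = (1 - PowerSeries.X) * A := by
    apply mul_left_cancel₀ h2
    rw [← h1, h, h1]
    ring
  have hx := Thick51.geo_mul51 x
  have hy := Thick51.geo_mul51 y
  have hz := Thick51.geo_mul51 z
  calc A = A * (HS51 K 4 * (1 - PowerSeries.X) ^ 4) := by rw [HS_inv70, mul_one]
    _ = ((1 - PowerSeries.X) * A) * (1 - PowerSeries.X) ^ 3 * HS51 K 4 := by ring
    _ = (geo51 x * geo51 y * geo51 z) * (1 - PowerSeries.X) ^ 3 * HS51 K 4 := by rw [h3]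
    _ = (geo51 x * (1 - PowerSeries.X)) * ((geo51 y * (1 - PowerSeries.X)) *
        ((geo51 z * (1 - PowerSeries.X)) * HS51 K 4)) := by ring
    _ = _ := by rw [hx, hy, hz]

theorem cf_one_sub70 (P : PowerSeries ℤ) (k : ℕ) (m : ℤ) :
    cf51 ((1 - PowerSeries.X ^ k) * P) m = cf51 P m - cf51 P (m - k) := by
  rw [sub_mul, one_mul, cf_sub51, cf_Xpow51]

theorem cf_A70 {K : Type u} [Field K] (ν : ℕ) (N1 N2 : Submodule (S K 4) (Fin 3 → S K 4))
    (n : ℤ) : cf51 (HS51 K 4 -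
      PowerSeries.X * PowerSeries.mk (fun k : ℕ => hh N1 k) +
      PowerSeries.X ^ 2 * PowerSeries.mk (fun k : ℕ => hh N2 k) -
      PowerSeries.X ^ (ν + 3) * HS51 K 4) n =
      c3 n - hh N1 (n - 1) + hh N2 (n - 2) - c3 (n - ν - 3) := by
  rw [cf_sub51, cf_add51, cf_sub51, cf_X51, cf_Xpow51, cf_Xpow51, cf_HS51, cf_HS51, cf_hh51,
    cf_hh51]
  have e : n - ((ν + 3 : ℕ) : ℤ) = n - ν - 3 := by push_cast; ring
  rw [e]
  rfl

theorem c3_nonneg70 (m : ℤ) : 0 ≤ c3 m := by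
  unfold c3
  split_ifs
  · positivity
  · exact le_rfl

theorem c3_zero70 : c3 0 = 1 := by
  have := c3_nat51 0
  norm_num at this
  exact this

theorem c3_one70 : c3 1 = 4 := by
  have := c3_nat51 1
  norm_num [Nat.choose] at this
  exact this

theorem c3_two70 : c3 2 = 10 := by
  have := c3_nat51 2
  norm_num [Nat.choose] at this
  exact this

theorem c3_pos70 {m : ℤ} (hm : 0 ≤ m) : 1 ≤ c3 m := by
  obtain ⟨n, rfl⟩ := Int.eq_ofNat_of_zero_le hm
  rw [c3_nat51]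
  have : 1 ≤ (n + 3).choose 3 := Nat.choose_pos (by omega)
  exact_mod_cast this

theorem c3_mono70 {m n : ℤ} (h : m ≤ n) : c3 m ≤ c3 n := by
  rcases lt_or_ge m 0 with h0 | h0
  · rw [c3_neg51 h0]
    exact c3_nonneg70 n
  · obtain ⟨a, rfl⟩ := Int.eq_ofNat_of_zero_le h0
    obtain ⟨b, rfl⟩ := Int.eq_ofNat_of_zero_le (h0.trans h)
    rw [c3_nat51, c3_nat51]
    have : a ≤ b := by exact_mod_cast h
    exact_mod_cast Nat.choose_le_choose 3 (by omega)

/-- PF -/
theorem pf_70 (hCD : stCoDiv.{u}) (hPr : stProd.{u}) (hPm : stPrim.{u}) : stPF.{u} := by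
  intro K _ _ ν d θ ω a u e hC hsum hser
  have hF := fx51 hCD hPr hPm hC
  have ha := a_nonneg51 hC
  rcases le_or_gt u 0 with hu | hu
  · have : (0 : ℤ) ≤ ν := by positivity
    omega
  -- `L2` vanishes below `u`
  have hL2 : ∀ k < u, hh (L2 d) k = 0 := fun k hk => hh_zero70 fun w hw hwk => hC.ωm k hk w hw hwk
  have hneg1 : ∀ n < (0 : ℤ), ∀ w ∈ L1 d, w ∈ Vg K 4 n → w = 0 := fun n hn w _ hw =>
    Vg_neg51 hn hw
  -- the values of `h1` at 0 and 1
  have hr : hh (L1 d) 0 = 0 ∧ 0 ≤ hh (L1 d) 1 ∨ hh (L1 d) 0 = 1 ∧ 4 ≤ hh (L1 d) 1 := by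
    have h0 := hh_nonneg70 (L1 d) 0
    rcases Nat.lt_or_ge 0 0 with h | _
    · omega
    rcases eq_or_lt_of_le h0 with h1 | h1
    · exact Or.inl ⟨h1.symm, hh_nonneg70 _ _⟩
    · right
      obtain ⟨v, hv1, hv2, hv3⟩ := exists_of_hh70 h1
      have h2 := hh_ge70 hv3 hv1 hv2 1
      rw [zero_add, c3_one70] at h2
      refine ⟨?_, h2⟩
      by_contra hne
      have h3 : c3 0 < hh (L1 d) (0 + 0) := by
        rw [c3_zero70, add_zero]
        omega
      have := step70 hPm hF hv1 hv2 hv3 hneg1 h3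
      omega
  set A := HS51 K 4 -
      PowerSeries.X * PowerSeries.mk (fun k : ℕ => hh (L1 d) k) +
      PowerSeries.X ^ 2 * PowerSeries.mk (fun k : ℕ => hh (L2 d) k) -
      PowerSeries.X ^ (ν + 3) * HS51 K 4 with hA
  have hcA : ∀ n, cf51 A n = c3 n - hh (L1 d) (n - 1) + hh (L2 d) (n - 2) - c3 (n - ν - 3) :=
    fun n => cf_A70 ν (L1 d) (L2 d) n
  have hν : (0 : ℤ) ≤ ν := by positivity
  -- one exponent is 1
  obtain ⟨i, hi⟩ : ∃ i, e i = 1 := by
    apply exists_one70 e _ _ hr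
    · rw [hser, ← cf_nat51, cf_one_sub70, hcA, hcA]
      push_cast
      norm_num
      rw [c3_one70, c3_neg51 (n := -1) (by norm_num), hL2 _ (by omega), hL2 _ (by omega),
        hh_neg51 _ (m := -2) (by omega), c3_neg51 (by omega), c3_neg51 (by omega)]
      ring
    · rw [hser, ← cf_nat51, cf_one_sub70, hcA, hcA]
      push_cast
      norm_num
      rw [c3_two70, c3_zero70, hL2 _ (by omega), hL2 _ (by omega),
        hh_neg51 _ (m := -1) (by omega), c3_neg51 (by omega), c3_neg51 (by omega)]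
      ring
  obtain ⟨x, y, z, hxy, hyz, hs, hp⟩ := sort70 e i
  rw [hp, hi] at hser
  have hcan := cancel70 K A x y z hser
  have key : ∀ n : ℤ, hh (L1 d) n - hh (L2 d) (n - 1) = c3 (n - x) + c3 (n - y) + c3 (n - z) -
      (c3 (n - 1 - x - y) + c3 (n - 1 - x - z) + c3 (n - 1 - y - z)) +
      (c3 (n - 2 - x - y - z) - c3 (n - ν - 2)) := by
    intro n
    have h1 := hcA (n + 1)
    rw [hcan] at h1
    rw [cf_one_sub70, cf_one_sub70, cf_one_sub70, cf_one_sub70, cf_one_sub70, cf_one_sub70,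
      cf_one_sub70, cf_HS51, cf_HS51, cf_HS51, cf_HS51, cf_HS51, cf_HS51, cf_HS51, cf_HS51] at h1
    have r1 : n + 1 - 1 = n := by ring
    have r2 : n + 1 - 2 = n - 1 := by ring
    have r3 : n + 1 - (ν : ℤ) - 3 = n - ν - 2 := by ring
    have r4 : n + 1 - ((x + 1 : ℕ) : ℤ) = n - x := by push_cast; ring
    have r5 : n + 1 - ((y + 1 : ℕ) : ℤ) = n - y := by push_cast; ring
    have r6 : n + 1 - ((z + 1 : ℕ) : ℤ) = n - z := by push_cast; ring
    have r7 : n - x - ((y + 1 : ℕ) : ℤ) = n - 1 - x - y := by push_cast; ring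
    have r8 : n - x - ((z + 1 : ℕ) : ℤ) = n - 1 - x - z := by push_cast; ring
    have r9 : n - y - ((z + 1 : ℕ) : ℤ) = n - 1 - y - z := by push_cast; ring
    have r10 : n - 1 - x - y - ((z + 1 : ℕ) : ℤ) = n - 2 - x - y - z := by push_cast; ring
    rw [r1, r2, r3, r4, r5, r6, r7, r8, r9, r10] at h1
    linarith
  have hs2 : (x : ℤ) + y + z ≤ ν := by
    rw [hs, hi] at hsum
    omega
  have hxy' : (x : ℤ) ≤ y := by exact_mod_cast hxy
  have hyz' : (y : ℤ) ≤ z := by exact_mod_cast hyz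
  have hx0 : (0 : ℤ) ≤ x := by positivity
  -- low degrees
  have hlow : ∀ n : ℤ, n < x → n ≤ u → hh (L1 d) n = 0 := by
    intro n hn hnu
    have h1 := key n
    rw [hL2 _ (by omega), c3_neg51 (n := n - x) (by omega), c3_neg51 (n := n - y) (by omega),
      c3_neg51 (n := n - z) (by omega), c3_neg51 (n := n - 1 - x - y) (by omega),
      c3_neg51 (n := n - 1 - x - z) (by omega), c3_neg51 (n := n - 1 - y - z) (by omega),
      c3_neg51 (n := n - 2 - x - y - z) (by omega), c3_neg51 (n := n - ν - 2) (by omega)] at h1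
    linarith
  -- `u ≤ x + y`
  have hux : u ≤ x + y := by
    by_contra hc
    rw [not_le] at hc
    have h1 := key x
    rw [hL2 _ (by omega), sub_self, c3_zero70, c3_neg51 (n := x - 1 - x - y) (by omega),
      c3_neg51 (n := x - 1 - x - z) (by omega), c3_neg51 (n := x - 1 - y - z) (by omega),
      c3_neg51 (n := (x : ℤ) - 2 - x - y - z) (by omega),
      c3_neg51 (n := (x : ℤ) - ν - 2) (by omega)] at h1
    have h2 : 0 < hh (L1 d) x := by
      have := c3_nonneg70 ((x : ℤ) - y)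
      have := c3_nonneg70 ((x : ℤ) - z)
      linarith
    obtain ⟨v, hv1, hv2, hv3⟩ := exists_of_hh70 h2
    have h3 := key y
    rw [hL2 _ (by omega), sub_self, c3_zero70, c3_neg51 (n := y - 1 - x - y) (by omega),
      c3_neg51 (n := y - 1 - x - z) (by omega), c3_neg51 (n := y - 1 - y - z) (by omega),
      c3_neg51 (n := (y : ℤ) - 2 - x - y - z) (by omega),
      c3_neg51 (n := (y : ℤ) - ν - 2) (by omega)] at h3
    have h4 : c3 ((y : ℤ) - x) < hh (L1 d) (x + (y - x)) := by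
      have e1 : (x : ℤ) + (y - x) = y := by ring
      rw [e1]
      have := c3_nonneg70 ((y : ℤ) - z)
      linarith
    have h5 := step70 hPm hF hv1 hv2 hv3
      (fun n hn w hw hwn => of_hh_zero70 (hlow n hn (by omega)) hw hwn) h4
    omega
  have hax : (x : ℤ) ≤ a := by
    by_contra hc
    rw [not_le] at hc
    exact hC.θ0 (of_hh_zero70 (hlow a hc (a_le70 hF)) hF.th1 hC.θd)
  omega

/-- PF without hypotheses -/
theorem thm : stPF.{u} := pf_70 CoDivM.thm ProdM.thm Prim.thm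

end Pool.Agent.Lib.MP_fe1391_co.Quad51.PF
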