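import Pool.Agent.Lib.MP_fe1391_co.Thick51.Pal
import Pool.Agent.Lib.MP_fe1391_co.Thick51.Tr
import Pool.Agent.Lib.MP_fe1391_co.Tame.Htpy

/-!
# The product form in dimension four: definitions and statements of the modules

Paper proof: `/team-store/F4_51.md`.
-/

set_option autoImplicit false

namespace Pool.Agent.Lib.MP_fe1391_co.Quad51

open MvPolynomial Matrix Pool.Agent.Lib.MP_fe1391_co.Tame
open Pool.Agent.Lib.MP_fe1391_co.Thick51 (geo51 HS51)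

universe u

/-! ### Vectors over polynomial rings -/

section Defs

variable {K : Type u} [Field K] {ℓ ν : ℕ}

/-- constant vectors -/
noncomputable def cv (ℓ : ℕ) (a : Fin 3 → K) : Fin 3 → S K ℓ := fun j => C (a j)

/-- homogeneous vectors -/
noncomputable def Vg (K : Type u) [Field K] (ℓ : ℕ) (m : ℤ) : Submodule K (Fin 3 → S K ℓ) where
  carrier := {v | ∀ i, v i ∈ grS (K := K) (ℓ := ℓ) m}
  add_mem' := fun hv hw i => Submodule.add_mem _ (hv i) (hw i)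
  zero_mem' := fun _ => Submodule.zero_mem _
  smul_mem' := fun c _ hv i => Submodule.smul_mem _ c (hv i)

/-- the graded piece of degree `m` -/
noncomputable def pc {ℓ : ℕ} (N : Submodule (S K ℓ) (Fin 3 → S K ℓ)) (m : ℤ) : Submodule K (Fin 3 → S K ℓ) :=
  Vg K ℓ m ⊓ N.restrictScalars K

/-- the Hilbert function -/
noncomputable def hh {ℓ : ℕ} (N : Submodule (S K ℓ) (Fin 3 → S K ℓ)) (m : ℤ) : ℤ :=
  (Module.finrank K (pc N m) : ℤ)

/-- All vectors `v` such that `φ · v` is divisible by the linear form `lin (β i)` for all covectors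
`φ ∈ F i`. -/
def LF (F : Fin ν → Set (Fin 3 → K)) (β : Fin ν → Fin ℓ → K) :
    Submodule (S K ℓ) (Fin 3 → S K ℓ) where
  carrier := {v | ∀ i, ∀ φ ∈ F i, lin (β i) ∣ cv ℓ φ ⬝ᵥ v}
  add_mem' := by
    intro v w hv hw i φ hφ
    rw [dotProduct_add]
    exact dvd_add (hv i φ hφ) (hw i φ hφ)
  zero_mem' := by
    intro i φ _
    rw [dotProduct_zero]
    exact dvd_zero _
  smul_mem' := by
    intro c v hv i φ hφ
    rw [dotProduct_smul, smul_eq_mul]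
    exact Dvd.dvd.mul_left (hv i φ hφ) c

/-- the data: `ν` vectors `a i` in `K^3` and `ν` pairwise non-proportional linear forms in four
variables -/
structure Dat (K : Type u) [Field K] (ν : ℕ) where
  a : Fin ν → Fin 3 → K
  β : Fin ν → Fin 4 → K
  ha : ∀ i, a i ≠ 0
  hβ : ∀ i, β i ≠ 0
  hne : ∀ i j, i ≠ j → ∀ c : K, β j ≠ c • β i

/-- `{v | lin (β i) ∣ a i · v for all i}` -/
def L1 (d : Dat K ν) : Submodule (S K 4) (Fin 3 → S K 4) := LF (fun i => {d.a i}) d.β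

/-- `{w | lin (β i) ∣ a i × w for all i}`, since `a i × w` is the list of the `φ · w` with
`φ = e_j × a i`, and these `φ` span the orthogonal complement of `a i` -/
def L2 (d : Dat K ν) : Submodule (S K 4) (Fin 3 → S K 4) :=
  LF (fun i => {φ | φ ⬝ᵥ d.a i = 0}) d.β

/-- the product of the linear forms -/
noncomputable def Qd (d : Dat K ν) : S K 4 := ∏ i, lin (d.β i)

/-- closed under coprime division -/
def CoDiv (M : Submodule (S K 4) (Fin 3 → S K 4)) : Prop :=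
  ∀ (p q : S K 4) (v : Fin 3 → S K 4), IsRelPrime p q → p • v ∈ M → q • v ∈ M → v ∈ M

/-- the elements of `L1` orthogonal to `ω` -/
def Mo (d : Dat K ν) (ω : Fin 3 → S K 4) : Submodule (S K 4) (Fin 3 → S K 4) where
  carrier := {v | v ∈ L1 d ∧ v ⬝ᵥ ω = 0}
  add_mem' := by
    rintro v w ⟨h1, h2⟩ ⟨h3, h4⟩
    exact ⟨Submodule.add_mem _ h1 h3, by rw [add_dotProduct, h2, h4, add_zero]⟩
  zero_mem' := ⟨Submodule.zero_mem _, zero_dotProduct _⟩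
  smul_mem' := by
    rintro c v ⟨h1, h2⟩
    exact ⟨Submodule.smul_mem _ c h1, by rw [smul_dotProduct, h2, smul_zero]⟩

/-- `ω` is a nonzero element of least degree of `L2`, and `θ` is one of `ω^⊥ ⊆ L1` -/
structure Conf (d : Dat K ν) (θ ω : Fin 3 → S K 4) (a u : ℤ) : Prop where
  ω2 : ω ∈ L2 d
  ωd : ω ∈ Vg K 4 u
  ω0 : ω ≠ 0
  ωm : ∀ m < u, ∀ w ∈ L2 d, w ∈ Vg K 4 m → w = 0
  θ1 : θ ∈ Mo d ω
  θd : θ ∈ Vg K 4 a
  θ0 : θ ≠ 0
  θm : ∀ m < a, ∀ v ∈ Mo d ω, v ∈ Vg K 4 m → v = 0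

/-- a homogeneous basis of `L1` (by Saito's criterion) -/
def Bas (d : Dat K ν) : Prop :=
  ∃ (E : Fin 3 → Fin 3 → S K 4) (δ : Fin 3 → ℤ) (c : K), (∀ i, E i ∈ L1 d ∧ E i ∈ Vg K 4 (δ i)) ∧
    c ≠ 0 ∧ E 0 ⬝ᵥ (E 1 ⨯₃ E 2) = C c * Qd d

/-! ### Restriction to a hyperplane `x_ℓ = ∑ t_j x_j` -/

/-- the coefficient vector of `x_ℓ - ∑ t_j x_j` -/
def tau {ℓ : ℕ} (t : Fin ℓ → K) : Fin (ℓ + 1) → K := Fin.snoc (α := fun _ => K) (fun j => - t j) 1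

/-- restriction to the hyperplane -/
noncomputable def sg {ℓ : ℕ} (t : Fin ℓ → K) : S K (ℓ + 1) →ₐ[K] S K ℓ :=
  aeval (Fin.snoc (α := fun _ => S K ℓ) (fun j => X j) (∑ j, C (t j) * X j))

/-- restriction of vectors -/
noncomputable def sv {ℓ : ℕ} (t : Fin ℓ → K) :
    (Fin 3 → S K (ℓ + 1)) →ₗ[K] (Fin 3 → S K ℓ) where
  toFun v := fun i => sg t (v i)
  map_add' v w := by
    funext i
    exact map_add _ _ _
  map_smul' c v := by
    funext i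
    exact map_smul (sg t) c (v i)

/-- restriction of linear forms: `lin (rs t b) = sg t (lin b)` -/
def rs {ℓ : ℕ} (t : Fin ℓ → K) (b : Fin (ℓ + 1) → K) : Fin ℓ → K :=
  fun j => b j.castSucc + t j * b (Fin.last ℓ)

/-! ### Graded ideals of `K[x_0, x_1, x_2]` and numbers -/

/-- graded ideals, as families of subspaces -/
def GI (J : ℤ → Submodule K (S K 3)) : Prop :=
  (∀ m, J m ≤ grS m) ∧ ∀ m f (i : Fin 3), f ∈ J m → X i * f ∈ J (m + 1)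

end Defs

/-- `dim K[x_0, x_1, x_2]_m` -/
def c2 (m : ℤ) : ℤ := if 0 ≤ m then (((m.toNat + 2).choose 2 : ℕ) : ℤ) else 0

/-- `dim K[x_0, ..., x_3]_m` -/
def c3 (m : ℤ) : ℤ := if 0 ≤ m then (((m.toNat + 3).choose 3 : ℕ) : ℤ) else 0

/-- codimension of the piece of degree `m` -/
noncomputable def cd {K : Type u} [Field K] (J : ℤ → Submodule K (S K 3)) (m : ℤ) : ℤ :=
  c2 m - (Module.finrank K (J m) : ℤ)

/-- fourth difference -/
def d4 (h : ℤ → ℤ) (k : ℤ) : ℤ := h k - 4 * h (k - 1) + 6 * h (k - 2) - 4 * h (k - 3) + h (k - 4)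

/-- the coefficients of `Ψ / (1 + x)` -/
def vv (ν : ℤ) (h1 h2 : ℤ → ℤ) (m : ℤ) : ℤ :=
  c2 m - (h1 (m - 1) - h1 (m - 2)) + (h2 (m - 2) - h2 (m - 3)) - c2 (m - ν - 3)

/-- three elements forming a regular sequence -/
def Reg3 {A : Type*} [CommRing A] (f : Fin 3 → A) : Prop :=
  (∀ a, f 0 * a = 0 → a = 0) ∧ (∀ a b, f 1 * a = f 0 * b → ∃ c, a = f 0 * c) ∧
    ∀ a b c, f 2 * a = f 0 * b + f 1 * c → ∃ p q, a = f 0 * p + f 1 * q

/-! ### Statements -/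

/-- ALG1: `L1`, `L2` and `ω^⊥` are closed under coprime division. -/
def stCoDiv : Prop :=
  ∀ (K : Type u) [Field K] (ν : ℕ) (d : Dat K ν) (ω : Fin 3 → S K 4),
    CoDiv (L1 d) ∧ CoDiv (L2 d) ∧ CoDiv (Mo d ω)

/-- ALG2: products. -/
def stProd : Prop :=
  ∀ (K : Type u) [Field K] (ν : ℕ) (d : Dat K ν),
    (∀ v ∈ L1 d, ∀ w ∈ L1 d, v ⨯₃ w ∈ L2 d) ∧
    (∀ v ∈ L1 d, ∀ w ∈ L2 d, Qd d ∣ v ⬝ᵥ w) ∧
    (∀ v ∈ L2 d, ∀ w ∈ L2 d, ∃ z ∈ L1 d, v ⨯₃ w = Qd d • z) ∧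
    (∀ w ∈ L2 d, ∀ e : Fin 3 → K, w ⨯₃ cv 4 e ∈ L1 d) ∧
    (∀ v : Fin 3 → S K 4, Qd d • v ∈ L1 d ∧ Qd d • v ∈ L2 d) ∧
    Qd d ≠ 0 ∧ Qd d ∈ grS (K := K) (ℓ := 4) ν

/-- PRIM: multiples of an element of least degree. -/
def stPrim : Prop :=
  ∀ (K : Type u) [Field K] (M : Submodule (S K 4) (Fin 3 → S K 4)), CoDiv M →
    ∀ (θ : Fin 3 → S K 4) (a : ℤ), θ ∈ M → θ ∈ Vg K 4 a → θ ≠ 0 →
      (∀ m < a, ∀ v ∈ M, v ∈ Vg K 4 m → v = 0) →
      ∀ v ∈ M, θ ⨯₃ v = 0 → ∃ f : S K 4, v = f • θ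

/-- REG: regular sequences by restriction. -/
def stReg : Prop :=
  ∀ (K : Type u) [Field K] (t : Fin 3 → K) (N : ℕ) (f : Fin 3 → S K 4), 1 ≤ N →
    (∀ j, f j ∈ grS (K := K) (ℓ := 4) N) → (∀ j, sg t (f j) = X j ^ N) → Reg3 f

/-- KOS: the Koszul argument. `A` a domain, `P` torsion-free. -/
def stKos : Prop :=
  ∀ (A : Type u) [CommRing A] [IsDomain A] (f : Fin 3 → A), Reg3 f →
    ∀ (P : Type u) [AddCommGroup P] [Module A P], (∀ (c : A) (z : P), c • z = 0 → c = 0 ∨ z = 0) →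
    ∀ (M : Submodule A (Fin 3 → A)) (φ : (Fin 3 → A) →ₗ[A] P) (n : ℕ) (E : Fin n → Fin 3 → A),
      (∀ v, f 0 • v ∈ M → f 1 • v ∈ M → v ∈ M) → (∀ i, E i ∈ M) → (∀ i, φ (E i) = 0) →
      (∀ c : Fin n → A, ∑ i, c i • E i = 0 → c = 0) →
      (∀ v ∈ M, φ v = 0 → ∃ c : Fin n → A, v = ∑ i, c i • E i) →
      ∀ z : P, (∀ i, ∃ v ∈ M, φ v = f i • z) → ∃ v ∈ M, φ v = z

/-- GEN: a generic hyperplane. -/
def stGen : Prop :=
  ∀ (K : Type u) [Field K] [Infinite K] (r : ℕ) (N : Fin r → Submodule (S K 4) (Fin 3 → S K 4)),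
    (∀ i z, (∀ j : Fin 4, (X j : S K 4) • z ∈ N i) → z ∈ N i) →
    ∀ (q : ℕ) (U : Fin q → Submodule K (Fin 4 → K)), (∀ i, U i ≠ ⊤) →
      ∃ t : Fin 3 → K, (∀ i z, lin (tau t) • z ∈ N i → z ∈ N i) ∧ ∀ i, tau t ∉ U i

/-- GEN0: a generic hyperplane, vector spaces only. -/
def stGen0 : Prop :=
  ∀ (K : Type u) [Field K] [Infinite K] (ℓ q : ℕ) (U : Fin q → Submodule K (Fin (ℓ + 1) → K)),
    (∀ i, U i ≠ ⊤) → ∃ t : Fin ℓ → K, ∀ i, tau t ∉ U i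

/-- ML: growth of the Hilbert function of `K[x_0, x_1, x_2] / J` (special case of Macaulay). -/
def stML : Prop :=
  ∀ (K : Type u) [Field K] [Infinite K] (J : ℤ → Submodule K (S K 3)), GI J → ∀ k g : ℕ,
    1 ≤ g → cd J k + g ≤ cd J (k + 1) →
    ∑ j ∈ Finset.range (k + 1), min (g : ℤ) (j + 1) ≤ cd J k

/-- DB: the degree bound. -/
def stDB : Prop :=
  ∀ (K : Type u) [Field K] [Infinite K] (ν : ℕ) (F : Fin ν → Set (Fin 3 → K))
    (β : Fin ν → Fin 4 → K), (∀ i, β i ≠ 0) → (∀ i j, i ≠ j → ∀ c : K, β j ≠ c • β i) →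
    (∀ k : ℤ, (ν : ℤ) + 3 ≤ k → d4 (hh (LF F β)) k = 0) ∧ 0 ≤ d4 (hh (LF F β)) (ν + 2)

/-- CORE: the structure of `L1` modulo a generic hyperplane. -/
def stCore : Prop :=
  ∀ (K : Type u) [Field K] [Infinite K] (ν : ℕ) (d : Dat K ν) (θ ω : Fin 3 → S K 4) (a u : ℤ),
    Conf d θ ω a u → 0 ≤ a ∧ 0 ≤ u - a ∧ ∃ J I : ℤ → Submodule K (S K 3), GI J ∧ GI I ∧
      (∀ k : ℤ, hh (L1 d) k - hh (L1 d) (k - 1) = c2 (k - a) +
        (c2 (k - (u - a)) - cd J (k - (u - a))) + (c2 (k - (ν - u)) - cd I (k - (ν - u)))) ∧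
      ((∃ k0 : ℤ, ∀ k ≥ k0, cd J k = 0) → (∃ k0 : ℤ, ∀ k ≥ k0, cd I k = 0) → Bas d)

/-- TOP: `L2` in low degrees. -/
def stTop : Prop :=
  ∀ (K : Type u) [Field K] (ν : ℕ) (d : Dat K ν) (θ ω : Fin 3 → S K 4) (a u : ℤ),
    Conf d θ ω a u → ∀ k < ν - u + a, hh (L2 d) k = c3 (k - u)

/-- NUM: the numerical part. -/
def stNum : Prop :=
  ∀ (K : Type u) [Field K] [Infinite K] (h1 h2 : ℤ → ℤ) (ν a b c g : ℤ)
    (J I : ℤ → Submodule K (S K 3)), GI J → GI I → 0 ≤ a → 0 ≤ b → b ≤ c → a + b + c = ν →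
    0 ≤ g →
    (∀ k, h1 k - h1 (k - 1) = c2 (k - a) + (c2 (k - b) - cd J (k - b)) +
      (c2 (k - c) - cd I (k - c))) →
    (∀ k < a + c, h2 k = c3 (k - (a + b))) →
    (∀ m, vv ν h1 h2 m = vv ν h1 h2 (ν - g - m)) →
    (∃ k0 : ℤ, ∀ k ≥ k0, cd J k = 0) ∧ ∃ k0 : ℤ, ∀ k ≥ k0, cd I k = 0

/-- CONF: existence of the configuration. -/
def stConf : Prop :=
  ∀ (K : Type u) [Field K] (ν : ℕ) (d : Dat K ν), ∃ θ ω a u, Conf d θ ω a u ∧ u ≤ ν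

/-- SYM: from the Solomon-Terao series to the symmetry of `vv` (uses DB). -/
def stSym : Prop :=
  ∀ (K : Type u) [Field K] [Infinite K] (ν : ℕ) (d : Dat K ν) (f : Polynomial ℤ),
    (f : PowerSeries ℤ) = (1 - PowerSeries.X ^ 2) * (HS51 K 4 -
      PowerSeries.X * PowerSeries.mk (fun k : ℕ => hh (L1 d) k) +
      PowerSeries.X ^ 2 * PowerSeries.mk (fun k : ℕ => hh (L2 d) k) -
      PowerSeries.X ^ (ν + 3) * HS51 K 4) →
    f.reverse = f →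
    ∃ g : ℤ, 0 ≤ g ∧ (f.natDegree : ℤ) = ν + 1 - g ∧
      ∀ m, vv ν (hh (L1 d)) (hh (L2 d)) m = vv ν (hh (L1 d)) (hh (L2 d)) (ν - g - m)

/-- PF: the product form gives `2 u ≤ ν + a`. -/
def stPF : Prop :=
  ∀ (K : Type u) [Field K] [Infinite K] (ν : ℕ) (d : Dat K ν) (θ ω : Fin 3 → S K 4) (a u : ℤ)
    (e : Fin 4 → ℕ), Conf d θ ω a u → (∑ i, e i ≤ ν + 1) →
    (∏ i, geo51 (e i) : PowerSeries ℤ) = (1 - PowerSeries.X ^ 2) * (HS51 K 4 -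
      PowerSeries.X * PowerSeries.mk (fun k : ℕ => hh (L1 d) k) +
      PowerSeries.X ^ 2 * PowerSeries.mk (fun k : ℕ => hh (L2 d) k) -
      PowerSeries.X ^ (ν + 3) * HS51 K 4) →
    2 * u ≤ ν + a

/-- TR: from arrangements to data. -/
def stTra : Prop :=
  ∀ (K : Type u) [Field K] (A : Finset (Submodule K (Fin 4 → K))), A.Nonempty →
    (∀ H ∈ A, ∃ a : Module.Dual K (Fin 4 → K), a ≠ 0 ∧ LinearMap.ker a = H) →
    ∃ (ν : ℕ) (d : Dat K ν), A.card = ν + 1 ∧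
      Assemble.Psi K A = (1 - PowerSeries.X ^ 2) * (HS51 K 4 -
        PowerSeries.X * PowerSeries.mk (fun k : ℕ => hh (L1 d) k) +
        PowerSeries.X ^ 2 * PowerSeries.mk (fun k : ℕ => hh (L2 d) k) -
        PowerSeries.X ^ (ν + 3) * HS51 K 4) ∧
      (Bas d → Module.Free (S K 4) (Assemble.LDer K A))

/-- BC: base change to an infinite field. -/
def stBCh : Prop :=
  ∀ (K : Type u) [Field K] (ν : ℕ) (d : Dat K ν), ∃ (K' : Type u) (_ : Field K')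
    (_ : Infinite K') (d' : Dat K' ν), (∀ m, hh (L1 d') m = hh (L1 d) m) ∧
      (∀ m, hh (L2 d') m = hh (L2 d) m) ∧ HS51 K' 4 = HS51 K 4 ∧ (Bas d' → Bas d)

end Pool.Agent.Lib.MP_fe1391_co.Quad51
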