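import Pool.Agent.Lib.MP_fe1391_co.Quad51.Stmts
import Pool.Agent.Lib.MP_fe1391_co.Tame.Pair
import Pool.Agent.Lib.MP_fe1391_co.Thick51.Gr

/-!
# From arrangements to data: alternating arrays and the splitting off of the Euler field
-/

set_option autoImplicit false

namespace Pool.Agent.Lib.MP_fe1391_co.Quad51.Tra22

open MvPolynomial Pool.Agent.Lib.MP_fe1391_co.Tame Pool.Agent.Lib.MP_fe1391_co.Tame.Htpy
open Pool.Agent.Lib.MP_fe1391_co.Thick51

universe u

section Arr

variable {A : Type*} [CommRing A] {n : ℕ}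

theorem amap_cons {p : ℕ} (a : (Fin (p + 1) → Fin n) → A) (ha : IsAlt a) (v : Fin n → A)
    (z : Fin p → Fin n → A) (ha' : IsAlt (con v a)) :
    amap a ha (Fin.cons v z) = amap (con v a) ha' z := by
  rw [amap_apply, amap_apply, ← (Fin.consEquiv (fun _ => Fin n)).sum_comp,
    Fintype.sum_prod_type_right]
  refine Finset.sum_congr rfl fun w _ => ?_
  change ∑ x, a (Fin.cons x w) * ∏ k, (Fin.cons v z : Fin (p + 1) → Fin n → A) k
    ((Fin.cons x w : Fin (p + 1) → Fin n) k) = (∑ i, v i * a (Fin.cons i w)) * ∏ k, z k (w k)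
  rw [Finset.sum_mul]
  refine Finset.sum_congr rfl fun x _ => ?_
  rw [Fin.prod_univ_succ]
  simp only [Fin.cons_zero, Fin.cons_succ]
  ring

theorem con_con {p : ℕ} (v : Fin n → A) (a : (Fin (p + 1 + 1) → Fin n) → A) (ha : IsAlt a) :
    con v (con v a) = 0 := by
  have h1 := Pair.isAlt_con v a ha
  have h2 := Pair.isAlt_con v _ h1
  funext w
  rw [← amap_basis _ h2 w, ← amap_cons _ h1 v _ h2, ← amap_cons _ ha v _ h1]
  exact (amap a ha).map_eq_zero_of_eq _ (i := 0) (j := 1) (by simp) (by simp)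

/-- divisibility in the first slot gives divisibility in all slots -/
theorem upd_dvd {p : ℕ} (a : (Fin (p + 1) → Fin n) → A) (ha : IsAlt a) (v : Fin n → A) (c : A)
    (h : ∀ w, c ∣ con v a w) (w : Fin (p + 1) → Fin n) (j : Fin (p + 1)) :
    c ∣ ∑ x, v x * a (Function.update w j x) := by
  have h0 : ∀ (w : Fin (p + 1) → Fin n), c ∣ ∑ x, v x * a (Function.update w 0 x) := by
    intro w
    have e : ∀ x, Function.update w 0 x = Fin.cons x (Fin.tail w) := by
      intro x
      rw [← Fin.cons_self_tail w, Fin.update_cons_zero, Fin.tail_cons]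
    simp only [e]
    exact h (Fin.tail w)
  rcases eq_or_ne j 0 with rfl | hj
  · exact h0 w
  · have e : ∀ x, a (Function.update w j x) = - a (Function.update (w ∘ Equiv.swap 0 j) 0 x) := by
      intro x
      have h1 := ha.sw (Function.update w j x) 0 j hj.symm
      have h2 : Function.update w j x ∘ Equiv.swap 0 j =
          Function.update (w ∘ Equiv.swap 0 j) 0 x := by
        rw [Function.update_comp_equiv]
        congr 1
        rw [Equiv.symm_swap, Equiv.swap_apply_right]
      rw [h2] at h1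
      rw [h1, neg_neg]
    have e2 : ∑ x, v x * a (Function.update w j x) =
        - ∑ x, v x * a (Function.update (w ∘ Equiv.swap 0 j) 0 x) := by
      rw [← Finset.sum_neg_distrib]
      exact Finset.sum_congr rfl fun x _ => by rw [e x]; ring
    rw [e2]
    exact (h0 _).neg_right

/-- and conversely -/
theorem con_dvd {p : ℕ} (a : (Fin (p + 1) → Fin (n + 1)) → A) (v : Fin (n + 1) → A) (c : A)
    (h : ∀ (w : Fin (p + 1) → Fin (n + 1)) (j : Fin (p + 1)),
      c ∣ ∑ x, v x * a (Function.update w j x)) (w : Fin p → Fin (n + 1)) : c ∣ con v a w := by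
  have h1 := h (Fin.cons 0 w) 0
  simp only [Fin.update_cons_zero] at h1
  exact h1

theorem wedge0 (v t : Fin n → A) (a : (Fin 0 → Fin n) → A) :
    con v (wedge t a) = (∑ i, v i * t i) • a := by
  funext w
  change ∑ i, v i * ∑ j : Fin 1, (-1) ^ (j : ℕ) *
    (t ((Fin.cons i w : Fin 1 → Fin n) j) * a (j.removeNth (Fin.cons i w : Fin 1 → Fin n))) =
    (∑ i, v i * t i) * a w
  rw [Finset.sum_mul]
  refine Finset.sum_congr rfl fun i _ => ?_
  rw [Fin.sum_univ_one]
  have : (Fin.removeNth (0 : Fin 1) (Fin.cons i w : Fin 1 → Fin n)) = w := by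
    funext k
    exact k.elim0
  rw [this]
  simp
  ring

end Arr

section LG

variable {K : Type u} [Field K] {n : ℕ}

/-- constant covectors -/
noncomputable def cb (b : Fin n → K) : Fin n → S K 4 := fun i => C (b i)

/-- logarithmic arrays with given covectors -/
def LG (α : (Fin 4 → K) → (Fin n → K)) (B : Finset (Fin 4 → K)) (p : ℕ) :
    Submodule (S K 4) ((Fin p → Fin n) → S K 4) where
  carrier := {a | IsAlt a ∧ ∀ b ∈ B, ∀ (w : Fin p → Fin n) (j : Fin p),
    lin b ∣ ∑ x, C (α b x) * a (Function.update w j x)}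
  add_mem' := by
    rintro a a' ⟨⟨h1, h2⟩, h3⟩ ⟨⟨h1', h2'⟩, h3'⟩
    refine ⟨⟨fun w hw => ?_, fun w i j hij => ?_⟩, fun b hb w j => ?_⟩
    · rw [Pi.add_apply, h1 w hw, h1' w hw, add_zero]
    · rw [Pi.add_apply, Pi.add_apply, h2 w i j hij, h2' w i j hij, neg_add]
    · have := dvd_add (h3 b hb w j) (h3' b hb w j)
      simpa only [Pi.add_apply, mul_add, Finset.sum_add_distrib] using this
  zero_mem' := by
    refine ⟨⟨fun w _ => rfl, fun w i j _ => ?_⟩, fun b _ w j => ?_⟩
    · simp
    · simp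
  smul_mem' := by
    rintro c a ⟨⟨h1, h2⟩, h3⟩
    refine ⟨⟨fun w hw => ?_, fun w i j hij => ?_⟩, fun b hb w j => ?_⟩
    · rw [Pi.smul_apply, h1 w hw, smul_zero]
    · rw [Pi.smul_apply, Pi.smul_apply, h2 w i j hij, smul_neg]
    · have := Dvd.dvd.mul_left (h3 b hb w j) c
      simpa only [Pi.smul_apply, smul_eq_mul, Finset.mul_sum, mul_left_comm] using this

/-- homogeneous pieces -/
noncomputable def pg {κ : Type} (N : Submodule (S K 4) (κ → S K 4)) (m : ℤ) :
    Submodule K (κ → S K 4) where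
  carrier := {a | a ∈ N ∧ ∀ w, a w ∈ grS (K := K) (ℓ := 4) m}
  add_mem' := fun {a a'} h h' => ⟨N.add_mem h.1 h'.1, fun w => Submodule.add_mem _ (h.2 w) (h'.2 w)⟩
  zero_mem' := ⟨N.zero_mem, fun _ => Submodule.zero_mem _⟩
  smul_mem' := fun c a h => ⟨by
    have : c • a = (C c : S K 4) • a := by
      funext w
      rw [Pi.smul_apply, Pi.smul_apply, smul_eq_mul, smul_eq_C_mul]
    rw [this]
    exact N.smul_mem _ h.1, fun w => Submodule.smul_mem _ c (h.2 w)⟩

theorem mem_pg {κ : Type} {N : Submodule (S K 4) (κ → S K 4)} {m : ℤ} {a : κ → S K 4} :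
    a ∈ pg N m ↔ a ∈ N ∧ ∀ w, a w ∈ grS (K := K) (ℓ := 4) m := Iff.rfl

instance fin_pg {κ : Type} [Finite κ] (N : Submodule (S K 4) (κ → S K 4)) (m : ℤ) :
    FiniteDimensional K (pg N m) := by
  have := Fintype.ofFinite κ
  have h1 := Top.finite_Hm (Grad.thmS K 4) (fun _ : κ => (0 : ℤ)) m
  have h2 : pg N m ≤ Hm (K := K) (A := S K 4) grS (fun _ : κ => (0 : ℤ)) m := by
    rintro v ⟨_, h⟩ j
    rw [sub_zero]
    exact h j
  exact Submodule.finiteDimensional_of_le h2

theorem dm_eq (B : Finset (Fin 4 → K)) (p : ℕ) (m : ℤ) :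
    dm51 B p m = Module.finrank K (pg (LogA (S K 4) B p) m) := by
  unfold dm51
  have : (Hm grS (fun _ : (Fin p → Fin 4) => 0) m ⊓
    (LogA (S K 4) B p).restrictScalars K : Submodule K ((Fin p → Fin 4) → S K 4)) =
      pg (LogA (S K 4) B p) m := by
    ext a
    rw [Submodule.mem_inf, mem_pg]
    constructor
    · rintro ⟨h1, h2⟩
      refine ⟨h2, fun w => ?_⟩
      have := h1 w
      rwa [sub_zero] at this
    · rintro ⟨h1, h2⟩
      refine ⟨fun w => ?_, h1⟩
      show a w ∈ grS (K := K) (ℓ := 4) (m - 0)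
      rw [sub_zero]
      exact h2 w
  rw [this]

/-- finite dimensions and bijections -/
theorem fr_eq {E F : Type*} [AddCommGroup E] [Module K E] [AddCommGroup F] [Module K F]
    (f : E →ₗ[K] F) (P : Submodule K E) (Q : Submodule K F) (h1 : ∀ x ∈ P, f x ∈ Q)
    (h2 : ∀ x ∈ P, f x = 0 → x = 0) (h3 : ∀ y ∈ Q, ∃ x ∈ P, f x = y) :
    Module.finrank K P = Module.finrank K Q := by
  refine (LinearEquiv.ofBijective (f.restrict h1) ⟨?_, ?_⟩).finrank_eq
  · rw [injective_iff_map_eq_zero]
    rintro ⟨x, hx⟩ h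
    exact Subtype.ext (h2 x hx (congrArg Subtype.val h))
  · rintro ⟨y, hy⟩
    obtain ⟨x, hx, rfl⟩ := h3 y hy
    exact ⟨⟨x, hx⟩, rfl⟩

/-- the arrays killed by `b0` -/
noncomputable def ZZ (b0 : Fin 4 → K) (B : Finset (Fin 4 → K)) :
    (p : ℕ) → Submodule (S K 4) ((Fin p → Fin 4) → S K 4)
  | 0 => LogA (S K 4) B 0
  | p + 1 => LogA (S K 4) B (p + 1) ⊓ LinearMap.ker (con (cb b0))

theorem ZZ_le (b0 : Fin 4 → K) (B : Finset (Fin 4 → K)) (p : ℕ) :
    ZZ b0 B p ≤ LogA (S K 4) B p := by
  cases p with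
  | zero => exact le_rfl
  | succ p => exact inf_le_left

theorem lin_eq (b : Fin 4 → K) : ∑ i, C (b i) * (X i : S K 4) = lin b := rfl

theorem wedge_ZZ (b0 : Fin 4 → K) (B : Finset (Fin 4 → K)) (p : ℕ)
    (a : (Fin p → Fin 4) → S K 4) (ha : a ∈ ZZ b0 B p) :
    con (cb b0) (wedge (fun i => (X i : S K 4)) a) = lin b0 • a := by
  cases p with
  | zero =>
    rw [wedge0]
    rfl
  | succ p =>
    rw [con_wedge]
    have h1 : con (cb b0) a = 0 := ha.2
    have h0 : wedge (fun i => (X i : S K 4)) (0 : (Fin p → Fin 4) → S K 4) = 0 := by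
      funext w
      simp [wedge]
    rw [h1, h0, sub_zero]
    rfl

theorem wedge_log (B : Finset (Fin 4 → K)) (p : ℕ)
    (a : (Fin p → Fin 4) → S K 4) (ha : a ∈ LogA (S K 4) B p) :
    wedge (fun i => (X i : S K 4)) a ∈ LogA (S K 4) B (p + 1) := by
  refine wedge_mem (fun b _ => ?_) ha
  exact dvd_rfl

theorem wedge_gr (p : ℕ) (a : (Fin p → Fin 4) → S K 4) (m : ℤ)
    (ha : ∀ w, a w ∈ grS (K := K) (ℓ := 4) (m - 1)) (w : Fin (p + 1) → Fin 4) :
    wedge (fun i => (X i : S K 4)) a w ∈ grS (K := K) (ℓ := 4) m := by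
  unfold wedge
  refine Submodule.sum_mem _ fun j _ => ?_
  have h1 : (X (w j) : S K 4) ∈ grS (K := K) (ℓ := 4) 1 :=
    grS_of_hom51 (n := 1) (isHomogeneous_X _ _)
  have h2 := grS_mul51 h1 (ha (j.removeNth w))
  have e : (1 : ℤ) + (m - 1) = m := by ring
  rw [e] at h2
  have h3 : ((-1 : S K 4)) ^ (j : ℕ) = C ((-1 : K) ^ (j : ℕ)) := by
    rw [C_pow, C_neg, C_1]
  rw [h3]
  exact C_mul_grS51 _ h2

/-- the splitting -/
theorem split (b0 : Fin 4 → K) (B : Finset (Fin 4 → K)) (hB : Tame.Norm B) (hb0 : b0 ∈ B) (p : ℕ)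
    (m : ℤ) :
    dm51 B (p + 1) m = Module.finrank K (pg (ZZ b0 B (p + 1)) m) +
      Module.finrank K (pg (ZZ b0 B p) (m - 1)) := by
  have hl0 : lin b0 ≠ 0 := Pair.lin_ne_zero (hB.ne b0 hb0)
  set φ : ((Fin (p + 1) → Fin 4) → S K 4) →ₗ[K] ((Fin p → Fin 4) → S K 4) :=
    (con (cb b0)).restrictScalars K with hφ
  have h1 := Top.finrank_map_add φ (pg (LogA (S K 4) B (p + 1)) m)
  have h2 : pg (LogA (S K 4) B (p + 1)) m ⊓ LinearMap.ker φ = pg (ZZ b0 B (p + 1)) m := by
    ext a
    constructor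
    · rintro ⟨⟨h3, h4⟩, h5⟩
      exact ⟨⟨h3, h5⟩, h4⟩
    · rintro ⟨⟨h3, h5⟩, h4⟩
      exact ⟨⟨h3, h4⟩, h5⟩
  set μ : ((Fin p → Fin 4) → S K 4) →ₗ[K] ((Fin p → Fin 4) → S K 4) :=
    { toFun := fun a => lin b0 • a
      map_add' := fun a a' => smul_add _ _ _
      map_smul' := fun c a => by
        funext w
        simp only [Pi.smul_apply, smul_eq_mul, RingHom.id_apply, smul_eq_C_mul]
        ring } with hμ
  have h3 : (pg (LogA (S K 4) B (p + 1)) m).map φ = (pg (ZZ b0 B p) (m - 1)).map μ := by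
    apply le_antisymm
    · rintro _ ⟨a, ⟨ha, hm⟩, rfl⟩
      have haA := (Trans.mem_logA.1 ha).1
      have hd : ∀ w, lin b0 ∣ con (cb b0) a w :=
        con_dvd a (cb b0) (lin b0) ((Trans.mem_logA.1 ha).2 b0 hb0)
      choose a' ha' using hd
      have hc : con (cb b0) a = lin b0 • a' := by
        funext w
        rw [ha' w]
        rfl
      have hcA := Pair.isAlt_con (cb b0) a haA
      have hA' : IsAlt a' := by
        constructor
        · intro w hw
          have := hcA.nz w hw
          rw [ha' w] at this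
          exact (mul_eq_zero.1 this).resolve_left hl0
        · intro w i j hij
          have := hcA.sw w i j hij
          rw [ha' w, ha' _, ← mul_neg] at this
          exact mul_left_cancel₀ hl0 this
      have hz : ∀ q : ℕ, ∀ (hq : p = q + 1), con (cb b0) (hq ▸ a' : (Fin (q + 1) → Fin 4) → S K 4) = 0 := by
        intro q hq
        subst hq
        have h5 := con_con (cb b0) a haA
        rw [hc, map_smul] at h5
        funext w
        have h6 := congrFun h5 w
        exact (mul_eq_zero.1 h6).resolve_left hl0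
      have hlog : a' ∈ LogA (S K 4) B p := by
        refine Trans.mem_logA.2 ⟨hA', fun b hb w j => ?_⟩
        by_cases hbb : b = b0
        · subst hbb
          obtain ⟨q, rfl⟩ : ∃ q, p = q + 1 := ⟨p - 1, by have := j.2; omega⟩
          have h5 := hz q rfl
          refine upd_dvd a' hA' (cb b) (lin b) (fun w => ?_) w j
          have h6 : con (cb b) a' w = 0 := congrFun h5 w
          rw [h6]
          exact dvd_zero _
        · have h5 : lin b ∣ lin b0 * ∑ x, C (b x) * a' (Function.update w j x) := by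
            have h6 : lin b0 * ∑ x, C (b x) * a' (Function.update w j x) =
                ∑ i, C (b0 i) * ∑ x, C (b x) *
                  a (Function.update (Fin.cons i w : Fin (p + 1) → Fin 4) j.succ x) := by
              rw [Finset.mul_sum]
              have h7 : ∀ x, lin b0 * (C (b x) * a' (Function.update w j x)) =
                  C (b x) * ∑ i, C (b0 i) * a (Fin.cons i (Function.update w j x)) := by
                intro x
                have h8 : con (cb b0) a (Function.update w j x) =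
                  ∑ i, C (b0 i) * a (Fin.cons i (Function.update w j x)) := rfl
                rw [← h8, ha']
                ring
              simp only [h7, Finset.mul_sum]
              rw [Finset.sum_comm]
              refine Finset.sum_congr rfl fun i _ => Finset.sum_congr rfl fun x _ => ?_
              rw [Fin.cons_update]
              ring
            rw [h6]
            exact Finset.dvd_sum fun i _ => Dvd.dvd.mul_left ((Trans.mem_logA.1 ha).2 b hb _ _) _
          rcases (Pair.lin_prime (hB.ne b hb)).dvd_or_dvd h5 with h6 | h6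
          · exfalso
            obtain ⟨c, hcc⟩ := Pair.lin_dvd_lin (hB.ne b hb) h6
            exact hB.ind b hb b0 hb0 hbb c hcc
          · exact h6
      have hgr : ∀ w, a' w ∈ grS (K := K) (ℓ := 4) (m - 1) := by
        intro w
        refine grS_div51 hl0 (lin_grS51 b0) ?_
        rw [← ha' w]
        show ∑ i, C (b0 i) * a (Fin.cons i w) ∈ _
        exact Submodule.sum_mem _ fun i _ => C_mul_grS51 _ (hm _)
      refine ⟨a', ⟨?_, hgr⟩, ?_⟩
      · cases p with
        | zero => exact hlog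
        | succ q => exact ⟨hlog, hz q rfl⟩
      · exact hc.symm
    · rintro _ ⟨a, ⟨ha, hm⟩, rfl⟩
      refine ⟨wedge (fun i => (X i : S K 4)) a, ⟨wedge_log B p a (ZZ_le b0 B p ha),
        fun w => wedge_gr p a m hm w⟩, ?_⟩
      exact wedge_ZZ b0 B p a ha
  have h4 : Module.finrank K ((pg (ZZ b0 B p) (m - 1)).map μ) =
      Module.finrank K (pg (ZZ b0 B p) (m - 1)) := by
    refine (fr_eq μ _ _ (fun x hx => Submodule.mem_map_of_mem hx) (fun x hx h => ?_)
      (fun y hy => ?_)).symm
    · funext w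
      have := congrFun h w
      exact (mul_eq_zero.1 this).resolve_left hl0
    · obtain ⟨x, hx, rfl⟩ := hy
      exact ⟨x, hx, rfl⟩
  rw [dm_eq, ← h1, h2, h3, h4, add_comm]

end LG

end Pool.Agent.Lib.MP_fe1391_co.Quad51.Tra22
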