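import Pool.Agent.Lib.MP_fe1391_co.Quad51.TraA22

/-!
# From arrangements to data: arrays in three variables
-/

set_option autoImplicit false

namespace Pool.Agent.Lib.MP_fe1391_co.Quad51.Tra22

open MvPolynomial Pool.Agent.Lib.MP_fe1391_co.Tame Pool.Agent.Lib.MP_fe1391_co.Tame.Htpy
open Pool.Agent.Lib.MP_fe1391_co.Thick51

universe u

variable {K : Type u} [Field K]

/-- the restricted covector -/
noncomputable def al (b0 : Fin 4 → K) (i0 : Fin 4) (b : Fin 4 → K) : Fin 3 → K :=
  fun j => b (i0.succAbove j) - b i0 * (b0 (i0.succAbove j) / b0 i0)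

/-- the coordinate functions in the basis of the kernel of `b0` -/
noncomputable def uu (b0 : Fin 4 → K) (i0 : Fin 4) : Fin 4 → (Fin 3 → S K 4) :=
  i0.insertNth (α := fun _ => Fin 3 → S K 4)
    (fun j => C (-(b0 (i0.succAbove j) / b0 i0))) (fun j' => Pi.single j' 1)

theorem uu_same (b0 : Fin 4 → K) (i0 : Fin 4) :
    uu b0 i0 i0 = fun j => C (-(b0 (i0.succAbove j) / b0 i0)) := by
  unfold uu
  rw [Fin.insertNth_apply_same]

theorem uu_succ (b0 : Fin 4 → K) (i0 : Fin 4) (j' : Fin 3) :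
    uu b0 i0 (i0.succAbove j') = Pi.single j' 1 := by
  unfold uu
  rw [Fin.insertNth_apply_succAbove]

theorem sum_uu (b0 : Fin 4 → K) (i0 : Fin 4) (b : Fin 4 → K) :
    ∑ i, cb b i • uu b0 i0 i = fun j => C (al b0 i0 b j) := by
  rw [Fin.sum_univ_succAbove _ i0, uu_same]
  funext j
  rw [Pi.add_apply, Finset.sum_apply]
  simp only [uu_succ, Pi.smul_apply, smul_eq_mul]
  rw [Finset.sum_eq_single j]
  · rw [Pi.single_eq_same, mul_one]
    unfold cb al
    rw [← C_mul, ← C_add]
    congr 1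
    ring
  · intro x _ hx
    rw [Pi.single_eq_of_ne hx.symm, mul_zero]
  · intro h
    exact absurd (Finset.mem_univ _) h

theorem al_self {b0 : Fin 4 → K} {i0 : Fin 4} (h0 : b0 i0 ≠ 0) : al b0 i0 b0 = 0 := by
  funext j
  unfold al
  rw [mul_div_cancel₀ _ h0, sub_self]
  rfl

theorem al_ne {b0 : Fin 4 → K} {i0 : Fin 4} (h0 : b0 i0 ≠ 0) {b : Fin 4 → K}
    (hb : ∀ c : K, b ≠ c • b0) : al b0 i0 b ≠ 0 := by
  intro h
  apply hb (b i0 / b0 i0)
  funext i
  rcases eq_or_ne i i0 with rfl | hi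
  · rw [Pi.smul_apply, smul_eq_mul, div_mul_cancel₀ _ h0]
  · obtain ⟨j, rfl⟩ := Fin.exists_succAbove_eq hi
    have := congrFun h j
    unfold al at this
    rw [Pi.zero_apply, sub_eq_zero] at this
    rw [this, Pi.smul_apply, smul_eq_mul]
    field_simp

/-- arrays obtained from alternating maps at arbitrary vectors -/
theorem isAlt_at {A : Type*} [CommRing A] {n n' p : ℕ} (Φ : (Fin n → A) [⋀^Fin p]→ₗ[A] A)
    (z : Fin n' → Fin n → A) : IsAlt (fun w : Fin p → Fin n' => Φ (fun k => z (w k))) := by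
  constructor
  · intro w hw
    rw [Function.not_injective_iff] at hw
    obtain ⟨i, j, h, hij⟩ := hw
    exact Φ.map_eq_zero_of_eq _ (by simp only [h]) hij
  · intro w i j hij
    exact Φ.map_swap (fun k => z (w k)) hij

/-- restriction of indices -/
def rr (K : Type u) [Field K] (i0 : Fin 4) (p : ℕ) :
    ((Fin p → Fin 4) → S K 4) →ₗ[K] ((Fin p → Fin 3) → S K 4) where
  toFun a := fun w => a (fun k => i0.succAbove (w k))
  map_add' _ _ := rfl
  map_smul' _ _ := rfl

/-- extension -/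
noncomputable def ext (b0 : Fin 4 → K) (i0 : Fin 4) {p : ℕ} (a : (Fin p → Fin 3) → S K 4)
    (ha : IsAlt a) : (Fin p → Fin 4) → S K 4 :=
  fun w => amap a ha (fun k => uu b0 i0 (w k))

theorem rr_ext (b0 : Fin 4 → K) (i0 : Fin 4) {p : ℕ} (a : (Fin p → Fin 3) → S K 4)
    (ha : IsAlt a) : rr K i0 p (ext b0 i0 a ha) = a := by
  funext w
  change amap a ha (fun k => uu b0 i0 (i0.succAbove (w k))) = a w
  simp only [uu_succ]
  exact amap_basis a ha w

theorem con_ext (b0 : Fin 4 → K) (i0 : Fin 4) (b : Fin 4 → K) {p : ℕ}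
    (a : (Fin (p + 1) → Fin 3) → S K 4) (ha : IsAlt a) (w : Fin p → Fin 4) :
    con (cb b) (ext b0 i0 a ha) w =
      amap (con (cb (al b0 i0 b)) a) (Pair.isAlt_con _ a ha) (fun k => uu b0 i0 (w k)) := by
  rw [← amap_cons a ha]
  have h1 : ∀ v : Fin 3 → S K 4, (Fin.cons v (fun k => uu b0 i0 (w k)) :
      Fin (p + 1) → Fin 3 → S K 4) =
      Function.update (Fin.cons 0 (fun k => uu b0 i0 (w k))) 0 v := by
    intro v
    rw [Fin.update_cons_zero]
  change ∑ i, cb b i * amap a ha (fun k => uu b0 i0 ((Fin.cons i w : Fin (p + 1) → Fin 4) k)) = _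
  have h2 : ∀ i, (fun k => uu b0 i0 ((Fin.cons i w : Fin (p + 1) → Fin 4) k)) =
      Function.update (Fin.cons 0 (fun k => uu b0 i0 (w k))) 0 (uu b0 i0 i) := by
    intro i
    rw [← h1]
    funext k
    refine Fin.cases ?_ (fun k' => ?_) k
    · rw [Fin.cons_zero, Fin.cons_zero]
    · rw [Fin.cons_succ, Fin.cons_succ]
  simp only [h2]
  have h3 : (cb (al b0 i0 b) : Fin 3 → S K 4) = ∑ i, cb b i • uu b0 i0 i := by
    rw [sum_uu]
    rfl
  rw [h3, h1 (∑ i, cb b i • uu b0 i0 i), AlternatingMap.map_update_sum]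
  refine Finset.sum_congr rfl fun i _ => ?_
  rw [AlternatingMap.map_update_smul, smul_eq_mul]

theorem amap_dvd {p : ℕ} (a : (Fin p → Fin 3) → S K 4) (ha : IsAlt a) (c : S K 4)
    (h : ∀ w, c ∣ a w) (z : Fin p → Fin 3 → S K 4) : c ∣ amap a ha z := by
  rw [amap_apply]
  exact Finset.dvd_sum fun w _ => Dvd.dvd.mul_right (h w) _

theorem amap_zero {p : ℕ} (a : (Fin p → Fin 3) → S K 4) (ha : IsAlt a)
    (h : a = 0) (z : Fin p → Fin 3 → S K 4) : amap a ha z = 0 := by
  rw [amap_apply]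
  refine Finset.sum_eq_zero fun w _ => ?_
  rw [h, Pi.zero_apply, zero_mul]

theorem ext_gr (b0 : Fin 4 → K) (i0 : Fin 4) {p : ℕ} (a : (Fin p → Fin 3) → S K 4)
    (ha : IsAlt a) {m : ℤ} (hm : ∀ w, a w ∈ grS (K := K) (ℓ := 4) m) (w : Fin p → Fin 4) :
    ext b0 i0 a ha w ∈ grS (K := K) (ℓ := 4) m := by
  unfold ext
  rw [amap_apply]
  refine Submodule.sum_mem _ fun w' _ => ?_
  have h1 : ∃ c : K, ∏ k, uu b0 i0 (w k) (w' k) = C c := by
    have h2 : ∀ k, ∃ c : K, uu b0 i0 (w k) (w' k) = C c := by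
      intro k
      rcases eq_or_ne (w k) i0 with h | h
      · rw [h, uu_same]
        exact ⟨_, rfl⟩
      · obtain ⟨j, hj⟩ := Fin.exists_succAbove_eq h
        rw [← hj, uu_succ]
        by_cases hjw : w' k = j
        · rw [hjw, Pi.single_eq_same]
          exact ⟨1, C_1.symm⟩
        · rw [Pi.single_eq_of_ne hjw]
          exact ⟨0, C_0.symm⟩
    choose c hc using h2
    refine ⟨∏ k, c k, ?_⟩
    rw [map_prod]
    exact Finset.prod_congr rfl fun k _ => hc k
  obtain ⟨c, hc⟩ := h1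
  rw [hc, mul_comm]
  exact C_mul_grS51 _ (hm _)

/-- an alternating array killed by `b0` is determined by its values away from `i0` -/
theorem rr_inj {b0 : Fin 4 → K} {i0 : Fin 4} (h0 : b0 i0 ≠ 0) {B : Finset (Fin 4 → K)} {p : ℕ}
    (a : (Fin p → Fin 4) → S K 4) (ha : a ∈ ZZ b0 B p) (h : rr K i0 p a = 0) : a = 0 := by
  have hA : IsAlt a := (Trans.mem_logA.1 (ZZ_le b0 B p ha)).1
  have key : ∀ w : Fin p → Fin 4, (∀ k, w k ≠ i0) → a w = 0 := by
    intro w hw
    have h1 : ∀ k, ∃ j, i0.succAbove j = w k := fun k => Fin.exists_succAbove_eq (hw k)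
    choose w' hw' using h1
    have h2 := congrFun h w'
    have h3 : (fun k => i0.succAbove (w' k)) = w := funext hw'
    change a (fun k => i0.succAbove (w' k)) = 0 at h2
    rw [h3] at h2
    exact h2
  funext w
  by_cases hw : Function.Injective w
  · by_cases hex : ∃ k, w k = i0
    · obtain ⟨k, hk⟩ := hex
      obtain ⟨q, rfl⟩ : ∃ q, p = q + 1 := ⟨p - 1, by have := k.2; omega⟩
      have hz : con (cb b0) a = 0 := ha.2
      have h1 : (0 : S K 4) ∣ ∑ x, cb b0 x * a (Function.update w k x) :=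
        upd_dvd a hA (cb b0) 0 (fun w => by rw [hz]; exact dvd_zero _) w k
      rw [zero_dvd_iff, Fin.sum_univ_succAbove _ i0] at h1
      have h2 : ∀ j, a (Function.update w k (i0.succAbove j)) = 0 := by
        intro j
        apply key
        intro k'
        rcases eq_or_ne k' k with rfl | hkk
        · rw [Function.update_self]
          exact Fin.succAbove_ne i0 j
        · rw [Function.update_of_ne hkk]
          intro h3
          exact hkk (hw (h3.trans hk.symm))
      simp only [h2, mul_zero, Finset.sum_const_zero, add_zero] at h1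
      have h3 : Function.update w k i0 = w := by
        rw [← hk, Function.update_eq_self]
      rw [h3] at h1
      have h4 : (cb b0 i0 : S K 4) ≠ 0 := by
        unfold cb
        rw [Ne, C_eq_zero]
        exact h0
      exact (mul_eq_zero.1 h1).resolve_left h4
    · push Not at hex
      exact key w hex
  · exact hA.nz w hw

/-- the restriction of a logarithmic array killed by `b0` is logarithmic -/
theorem rr_log {b0 : Fin 4 → K} {i0 : Fin 4} (h0 : b0 i0 ≠ 0) {B : Finset (Fin 4 → K)} {p : ℕ}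
    (a : (Fin p → Fin 4) → S K 4) (ha : a ∈ ZZ b0 B p) : rr K i0 p a ∈ LG (al b0 i0) B p := by
  have hA : IsAlt a := (Trans.mem_logA.1 (ZZ_le b0 B p ha)).1
  refine ⟨⟨fun w hw => ?_, fun w i j hij => ?_⟩, fun b hb w j => ?_⟩
  · refine hA.nz _ fun h => hw fun x y hxy => h ?_
    show i0.succAbove (w x) = i0.succAbove (w y)
    rw [hxy]
  · exact hA.sw (fun k => i0.succAbove (w k)) i j hij
  · obtain ⟨q, rfl⟩ : ∃ q, p = q + 1 := ⟨p - 1, by have := j.2; omega⟩
    have hz : con (cb b0) a = 0 := ha.2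
    set w' : Fin (q + 1) → Fin 4 := fun k => i0.succAbove (w k) with hw'
    have h1 : (0 : S K 4) ∣ ∑ x, cb b0 x * a (Function.update w' j x) :=
      upd_dvd a hA (cb b0) 0 (fun w => by rw [hz]; exact dvd_zero _) w' j
    rw [zero_dvd_iff, Fin.sum_univ_succAbove _ i0] at h1
    have h2 := (Trans.mem_logA.1 ha.1).2 b hb w' j
    rw [Fin.sum_univ_succAbove _ i0] at h2
    have h3 : ∀ x : Fin 3, rr K i0 (q + 1) a (Function.update w j x) =
        a (Function.update w' j (i0.succAbove x)) := by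
      intro x
      change a (fun k => i0.succAbove (Function.update w j x k)) = _
      congr 1
      funext k
      rcases eq_or_ne k j with rfl | hkj
      · rw [Function.update_self, Function.update_self]
      · rw [Function.update_of_ne hkj, Function.update_of_ne hkj]
    simp only [h3]
    have h4 : ∑ x, C (al b0 i0 b x) * a (Function.update w' j (i0.succAbove x)) =
        (C (b i0) * a (Function.update w' j i0) +
          ∑ x, C (b (i0.succAbove x)) * a (Function.update w' j (i0.succAbove x))) -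
        C (b i0 / b0 i0) * (cb b0 i0 * a (Function.update w' j i0) +
          ∑ x, cb b0 (i0.succAbove x) * a (Function.update w' j (i0.succAbove x))) := by
      have e1 : (C (b i0 / b0 i0) : S K 4) * cb b0 i0 = C (b i0) := by
        unfold cb
        rw [← C_mul, div_mul_cancel₀ _ h0]
      rw [mul_add, ← mul_assoc, e1, add_sub_add_left_eq_sub, Finset.mul_sum,
        ← Finset.sum_sub_distrib]
      refine Finset.sum_congr rfl fun x _ => ?_
      have e2 : (C (al b0 i0 b x) : S K 4) = C (b (i0.succAbove x)) -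
          C (b i0 / b0 i0) * cb b0 (i0.succAbove x) := by
        unfold al cb
        rw [← C_mul, ← C_sub]
        congr 1
        ring
      rw [e2]
      ring
    rw [h4, h1, mul_zero, sub_zero]
    exact h2

theorem ext_mem {b0 : Fin 4 → K} {i0 : Fin 4} (h0 : b0 i0 ≠ 0) {B : Finset (Fin 4 → K)} {p : ℕ}
    (a : (Fin p → Fin 3) → S K 4) (ha : a ∈ LG (al b0 i0) B p) :
    ext b0 i0 a ha.1 ∈ ZZ b0 B p := by
  have hA : IsAlt (ext b0 i0 a ha.1) := isAlt_at (amap a ha.1) (uu b0 i0)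
  have hlog : ext b0 i0 a ha.1 ∈ LogA (S K 4) B p := by
    refine Trans.mem_logA.2 ⟨hA, fun b hb w j => ?_⟩
    obtain ⟨q, rfl⟩ : ∃ q, p = q + 1 := ⟨p - 1, by have := j.2; omega⟩
    refine upd_dvd _ hA (cb b) (lin b) (fun w => ?_) w j
    rw [con_ext]
    exact amap_dvd _ _ _ (con_dvd a (cb (al b0 i0 b)) (lin b) (ha.2 b hb)) _
  cases p with
  | zero => exact hlog
  | succ q =>
    refine ⟨hlog, ?_⟩
    show con (cb b0) (ext b0 i0 a ha.1) = 0
    funext w
    rw [con_ext, Pi.zero_apply]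
    apply amap_zero
    funext w'
    rw [al_self h0]
    change ∑ i, cb (0 : Fin 3 → K) i * a (Fin.cons i w') = 0
    refine Finset.sum_eq_zero fun i _ => ?_
    unfold cb
    rw [Pi.zero_apply, C_0, zero_mul]

/-- the dimension of the arrays killed by `b0` -/
theorem fr_ZZ {b0 : Fin 4 → K} {i0 : Fin 4} (h0 : b0 i0 ≠ 0) (B : Finset (Fin 4 → K)) (p : ℕ)
    (m : ℤ) : Module.finrank K (pg (ZZ b0 B p) m) = Module.finrank K (pg (LG (al b0 i0) B p) m) := by
  refine fr_eq (rr K i0 p) _ _ ?_ ?_ ?_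
  · rintro a ⟨ha, hm⟩
    exact ⟨rr_log h0 a ha, fun w => hm _⟩
  · rintro a ⟨ha, hm⟩ h
    exact rr_inj h0 a ha h
  · rintro a ⟨ha, hm⟩
    exact ⟨ext b0 i0 a ha.1, ⟨ext_mem h0 a ha, ext_gr b0 i0 a ha.1 hm⟩, rr_ext b0 i0 a ha.1⟩

end Pool.Agent.Lib.MP_fe1391_co.Quad51.Tra22
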