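import Pool.Agent.Lib.MP_fe1391_co.Quad51.TraB22

/-!
# From arrangements to data: the four kinds of arrays, and the series
-/

set_option autoImplicit false

namespace Pool.Agent.Lib.MP_fe1391_co.Quad51.Tra22

open MvPolynomial Matrix Pool.Agent.Lib.MP_fe1391_co.Tame Pool.Agent.Lib.MP_fe1391_co.Tame.Htpy
open Pool.Agent.Lib.MP_fe1391_co.Thick51

universe u

variable {K : Type u} [Field K]

/-! ### The data -/

section Data

variable (B : Finset (Fin 4 → K)) (hB : Tame.Norm B) (b0 : Fin 4 → K) (hb0 : b0 ∈ B) (i0 : Fin 4)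
  (h0 : b0 i0 ≠ 0)

open scoped Classical in
/-- the other hyperplanes -/
noncomputable def Br : Finset (Fin 4 → K) := B.erase b0

/-- numbering -/
noncomputable def en : Fin (Br B b0).card → (Fin 4 → K) := fun i => ((Br B b0).equivFin.symm i).1

theorem en_mem (i : Fin (Br B b0).card) : en B b0 i ∈ Br B b0 := ((Br B b0).equivFin.symm i).2

theorem en_surj {b : Fin 4 → K} (hb : b ∈ Br B b0) : ∃ i, en B b0 i = b := by
  refine ⟨(Br B b0).equivFin ⟨b, hb⟩, ?_⟩
  unfold en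
  rw [Equiv.symm_apply_apply]

theorem en_inj : Function.Injective (en B b0) := by
  intro i j h
  exact (Br B b0).equivFin.symm.injective (Subtype.ext h)

theorem mem_Br {b : Fin 4 → K} : b ∈ Br B b0 ↔ b ≠ b0 ∧ b ∈ B := by
  classical
  unfold Br
  exact Finset.mem_erase

include hb0 in
theorem card_Br : B.card = (Br B b0).card + 1 := by
  classical
  unfold Br
  exact (Finset.card_erase_add_one hb0).symm

include hB in
theorem norm_Br : Tame.Norm (Br B b0) :=
  ⟨fun b hb => hB.ne b ((mem_Br B b0).1 hb).2, fun a ha b hb =>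
    hB.ind a ((mem_Br B b0).1 ha).2 b ((mem_Br B b0).1 hb).2⟩

/-- the data of the arrangement -/
noncomputable def dat : Dat K (Br B b0).card where
  a i := al b0 i0 (en B b0 i)
  β i := en B b0 i
  ha i := al_ne h0 (hB.ind b0 hb0 _ ((mem_Br B b0).1 (en_mem B b0 i)).2
    (Ne.symm ((mem_Br B b0).1 (en_mem B b0 i)).1))
  hβ i := (norm_Br B hB b0).ne _ (en_mem B b0 i)
  hne i j hij := (norm_Br B hB b0).ind _ (en_mem B b0 i) _ (en_mem B b0 j)
    fun h => hij (en_inj B b0 h)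

theorem mem_L1 (v : Fin 3 → S K 4) :
    v ∈ L1 (dat B hB b0 hb0 i0 h0) ↔ ∀ b ∈ Br B b0, lin b ∣ cv 4 (al b0 i0 b) ⬝ᵥ v := by
  constructor
  · intro h b hb
    obtain ⟨i, rfl⟩ := en_surj B b0 hb
    exact h i _ rfl
  · rintro h i φ hφ
    have : φ = al b0 i0 (en B b0 i) := hφ
    rw [this]
    exact h _ (en_mem B b0 i)

theorem mem_L2 (v : Fin 3 → S K 4) :
    v ∈ L2 (dat B hB b0 hb0 i0 h0) ↔ ∀ b ∈ Br B b0, ∀ φ : Fin 3 → K, φ ⬝ᵥ al b0 i0 b = 0 →
      lin b ∣ cv 4 φ ⬝ᵥ v := by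
  constructor
  · intro h b hb φ hφ
    obtain ⟨i, rfl⟩ := en_surj B b0 hb
    exact h i φ hφ
  · rintro h i φ hφ
    exact h _ (en_mem B b0 i) φ hφ

theorem Qd_dat : Qd (dat B hB b0 hb0 i0 h0) = Qof (Br B b0) := by
  unfold Qd Qof
  have h1 := (Br B b0).equivFin.symm.prod_comp (fun b : ↥(Br B b0) => lin b.1)
  rw [Finset.prod_coe_sort (Br B b0) (fun b => lin b)] at h1
  exact h1

end Data

/-! ### Arrays -/

theorem mem_LG {n : ℕ} {α : (Fin 4 → K) → (Fin n → K)} {B : Finset (Fin 4 → K)} {p : ℕ}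
    {a : (Fin p → Fin n) → S K 4} : a ∈ LG α B p ↔ IsAlt a ∧ ∀ b ∈ B, ∀ (w : Fin p → Fin n)
      (j : Fin p), lin b ∣ ∑ x, C (α b x) * a (Function.update w j x) := Iff.rfl

/-- the conditions at `b0` are void -/
theorem LG_Br {b0 : Fin 4 → K} {i0 : Fin 4} (h0 : b0 i0 ≠ 0) {B : Finset (Fin 4 → K)} {p : ℕ}
    {a : (Fin p → Fin 3) → S K 4} : a ∈ LG (al b0 i0) B p ↔ IsAlt a ∧ ∀ b ∈ Br B b0,
      ∀ (w : Fin p → Fin 3) (j : Fin p),
        lin b ∣ ∑ x, C (al b0 i0 b x) * a (Function.update w j x) := by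
  rw [mem_LG]
  refine and_congr_right fun _ => ⟨fun h b hb => h b ((mem_Br B b0).1 hb).2, fun h b hb w j => ?_⟩
  by_cases hbb : b = b0
  · rw [hbb, al_self h0]
    refine Finset.dvd_sum fun x _ => ?_
    rw [Pi.zero_apply, C_0, zero_mul]
    exact dvd_zero _
  · exact h b ((mem_Br B b0).2 ⟨hbb, hb⟩) w j

theorem hh_eq (N : Submodule (S K 4) (Fin 3 → S K 4)) (m : ℤ) :
    hh N m = (Module.finrank K (pg N m) : ℤ) := by
  unfold hh
  have : pc N m = pg N m := by
    ext v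
    exact ⟨fun h => ⟨h.2, h.1⟩, fun h => ⟨h.2, h.1⟩⟩
  rw [this]

theorem hh_neg (N : Submodule (S K 4) (Fin 3 → S K 4)) (m : ℤ) (hm : m < 0) : hh N m = 0 := by
  rw [hh_eq]
  have : pg N m = ⊥ := by
    rw [eq_bot_iff]
    rintro v ⟨_, h⟩
    rw [Submodule.mem_bot]
    funext j
    exact grS_neg51 hm (h j)
  rw [this, finrank_bot]
  rfl

/-- `p = 0` -/
theorem fr0 (b0 : Fin 4 → K) (B : Finset (Fin 4 → K)) (m : ℤ) :
    Module.finrank K (pg (ZZ b0 B 0) m) = Module.finrank K (grS (K := K) (ℓ := 4) m) := by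
  let f : S K 4 →ₗ[K] ((Fin 0 → Fin 4) → S K 4) :=
    { toFun := fun g _ => g
      map_add' := fun _ _ => rfl
      map_smul' := fun _ _ => rfl }
  symm
  refine fr_eq f _ _ ?_ ?_ ?_
  · intro g hg
    refine ⟨Trans.mem_logA.2 ⟨⟨fun w hw => ?_, fun w i => i.elim0⟩, fun b _ w j => j.elim0⟩,
      fun _ => hg⟩
    exact absurd (Function.injective_of_subsingleton w) hw
  · intro g _ h
    exact congrFun h Fin.elim0
  · rintro a ⟨_, ha⟩
    refine ⟨a Fin.elim0, ha _, ?_⟩
    funext w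
    show a Fin.elim0 = a w
    congr 1
    funext k
    exact k.elim0

/-- `p = 1` -/
theorem fr1 (B : Finset (Fin 4 → K)) (hB : Tame.Norm B) (b0 : Fin 4 → K) (hb0 : b0 ∈ B) (i0 : Fin 4)
    (h0 : b0 i0 ≠ 0) (m : ℤ) :
    (Module.finrank K (pg (LG (al b0 i0) B 1) m) : ℤ) = hh (L1 (dat B hB b0 hb0 i0 h0)) m := by
  rw [hh_eq]
  congr 1
  let f : (Fin 3 → S K 4) →ₗ[K] ((Fin 1 → Fin 3) → S K 4) :=
    { toFun := fun g w => g (w 0)
      map_add' := fun _ _ => rfl
      map_smul' := fun _ _ => rfl }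
  symm
  refine fr_eq f _ _ ?_ ?_ ?_
  · rintro v ⟨hv, hm⟩
    refine ⟨(LG_Br h0).2 ⟨⟨fun w hw => ?_, fun w i j hij => ?_⟩, fun b hb w j => ?_⟩, fun w => hm _⟩
    · exact absurd (Function.injective_of_subsingleton w) hw
    · exact absurd (Subsingleton.elim i j) hij
    · have h1 := (mem_L1 B hB b0 hb0 i0 h0 v).1 hv b hb
      have h2 : ∀ x, f v (Function.update w j x) = v x := by
        intro x
        change v (Function.update w j x 0) = v x
        rw [Subsingleton.elim j 0, Function.update_self]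
      simp only [h2]
      exact h1
  · rintro v _ h
    funext j
    exact congrFun h (fun _ => j)
  · rintro a ⟨ha, hm⟩
    have hfa : ∀ w : Fin 1 → Fin 3, w = fun _ => w 0 := fun w =>
      funext fun x => by rw [Subsingleton.elim x 0]
    refine ⟨fun j => a (fun _ => j), ⟨(mem_L1 B hB b0 hb0 i0 h0 _).2 fun b hb => ?_,
      fun j => hm _⟩, ?_⟩
    · have h1 := ((LG_Br h0).1 ha).2 b hb (fun _ => 0) 0
      have h2 : ∀ x, Function.update (fun _ : Fin 1 => (0 : Fin 3)) 0 x = fun _ => x := by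
        intro x
        funext k
        rw [Subsingleton.elim k 0, Function.update_self]
      simp only [h2] at h1
      exact h1
    · funext w
      change a (fun _ => w 0) = a w
      rw [← hfa w]

theorem three (x : Fin 3) : x = 0 ∨ x = 1 ∨ x = 2 := by
  fin_cases x
  · exact Or.inl rfl
  · exact Or.inr (Or.inl rfl)
  · exact Or.inr (Or.inr rfl)

/-- the skew matrix of a vector -/
noncomputable def sk (w : Fin 3 → S K 4) : Matrix (Fin 3) (Fin 3) (S K 4) :=
  !![0, w 2, -w 1; -w 2, 0, w 0; w 1, -w 0, 0]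

theorem sk12 (w : Fin 3 → S K 4) : sk w 1 2 = w 0 := rfl
theorem sk20 (w : Fin 3 → S K 4) : sk w 2 0 = w 1 := rfl
theorem sk01 (w : Fin 3 → S K 4) : sk w 0 1 = w 2 := rfl
theorem sk21 (w : Fin 3 → S K 4) : sk w 2 1 = - w 0 := rfl
theorem sk02 (w : Fin 3 → S K 4) : sk w 0 2 = - w 1 := rfl
theorem sk10 (w : Fin 3 → S K 4) : sk w 1 0 = - w 2 := rfl
theorem sk00 (w : Fin 3 → S K 4) : sk w 0 0 = 0 := rfl
theorem sk11 (w : Fin 3 → S K 4) : sk w 1 1 = 0 := rfl
theorem sk22 (w : Fin 3 → S K 4) : sk w 2 2 = 0 := rfl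

theorem sk_diag (w : Fin 3 → S K 4) (i : Fin 3) : sk w i i = 0 := by
  obtain rfl | rfl | rfl := three i
  · exact sk00 w
  · exact sk11 w
  · exact sk22 w

theorem sk_anti (w : Fin 3 → S K 4) (i j : Fin 3) : sk w i j = - sk w j i := by
  obtain rfl | rfl | rfl := three i <;> obtain rfl | rfl | rfl := three j
  · rw [sk00, neg_zero]
  · rw [sk01, sk10, neg_neg]
  · rw [sk02, sk20]
  · rw [sk01, sk10]
  · rw [sk11, neg_zero]
  · rw [sk12, sk21, neg_neg]
  · rw [sk02, sk20, neg_neg]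
  · rw [sk12, sk21]
  · rw [sk22, neg_zero]

theorem sk_add (g g' : Fin 3 → S K 4) (i j : Fin 3) :
    sk (g + g') i j = sk g i j + sk g' i j := by
  obtain rfl | rfl | rfl := three i <;> obtain rfl | rfl | rfl := three j
  · rw [sk00, sk00, sk00, add_zero]
  · rw [sk01, sk01, sk01, Pi.add_apply]
  · rw [sk02, sk02, sk02, Pi.add_apply, neg_add]
  · rw [sk10, sk10, sk10, Pi.add_apply, neg_add]
  · rw [sk11, sk11, sk11, add_zero]
  · rw [sk12, sk12, sk12, Pi.add_apply]
  · rw [sk20, sk20, sk20, Pi.add_apply]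
  · rw [sk21, sk21, sk21, Pi.add_apply, neg_add]
  · rw [sk22, sk22, sk22, add_zero]

theorem sk_smul (c : K) (g : Fin 3 → S K 4) (i j : Fin 3) :
    sk (c • g) i j = c • sk g i j := by
  obtain rfl | rfl | rfl := three i <;> obtain rfl | rfl | rfl := three j
  · rw [sk00, sk00, smul_zero]
  · rw [sk01, sk01, Pi.smul_apply]
  · rw [sk02, sk02, Pi.smul_apply, smul_neg]
  · rw [sk10, sk10, Pi.smul_apply, smul_neg]
  · rw [sk11, sk11, smul_zero]
  · rw [sk12, sk12, Pi.smul_apply]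
  · rw [sk20, sk20, Pi.smul_apply]
  · rw [sk21, sk21, Pi.smul_apply, smul_neg]
  · rw [sk22, sk22, smul_zero]

theorem sk_gr {m : ℤ} (g : Fin 3 → S K 4) (hm : ∀ k, g k ∈ grS (K := K) (ℓ := 4) m)
    (i j : Fin 3) : sk g i j ∈ grS (K := K) (ℓ := 4) m := by
  obtain rfl | rfl | rfl := three i <;> obtain rfl | rfl | rfl := three j
  · rw [sk00]
    exact Submodule.zero_mem _
  · rw [sk01]
    exact hm 2
  · rw [sk02]
    exact Submodule.neg_mem _ (hm 1)
  · rw [sk10]
    exact Submodule.neg_mem _ (hm 2)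
  · rw [sk11]
    exact Submodule.zero_mem _
  · rw [sk12]
    exact hm 0
  · rw [sk20]
    exact hm 1
  · rw [sk21]
    exact Submodule.neg_mem _ (hm 0)
  · rw [sk22]
    exact Submodule.zero_mem _

theorem skc0 (v : Fin 3 → K) (w : Fin 3 → S K 4) :
    ∑ x, C (v x) * sk w x 0 = C (v 2) * w 1 - C (v 1) * w 2 := by
  rw [Fin.sum_univ_three]
  show C (v 0) * 0 + C (v 1) * (-w 2) + C (v 2) * w 1 = _
  ring

theorem skc1 (v : Fin 3 → K) (w : Fin 3 → S K 4) :
    ∑ x, C (v x) * sk w x 1 = C (v 0) * w 2 - C (v 2) * w 0 := by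
  rw [Fin.sum_univ_three]
  show C (v 0) * w 2 + C (v 1) * 0 + C (v 2) * (-w 0) = _
  ring

theorem skc2 (v : Fin 3 → K) (w : Fin 3 → S K 4) :
    ∑ x, C (v x) * sk w x 2 = C (v 1) * w 0 - C (v 0) * w 1 := by
  rw [Fin.sum_univ_three]
  show C (v 0) * (-w 1) + C (v 1) * w 0 + C (v 2) * 0 = _
  ring

theorem dot3 (φ : Fin 3 → K) (w : Fin 3 → S K 4) :
    cv 4 φ ⬝ᵥ w = C (φ 0) * w 0 + C (φ 1) * w 1 + C (φ 2) * w 2 := by
  rw [dotProduct, Fin.sum_univ_three]
  rfl

theorem dot3K (φ v : Fin 3 → K) : φ ⬝ᵥ v = φ 0 * v 0 + φ 1 * v 1 + φ 2 * v 2 := by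
  rw [dotProduct, Fin.sum_univ_three]

/-- divisibility of a cross product -/
theorem cross_iff (c : S K 4) (v : Fin 3 → K) (hv : v ≠ 0) (w : Fin 3 → S K 4) :
    (∀ j, c ∣ ∑ x, C (v x) * sk w x j) ↔ ∀ φ : Fin 3 → K, φ ⬝ᵥ v = 0 → c ∣ cv 4 φ ⬝ᵥ w := by
  constructor
  · intro h φ hφ
    have h0 := h 0
    have h1 := h 1
    have h2 := h 2
    rw [skc0] at h0
    rw [skc1] at h1
    rw [skc2] at h2
    rw [dot3]
    have hφ' : (C (φ 0) * C (v 0) + C (φ 1) * C (v 1) + C (φ 2) * C (v 2) : S K 4) = 0 := by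
      rw [← C_mul, ← C_mul, ← C_mul, ← C_add, ← C_add, ← dot3K, hφ, C_0]
    obtain ⟨k, hk⟩ := Function.ne_iff.1 hv
    have hk' : IsUnit (C (v k) : S K 4) := (IsUnit.mk0 _ hk).map C
    rw [← hk'.dvd_mul_left]
    obtain ⟨q0, hq0⟩ := h0
    obtain ⟨q1, hq1⟩ := h1
    obtain ⟨q2, hq2⟩ := h2
    obtain rfl | rfl | rfl : k = 0 ∨ k = 1 ∨ k = 2 := by
      fin_cases k
      · exact Or.inl rfl
      · exact Or.inr (Or.inl rfl)
      · exact Or.inr (Or.inr rfl)
    · refine ⟨C (φ 1) * (-q2) + C (φ 2) * q1, ?_⟩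
      linear_combination (w 0) * hφ' - C (φ 1) * hq2 + C (φ 2) * hq1
    · refine ⟨C (φ 0) * q2 - C (φ 2) * q0, ?_⟩
      linear_combination (w 1) * hφ' + C (φ 0) * hq2 - C (φ 2) * hq0
    · refine ⟨- C (φ 0) * q1 + C (φ 1) * q0, ?_⟩
      linear_combination (w 2) * hφ' - C (φ 0) * hq1 + C (φ 1) * hq0
  · intro h j
    obtain rfl | rfl | rfl : j = 0 ∨ j = 1 ∨ j = 2 := by
      fin_cases j
      · exact Or.inl rfl
      · exact Or.inr (Or.inl rfl)
      · exact Or.inr (Or.inr rfl)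
    · have h1 := h ![0, v 2, -v 1] (by
        rw [dot3K]
        show 0 * v 0 + v 2 * v 1 + -v 1 * v 2 = 0
        ring)
      rw [skc0]
      rw [dot3] at h1
      convert h1 using 1
      show _ = C 0 * w 0 + C (v 2) * w 1 + C (-v 1) * w 2
      rw [C_0, C_neg]
      ring
    · have h1 := h ![-v 2, 0, v 0] (by
        rw [dot3K]
        show -v 2 * v 0 + 0 * v 1 + v 0 * v 2 = 0
        ring)
      rw [skc1]
      rw [dot3] at h1
      convert h1 using 1
      show _ = C (-v 2) * w 0 + C 0 * w 1 + C (v 0) * w 2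
      rw [C_0, C_neg]
      ring
    · have h1 := h ![v 1, -v 0, 0] (by
        rw [dot3K]
        show v 1 * v 0 + -v 0 * v 1 + 0 * v 2 = 0
        ring)
      rw [skc2]
      rw [dot3] at h1
      convert h1 using 1
      show _ = C (v 1) * w 0 + C (-v 0) * w 1 + C 0 * w 2
      rw [C_0, C_neg]
      ring

/-- `p = 2` -/
theorem fr2 (B : Finset (Fin 4 → K)) (hB : Tame.Norm B) (b0 : Fin 4 → K) (hb0 : b0 ∈ B) (i0 : Fin 4)
    (h0 : b0 i0 ≠ 0) (m : ℤ) :
    (Module.finrank K (pg (LG (al b0 i0) B 2) m) : ℤ) = hh (L2 (dat B hB b0 hb0 i0 h0)) m := by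
  rw [hh_eq]
  congr 1
  let f : (Fin 3 → S K 4) →ₗ[K] ((Fin 2 → Fin 3) → S K 4) :=
    { toFun := fun g w => sk g (w 0) (w 1)
      map_add' := fun g g' => funext fun w => sk_add g g' _ _
      map_smul' := fun c g => funext fun w => sk_smul c g _ _ }
  have hf : ∀ g w, f g w = sk g (w 0) (w 1) := fun _ _ => rfl
  have hfA : ∀ g, IsAlt (f g) := by
    intro g
    constructor
    · intro w hw
      rw [hf]
      have : w 0 = w 1 := by
        by_contra hne
        apply hw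
        intro x y hxy
        fin_cases x <;> fin_cases y
        · rfl
        · exact absurd hxy hne
        · exact absurd hxy.symm hne
        · rfl
      rw [this, sk_diag]
    · intro w i j hij
      rw [hf, hf]
      have e : w ∘ Equiv.swap i j = ![w 1, w 0] := by
        fin_cases i <;> fin_cases j
        · exact absurd rfl hij
        · funext k
          fin_cases k <;> simp
        · funext k
          fin_cases k <;> simp
        · exact absurd rfl hij
      rw [e]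
      exact sk_anti g (w 1) (w 0)
  have hcon : ∀ (b : Fin 4 → K) g (w : Fin 1 → Fin 3),
      con (cb (al b0 i0 b)) (f g) w = ∑ x, C (al b0 i0 b x) * sk g x (w 0) := fun _ _ _ => rfl
  symm
  refine fr_eq f _ _ ?_ ?_ ?_
  · rintro v ⟨hv, hm⟩
    refine ⟨(LG_Br h0).2 ⟨hfA v, fun b hb w j => ?_⟩, fun w => ?_⟩
    · refine upd_dvd (f v) (hfA v) (cb (al b0 i0 b)) (lin b) (fun z => ?_) w j
      rw [hcon]
      have hne : al b0 i0 b ≠ 0 := al_ne h0 (hB.ind b0 hb0 _ ((mem_Br B b0).1 hb).2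
        (Ne.symm ((mem_Br B b0).1 hb).1))
      exact (cross_iff (lin b) _ hne v).2 ((mem_L2 B hB b0 hb0 i0 h0 v).1 hv b hb) (z 0)
    · rw [hf]
      exact sk_gr v hm _ _
  · rintro v _ h
    have e0 : sk v 1 2 = 0 := congrFun h ![1, 2]
    have e1 : sk v 2 0 = 0 := congrFun h ![2, 0]
    have e2 : sk v 0 1 = 0 := congrFun h ![0, 1]
    funext k
    fin_cases k
    · rw [sk12] at e0
      exact e0
    · rw [sk20] at e1
      exact e1
    · rw [sk01] at e2
      exact e2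
  · rintro a ⟨ha, hm⟩
    have hA := ((LG_Br h0).1 ha).1
    have hfa : f ![a ![1, 2], a ![2, 0], a ![0, 1]] = a := by
      funext w
      rw [hf]
      have hw : w = ![w 0, w 1] := by
        funext k
        fin_cases k <;> rfl
      have hsw : ∀ x y : Fin 3, a ![y, x] = - a ![x, y] := by
        intro x y
        have := hA.sw ![x, y] 0 1 (by decide)
        have e : (![x, y] : Fin 2 → Fin 3) ∘ Equiv.swap 0 1 = ![y, x] := by
          funext k
          fin_cases k <;> simp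
        rw [e] at this
        exact this
      have hdg : ∀ x : Fin 3, a ![x, x] = 0 := by
        intro x
        apply hA.nz
        intro hi
        have := @hi 0 1 (by simp)
        exact absurd this (by decide)
      set g : Fin 3 → S K 4 := ![a ![1, 2], a ![2, 0], a ![0, 1]] with hg
      have g0 : g 0 = a ![1, 2] := rfl
      have g1 : g 1 = a ![2, 0] := rfl
      have g2 : g 2 = a ![0, 1] := rfl
      have key : ∀ x y : Fin 3, sk g x y = a ![x, y] := by
        intro x y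
        obtain rfl | rfl | rfl : x = 0 ∨ x = 1 ∨ x = 2 := three x
        · obtain rfl | rfl | rfl : y = 0 ∨ y = 1 ∨ y = 2 := three y
          · rw [sk_diag, hdg]
          · rw [sk01, g2]
          · rw [sk_anti, sk20, g1, hsw 2 0]
        · obtain rfl | rfl | rfl : y = 0 ∨ y = 1 ∨ y = 2 := three y
          · rw [sk_anti, sk01, g2, hsw 0 1]
          · rw [sk_diag, hdg]
          · rw [sk12, g0]
        · obtain rfl | rfl | rfl : y = 0 ∨ y = 1 ∨ y = 2 := three y
          · rw [sk20, g1]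
          · rw [sk_anti, sk12, g0, hsw 1 2]
          · rw [sk_diag, hdg]
      rw [key, ← hw]
    refine ⟨![a ![1, 2], a ![2, 0], a ![0, 1]], ⟨?_, fun k => ?_⟩, hfa⟩
    · rw [mem_L2]
      intro b hb
      have hne : al b0 i0 b ≠ 0 := al_ne h0 (hB.ind b0 hb0 _ ((mem_Br B b0).1 hb).2
        (Ne.symm ((mem_Br B b0).1 hb).1))
      rw [← cross_iff (lin b) _ hne]
      intro j
      have h1 := con_dvd (n := 2) a (cb (al b0 i0 b)) (lin b) (((LG_Br h0).1 ha).2 b hb) (fun _ => j)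
      rw [← hfa, hcon] at h1
      exact h1
    · fin_cases k
      · exact hm _
      · exact hm _
      · exact hm _

end Pool.Agent.Lib.MP_fe1391_co.Quad51.Tra22
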