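import Pool.Agent.Lib.MP_fe1391_co.Quad51.TraC22

/-!
# From arrangements to data: the top arrays, and the series
-/

set_option autoImplicit false

namespace Pool.Agent.Lib.MP_fe1391_co.Quad51.Tra22

open MvPolynomial Matrix Pool.Agent.Lib.MP_fe1391_co.Tame Pool.Agent.Lib.MP_fe1391_co.Tame.Htpy
open Pool.Agent.Lib.MP_fe1391_co.Thick51

universe u

variable {K : Type u} [Field K]

/-- alternating arrays of top degree -/
theorem top_arr {A : Type*} [CommRing A] (a : (Fin 3 → Fin 3) → A) (ha : IsAlt a)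
    (w : Fin 3 → Fin 3) : a w = a id * Pair.vol A 3 w := by
  have h1 := AlternatingMap.eq_smul_basis_det (Pi.basisFun A (Fin 3)) (amap a ha)
  have h2 : (amap a ha) (Pi.basisFun A (Fin 3)) = a id := by
    rw [← amap_basis a ha id]
    congr 1
    funext k
    rw [Pi.basisFun_apply]
    rfl
  rw [h2, Pi.basisFun_det] at h1
  rw [← amap_basis a ha w, h1, AlternatingMap.smul_apply, smul_eq_mul]
  rfl

theorem vol_C (w : Fin 3 → Fin 3) : ∃ c : K, Pair.vol (S K 4) 3 w = C c := by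
  refine ⟨Pair.vol K 3 w, ?_⟩
  unfold Pair.vol
  change Matrix.det _ = C (Matrix.det _)
  rw [RingHom.map_det]
  congr 1
  refine Matrix.ext fun i j => ?_
  rw [RingHom.mapMatrix_apply, Matrix.map_apply]
  change (Pi.single (w i) 1 : Fin 3 → S K 4) j = C ((Pi.single (w i) 1 : Fin 3 → K) j)
  rw [Pi.single_apply, Pi.single_apply]
  split_ifs
  · exact C_1.symm
  · exact C_0.symm

/-- divisibility of the top arrays -/
theorem top_iff (c : S K 4) (v : Fin 3 → K) (hv : v ≠ 0) (g : S K 4) :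
    (∀ w : Fin 2 → Fin 3, c ∣ con (cb v) (fun w => g * Pair.vol (S K 4) 3 w) w) ↔ c ∣ g := by
  constructor
  · intro h
    obtain ⟨k, hk⟩ := Function.ne_iff.1 hv
    have hk' : IsUnit (C (v k) : S K 4) := (IsUnit.mk0 _ hk).map C
    rw [← hk'.dvd_mul_left]
    have h1 := Pair.F_con (A := S K 4) (ℓ := 2) (Pi.single k 1) (cb v)
    have h2 : ∑ i, cb v i * (Pi.single k 1 : Fin 3 → S K 4) i = C (v k) := by
      rw [Finset.sum_eq_single k]
      · rw [Pi.single_eq_same, mul_one]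
        rfl
      · intro x _ hx
        rw [Pi.single_eq_of_ne hx, mul_zero]
      · intro h
        exact absurd (Finset.mem_univ _) h
    rw [h2, Pair.F_apply] at h1
    rw [← h1, Finset.sum_mul]
    refine Finset.dvd_sum fun j _ => ?_
    have h3 : con (cb v) (fun w => g * Pair.vol (S K 4) 3 w) j.succAbove =
        g * con (cb v) (Pair.vol (S K 4) 3) j.succAbove := by
      change ∑ i, cb v i * (g * Pair.vol (S K 4) 3 (Fin.cons i j.succAbove)) =
        g * ∑ i, cb v i * Pair.vol (S K 4) 3 (Fin.cons i j.succAbove)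
      rw [Finset.mul_sum]
      exact Finset.sum_congr rfl fun i _ => by ring
    have h4 := h j.succAbove
    rw [h3] at h4
    have h5 : (-1 : S K 4) ^ (j : ℕ) * ((Pi.single k 1 : Fin 3 → S K 4) j *
        con (cb v) (Pair.vol (S K 4) 3) j.succAbove) * g =
        ((-1 : S K 4) ^ (j : ℕ) * (Pi.single k 1 : Fin 3 → S K 4) j) *
        (g * con (cb v) (Pair.vol (S K 4) 3) j.succAbove) := by ring
    rw [h5]
    exact Dvd.dvd.mul_left h4 _
  · rintro h w
    change c ∣ ∑ i, cb v i * (g * Pair.vol (S K 4) 3 (Fin.cons i w))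
    exact Finset.dvd_sum fun i _ => Dvd.dvd.mul_left (Dvd.dvd.mul_right h _) _

/-- `p = 3` -/
theorem fr3 (B : Finset (Fin 4 → K)) (hB : Tame.Norm B) (b0 : Fin 4 → K) (hb0 : b0 ∈ B) (i0 : Fin 4)
    (h0 : b0 i0 ≠ 0) (m : ℤ) :
    Module.finrank K (pg (LG (al b0 i0) B 3) m) =
      Module.finrank K (grS (K := K) (ℓ := 4) (m - (Br B b0).card)) := by
  have hN := norm_Br B hB b0
  have hQ0 : Qof (Br B b0) ≠ 0 := Pair.Q_ne_zero hN
  have hQg : Qof (Br B b0) ∈ grS (K := K) (ℓ := 4) ((Br B b0).card : ℤ) := by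
    have h1 := grS_prod51 (K := K) (ℓ := 4) (Br B b0) (fun b => lin b) (fun _ => 1)
      (fun b _ => lin_grS51 b)
    rw [Finset.sum_const, nsmul_eq_mul, mul_one] at h1
    exact h1
  let f : S K 4 →ₗ[K] ((Fin 3 → Fin 3) → S K 4) :=
    { toFun := fun g w => (Qof (Br B b0) * g) * Pair.vol (S K 4) 3 w
      map_add' := fun g g' => by
        funext w
        simp only [Pi.add_apply]
        ring
      map_smul' := fun c g => by
        funext w
        simp only [Pi.smul_apply, smul_eq_C_mul, RingHom.id_apply]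
        ring }
  have hf : ∀ g w, f g w = (Qof (Br B b0) * g) * Pair.vol (S K 4) 3 w := fun _ _ => rfl
  have hfid : ∀ g, f g id = Qof (Br B b0) * g := by
    intro g
    rw [hf, Pair.vol_id, mul_one]
  have hfA : ∀ g, IsAlt (f g) := by
    intro g
    have h1 := Pair.isAlt_vol (A := S K 4) 3
    constructor
    · intro w hw
      rw [hf, h1.nz w hw, mul_zero]
    · intro w i j hij
      rw [hf, hf, h1.sw w i j hij, mul_neg]
  have hne : ∀ b ∈ Br B b0, al b0 i0 b ≠ 0 := fun b hb =>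
    al_ne h0 (hB.ind b0 hb0 _ ((mem_Br B b0).1 hb).2 (Ne.symm ((mem_Br B b0).1 hb).1))
  symm
  refine fr_eq f _ _ ?_ ?_ ?_
  · intro g hg
    refine ⟨(LG_Br h0).2 ⟨hfA g, fun b hb w j => ?_⟩, fun w => ?_⟩
    · refine upd_dvd (f g) (hfA g) (cb (al b0 i0 b)) (lin b) (fun z => ?_) w j
      refine (top_iff (lin b) _ (hne b hb) (Qof (Br B b0) * g)).2 ?_ z
      exact Dvd.dvd.mul_right (Finset.dvd_prod_of_mem _ hb) _
    · rw [hf]
      obtain ⟨c, hc⟩ := vol_C (K := K) w
      rw [hc, mul_comm]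
      refine C_mul_grS51 _ ?_
      have := grS_mul51 hQg hg
      rwa [add_sub_cancel] at this
  · intro g _ h
    have := congrFun h id
    rw [hfid] at this
    exact (mul_eq_zero.1 this).resolve_left hQ0
  · rintro a ⟨ha, hm⟩
    have hA := ((LG_Br h0).1 ha).1
    have hav : a = fun w => a id * Pair.vol (S K 4) 3 w := funext (top_arr a hA)
    have hd : Qof (Br B b0) ∣ a id := by
      refine Pair.Q_dvd_of_forall hN fun b hb => ?_
      rw [← top_iff (lin b) _ (hne b hb)]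
      intro w
      rw [← hav]
      exact con_dvd (n := 2) a (cb (al b0 i0 b)) (lin b) (((LG_Br h0).1 ha).2 b hb) w
    obtain ⟨g, hg⟩ := hd
    refine ⟨g, ?_, ?_⟩
    · refine grS_div51 hQ0 hQg ?_
      rw [← hg]
      exact hm _
    · funext w
      rw [hf, ← hg]
      exact (top_arr a hA w).symm

/-- `p = 4` -/
theorem fr4 (B : Finset (Fin 4 → K)) (b0 : Fin 4 → K) (i0 : Fin 4) (m : ℤ) :
    Module.finrank K (pg (LG (al b0 i0) B 4) m) = 0 := by
  have : pg (LG (al b0 i0) B 4) m = ⊥ := by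
    rw [eq_bot_iff]
    rintro a ⟨ha, _⟩
    rw [Submodule.mem_bot]
    funext w
    refine ha.1.nz w fun hi => ?_
    have := Fintype.card_le_of_injective w hi
    simp at this
  rw [this, finrank_bot]

/-! ### Power series -/

theorem mk_shift (h : ℤ → ℤ) (hn : ∀ m < 0, h m = 0) (n : ℕ) :
    PowerSeries.mk (fun k : ℕ => h (k - n)) =
      (PowerSeries.X : PowerSeries ℤ) ^ n * PowerSeries.mk (fun k : ℕ => h k) := by
  ext k
  rw [PowerSeries.coeff_X_pow_mul', PowerSeries.coeff_mk]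
  by_cases hk : n ≤ k
  · rw [if_pos hk, PowerSeries.coeff_mk, Nat.cast_sub hk]
  · rw [if_neg hk]
    exact hn _ (by omega)

theorem gr_neg (m : ℤ) (hm : m < 0) : (Module.finrank K (grS (K := K) (ℓ := 4) m) : ℤ) = 0 := by
  rw [Grad.grS_of_neg hm, finrank_bot]
  rfl

theorem psi (B : Finset (Fin 4 → K)) (hB : Tame.Norm B) (b0 : Fin 4 → K) (hb0 : b0 ∈ B) (i0 : Fin 4)
    (h0 : b0 i0 ≠ 0) :
    PS51 B = (1 - PowerSeries.X ^ 2) * (HS51 K 4 -
        PowerSeries.X * PowerSeries.mk (fun k : ℕ => hh (L1 (dat B hB b0 hb0 i0 h0)) k) +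
        PowerSeries.X ^ 2 * PowerSeries.mk (fun k : ℕ => hh (L2 (dat B hB b0 hb0 i0 h0)) k) -
        PowerSeries.X ^ ((Br B b0).card + 3) * HS51 K 4) := by
  have f1 := fr1 B hB b0 hb0 i0 h0
  have f2 := fr2 B hB b0 hb0 i0 h0
  have hn1 : ∀ m < 0, hh (L1 (dat B hB b0 hb0 i0 h0)) m = 0 := fun m hm => hh_neg _ m hm
  have hn2 : ∀ m < 0, hh (L2 (dat B hB b0 hb0 i0 h0)) m = 0 := fun m hm => hh_neg _ m hm
  have f3 := fr3 B hB b0 hb0 i0 h0
  generalize hh (L1 (dat B hB b0 hb0 i0 h0)) = h1 at f1 hn1 ⊢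
  generalize hh (L2 (dat B hB b0 hb0 i0 h0)) = h2 at f2 hn2 ⊢
  generalize (Br B b0).card = ν at f3 ⊢
  set H : ℤ → ℤ := fun m => (Module.finrank K (grS (K := K) (ℓ := 4) m) : ℤ) with hH
  have hHn : ∀ m < 0, H m = 0 := fun m hm => gr_neg m hm
  have hHS : HS51 K 4 = PowerSeries.mk (fun k : ℕ => H k) := rfl
  have e0 : DS51 B 0 = PowerSeries.mk (fun k : ℕ => H k) := by
    unfold DS51
    congr 1
    funext k
    rw [dm_eq]
    have := fr0 b0 B (k : ℤ)
    change ((Module.finrank K (pg (LogA (S K 4) B 0) (k : ℤ)) : ℕ) : ℤ) = _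
    change Module.finrank K (pg (LogA (S K 4) B 0) (k : ℤ)) = _ at this
    rw [this]
  have e1 : DS51 B 1 = PowerSeries.mk (fun k : ℕ => h1 k) +
      PowerSeries.X ^ 1 * PowerSeries.mk (fun k : ℕ => H k) := by
    rw [← mk_shift H hHn 1]
    ext k
    rw [map_add, PowerSeries.coeff_mk, PowerSeries.coeff_mk, DS51, PowerSeries.coeff_mk,
      split b0 B hB hb0 0, fr_ZZ h0, fr0]
    push_cast
    rw [f1]
  have e2 : DS51 B 2 = PowerSeries.mk (fun k : ℕ => h2 k) +
      PowerSeries.X ^ 1 * PowerSeries.mk (fun k : ℕ => h1 k) := by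
    rw [← mk_shift h1 hn1 1]
    ext k
    rw [map_add, PowerSeries.coeff_mk, PowerSeries.coeff_mk, DS51, PowerSeries.coeff_mk,
      split b0 B hB hb0 1, fr_ZZ h0, fr_ZZ h0]
    push_cast
    rw [f1, f2]
  have e3 : DS51 B 3 = PowerSeries.X ^ ν * PowerSeries.mk (fun k : ℕ => H k) +
      PowerSeries.X ^ 1 * PowerSeries.mk (fun k : ℕ => h2 k) := by
    rw [← mk_shift H hHn ν, ← mk_shift h2 hn2 1]
    ext k
    rw [map_add, PowerSeries.coeff_mk, PowerSeries.coeff_mk, DS51, PowerSeries.coeff_mk,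
      split b0 B hB hb0 2, fr_ZZ h0, fr_ZZ h0, f3]
    push_cast
    rw [f2]
  have e4 : DS51 B 4 = PowerSeries.X ^ (ν + 1) * PowerSeries.mk (fun k : ℕ => H k) := by
    rw [← mk_shift H hHn (ν + 1)]
    ext k
    rw [PowerSeries.coeff_mk, DS51, PowerSeries.coeff_mk,
      split b0 B hB hb0 3, fr_ZZ h0, fr_ZZ h0, f3, fr4, zero_add]
    have : ((k : ℤ) - 1 - (ν : ℤ)) = (k : ℤ) - ((ν + 1 : ℕ) : ℤ) := by
      push_cast
      ring
    rw [this]
  unfold PS51
  rw [Finset.sum_range_succ, Finset.sum_range_succ, Finset.sum_range_succ, Finset.sum_range_succ,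
    Finset.sum_range_succ, Finset.sum_range_zero, e0, e1, e2, e3, e4, hHS]
  ring

end Pool.Agent.Lib.MP_fe1391_co.Quad51.Tra22
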